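import Pool.Agent.FewFacets.Realize

/-!
From simple polytopes to inequalities.
-/

set_option linter.unusedSectionVars false

namespace FewFacets

open Finset

/-- a minimal subfamily of the inequalities is a good system -/
theorem exists_good {E : Type*} [NormedAddCommGroup E] [NormedSpace ℝ E]
    [FiniteDimensional ℝ E] {ι : Type*} [Fintype ι] {d : ℕ} (hd : 2 ≤ d)
    (hE : Module.finrank ℝ E = d) (f : ι → E →ₗ[ℝ] ℝ) (b : ι → ℝ)
    (hbd : Bornology.IsBounded (Poly f b)) (hint : (interior (Poly f b)).Nonempty)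
    (hs : ∀ v : (Poly f b).extremePoints ℝ,
      ((polytopeGraph (Poly f b)).neighborSet v).ncard = d) :
    ∃ (n : ℕ) (f1 : Fin n → E →ₗ[ℝ] ℝ) (b1 : Fin n → ℝ),
      Poly f1 b1 = Poly f b ∧ Good f1 b1 d := by
  classical
  obtain ⟨J, hJ, hirr⟩ := exists_minimal f b
  obtain ⟨z, hz⟩ := hint
  let e : Fin J.card ≃ J := J.equivFin.symm
  set f1 : Fin J.card → E →ₗ[ℝ] ℝ := fun i => f (e i).1 with hf1
  set b1 : Fin J.card → ℝ := fun i => b (e i).1 with hb1
  have hP1 : Poly f1 b1 = Poly f b := by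
    ext x
    constructor
    · intro h
      refine hJ x fun i hi => ?_
      have := h (e.symm ⟨i, hi⟩)
      simpa [hf1, hb1] using this
    · intro h i; exact h (e i).1
  have hz1 : ∀ i, f1 i z < b1 i := by
    intro i
    obtain ⟨x, -, hxi⟩ := hirr (e i).1 (e i).2
    exact strict_of_interior hz hxi
  have I : Irr f1 b1 := by
    refine ⟨by rw [hP1]; exact hbd, ?_, z, hz1⟩
    intro i
    obtain ⟨x, hx, hxi⟩ := hirr (e i).1 (e i).2
    refine ⟨x, ?_, hxi⟩
    intro j hji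
    exact hx (e j).1 (e j).2 fun h => hji (e.injective (Subtype.ext h))
  refine ⟨J.card, f1, b1, hP1, hE, rec_of_bounded ⟨z, fun i => (hz1 i).le⟩ I.bd, ⟨z, hz1⟩, ?_⟩
  have key : ∀ (Q : Set E), Poly f1 b1 = Q →
      (∀ v : Q.extremePoints ℝ, ((polytopeGraph Q).neighborSet v).ncard = d) →
      ∀ x ∈ Poly f1 b1, (act f1 b1 x).card ≤ d := by
    rintro Q rfl h3 x hx
    exact I.act_card hd hE h3 hx
  exact key _ hP1 hs

/-- A simple polytope has a description by a good system. -/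
theorem SimplePolytope.good {d : ℕ} (hd : 2 ≤ d) {P : Set (EuclideanSpace ℝ (Fin d))}
    (hP : SimplePolytope d P) :
    ∃ (n : ℕ) (f : Fin n → EuclideanSpace ℝ (Fin d) →ₗ[ℝ] ℝ) (b : Fin n → ℝ),
      Poly f b = P ∧ Good f b d := by
  obtain ⟨⟨n, a, b, hPab⟩, hbd, hint, hs⟩ := hP
  have h : P = Poly (fun i => innerₛₗ ℝ (a i)) b := by
    rw [hPab]; rfl
  have key : ∀ (Q : Set (EuclideanSpace ℝ (Fin d))), Q = Poly (fun i => innerₛₗ ℝ (a i)) b →
      Bornology.IsBounded Q → (interior Q).Nonempty →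
      (∀ v : Q.extremePoints ℝ, ((polytopeGraph Q).neighborSet v).ncard = d) →
      ∃ (n : ℕ) (f : Fin n → EuclideanSpace ℝ (Fin d) →ₗ[ℝ] ℝ) (b : Fin n → ℝ),
        Poly f b = Q ∧ Good f b d := by
    rintro Q rfl h1 h2 h3
    exact exists_good hd finrank_euclideanSpace_fin _ _ h1 h2 h3
  exact key P h hbd hint hs

theorem SimplePolytope.isGood {d : ℕ} (hd : 2 ≤ d) {P : Set (EuclideanSpace ℝ (Fin d))}
    (hP : SimplePolytope d P) : IsGood d (polytopeGraph P) := by
  obtain ⟨n, f, b, rfl, hg⟩ := hP.good hd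
  exact ⟨Fin n, inferInstance, inferInstance, f, b, hg, hg.iso (by omega)⟩

end FewFacets
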