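import Pool.Agent.FewFacets.Good

/-!
The sum of two simple polytopes at vertices: near the vertex `A` of the first polytope facets of
the second polytope are added, scaled by a large number `M`.
-/

set_option linter.unusedSectionVars false

namespace FewFacets

open Finset

variable {E : Type*} [NormedAddCommGroup E] [NormedSpace ℝ E] [FiniteDimensional ℝ E]

section coords

variable {κ : Type*} [Fintype κ] [DecidableEq κ] {f : κ → E →ₗ[ℝ] ℝ} {b : κ → ℝ} {d : ℕ}
  {A : Finset κ}

/-- the inequalities active at a vertex vanish together only at zero -/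
lemma Good.inj (h : Good f b d) (hA : A ∈ vert f b d) {w : E} (hw : ∀ a ∈ A, f a w = 0) :
    w = 0 := by
  obtain ⟨hAc, q, hq, hqA⟩ := mem_vert.1 hA
  by_contra hw0
  -- move until a further inequality becomes active
  obtain ⟨w', hw'0, hw'A, i1, hi1⟩ : ∃ w' : E, w' ≠ 0 ∧ (∀ a ∈ A, f a w' = 0) ∧
      ∃ i, 0 < f i w' := by
    by_cases hp : ∃ i, 0 < f i w
    · exact ⟨w, hw0, hw, hp⟩
    · push Not at hp
      exact absurd (h.rec0 w hp) hw0
  have hQ : (univ.filter (fun i => 0 < f i w')).Nonempty :=
    ⟨i1, mem_filter.2 ⟨mem_univ _, hi1⟩⟩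
  obtain ⟨i0, hi0, hmin⟩ := exists_min_image _ (fun i => (b i - f i q) / f i w') hQ
  rw [mem_filter] at hi0
  set t := (b i0 - f i0 q) / f i0 w' with ht
  have ht0 : 0 ≤ t := div_nonneg (by linarith [hq i0]) hi0.2.le
  have hi0A : i0 ∉ A := fun h' => by
    rw [hw'A i0 h'] at hi0
    exact lt_irrefl _ hi0.2
  have hmem : q + t • w' ∈ Poly f b := by
    intro i
    rw [map_add, map_smul, smul_eq_mul]
    by_cases hi : 0 < f i w'
    · have := hmin i (mem_filter.2 ⟨mem_univ i, hi⟩)
      rw [le_div_iff₀ hi] at this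
      linarith
    · have := mul_nonpos_of_nonneg_of_nonpos ht0 (not_lt.1 hi)
      linarith [hq i]
  have hsub : insert i0 A ⊆ act f b (q + t • w') := by
    intro i hi
    rw [mem_act, map_add, map_smul, smul_eq_mul]
    rcases mem_insert.1 hi with rfl | hi
    · rw [ht, div_mul_cancel₀ _ hi0.2.ne']; ring
    · rw [hw'A i hi, mul_zero, add_zero, ← mem_act, hqA]; exact hi
  have h1 := card_le_card hsub
  rw [card_insert_of_notMem hi0A, hAc] at h1
  have := h.act_le _ hmem
  omega

/-- coordinates at a vertex -/
lemma Good.surj (h : Good f b d) (hA : A ∈ vert f b d) (y : κ → ℝ) :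
    ∃ w : E, ∀ a ∈ A, f a w = y a := by
  let L : E →ₗ[ℝ] ({x // x ∈ A} → ℝ) := LinearMap.pi (fun a => f a.1)
  have hinj : Function.Injective L := by
    rw [injective_iff_map_eq_zero]
    intro w hw
    exact h.inj hA fun a ha => congrFun hw ⟨a, ha⟩
  have hfin : Module.finrank ℝ E = Module.finrank ℝ ({x // x ∈ A} → ℝ) := by
    rw [Module.finrank_fintype_fun_eq_card, Fintype.card_coe, (mem_vert.1 hA).1, h.dim]
  have hs := (LinearMap.injective_iff_surjective_of_finrank_eq_finrank hfin).1 hinj
  obtain ⟨w, hw⟩ := hs (fun a => y a.1)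
  exact ⟨w, fun a ha => congrFun hw ⟨a, ha⟩⟩

/-- every functional is a combination of the functionals of a vertex -/
lemma Good.dual (h : Good f b d) (hA : A ∈ vert f b d) (g : E →ₗ[ℝ] ℝ) :
    ∃ μ : κ → ℝ, ∀ w, g w = ∑ a ∈ A, μ a * f a w := by
  have hex : ∀ a : κ, ∃ e : E, ∀ c ∈ A, f c e = if c = a then 1 else 0 := fun a =>
    h.surj hA (fun c => if c = a then 1 else 0)
  choose e he using hex
  refine ⟨fun a => g (e a), fun w => ?_⟩
  have h0 : w - ∑ a ∈ A, f a w • e a = 0 := by
    refine h.inj hA fun c hc => ?_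
    rw [map_sub, map_sum]
    have : ∑ a ∈ A, f c (f a w • e a) = f c w := by
      rw [sum_eq_single_of_mem c hc]
      · rw [map_smul, he c c hc, if_pos rfl, smul_eq_mul, mul_one]
      · intro a _ hac
        rw [map_smul, he a c hc, if_neg (Ne.symm hac), smul_zero]
    rw [this, sub_self]
  have h1 : g w = g (∑ a ∈ A, f a w • e a) := by
    rw [← sub_eq_zero, ← map_sub, h0, map_zero]
  rw [h1, map_sum]
  refine sum_congr rfl fun a _ => ?_
  rw [map_smul, smul_eq_mul, mul_comm]

/-- the slack of an inequality in terms of the slacks at a vertex, with a bound -/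
lemma Good.slack (h : Good f b d) (hA : A ∈ vert f b d) :
    ∃ (u : κ → ℝ) (m : κ → κ → ℝ) (C : ℝ), 0 ≤ C ∧ (∀ j ∉ A, 0 < u j) ∧
      (∀ j q, b j - f j q = u j + ∑ a ∈ A, m j a * (b a - f a q)) ∧
      (∀ j ∉ A, ∀ a ∈ A, |m j a| ≤ C * u j) := by
  obtain ⟨hAc, q0, hq0, hqA⟩ := mem_vert.1 hA
  choose m hm using fun j => h.dual hA (f j)
  have hu : ∀ j ∉ A, 0 < b j - f j q0 := by
    intro j hj
    have h1 : j ∉ act f b q0 := by rw [hqA]; exact hj
    rw [mem_act] at h1
    have := lt_of_le_of_ne (hq0 j) h1
    linarith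
  have hpos : ∀ j a, 0 ≤ |m j a| / |b j - f j q0| := fun j a => by positivity
  refine ⟨fun j => b j - f j q0, m, ∑ j, ∑ a, |m j a| / |b j - f j q0|,
    sum_nonneg fun j _ => sum_nonneg fun a _ => hpos j a, hu, ?_, ?_⟩
  · intro j q
    have h1 : ∑ a ∈ A, m j a * (b a - f a q) = f j q0 - f j q := by
      rw [hm j q0, hm j q, ← sum_sub_distrib]
      refine sum_congr rfl fun a ha => ?_
      have : f a q0 = b a := by rw [← mem_act, hqA]; exact ha
      rw [this]; ring
    rw [h1]; ring
  · intro j hj a _
    have h1 := hu j hj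
    have h2 : |m j a| / |b j - f j q0| ≤ ∑ j, ∑ a, |m j a| / |b j - f j q0| :=
      (single_le_sum (f := fun a => |m j a| / |b j - f j q0|) (fun a _ => hpos j a)
        (mem_univ a)).trans
        (single_le_sum (f := fun j => ∑ a, |m j a| / |b j - f j q0|)
          (fun j _ => sum_nonneg fun a _ => hpos j a) (mem_univ j))
    rw [abs_of_pos h1, div_le_iff₀ h1] at h2
    have h3 : |b j - f j q0| = b j - f j q0 := abs_of_pos h1
    simpa [h3] using h2

end coords

lemma relab_inj {κ κ' : Type*} [DecidableEq κ'] {B : Finset κ'} {τ : κ' → κ}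
    (hτ : Set.InjOn τ (B : Set κ')) : Function.Injective (relab B τ) := by
  intro c c' h
  unfold relab at h
  split_ifs at h with h1 h2 h2
  · exact hτ h1 h2 (Sum.inl_injective h)
  · exact Sum.inr_injective h

/-- a sum of numbers at least `- C u` times nonnegative numbers -/
lemma sum_bound {κ : Type*} {A : Finset κ} {m x : κ → ℝ} {C u : ℝ}
    (hm : ∀ a ∈ A, |m a| ≤ C * u) (hx : ∀ a ∈ A, 0 ≤ x a) :
    -(C * u) * ∑ a ∈ A, x a ≤ ∑ a ∈ A, m a * x a := by
  rw [mul_sum]
  refine sum_le_sum fun a ha => ?_
  have h1 := neg_le_of_abs_le (hm a ha)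
  exact mul_le_mul_of_nonneg_right h1 (hx a ha)

/-- **the sum of two simple polytopes at vertices** -/
theorem blend {κ κ' : Type*} [Fintype κ] [DecidableEq κ] [Fintype κ'] [DecidableEq κ']
    {f : κ → E →ₗ[ℝ] ℝ} {b : κ → ℝ} {f' : κ' → E →ₗ[ℝ] ℝ} {b' : κ' → ℝ} {d : ℕ}
    (hd : 1 ≤ d) (h : Good f b d) (h' : Good f' b' d) {A : Finset κ}
    (hA : A ∈ vert f b d) {B : Finset κ'} (hB : B ∈ vert f' b' d) {τ : κ' → κ}
    (hτ : Set.InjOn τ (B : Set κ')) (hτA : B.image τ = A) :
    ∃ (F : κ ⊕ κ' → E →ₗ[ℝ] ℝ) (β : κ ⊕ κ' → ℝ), Good F β d ∧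
      vert F β d = ((vert f b d).erase A).image (fun V => V.image Sum.inl) ∪
        ((vert f' b' d).erase B).image (fun W => W.image (relab B τ)) := by
  classical
  obtain ⟨u, m, C, hC, hu, hsl, hm⟩ := h.slack hA
  obtain ⟨u', m', C', hC', hu', hsl', hm'⟩ := h'.slack hB
  have hAc := (mem_vert.1 hA).1
  have hBc := (mem_vert.1 hB).1
  obtain ⟨z, hz⟩ := h.int
  -- transport of sums
  have hsum : ∀ φ : κ → ℝ, ∑ a ∈ A, φ a = ∑ e ∈ B, φ (τ e) := by
    intro φ
    rw [← hτA, sum_image (fun x hx y hy e => hτ hx hy e)]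
  have hτm : ∀ e ∈ B, τ e ∈ A := fun e he => hτA ▸ mem_image_of_mem τ he
  have hBne : B.Nonempty := by rw [← card_pos]; omega
  have hAne : A.Nonempty := by rw [← card_pos]; omega
  -- there are inequalities outside `B`
  obtain ⟨c1, hc1⟩ : ∃ c, c ∉ B := by
    by_contra hcon
    push Not at hcon
    obtain ⟨w, hw⟩ := h'.surj hB (fun _ => -1)
    have h0 := h'.rec0 w fun i => by rw [hw i (hcon i)]; norm_num
    obtain ⟨e, he⟩ := hBne
    have := hw e he
    rw [h0, map_zero] at this
    norm_num at this
  -- the functional parts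
  have hlin : ∀ c w, f' c w = ∑ e ∈ B, m' c e * f' e w := by
    intro c w
    have h1 := hsl' c 0
    have h2 := hsl' c w
    rw [map_zero, sub_zero] at h1
    have h3 : ∑ e ∈ B, m' c e * (b' e - f' e w) =
        ∑ e ∈ B, m' c e * (b' e - f' e 0) - ∑ e ∈ B, m' c e * f' e w := by
      rw [← sum_sub_distrib]
      refine sum_congr rfl fun e _ => ?_
      rw [map_zero]; ring
    linarith
  set σ : E → ℝ := fun q => ∑ a ∈ A, (b a - f a q) with hσ
  have hσz : 0 < σ z := sum_pos (fun a _ => by linarith [hz a]) hAne
  set M : ℝ := C + C' + 1 + 2 / σ z with hM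
  have hMge : C + C' + 1 ≤ M := by
    have : 0 ≤ 2 / σ z := by positivity
    linarith
  have hMz : 1 < (M - C') * σ z := by
    have h1 : (M - C') * σ z = (C + 1) * σ z + 2 := by
      rw [hM]; field_simp; ring
    have h2 : 0 ≤ (C + 1) * σ z := by positivity
    linarith
  set U : κ' → E → ℝ := fun c w =>
    ∑ e ∈ B, (M * u' c + m' c e) * (b (τ e) - f (τ e) w) - u' c with hU
  have hUs : ∀ c w, U c w = u' c * (M * σ w - 1) +
      ∑ e ∈ B, m' c e * (b (τ e) - f (τ e) w) := by
    intro c w
    have h1 : ∑ e ∈ B, (M * u' c + m' c e) * (b (τ e) - f (τ e) w) =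
        M * u' c * ∑ e ∈ B, (b (τ e) - f (τ e) w) +
          ∑ e ∈ B, m' c e * (b (τ e) - f (τ e) w) := by
      rw [mul_sum, ← sum_add_distrib]
      refine sum_congr rfl fun e _ => ?_
      ring
    have h2 : σ w = ∑ e ∈ B, (b (τ e) - f (τ e) w) := hsum _
    show ∑ e ∈ B, (M * u' c + m' c e) * (b (τ e) - f (τ e) w) - u' c = _
    rw [h1, h2]; ring
  -- estimates
  have hσ0 : ∀ w, (∀ a ∈ A, 0 ≤ b a - f a w) → 0 ≤ σ w := fun w hw => sum_nonneg hw
  have e1 : ∀ w, (∀ a ∈ A, 0 ≤ b a - f a w) → ∀ j ∉ A,
      u j * (1 - C * σ w) ≤ b j - f j w := by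
    intro w hw j hj
    have h1 := sum_bound (hm j hj) hw
    rw [hsl j w]
    have h2 : u j * (1 - C * σ w) = u j + -(C * u j) * σ w := by ring
    rw [h2]
    linarith
  have e2 : ∀ w, (∀ a ∈ A, 0 ≤ b a - f a w) → ∀ c ∉ B,
      u' c * ((M - C') * σ w - 1) ≤ U c w := by
    intro w hw c hc
    have h1 := sum_bound (x := fun e => b (τ e) - f (τ e) w) (hm' c hc)
      (fun e he => hw _ (hτm e he))
    rw [hUs c w]
    have h2 : σ w = ∑ e ∈ B, (b (τ e) - f (τ e) w) := hsum _
    rw [← h2] at h1
    have h3 : u' c * ((M - C') * σ w - 1) =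
      u' c * (M * σ w - 1) + -(C' * u' c) * σ w := by ring
    rw [h3]
    linarith
  have F1 : ∀ w, (∀ a ∈ A, 0 ≤ b a - f a w) → ∀ j ∉ A, b j - f j w = 0 → 1 ≤ C * σ w := by
    intro w hw j hj h0
    have h1 := e1 w hw j hj
    rw [h0] at h1
    by_contra hcon
    rw [not_le] at hcon
    have := mul_pos (hu j hj) (sub_pos.2 hcon)
    linarith
  have F2 : ∀ w, (∀ a ∈ A, 0 ≤ b a - f a w) → ∀ c ∉ B, U c w = 0 → (M - C') * σ w ≤ 1 := by
    intro w hw c hc h0
    have h1 := e2 w hw c hc
    rw [h0] at h1
    by_contra hcon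
    rw [not_le] at hcon
    have := mul_pos (hu' c hc) (sub_pos.2 hcon)
    linarith
  have F3 : ∀ w, (∀ a ∈ A, 0 ≤ b a - f a w) → (M - C') * σ w ≤ 1 → ∀ j ∉ A,
      0 < b j - f j w := by
    intro w hw h0 j hj
    refine lt_of_lt_of_le ?_ (e1 w hw j hj)
    refine mul_pos (hu j hj) ?_
    have h1 := hσ0 w hw
    have h2 : (C + 1) * σ w ≤ (M - C') * σ w :=
      mul_le_mul_of_nonneg_right (by linarith) h1
    rcases lt_or_eq_of_le h1 with h3 | h3
    · linarith
    · rw [← h3]; linarith
  have F4 : ∀ w, (∀ a ∈ A, 0 ≤ b a - f a w) → 1 ≤ C * σ w → ∀ c ∉ B, 0 < U c w := by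
    intro w hw h0 c hc
    refine lt_of_lt_of_le ?_ (e2 w hw c hc)
    refine mul_pos (hu' c hc) ?_
    have h1 := hσ0 w hw
    have h2 : (C + 1) * σ w ≤ (M - C') * σ w :=
      mul_le_mul_of_nonneg_right (by linarith) h1
    have h3 : 0 < σ w := by
      rcases lt_or_eq_of_le h1 with h3 | h3
      · exact h3
      · rw [← h3] at h0; linarith
    linarith
  -- the new system
  set F : κ ⊕ κ' → E →ₗ[ℝ] ℝ := Sum.elim f
    (fun c => if c ∈ B then 0 else ∑ e ∈ B, (M * u' c + m' c e) • f (τ e)) with hF
  set β : κ ⊕ κ' → ℝ := Sum.elim b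
    (fun c => if c ∈ B then 1 else ∑ e ∈ B, (M * u' c + m' c e) * b (τ e) - u' c) with hβ
  have hinl : ∀ i, F (Sum.inl i) = f i := fun i => rfl
  have hinl' : ∀ i, β (Sum.inl i) = b i := fun i => rfl
  have hinrB : ∀ c ∈ B, F (Sum.inr c) = 0 ∧ β (Sum.inr c) = 1 := by
    intro c hc
    simp [hF, hβ, hc]
  have hinr : ∀ c ∉ B, ∀ w, β (Sum.inr c) - F (Sum.inr c) w = U c w := by
    intro c hc w
    have h1 : F (Sum.inr c) w = ∑ e ∈ B, (M * u' c + m' c e) * f (τ e) w := by
      simp only [hF, Sum.elim_inr, if_neg hc, LinearMap.sum_apply, LinearMap.smul_apply,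
        smul_eq_mul]
    have h2 : β (Sum.inr c) = ∑ e ∈ B, (M * u' c + m' c e) * b (τ e) - u' c := by
      simp only [hβ, Sum.elim_inr, if_neg hc]
    rw [h1, h2]
    show _ = ∑ e ∈ B, (M * u' c + m' c e) * (b (τ e) - f (τ e) w) - u' c
    have h3 : ∑ e ∈ B, (M * u' c + m' c e) * (b (τ e) - f (τ e) w) =
        ∑ e ∈ B, (M * u' c + m' c e) * b (τ e) - ∑ e ∈ B, (M * u' c + m' c e) * f (τ e) w := by
      rw [← sum_sub_distrib]
      refine sum_congr rfl fun e _ => ?_
      ring
    rw [h3]; ring
  have hPoly : ∀ w, w ∈ Poly F β ↔ w ∈ Poly f b ∧ ∀ c ∉ B, 0 ≤ U c w := by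
    intro w
    constructor
    · intro hw
      refine ⟨fun i => hw (Sum.inl i), fun c hc => ?_⟩
      rw [← hinr c hc w]
      linarith [hw (Sum.inr c)]
    · rintro ⟨h1, h2⟩ (i | c)
      · exact h1 i
      · by_cases hc : c ∈ B
        · rw [(hinrB c hc).1, (hinrB c hc).2]; simp
        · have := h2 c hc
          rw [← hinr c hc w] at this
          linarith
  have hact_inl : ∀ w i, Sum.inl i ∈ act F β w ↔ i ∈ act f b w := by
    intro w i
    rw [mem_act, mem_act, hinl, hinl']
  have hact_inr : ∀ w c, Sum.inr c ∈ act F β w ↔ c ∉ B ∧ U c w = 0 := by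
    intro w c
    rw [mem_act]
    by_cases hc : c ∈ B
    · rw [(hinrB c hc).1, (hinrB c hc).2]; simp [hc]
    · have := hinr c hc w
      constructor
      · intro h1; exact ⟨hc, by rw [← this, h1, sub_self]⟩
      · rintro ⟨_, h1⟩; linarith
  -- points on the new facets come from the second polytope
  have up : ∀ w ∈ Poly F β, (∃ c, c ∉ B ∧ U c w = 0) → ∃ q' ∈ Poly f' b',
      act F β w = (act f' b' q').image (relab B τ) ∧ act f' b' q' ≠ B := by
    rintro w hw ⟨c0, hc0, hc00⟩
    obtain ⟨hwP, hwU⟩ := (hPoly w).1 hw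
    have hx : ∀ a ∈ A, 0 ≤ b a - f a w := fun a _ => by linarith [hwP a]
    have hs0 := F2 w hx c0 hc0 hc00
    have hslack := F3 w hx hs0
    set s := M * σ w - 1 with hs
    have hspos : 0 < s := by
      by_contra hcon
      rw [not_lt] at hcon
      obtain ⟨w', hw'⟩ := h'.surj hB (fun e => -(b (τ e) - f (τ e) w))
      have h0 : w' = 0 := h'.rec0 w' fun c => by
        by_cases hc : c ∈ B
        · rw [hw' c hc]
          linarith [hx (τ c) (hτm c hc)]
        · rw [hlin c w']
          have h1 : ∑ e ∈ B, m' c e * f' e w' =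
              -∑ e ∈ B, m' c e * (b (τ e) - f (τ e) w) := by
            rw [← sum_neg_distrib]
            refine sum_congr rfl fun e he => ?_
            rw [hw' e he]; ring
          have h2 := hUs c w
          have h3 := hwU c hc
          have h4 := mul_nonpos_of_nonneg_of_nonpos (hu' c hc).le hcon
          rw [h1]
          linarith
      have hzero : ∀ e ∈ B, b (τ e) - f (τ e) w = 0 := by
        intro e he
        have := hw' e he
        rw [h0, map_zero] at this
        linarith
      have h1 : U c0 w = -u' c0 := by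
        show ∑ e ∈ B, (M * u' c0 + m' c0 e) * (b (τ e) - f (τ e) w) - u' c0 = _
        rw [sum_eq_zero fun e he => by rw [hzero e he, mul_zero]]
        ring
      have := hu' c0 hc0
      linarith
    obtain ⟨q', hq'⟩ := h'.surj hB (fun e => b' e - (b (τ e) - f (τ e) w) / s)
    have hse : ∀ e ∈ B, b' e - f' e q' = (b (τ e) - f (τ e) w) / s := by
      intro e he
      rw [hq' e he]; ring
    have hsc : ∀ c, b' c - f' c q' = U c w / s := by
      intro c
      rw [hsl' c q', hUs c w, ← hs]
      have h1 : ∑ e ∈ B, m' c e * (b' e - f' e q') =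
          (∑ e ∈ B, m' c e * (b (τ e) - f (τ e) w)) / s := by
        rw [sum_div]
        refine sum_congr rfl fun e he => ?_
        rw [hse e he]; ring
      rw [h1]
      field_simp
    refine ⟨q', fun c => ?_, ?_, ?_⟩
    · by_cases hc : c ∈ B
      · have := hse c hc
        have h1 := div_nonneg (hx (τ c) (hτm c hc)) hspos.le
        linarith
      · have := hsc c
        have h1 := div_nonneg (hwU c hc) hspos.le
        linarith
    · ext j
      rw [mem_image]
      rcases j with i | c
      · rw [hact_inl, mem_act]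
        constructor
        · intro hi
          have hiA : i ∈ A := by
            by_contra hiA
            have := hslack i hiA
            linarith
          rw [← hτA, mem_image] at hiA
          obtain ⟨e, he, rfl⟩ := hiA
          refine ⟨e, ?_, by simp [relab, he]⟩
          rw [mem_act]
          have := hse e he
          rw [hi, sub_self, zero_div] at this
          linarith
        · rintro ⟨e, he, hei⟩
          unfold relab at hei
          split_ifs at hei with heB
          have hei' := Sum.inl_injective hei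
          subst hei'
          rw [mem_act] at he
          have := hse e heB
          rw [he, sub_self] at this
          rcases div_eq_zero_iff.1 this.symm with h1 | h1
          · linarith
          · exact absurd h1 hspos.ne'
      · rw [hact_inr]
        constructor
        · rintro ⟨hc, hc0'⟩
          refine ⟨c, ?_, by simp [relab, hc]⟩
          rw [mem_act]
          have := hsc c
          rw [hc0', zero_div] at this
          linarith
        · rintro ⟨e, he, hec⟩
          unfold relab at hec
          split_ifs at hec with heB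
          have hec' := Sum.inr_injective hec
          subst hec'
          refine ⟨heB, ?_⟩
          rw [mem_act] at he
          have := hsc e
          rw [he, sub_self] at this
          rcases div_eq_zero_iff.1 this.symm with h1 | h1
          · exact h1
          · exact absurd h1 hspos.ne'
    · intro hB'
      have : c0 ∈ act f' b' q' := by
        rw [mem_act]
        have := hsc c0
        rw [hc00, zero_div] at this
        linarith
      rw [hB'] at this
      exact hc0 this
  -- points not on the new facets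
  have low : ∀ w ∈ Poly F β, (¬ ∃ c, c ∉ B ∧ U c w = 0) →
      act F β w = (act f b w).image Sum.inl ∧ act f b w ≠ A := by
    intro w hw hno
    obtain ⟨hwP, hwU⟩ := (hPoly w).1 hw
    constructor
    · ext j
      rw [mem_image]
      rcases j with i | c
      · rw [hact_inl]
        constructor
        · intro hi; exact ⟨i, hi, rfl⟩
        · rintro ⟨i', hi', h1⟩
          rwa [Sum.inl_injective h1] at hi'
      · rw [hact_inr]
        constructor
        · intro h1; exact absurd ⟨c, h1⟩ hno
        · rintro ⟨_, _, h1⟩; exact absurd h1 (by simp)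
    · intro hAeq
      have h1 : U c1 w = -u' c1 := by
        show ∑ e ∈ B, (M * u' c1 + m' c1 e) * (b (τ e) - f (τ e) w) - u' c1 = _
        rw [sum_eq_zero fun e he => by
          have : τ e ∈ act f b w := by rw [hAeq]; exact hτm e he
          rw [mem_act] at this
          rw [this, sub_self, mul_zero]]
        ring
      have := hu' c1 hc1
      have := hwU c1 hc1
      linarith
  refine ⟨F, β, ⟨h.dim, ?_, ?_, ?_⟩, ?_⟩
  · intro w hw
    exact h.rec0 w fun i => hw (Sum.inl i)
  · refine ⟨z, ?_⟩
    rintro (i | c)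
    · exact hz i
    · by_cases hc : c ∈ B
      · rw [(hinrB c hc).1, (hinrB c hc).2]; simp
      · have h1 := e2 z (fun a _ => by linarith [hz a]) c hc
        have h2 := mul_pos (hu' c hc) (sub_pos.2 hMz)
        have h3 := hinr c hc z
        linarith
  · intro w hw
    by_cases hc : ∃ c, c ∉ B ∧ U c w = 0
    · obtain ⟨q', hq', h1, -⟩ := up w hw hc
      rw [h1]
      exact card_image_le.trans (h'.act_le q' hq')
    · obtain ⟨h1, -⟩ := low w hw hc
      rw [h1]
      exact card_image_le.trans (h.act_le w ((hPoly w).1 hw).1)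
  · ext V
    rw [mem_vert, mem_union, mem_image, mem_image]
    constructor
    · rintro ⟨hVc, w, hw, hwV⟩
      by_cases hc : ∃ c, c ∉ B ∧ U c w = 0
      · right
        obtain ⟨q', hq', h1, h2⟩ := up w hw hc
        refine ⟨act f' b' q', mem_erase.2 ⟨h2, mem_vert.2 ⟨?_, q', hq', rfl⟩⟩, ?_⟩
        · rw [← card_image_of_injective _ (relab_inj hτ), ← h1, hwV, hVc]
        · rw [← hwV, h1]
      · left
        obtain ⟨h1, h2⟩ := low w hw hc
        refine ⟨act f b w, mem_erase.2 ⟨h2, mem_vert.2 ⟨?_, w, ((hPoly w).1 hw).1, rfl⟩⟩, ?_⟩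
        · have h3 : (image (Sum.inl : κ → κ ⊕ κ') (act f b w)).card = _ :=
            card_image_of_injective _ Sum.inl_injective
          rw [← h3, ← h1, hwV, hVc]
        · rw [← hwV, h1]
    · rintro (⟨V0, hV0, rfl⟩ | ⟨W, hW, rfl⟩)
      · obtain ⟨hV0A, hV0⟩ := mem_erase.1 hV0
        obtain ⟨hV0c, w, hwP, hwV⟩ := mem_vert.1 hV0
        have hx : ∀ a ∈ A, 0 ≤ b a - f a w := fun a _ => by linarith [hwP a]
        obtain ⟨j, hj, hjA⟩ : ∃ j ∈ V0, j ∉ A := by
          by_contra hcon
          push Not at hcon
          exact hV0A (eq_of_subset_of_card_le hcon (by rw [hAc, hV0c]))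
        have hj0 : b j - f j w = 0 := by
          rw [← hwV, mem_act] at hj
          rw [hj, sub_self]
        have hUpos := F4 w hx (F1 w hx j hjA hj0)
        have hw : w ∈ Poly F β := (hPoly w).2 ⟨hwP, fun c hc => (hUpos c hc).le⟩
        refine ⟨by rw [card_image_of_injective _ Sum.inl_injective, hV0c], w, hw, ?_⟩
        rw [(low w hw (by
          rintro ⟨c, hc, hc0⟩
          exact (hUpos c hc).ne' hc0)).1, hwV]
      · obtain ⟨hWB, hW⟩ := mem_erase.1 hW
        obtain ⟨hWc, q', hq', hqW⟩ := mem_vert.1 hW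
        have hx' : ∀ e ∈ B, 0 ≤ b' e - f' e q' := fun e _ => by linarith [hq' e]
        obtain ⟨c0, hc0, hc0B⟩ : ∃ c ∈ W, c ∉ B := by
          by_contra hcon
          push Not at hcon
          exact hWB (eq_of_subset_of_card_le hcon (by rw [hBc, hWc]))
        have hc00 : b' c0 - f' c0 q' = 0 := by
          rw [← hqW, mem_act] at hc0
          rw [hc0, sub_self]
        set σ' := ∑ e ∈ B, (b' e - f' e q') with hσ'
        have hσ'0 : 0 ≤ σ' := sum_nonneg hx'
        have hσ'1 : 1 ≤ C' * σ' := by
          have h1 := sum_bound (hm' c0 hc0B) hx'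
          have h2 := hsl' c0 q'
          rw [hc00] at h2
          by_contra hcon
          rw [not_le] at hcon
          have h3 := mul_pos (hu' c0 hc0B) (sub_pos.2 hcon)
          have h4 : u' c0 * (1 - C' * σ') = u' c0 + -(C' * u' c0) * σ' := by ring
          linarith
        have hσ'pos : 0 < σ' := by
          rcases lt_or_eq_of_le hσ'0 with h3 | h3
          · exact h3
          · rw [← h3] at hσ'1; linarith
        have hden : 0 < M * σ' - 1 := by
          have h1 : (C + C' + 1) * σ' ≤ M * σ' := mul_le_mul_of_nonneg_right hMge hσ'0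
          have h2 : 0 ≤ C * σ' := by positivity
          linarith
        set lam := 1 / (M * σ' - 1) with hlam
        have hlam0 : 0 < lam := by positivity
        have hlam1 : lam * (M * σ' - 1) = 1 := by rw [hlam]; field_simp
        -- the point of the first polytope
        have hinv : ∀ a : κ, ∃ e : κ', a ∈ A → e ∈ B ∧ τ e = a := by
          intro a
          by_cases ha : a ∈ A
          · rw [← hτA, mem_image] at ha
            obtain ⟨e, he, hea⟩ := ha
            exact ⟨e, fun _ => ⟨he, hea⟩⟩
          · exact ⟨c1, fun h1 => absurd h1 ha⟩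
        choose ν hν using hinv
        obtain ⟨w, hw⟩ := h.surj hA (fun a => b a - lam * (b' (ν a) - f' (ν a) q'))
        have hνe : ∀ e ∈ B, ν (τ e) = e := fun e he =>
          hτ (hν _ (hτm e he)).1 he (hν _ (hτm e he)).2
        have hxe : ∀ e ∈ B, b (τ e) - f (τ e) w = lam * (b' e - f' e q') := by
          intro e he
          rw [hw (τ e) (hτm e he), hνe e he]; ring
        have hx : ∀ a ∈ A, 0 ≤ b a - f a w := by
          intro a ha
          obtain ⟨h1, h2⟩ := hν a ha
          have h3 := hxe (ν a) h1
          rw [h2] at h3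
          rw [h3]
          exact mul_nonneg hlam0.le (hx' _ h1)
        have hσw : σ w = lam * σ' := by
          have : σ w = ∑ e ∈ B, (b (τ e) - f (τ e) w) := hsum _
          rw [this, hσ', mul_sum]
          exact sum_congr rfl fun e he => hxe e he
        have hUw : ∀ c, U c w = lam * (b' c - f' c q') := by
          intro c
          rw [hUs c w, hσw, hsl' c q']
          have h1 : ∑ e ∈ B, m' c e * (b (τ e) - f (τ e) w) =
              lam * ∑ e ∈ B, m' c e * (b' e - f' e q') := by
            rw [mul_sum]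
            refine sum_congr rfl fun e he => ?_
            rw [hxe e he]; ring
          have h2 : M * (lam * σ') - 1 = lam := by linarith
          rw [h1, h2]; ring
        have hU0 : U c0 w = 0 := by rw [hUw, hc00, mul_zero]
        have hslack := F3 w hx (F2 w hx c0 hc0B hU0)
        have hwR : w ∈ Poly F β := by
          rw [hPoly]
          refine ⟨fun j => ?_, fun c _ => ?_⟩
          · by_cases hj : j ∈ A
            · linarith [hx j hj]
            · linarith [hslack j hj]
          · rw [hUw]
            exact mul_nonneg hlam0.le (by linarith [hq' c])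
        refine ⟨by rw [card_image_of_injective _ (relab_inj hτ), hWc], w, hwR, ?_⟩
        rw [← hqW]
        ext j
        rw [mem_image]
        rcases j with i | c
        · rw [hact_inl, mem_act]
          constructor
          · intro hi
            have hiA : i ∈ A := by
              by_contra hiA
              have := hslack i hiA
              linarith
            obtain ⟨h1, h2⟩ := hν i hiA
            refine ⟨ν i, ?_, by simp [relab, h1, h2]⟩
            rw [mem_act]
            have h3 := hxe (ν i) h1
            rw [h2, hi, sub_self] at h3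
            rcases mul_eq_zero.1 h3.symm with h4 | h4
            · exact absurd h4 hlam0.ne'
            · linarith
          · rintro ⟨e, he, hei⟩
            unfold relab at hei
            split_ifs at hei with heB
            have hei' := Sum.inl_injective hei
            subst hei'
            rw [mem_act] at he
            have := hxe e heB
            rw [he, sub_self, mul_zero] at this
            linarith
        · rw [hact_inr, hUw]
          constructor
          · rintro ⟨hc, hc0'⟩
            refine ⟨c, ?_, by simp [relab, hc]⟩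
            rw [mem_act]
            rcases mul_eq_zero.1 hc0' with h4 | h4
            · exact absurd h4 hlam0.ne'
            · linarith
          · rintro ⟨e, he, hec⟩
            unfold relab at hec
            split_ifs at hec with heB
            have hec' := Sum.inr_injective hec
            subst hec'
            refine ⟨heB, ?_⟩
            rw [mem_act] at he
            rw [he, sub_self, mul_zero]

end FewFacets
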