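import Pool.Agent.FewFacets.Odd

/-!
The alternating triples of every finite two-coloured chain can be enumerated cyclically,
consecutive triples having two common elements.
-/

namespace FewFacets

open Finset

lemma image_eq_of_injOn {α β : Type*} [DecidableEq α] [DecidableEq β] {φ : α → β}
    {S A B : Finset α} (hφ : Set.InjOn φ S) (hA : A ⊆ S) (hB : B ⊆ S)
    (h : A.image φ = B.image φ) : A = B := by
  ext x
  constructor
  · intro hx
    obtain ⟨y, hy, hxy⟩ := mem_image.1 (h ▸ mem_image_of_mem φ hx)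
    exact hφ (hB hy) (hA hx) hxy ▸ hy
  · intro hx
    obtain ⟨y, hy, hxy⟩ := mem_image.1 (h.symm ▸ mem_image_of_mem φ hx)
    exact hφ (hA hy) (hB hx) hxy ▸ hy

lemma Cyc.map {α β : Type*} [DecidableEq α] [DecidableEq β] {F : Set (Finset α)}
    {G : Set (Finset β)} (φ : α → β) (S : Finset α) (hφ : Set.InjOn φ S)
    (hFS : ∀ T ∈ F, T ⊆ S) (hG : ∀ T', T' ∈ G ↔ ∃ T ∈ F, T' = T.image φ)
    {l : List (Finset α)} (hl : Cyc F l) : Cyc G (l.map (fun T => T.image φ)) := by
  have hnb : ∀ A ∈ F, ∀ B ∈ F, Nb A B → Nb (A.image φ) (B.image φ) := by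
    intro A hA B hB h
    unfold Nb at *
    rw [← image_inter_of_injOn, card_image_of_injOn, h]
    · exact hφ.mono (fun x hx => hFS A hA (mem_inter.1 hx).1)
    · refine hφ.mono (fun x hx => ?_)
      rcases hx with hx | hx
      · exact hFS A hA hx
      · exact hFS B hB hx
  refine ⟨?_, ?_, ?_, ?_⟩
  · refine (List.nodup_map_iff_inj_on hl.nodup).2 ?_
    intro x hx y hy hxy
    exact image_eq_of_injOn hφ (hFS x ((hl.mem x).1 hx)) (hFS y ((hl.mem y).1 hy)) hxy
  · intro T
    rw [List.mem_map, hG]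
    constructor
    · rintro ⟨A, h1, h2⟩; exact ⟨A, (hl.mem A).1 h1, h2.symm⟩
    · rintro ⟨A, h1, h2⟩; exact ⟨A, (hl.mem A).2 h1, h2.symm⟩
  · rw [List.isChain_map]
    refine List.IsChain.imp_of_mem_imp ?_ hl.chain
    intro a b ha hb hab
    exact hnb a ((hl.mem a).1 ha) b ((hl.mem b).1 hb) hab
  · intro x hx y hy
    rw [List.getLast?_map] at hx
    rw [List.head?_map] at hy
    simp only [Option.mem_def, Option.map_eq_some_iff] at hx hy
    obtain ⟨a, ha, rfl⟩ := hx
    obtain ⟨b, hb, rfl⟩ := hy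
    rcases hl.close a ha b hb with rfl | h
    · exact Or.inl rfl
    · exact Or.inr (hnb a ((hl.mem a).1 (List.mem_of_mem_getLast? ha)) b
        ((hl.mem b).1 (List.mem_of_mem_head? hb)) h)

variable {α : Type*} [LinearOrder α]

lemma Alt3.mono {c : α → Bool} {S S' : Finset α} (h : S ⊆ S') {T : Finset α}
    (hT : T ∈ Alt3 c S) : T ∈ Alt3 c S' := by
  obtain ⟨i, j, k, h1, h2, hi, hj, hk, c1, c2, rfl⟩ := hT
  exact ⟨i, j, k, h1, h2, h hi, h hj, h hk, c1, c2, rfl⟩

lemma Alt3.erase {c : α → Bool} {S : Finset α} {q : α} {T : Finset α}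
    (hT : T ∈ Alt3 c S) (hq : q ∉ T) : T ∈ Alt3 c (S.erase q) := by
  obtain ⟨i, j, k, h1, h2, hi, hj, hk, c1, c2, rfl⟩ := hT
  simp only [mem_insert, mem_singleton, not_or] at hq
  exact ⟨i, j, k, h1, h2, mem_erase.2 ⟨Ne.symm hq.1, hi⟩, mem_erase.2 ⟨Ne.symm hq.2.1, hj⟩,
    mem_erase.2 ⟨Ne.symm hq.2.2, hk⟩, c1, c2, rfl⟩

/-- twins next to each other with the same colour -/
lemma twin_adj {c : α → Bool} {S : Finset α} {p q : α} (hp : p ∈ S) (hq : q ∈ S)
    (hpq : p < q) (hc : c p = c q) (hno : ∀ x ∈ S, ¬ (p < x ∧ x < q)) (T : Finset α) :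
    T ∈ Alt3 c S ↔ T ∈ Alt3 c (S.erase q) ∨
      ∃ v ∈ Alt3 c (S.erase q), p ∈ v ∧ T = sw p q v := by
  have hp' : p ∈ S.erase q := mem_erase.2 ⟨hpq.ne, hp⟩
  constructor
  · intro hT
    by_cases hqT : q ∈ T
    · right
      obtain ⟨i, j, k, h1, h2, hi, hj, hk, c1, c2, rfl⟩ := hT
      simp only [mem_insert, mem_singleton] at hqT
      rcases hqT with rfl | rfl | rfl
      · refine ⟨{p, j, k}, ⟨p, j, k, hpq.trans h1, h2, hp', mem_erase.2 ⟨h1.ne', hj⟩,
          mem_erase.2 ⟨(h1.trans h2).ne', hk⟩, hc ▸ c1, c2, rfl⟩, by simp, ?_⟩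
        rw [sw, erase_insert]
        simp only [mem_insert, mem_singleton, not_or]
        exact ⟨(hpq.trans h1).ne, (hpq.trans (h1.trans h2)).ne⟩
      · have hip : i < p := by
          rcases lt_trichotomy i p with h | h | h
          · exact h
          · exact absurd (h ▸ hc) c1
          · exact absurd ⟨h, h1⟩ (hno i hi)
        refine ⟨{i, p, k}, ⟨i, p, k, hip, hpq.trans h2, mem_erase.2 ⟨h1.ne, hi⟩, hp',
          mem_erase.2 ⟨h2.ne', hk⟩, hc ▸ c1, hc ▸ c2, rfl⟩, by simp, ?_⟩
        ext x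
        simp only [sw, mem_insert, mem_singleton, mem_erase]
        constructor
        · rintro (rfl | rfl | rfl)
          · exact Or.inr ⟨hip.ne, Or.inl rfl⟩
          · exact Or.inl rfl
          · exact Or.inr ⟨(hpq.trans h2).ne', Or.inr (Or.inr rfl)⟩
        · rintro (rfl | ⟨h3, rfl | rfl | rfl⟩)
          · exact Or.inr (Or.inl rfl)
          · exact Or.inl rfl
          · exact absurd rfl h3
          · exact Or.inr (Or.inr rfl)
      · have hjp : j < p := by
          rcases lt_trichotomy j p with h | h | h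
          · exact h
          · exact absurd (h ▸ hc) c2
          · exact absurd ⟨h, h2⟩ (hno j hj)
        refine ⟨{i, j, p}, ⟨i, j, p, h1, hjp, mem_erase.2 ⟨(h1.trans h2).ne, hi⟩,
          mem_erase.2 ⟨h2.ne, hj⟩, hp', c1, hc ▸ c2, rfl⟩, by simp, ?_⟩
        ext x
        simp only [sw, mem_insert, mem_singleton, mem_erase]
        constructor
        · rintro (rfl | rfl | rfl)
          · exact Or.inr ⟨(h1.trans hjp).ne, Or.inl rfl⟩
          · exact Or.inr ⟨hjp.ne, Or.inr (Or.inl rfl)⟩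
          · exact Or.inl rfl
        · rintro (rfl | ⟨h3, rfl | rfl | rfl⟩)
          · exact Or.inr (Or.inr rfl)
          · exact Or.inl rfl
          · exact Or.inr (Or.inl rfl)
          · exact absurd rfl h3
    · exact Or.inl (Alt3.erase hT hqT)
  · rintro (hT | ⟨v, ⟨i, j, k, h1, h2, hi, hj, hk, c1, c2, rfl⟩, hpv, rfl⟩)
    · exact Alt3.mono (erase_subset _ _) hT
    · rw [mem_erase] at hi hj hk
      have hgt : ∀ x ∈ S, x ≠ q → p < x → q < x := by
        intro x hx hxq hpx
        rcases lt_trichotomy x q with h | h | h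
        · exact absurd ⟨hpx, h⟩ (hno x hx)
        · exact absurd h hxq
        · exact h
      simp only [mem_insert, mem_singleton] at hpv
      rcases hpv with rfl | rfl | rfl
      · refine ⟨q, j, k, hgt j hj.2 hj.1 h1, h2, hq, hj.2, hk.2, hc ▸ c1, c2, ?_⟩
        rw [sw, erase_insert]
        simp only [mem_insert, mem_singleton, not_or]
        exact ⟨h1.ne, (h1.trans h2).ne⟩
      · refine ⟨i, q, k, h1.trans hpq, hgt k hk.2 hk.1 h2, hi.2, hq, hk.2, hc ▸ c1,
          hc ▸ c2, ?_⟩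
        ext x
        simp only [sw, mem_insert, mem_singleton, mem_erase]
        constructor
        · rintro (rfl | ⟨h3, rfl | rfl | rfl⟩)
          · exact Or.inr (Or.inl rfl)
          · exact Or.inl rfl
          · exact absurd rfl h3
          · exact Or.inr (Or.inr rfl)
        · rintro (rfl | rfl | rfl)
          · exact Or.inr ⟨h1.ne, Or.inl rfl⟩
          · exact Or.inl rfl
          · exact Or.inr ⟨h2.ne', Or.inr (Or.inr rfl)⟩
      · refine ⟨i, j, q, h1, h2.trans hpq, hi.2, hj.2, hq, c1, hc ▸ c2, ?_⟩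
        ext x
        simp only [sw, mem_insert, mem_singleton, mem_erase]
        constructor
        · rintro (rfl | ⟨h3, rfl | rfl | rfl⟩)
          · exact Or.inr (Or.inr rfl)
          · exact Or.inl rfl
          · exact Or.inr (Or.inl rfl)
          · exact absurd rfl h3
        · rintro (rfl | rfl | rfl)
          · exact Or.inr ⟨(h1.trans h2).ne, Or.inl rfl⟩
          · exact Or.inr ⟨h2.ne, Or.inr (Or.inl rfl)⟩
          · exact Or.inl rfl

lemma bool_eq {a b c : Bool} (h1 : a ≠ b) (h2 : b ≠ c) : a = c := by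
  cases a <;> cases b <;> cases c <;> simp_all

/-- twins at the two ends with opposite colours -/
lemma twin_ends {c : α → Bool} {S : Finset α} {p q : α} (hp : p ∈ S) (hq : q ∈ S)
    (hc : c p ≠ c q) (hmin : ∀ x ∈ S, p ≤ x) (hmax : ∀ x ∈ S, x ≤ q) (T : Finset α) :
    T ∈ Alt3 c S ↔ T ∈ Alt3 c (S.erase q) ∨
      ∃ v ∈ Alt3 c (S.erase q), p ∈ v ∧ T = sw p q v := by
  have hpq : p ≠ q := fun h => hc (h ▸ rfl)
  have hp' : p ∈ S.erase q := mem_erase.2 ⟨hpq, hp⟩
  constructor
  · intro hT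
    by_cases hqT : q ∈ T
    · right
      obtain ⟨i, j, k, h1, h2, hi, hj, hk, c1, c2, rfl⟩ := hT
      have hkq : k = q := by
        simp only [mem_insert, mem_singleton] at hqT
        rcases hqT with h | h | h
        · exact absurd (h ▸ (h1.trans h2)) (not_lt.2 (hmax k hk))
        · exact absurd (h ▸ h2) (not_lt.2 (hmax k hk))
        · exact h.symm
      subst hkq
      have hcik := bool_eq c1 c2
      have hpi : p < i := by
        refine lt_of_le_of_ne (hmin i hi) ?_
        rintro rfl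
        exact hc hcik
      refine ⟨{p, i, j}, ⟨p, i, j, hpi, h1, hp', mem_erase.2 ⟨(h1.trans h2).ne, hi⟩,
        mem_erase.2 ⟨h2.ne, hj⟩, hcik ▸ hc, c1, rfl⟩, by simp, ?_⟩
      rw [sw, erase_insert]
      · ext x
        simp only [mem_insert, mem_singleton]
        tauto
      · simp only [mem_insert, mem_singleton, not_or]
        exact ⟨hpi.ne, (hpi.trans h1).ne⟩
    · exact Or.inl (Alt3.erase hT hqT)
  · rintro (hT | ⟨v, ⟨i, j, k, h1, h2, hi, hj, hk, c1, c2, rfl⟩, hpv, rfl⟩)
    · exact Alt3.mono (erase_subset _ _) hT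
    · rw [mem_erase] at hi hj hk
      have hip : i = p := by
        simp only [mem_insert, mem_singleton] at hpv
        rcases hpv with h | h | h
        · exact h.symm
        · exact absurd (h ▸ h1) (not_lt.2 (hmin i hi.2))
        · exact absurd (h ▸ (h1.trans h2)) (not_lt.2 (hmin i hi.2))
      subst hip
      refine ⟨j, k, q, h2, lt_of_le_of_ne (hmax k hk.2) hk.1, hj.2, hk.2, hq, c2,
        (bool_eq c1 c2) ▸ hc, ?_⟩
      rw [sw, erase_insert]
      · ext x
        simp only [mem_insert, mem_singleton]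
        tauto
      · simp only [mem_insert, mem_singleton, not_or]
        exact ⟨h1.ne, (h1.trans h2).ne⟩

/-- the step common to both kinds of twins -/
lemma twin_step {c : α → Bool} {S : Finset α} {p q : α}
    (htw : ∀ T, T ∈ Alt3 c S ↔ T ∈ Alt3 c (S.erase q) ∨
      ∃ v ∈ Alt3 c (S.erase q), p ∈ v ∧ T = sw p q v)
    {l : List (Finset α)} (hl : Cyc (Alt3 c (S.erase q)) l) : ∃ l', Cyc (Alt3 c S) l' := by
  have hq : ∀ T ∈ Alt3 c (S.erase q), q ∉ T := fun T hT h =>
    (mem_erase.1 (Alt3.subset hT h)).1 rfl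
  by_cases hex : ∃ v ∈ Alt3 c (S.erase q), p ∈ v
  · obtain ⟨v, hv, hpv⟩ := hex
    exact (wedge (fun T hT => Alt3.card hT) hq htw hl hv hpv).cyc
      (nb_sw_self hpv (hq v hv) (Alt3.card hv)).symm
  · push Not at hex
    refine ⟨l, hl.nodup, ?_, hl.chain, hl.close⟩
    intro T
    rw [hl.mem, htw]
    constructor
    · exact Or.inl
    · rintro (h | ⟨v, hv, hpv, _⟩)
      · exact h
      · exact absurd hpv (hex v hv)

/-- the last case: the chain alternates and its ends have the same colour -/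
lemma alternating {c : α → Bool} {S : Finset α} (hne : (Alt3 c S).Nonempty)
    (h1 : ∀ p ∈ S, ∀ q ∈ S, p < q → (∀ x ∈ S, ¬ (p < x ∧ x < q)) → c p ≠ c q)
    (h2 : ∀ p ∈ S, ∀ q ∈ S, (∀ x ∈ S, p ≤ x) → (∀ x ∈ S, x ≤ q) → c p = c q) :
    ∃ l, Cyc (Alt3 c S) l := by
  obtain ⟨T0, hT0⟩ := hne
  have hn3 : 3 ≤ S.card := by
    rw [← Alt3.card hT0]
    exact card_le_card (Alt3.subset hT0)
  set n := S.card with hn
  let e : Fin n ↪o α := S.orderEmbOfFin hn.symm
  have heS : ∀ i, e i ∈ S := fun i => S.orderEmbOfFin_mem hn.symm i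
  have heSurj : ∀ x ∈ S, ∃ i, e i = x := by
    intro x hx
    have : x ∈ Set.range e := by
      rw [S.range_orderEmbOfFin hn.symm]
      exact hx
    exact this
  -- colours alternate
  have hcol : ∀ i : ℕ, ∀ hi : i < n, c (e ⟨i, hi⟩) = xor (c (e ⟨0, by omega⟩)) (!par i) := by
    intro i
    induction i with
    | zero => intro hi; simp [par]
    | succ i ih =>
      intro hi
      have hi' : i < n := by omega
      have hlt : e ⟨i, hi'⟩ < e ⟨i + 1, hi⟩ := e.strictMono (by simp [Fin.lt_def])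
      have hne2 := h1 _ (heS ⟨i, hi'⟩) _ (heS ⟨i + 1, hi⟩) hlt (by
        intro x hx hxx
        obtain ⟨j, rfl⟩ := heSurj x hx
        have a1 := e.lt_iff_lt.1 hxx.1
        have a2 := e.lt_iff_lt.1 hxx.2
        simp only [Fin.lt_def] at a1 a2
        omega)
      have hp : par (i + 1) = !par i := by
        unfold par
        rcases Nat.mod_two_eq_zero_or_one i with h | h
        · have : (i + 1) % 2 = 1 := by omega
          simp [h, this]
        · have : (i + 1) % 2 = 0 := by omega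
          simp [h, this]
      rw [ih hi'] at hne2
      rw [hp]
      revert hne2
      generalize c (e ⟨i + 1, hi⟩) = A
      generalize c (e ⟨0, _⟩) = B
      generalize par i = D
      cases A <;> cases B <;> cases D <;> simp
  have hends := h2 _ (heS ⟨0, by omega⟩) _ (heS ⟨n - 1, by omega⟩)
    (by
      intro x hx
      obtain ⟨j, rfl⟩ := heSurj x hx
      exact e.monotone (by simp [Fin.le_def]))
    (by
      intro x hx
      obtain ⟨j, rfl⟩ := heSurj x hx
      refine e.monotone ?_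
      simp only [Fin.le_def]
      omega)
  have hodd : (n - 1) % 2 = 0 := by
    rw [hcol (n - 1) (by omega)] at hends
    by_contra hcon
    have hpar : par (n - 1) = false := by simp [par, hcon]
    rw [hpar] at hends
    revert hends
    generalize c (e ⟨0, _⟩) = B
    cases B <;> simp
  obtain ⟨m, hm⟩ : ∃ m, n = 2 * (m + 1) + 1 := ⟨(n - 1) / 2 - 1, by omega⟩
  obtain ⟨l, hl⟩ := odd_case m
  rw [← hm] at hl
  let φ : ℕ → α := fun i => if h : i < n then e ⟨i, h⟩ else e ⟨0, by omega⟩
  have hφ : ∀ i (h : i < n), φ i = e ⟨i, h⟩ := fun i h => by simp [φ, h]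
  have hcφ : ∀ i j, i < n → j < n → (c (φ i) ≠ c (φ j) ↔ par i ≠ par j) := by
    intro i j hi hj
    rw [hφ i hi, hφ j hj, hcol i hi, hcol j hj]
    generalize c (e ⟨0, _⟩) = B
    generalize par i = D
    generalize par j = E
    cases B <;> cases D <;> cases E <;> simp
  have hφlt : ∀ i j, i < n → j < n → (φ i < φ j ↔ i < j) := by
    intro i j hi hj
    rw [hφ i hi, hφ j hj, e.lt_iff_lt]
    simp [Fin.lt_def]
  refine ⟨_, hl.map φ (range n) ?_ (fun T hT => Alt3.subset hT) ?_⟩
  · intro i hi j hj hij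
    rw [coe_range, Set.mem_Iio] at hi hj
    rw [hφ i hi, hφ j hj] at hij
    have := e.injective hij
    simpa using this
  · intro T'
    constructor
    · rintro ⟨x, y, z, hxy, hyz, hx, hy, hz, c1, c2, rfl⟩
      obtain ⟨i, rfl⟩ := heSurj x hx
      obtain ⟨j, rfl⟩ := heSurj y hy
      obtain ⟨k, rfl⟩ := heSurj z hz
      have ei : φ i.1 = e i := hφ i.1 i.2
      have ej : φ j.1 = e j := hφ j.1 j.2
      have ek : φ k.1 = e k := hφ k.1 k.2
      refine ⟨{i.1, j.1, k.1}, ⟨i.1, j.1, k.1, ?_, ?_, mem_range.2 i.2, mem_range.2 j.2,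
        mem_range.2 k.2, ?_, ?_, rfl⟩, ?_⟩
      · exact (hφlt _ _ i.2 j.2).1 (by rw [ei, ej]; exact hxy)
      · exact (hφlt _ _ j.2 k.2).1 (by rw [ej, ek]; exact hyz)
      · exact (hcφ _ _ i.2 j.2).1 (by rw [ei, ej]; exact c1)
      · exact (hcφ _ _ j.2 k.2).1 (by rw [ej, ek]; exact c2)
      · simp only [image_insert, image_singleton, ei, ej, ek]
    · rintro ⟨T, ⟨i, j, k, hij, hjk, hi, hj, hk, c1, c2, rfl⟩, rfl⟩
      rw [mem_range] at hi hj hk
      refine ⟨φ i, φ j, φ k, (hφlt _ _ hi hj).2 hij, (hφlt _ _ hj hk).2 hjk, ?_, ?_, ?_,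
        (hcφ _ _ hi hj).2 c1, (hcφ _ _ hj hk).2 c2, ?_⟩
      · rw [hφ i hi]; exact heS _
      · rw [hφ j hj]; exact heS _
      · rw [hφ k hk]; exact heS _
      · simp only [image_insert, image_singleton]

/-- **The alternating triples of a finite two-coloured chain**, if there are any, have a
cyclic enumeration in which consecutive triples have exactly two common elements. -/
theorem alt3_cyc (c : α → Bool) : ∀ (n : ℕ) (S : Finset α), S.card = n →
    (Alt3 c S).Nonempty → ∃ l, Cyc (Alt3 c S) l := by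
  intro n
  induction n with
  | zero =>
    intro S hS hne
    obtain ⟨T, hT⟩ := hne
    have := card_le_card (Alt3.subset hT)
    rw [Alt3.card hT, hS] at this
    omega
  | succ n ih =>
    intro S hS hne
    -- a common step
    have step : ∀ p q, q ∈ S → (∀ T, T ∈ Alt3 c S ↔ T ∈ Alt3 c (S.erase q) ∨
        ∃ v ∈ Alt3 c (S.erase q), p ∈ v ∧ T = sw p q v) → ∃ l, Cyc (Alt3 c S) l := by
      intro p q hq htw
      have hne' : (Alt3 c (S.erase q)).Nonempty := by
        obtain ⟨T, hT⟩ := hne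
        rcases (htw T).1 hT with h | ⟨v, hv, _, _⟩
        · exact ⟨T, h⟩
        · exact ⟨v, hv⟩
      obtain ⟨l, hl⟩ := ih (S.erase q) (by rw [card_erase_of_mem hq, hS]; rfl) hne'
      exact twin_step htw hl
    by_cases h1 : ∀ p ∈ S, ∀ q ∈ S, p < q → (∀ x ∈ S, ¬ (p < x ∧ x < q)) → c p ≠ c q
    · by_cases h2 : ∀ p ∈ S, ∀ q ∈ S, (∀ x ∈ S, p ≤ x) → (∀ x ∈ S, x ≤ q) → c p = c q
      · exact alternating hne h1 h2
      · push Not at h2
        obtain ⟨p, hp, q, hq, hmin, hmax, hc⟩ := h2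
        exact step p q hq (twin_ends hp hq hc hmin hmax)
    · push Not at h1
      obtain ⟨p, hp, q, hq, hpq, hno, hc⟩ := h1
      refine step p q hq (twin_adj hp hq hpq hc ?_)
      intro x hx hxx
      exact absurd hxx.2 (not_lt.2 (hno x hx hxx.1))

end FewFacets
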