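import Pool.Agent.FewFacets.Signs

/-!
Cone version of the planar configuration: the three element supports of the points of a
pointed cone given by `finrank V + 2` inequalities are the alternating triples of a
two-coloured chain.
-/

namespace FewFacets

open Finset

/-- PACKAGE C: cone version of `Data.plane`, `Data.supp_mem`, `Data.exists_vertex`.
Idea: let `θ = ∑ i, F i` (positive on nonzero `v` of the cone), `p0` in the cone with
`θ p0 = 1`, `E' = ker θ` (as a submodule, finrank = finrank V - 1), `f i = -(F i) restricted to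
E'`, `b i = F i p0`. Then `Data f b` holds (Poly.lean), `Data.plane` applies with
`card κ = finrank E' + 3`, and points `y` of `Poly f b` correspond to `v = p0 + y`;
a nonzero `v` of the cone is rescaled to `θ v = 1`. `g i = x i / y i`, `c i = decide (0 < y i)`
as in `Data.supp_mem`, `Data.exists_vertex` (Signs.lean); `gfam_card` gives the card 3. -/
lemma cone_gfam {V : Type*} [AddCommGroup V] [Module ℝ V] [FiniteDimensional ℝ V]
    {κ : Type*} [Fintype κ] [LinearOrder κ] (F : κ → V →ₗ[ℝ] ℝ)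
    (hcard : Fintype.card κ = Module.finrank ℝ V + 2)
    (hne : ∃ v : V, v ≠ 0 ∧ ∀ i, 0 ≤ F i v)
    (three : ∀ v : V, v ≠ 0 → (∀ i, 0 ≤ F i v) →
      3 ≤ (univ.filter (fun i => F i v ≠ 0)).card) :
    ∃ (g : κ → ℝ) (c : κ → Bool), ∀ T : Finset κ, T ∈ Gfam g c ↔
      ∃ v : V, (∀ i, 0 ≤ F i v) ∧ univ.filter (fun i => F i v ≠ 0) = T ∧ T.card = 3 := by
  -- the functional θ
  obtain ⟨θ, hθ⟩ : ∃ θ : V →ₗ[ℝ] ℝ, ∀ v, θ v = ∑ i, F i v :=
    ⟨∑ i, F i, fun v => by rw [LinearMap.sum_apply]⟩
  have hpos : ∀ v : V, v ≠ 0 → (∀ i, 0 ≤ F i v) → 0 < θ v := by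
    intro v hv h
    have h3 := three v hv h
    have hcp : 0 < (univ.filter (fun i => F i v ≠ 0)).card := by omega
    obtain ⟨i, hi⟩ := card_pos.1 hcp
    rw [mem_filter] at hi
    rw [hθ]
    refine sum_pos' (fun j _ => h j) ⟨i, mem_univ i, ?_⟩
    exact lt_of_le_of_ne (h i) (Ne.symm hi.2)
  obtain ⟨v0, hv0, hv0c⟩ := hne
  have ht0 := hpos v0 hv0 hv0c
  obtain ⟨p0, hp0c, hp01⟩ : ∃ p0 : V, (∀ i, 0 ≤ F i p0) ∧ θ p0 = 1 := by
    refine ⟨(θ v0)⁻¹ • v0, fun i => ?_, ?_⟩
    · rw [map_smul, smul_eq_mul]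
      exact mul_nonneg (inv_nonneg.2 ht0.le) (hv0c i)
    · rw [map_smul, smul_eq_mul]
      exact inv_mul_cancel₀ ht0.ne'
  -- the space of the polytope
  have hfin : Fintype.card κ = Module.finrank ℝ (LinearMap.ker θ) + 3 := by
    have h1 := LinearMap.finrank_range_add_finrank_ker θ
    have h2 : LinearMap.range θ = ⊤ := by
      rw [LinearMap.range_eq_top]
      intro r
      exact ⟨r • p0, by rw [map_smul, hp01, smul_eq_mul, mul_one]⟩
    rw [h2, finrank_top, Module.finrank_self] at h1
    omega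
  let f : κ → (LinearMap.ker θ) →ₗ[ℝ] ℝ := fun i => -((F i).comp (LinearMap.ker θ).subtype)
  let b : κ → ℝ := fun i => F i p0
  have hf : ∀ i (w : LinearMap.ker θ), f i w = -(F i (w : V)) := fun i w => rfl
  have hb : ∀ i, b i = F i p0 := fun i => rfl
  have hker : ∀ w : LinearMap.ker θ, θ (w : V) = 0 := fun w => LinearMap.mem_ker.1 w.2
  have hslack : ∀ i (w : LinearMap.ker θ), b i - f i w = F i (p0 + (w : V)) := by
    intro i w
    rw [hf, hb, map_add]
    ring
  have hmem : ∀ w : LinearMap.ker θ, w ∈ Poly f b ↔ ∀ i, 0 ≤ F i (p0 + (w : V)) := by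
    intro w
    constructor
    · intro h i
      rw [← hslack]
      exact sub_nonneg.2 (h i)
    · intro h i
      have := h i
      rw [← hslack] at this
      exact sub_nonneg.1 this
  have hsupp : ∀ w : LinearMap.ker θ, supp f b w =
      univ.filter (fun i => F i (p0 + (w : V)) ≠ 0) := by
    intro w
    ext i
    rw [mem_supp, mem_filter, ← hslack]
    constructor
    · intro h
      exact ⟨mem_univ _, fun h2 => h (sub_eq_zero.1 h2).symm⟩
    · rintro ⟨_, h⟩ h2
      exact h (sub_eq_zero.2 h2.symm)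
  have hD : Data f b := by
    refine ⟨⟨0, ?_⟩, ?_, ?_⟩
    · rw [hmem]
      intro i
      rw [Submodule.coe_zero, add_zero]
      exact hp0c i
    · intro w hw
      by_contra hne0
      have hw0 : (w : V) ≠ 0 := fun h => hne0 (Subtype.ext h)
      have := hpos w hw0 (fun i => by
        have := hw i
        rw [hf] at this
        linarith)
      rw [hker] at this
      exact lt_irrefl _ this
    · intro w hw
      rw [hsupp]
      refine three _ ?_ ((hmem w).1 hw)
      intro h
      have h1 : θ (p0 + (w : V)) = 1 := by rw [map_add, hp01, hker, add_zero]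
      rw [h, map_zero] at h1
      exact zero_ne_one h1
  obtain ⟨x, y, hy, hrel⟩ := hD.plane hfin
  refine ⟨fun i => x i / y i, fun i => decide (0 < y i), fun T => ⟨?_, ?_⟩⟩
  · intro hT
    obtain ⟨q, hq, hqT⟩ := hD.exists_vertex hy hrel hT
    refine ⟨p0 + (q : V), (hmem q).1 hq, ?_, gfam_card hT⟩
    rw [← hsupp, hqT]
  · rintro ⟨v, hv, hvT, hT3⟩
    have hv0' : v ≠ 0 := by
      rintro rfl
      have : (univ.filter (fun i => F i (0 : V) ≠ 0)) = ∅ := by
        rw [filter_eq_empty_iff]
        intro i _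
        simp
      rw [this] at hvT
      rw [← hvT] at hT3
      simp at hT3
    have ht := hpos v hv0' hv
    have hq0 : (θ v)⁻¹ • v - p0 ∈ LinearMap.ker θ := by
      rw [LinearMap.mem_ker, map_sub, map_smul, hp01, smul_eq_mul, inv_mul_cancel₀ ht.ne',
        sub_self]
    have hval : ∀ i, F i (p0 + ((⟨_, hq0⟩ : LinearMap.ker θ) : V)) = (θ v)⁻¹ * F i v := by
      intro i
      have : p0 + ((⟨_, hq0⟩ : LinearMap.ker θ) : V) = (θ v)⁻¹ • v := by
        show p0 + ((θ v)⁻¹ • v - p0) = _
        abel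
      rw [this, map_smul, smul_eq_mul]
    have hqP : (⟨_, hq0⟩ : LinearMap.ker θ) ∈ Poly f b := by
      rw [hmem]
      intro i
      rw [hval]
      exact mul_nonneg (inv_nonneg.2 ht.le) (hv i)
    have hqS : supp f b (⟨_, hq0⟩ : LinearMap.ker θ) = T := by
      rw [hsupp, ← hvT]
      ext i
      rw [mem_filter, mem_filter, hval]
      constructor
      · rintro ⟨h1, h2⟩
        exact ⟨h1, fun h => h2 (by rw [h, mul_zero])⟩
      · rintro ⟨h1, h2⟩
        exact ⟨h1, mul_ne_zero (inv_ne_zero ht.ne') h2⟩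
    have := hD.supp_mem hy hrel hqP (by rw [hqS]; exact hT3)
    rw [hqS] at this
    exact this

end FewFacets
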