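import Pool.Agent.FewFacets.Good

/-!
The graph of a bounded polyhedron is connected.
-/

set_option linter.unusedSectionVars false

namespace FewFacets

open Finset

variable {E : Type*} [NormedAddCommGroup E] [NormedSpace ℝ E] [FiniteDimensional ℝ E]
  {ι : Type*} [Fintype ι] [DecidableEq ι] {f : ι → E →ₗ[ℝ] ℝ} {b : ι → ℝ}

/-- a vertex at which a linear function is not maximal has a better neighbour -/
lemma exists_better (hb : Bornology.IsBounded (Poly f b)) (φ : E →ₗ[ℝ] ℝ) {v x : E}
    (hv : v ∈ (Poly f b).extremePoints ℝ) (hx : x ∈ Poly f b) (hlt : φ v < φ x) :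
    ∃ u, u ∈ (Poly f b).extremePoints ℝ ∧ v ≠ u ∧ IsExtreme ℝ (Poly f b) (segment ℝ v u) ∧
      φ v < φ u := by
  have hA : ∀ w, (∀ i ∈ act f b v, f i w = 0) → w = 0 := fun w hw => pointed hv hw
  have hwc : ∀ i ∈ act f b v, f i (x - v) ≤ 0 := by
    intro i hi
    rw [mem_act] at hi
    rw [map_sub, hi]
    linarith [hx i]
  have hφw : 0 < φ (x - v) := by
    rw [map_sub]
    linarith
  have hw0 : x - v ≠ 0 := by
    intro h
    rw [h, map_zero] at hφw
    exact lt_irrefl _ hφw
  have hneg := sum_neg_of_ne hA hwc hw0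
  have hk : ∃ k ∈ (base f (act f b v)).extremePoints ℝ, 0 < φ k := by
    by_contra hcon
    push Not at hcon
    have hKM := closure_convexHull_extremePoints (base_compact hA) base_convex
    have hcont : Continuous φ := LinearMap.continuous_of_finiteDimensional φ
    have hsub : base f (act f b v) ⊆ {w | φ w ≤ 0} := by
      rw [← hKM]
      refine closure_minimal ?_ (isClosed_le hcont continuous_const)
      refine convexHull_min ?_ ?_
      · intro k hk
        exact hcon k hk
      · rintro p hp q hq α β hα hβ hαβ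
        simp only [Set.mem_ofPred_eq] at hp hq ⊢
        rw [map_add, map_smul, map_smul, smul_eq_mul, smul_eq_mul]
        linarith [mul_nonpos_of_nonneg_of_nonpos hα hp, mul_nonpos_of_nonneg_of_nonpos hβ hq]
    have h1 : φ ((-∑ i ∈ act f b v, f i (x - v))⁻¹ • (x - v)) ≤ 0 := hsub (scale hA hwc hw0)
    rw [map_smul, smul_eq_mul] at h1
    have h2 : 0 < (-∑ i ∈ act f b v, f i (x - v))⁻¹ := inv_pos.2 (by linarith)
    have := mul_pos h2 hφw
    linarith
  obtain ⟨k, hk, hφk⟩ := hk
  obtain ⟨u, hu, hne, hex, t, ht, rfl⟩ := exists_edge hb hv hk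
  refine ⟨_, hu, hne, hex, ?_⟩
  rw [map_add, map_smul, smul_eq_mul]
  have := mul_pos ht hφk
  linarith

/-- there are finitely many vertices -/
lemma finite_extremePoints (f : ι → E →ₗ[ℝ] ℝ) (b : ι → ℝ) :
    Finite ((Poly f b).extremePoints ℝ) := by
  refine Finite.of_injective (fun v : (Poly f b).extremePoints ℝ => act f b v.1) ?_
  intro v w h
  simp only at h
  apply Subtype.ext
  rw [← sub_eq_zero]
  refine pointed v.2 fun i hi => ?_
  have hi' : i ∈ act f b w.1 := by
    rw [← h]
    exact hi
  rw [mem_act] at hi hi'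
  rw [map_sub, hi, hi', sub_self]

/-- the graph of a bounded polyhedron is connected -/
theorem polytopeGraph_connected (hb : Bornology.IsBounded (Poly f b))
    (hne : (Poly f b).Nonempty) : (polytopeGraph (Poly f b)).Connected := by
  have hcomp : IsCompact (Poly f b) :=
    Metric.isCompact_of_isClosed_isBounded (poly_closed f b) hb
  have hfin := finite_extremePoints f b
  rw [SimpleGraph.connected_iff]
  refine ⟨?_, (hcomp.extremePoints_nonempty hne).to_subtype⟩
  intro v w
  by_contra hvw
  -- the linear function with the unique maximum `w`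
  let φ : E →ₗ[ℝ] ℝ := ∑ i ∈ act f b w.1, f i
  have hφ : ∀ x, φ x = ∑ i ∈ act f b w.1, f i x := fun x => LinearMap.sum_apply _ _ _
  have hle : ∀ x ∈ Poly f b, x ≠ w.1 → φ x < φ w.1 := by
    intro x hx hxw
    rw [hφ, hφ]
    have h1 : ∀ i ∈ act f b w.1, f i x ≤ f i w.1 := by
      intro i hi
      rw [mem_act] at hi
      rw [hi]
      exact hx i
    refine sum_lt_sum h1 ?_
    by_contra hcon
    push Not at hcon
    apply hxw
    rw [← sub_eq_zero]
    refine pointed w.2 fun i hi => ?_
    rw [map_sub, sub_eq_zero]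
    exact le_antisymm (h1 i hi) (hcon i hi)
  set S : Set ((Poly f b).extremePoints ℝ) :=
    {u | ¬ (polytopeGraph (Poly f b)).Reachable u w} with hS
  obtain ⟨m, hm, hmax⟩ := Set.exists_max_image S (fun u => φ u.1) (Set.toFinite S) ⟨v, hvw⟩
  have hmw : m.1 ≠ w.1 := by
    intro h
    have h' : m = w := Subtype.ext h
    rw [h'] at hm
    exact hm (SimpleGraph.Reachable.refl w)
  obtain ⟨u, hu, hmu, hex, hlt⟩ := exists_better hb φ m.2 w.2.1 (hle m.1 m.2.1 hmw)
  have hadj : (polytopeGraph (Poly f b)).Adj m ⟨u, hu⟩ :=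
    ⟨fun h => hmu (congrArg Subtype.val h), hex⟩
  have huS : (⟨u, hu⟩ : (Poly f b).extremePoints ℝ) ∉ S := by
    intro h
    have := hmax _ h
    exact absurd hlt (not_lt.2 this)
  have hreach : (polytopeGraph (Poly f b)).Reachable ⟨u, hu⟩ w := not_not.1 huS
  exact hm (hadj.reachable.trans hreach)

end FewFacets
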