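import Pool.Agent.FewFacets.Good
import Pool.Agent.PolySum.Defs

/-!
Graphs of simple polytopes, given by the sets of facets of the vertices.
-/

set_option linter.unusedSectionVars false

namespace FewFacets

open Finset

/-- The graph on a family of sets of `d` elements, two of them being adjacent if they have
`d - 1` common elements. -/
def vgraph {κ : Type*} [DecidableEq κ] (𝒱 : Finset (Finset κ)) (d : ℕ) :
    SimpleGraph {V // V ∈ 𝒱} where
  Adj V W := V ≠ W ∧ (V.1 ∩ W.1).card + 1 = d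
  symm := ⟨fun V W h => ⟨h.1.symm, by rw [inter_comm]; exact h.2⟩⟩
  loopless := ⟨fun V h => h.1 rfl⟩

/-- what we use of the vertices of a simple polytope, seen as sets of facets -/
structure Simp {κ : Type*} [DecidableEq κ] (𝒱 : Finset (Finset κ)) (d : ℕ) : Prop where
  card : ∀ V ∈ 𝒱, V.card = d
  nb : ∀ V ∈ 𝒱, ∀ a ∈ V, ∃ V' ∈ 𝒱, a ∉ V' ∧ V.erase a ⊆ V'
  line : ∀ M V V' V'' : Finset κ, M.card + 1 = d → V ∈ 𝒱 → V' ∈ 𝒱 → V'' ∈ 𝒱 →
    M ⊆ V → M ⊆ V' → M ⊆ V'' → V ≠ V' → V ≠ V'' → V' = V''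

/-- `Γ` is the graph of a simple polytope of dimension `d` given by inequalities -/
def IsGood {β : Type*} (d : ℕ) (Γ : SimpleGraph β) : Prop :=
  ∃ (κ : Type) (_ : Fintype κ) (_ : DecidableEq κ)
    (f : κ → EuclideanSpace ℝ (Fin d) →ₗ[ℝ] ℝ) (b : κ → ℝ),
    Good f b d ∧ Nonempty (vgraph (vert f b d) d ≃g Γ)

end FewFacets
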