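import Pool.Agent.FewFacets.H1Cube
import Pool.Agent.FewFacets.IsGood

/-!
The graph of the cube.
-/

set_option linter.unusedSectionVars false

namespace FewFacets

open Finset

/-- a good system given by the sets of facets of the vertices -/
theorem IsGood.of_map {β : Type*} {d : ℕ} {κ : Type} [Fintype κ] [DecidableEq κ]
    {f : κ → EuclideanSpace ℝ (Fin d) →ₗ[ℝ] ℝ} {b : κ → ℝ} (h : Good f b d)
    {Γ : SimpleGraph β} (A : β → Finset κ) (hA : ∀ V, V ∈ vert f b d ↔ ∃ x, A x = V)
    (hinj : Function.Injective A)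
    (hadj : ∀ x y, Γ.Adj x y ↔ x ≠ y ∧ (A x ∩ A y).card + 1 = d) : IsGood d Γ := by
  refine ⟨κ, inferInstance, inferInstance, f, b, h, ?_⟩
  let e : β ≃ {V // V ∈ vert f b d} := Equiv.ofBijective (fun x => ⟨A x, (hA _).2 ⟨x, rfl⟩⟩)
    ⟨fun x y hxy => hinj (congrArg Subtype.val hxy), fun V => by
      obtain ⟨x, hx⟩ := (hA V.1).1 V.2
      exact ⟨x, Subtype.ext hx⟩⟩
  refine ⟨RelIso.symm ⟨e, ?_⟩⟩
  intro x y
  rw [hadj]
  change (e x ≠ e y ∧ (A x ∩ A y).card + 1 = d) ↔ _
  rw [e.injective.ne_iff]

/-- the graph of the cube -/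
def cube (d : ℕ) : SimpleGraph (Fin d → Bool) where
  Adj x y := hammingDist x y = 1
  symm := ⟨fun x y h => by rw [hammingDist_comm]; exact h⟩
  loopless := ⟨fun x h => by rw [hammingDist_self] at h; exact zero_ne_one h⟩

/-- change one coordinate -/
def flip {d : ℕ} (i : Fin d) (x : Fin d → Bool) : Fin d → Bool := Function.update x i (!x i)

lemma cube_adj_iff {d : ℕ} {x y : Fin d → Bool} : (cube d).Adj x y ↔ ∃ i, y = flip i x := by
  change hammingDist x y = 1 ↔ _
  unfold hammingDist
  rw [card_eq_one]
  constructor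
  · rintro ⟨i, hi⟩
    refine ⟨i, ?_⟩
    have hm : ∀ j, x j ≠ y j ↔ j = i := by
      intro j
      have := congrArg (fun s => j ∈ s) hi
      simpa using this
    funext j
    by_cases hj : j = i
    · subst hj
      have := (hm j).2 rfl
      rw [flip, Function.update_self]
      cases hx : x j <;> cases hy : y j <;> simp_all
    · rw [flip, Function.update_of_ne hj]
      by_contra hne
      exact hj ((hm j).1 fun h => hne h.symm)
  · rintro ⟨i, rfl⟩
    refine ⟨i, ?_⟩
    ext j
    rw [mem_filter, mem_singleton]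
    constructor
    · rintro ⟨_, h⟩
      by_contra hj
      exact h (by rw [flip, Function.update_of_ne hj])
    · rintro rfl
      refine ⟨mem_univ _, ?_⟩
      rw [flip, Function.update_self]
      cases x j <;> simp

lemma flip_inj {d : ℕ} {x : Fin d → Bool} {i j : Fin d} (h : flip i x = flip j x) : i = j := by
  by_contra hne
  have := congrFun h i
  rw [flip, flip, Function.update_self, Function.update_of_ne hne] at this
  cases hx : x i <;> rw [hx] at this <;> simp at this

lemma flip_flip {d : ℕ} (i : Fin d) (x : Fin d → Bool) : flip i (flip i x) = x := by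
  funext j
  by_cases hj : j = i
  · subst hj
    simp [flip]
  · simp [flip, hj]

theorem cube_isGood {d : ℕ} : IsGood d (cube d) := by
  obtain ⟨f, b, h, hv⟩ := cube_good (d := d)
  have hmem : ∀ (x : Fin d → Bool) (p : Fin d × Bool),
      p ∈ univ.image (fun i => (i, x i)) ↔ x p.1 = p.2 := by
    intro x p
    rw [mem_image]
    constructor
    · rintro ⟨i, -, rfl⟩; rfl
    · intro h1; exact ⟨p.1, mem_univ _, by rw [h1]⟩
  refine IsGood.of_map h (fun x => univ.image (fun i => (i, x i))) ?_ ?_ ?_
  · intro V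
    rw [hv, mem_image]
    exact ⟨fun ⟨x, _, hx⟩ => ⟨x, hx⟩, fun ⟨x, hx⟩ => ⟨x, mem_univ _, hx⟩⟩
  · intro x y hxy
    funext i
    have h1 := (hmem x (i, x i)).2 rfl
    change (i, x i) ∈ (fun x : Fin d → Bool => univ.image (fun i => (i, x i))) x at h1
    rw [hxy] at h1
    exact ((hmem y (i, x i)).1 h1).symm
  · intro x y
    have hcard : ((univ.image (fun i => (i, x i))) ∩ (univ.image (fun i => (i, y i)))).card +
        hammingDist x y = d := by
      have h1 : ((univ.image (fun i => (i, x i))) ∩ (univ.image (fun i => (i, y i)))) =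
          (univ.filter (fun i => ¬ x i ≠ y i)).image (fun i => (i, x i)) := by
        ext p
        rw [mem_inter, hmem, hmem, mem_image]
        constructor
        · rintro ⟨h1, h2⟩
          exact ⟨p.1, mem_filter.2 ⟨mem_univ _, by rw [not_not, h1, h2]⟩, by rw [h1]⟩
        · rintro ⟨i, hi, rfl⟩
          rw [mem_filter, not_not] at hi
          exact ⟨rfl, hi.2.symm⟩
      rw [h1, card_image_of_injective _ (fun i j hij => (Prod.mk.inj hij).1)]
      unfold hammingDist
      rw [add_comm, card_filter_add_card_filter_not (s := (univ : Finset (Fin d)))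
        (fun i => x i ≠ y i), card_univ, Fintype.card_fin]
    change hammingDist x y = 1 ↔ _
    constructor
    · intro h1
      refine ⟨fun h2 => ?_, by omega⟩
      rw [h2, hammingDist_self] at h1
      omega
    · rintro ⟨_, h2⟩
      omega

/-- the number of coordinates equal to true -/
def wt {d : ℕ} (x : Fin d → Bool) : ℕ := (univ.filter (fun i => x i = true)).card

lemma wt_flip {d : ℕ} (i : Fin d) (x : Fin d → Bool) : Even (wt (flip i x)) ↔ ¬ Even (wt x) := by
  unfold wt
  cases hx : x i
  · have h1 : (univ.filter (fun j => flip i x j = true)) =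
        insert i (univ.filter (fun j => x j = true)) := by
      ext j
      rw [mem_insert, mem_filter, mem_filter]
      by_cases hj : j = i
      · subst hj; simp [flip, hx]
      · simp [flip, hj]
    rw [h1, card_insert_of_notMem (by simp [hx]), Nat.even_add_one]
  · have h1 : insert i (univ.filter (fun j => flip i x j = true)) =
        (univ.filter (fun j => x j = true)) := by
      ext j
      rw [mem_insert, mem_filter, mem_filter]
      by_cases hj : j = i
      · subst hj; simp [hx]
      · simp [flip, hj]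
    rw [← h1, card_insert_of_notMem (by simp [hx, flip]), Nat.even_add_one, not_not]

lemma cube_bip {d : ℕ} {x y : Fin d → Bool} (h : (cube d).Adj x y) :
    (x ∈ {x : Fin d → Bool | Even (wt x)} ↔ y ∉ {x : Fin d → Bool | Even (wt x)}) := by
  obtain ⟨i, rfl⟩ := cube_adj_iff.1 h
  change Even (wt x) ↔ ¬ Even (wt (flip i x))
  rw [wt_flip, not_not]

lemma cube_bal {d : ℕ} (hd : 1 ≤ d) : {x : Fin d → Bool | Even (wt x)}.ncard ≤
    {x : Fin d → Bool | Even (wt x)}ᶜ.ncard := by
  refine Set.ncard_le_ncard_of_injOn (flip ⟨0, hd⟩) ?_ ?_ (Set.toFinite _)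
  · intro x hx
    change ¬ Even (wt (flip _ x))
    rw [wt_flip, not_not]
    exact hx
  · intro x _ y _ hxy
    have := congrArg (flip ⟨0, hd⟩) hxy
    rwa [flip_flip, flip_flip] at this

lemma cube_four {d : ℕ} (hd : 3 ≤ d) : 4 ≤ {x : Fin d → Bool | Even (wt x)}ᶜ.ncard := by
  have h1 := cube_bal (d := d) (by omega)
  have h2 := Set.ncard_add_ncard_compl {x : Fin d → Bool | Even (wt x)}
  rw [Nat.card_eq_fintype_card, Fintype.card_fun, Fintype.card_bool, Fintype.card_fin] at h2
  have h3 : 2 ^ 3 ≤ 2 ^ d := Nat.pow_le_pow_right (by norm_num) hd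
  omega

lemma cube_deg {d : ℕ} (x : Fin d → Bool) : ((cube d).neighborSet x).ncard = d := by
  have h1 : (cube d).neighborSet x = Set.range (fun i => flip i x) := by
    ext y
    rw [SimpleGraph.mem_neighborSet, cube_adj_iff]
    exact ⟨fun ⟨i, hi⟩ => ⟨i, hi.symm⟩, fun ⟨i, hi⟩ => ⟨i, hi.symm⟩⟩
  rw [h1, ← Set.image_univ, Set.ncard_image_of_injective _ (fun i j h => flip_inj h),
    Set.ncard_univ, Nat.card_eq_fintype_card, Fintype.card_fin]

open Classical in
/-- the coordinate in which two adjacent vertices differ -/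
noncomputable def dir {d : ℕ} (hd : 0 < d) (x y : Fin d → Bool) : Fin d :=
  if h : ∃ i, y = flip i x then h.choose else ⟨0, hd⟩

lemma dir_spec {d : ℕ} (hd : 0 < d) {x y : Fin d → Bool} (h : (cube d).Adj x y) :
    y = flip (dir hd x y) x := by
  have h' := cube_adj_iff.1 h
  unfold dir
  rw [dif_pos h']
  exact h'.choose_spec

/-- the attachment of the copies: the edge to the vertex `0` is attached to `nbr j0` -/
noncomputable def cport {d : ℕ} {V : Type*} (hd : 0 < d) (nbr : Fin d → V) (j0 : Fin d)
    (x y : Fin d → Bool) : V :=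
  nbr (Equiv.swap (dir hd x (fun _ => false)) j0 (dir hd x y))

lemma cport_inj {d : ℕ} {V : Type*} (hd : 0 < d) {nbr : Fin d → V}
    (hn : Function.Injective nbr) {j0 : Fin d} {x y y' : Fin d → Bool} (h : (cube d).Adj x y)
    (h' : (cube d).Adj x y') (he : cport hd nbr j0 x y = cport hd nbr j0 x y') : y = y' := by
  have h1 := (Equiv.swap _ _).injective (hn he)
  rw [dir_spec hd h, dir_spec hd h', h1]

lemma cport_zero {d : ℕ} {V : Type*} (hd : 0 < d) (nbr : Fin d → V) (j0 : Fin d)
    (x : Fin d → Bool) : cport hd nbr j0 x (fun _ => false) = nbr j0 := by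
  unfold cport
  rw [Equiv.swap_apply_left]

end FewFacets
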