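import Pool.Agent.PolySum.Defs
import Mathlib.Combinatorics.SimpleGraph.Hamiltonian

/-!
Hamilton cycles given by the map which sends a vertex to the next one.
-/

namespace PolySum

/-- `f` sends every vertex to the next vertex of a Hamilton cycle -/
structure HamMap {V : Type*} (G : SimpleGraph V) (f : V → V) : Prop where
  adj : ∀ v, G.Adj v (f v)
  inj : Function.Injective f
  trans : ∀ T : Set V, T.Nonempty → (∀ v ∈ T, f v ∈ T) → T = Set.univ

end PolySum
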