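import Pool.Agent.FewFacets.CubeHost
import Pool.Agent.FewFacets.HamMap
import Mathlib.Dynamics.PeriodicPts.Lemmas

/-!
Two finite checks for the Hamilton cycles of the cube of dimension 4.
-/

set_option linter.unusedSectionVars false

namespace FewFacets

open PolySum

/-! ### The search -/

/-- the entry of the table `T` at the vertex `v` -/
def srchTbl (T v : ℕ) : ℕ := Nat.land (Nat.shiftRight T (Nat.mul 4 v)) 15

/-- one step of the search, in the direction `e` (a power of two); `v` is the vertex, entered in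
the direction `d`, and `m` is the set of the visited vertices -/
def srchStep (T : ℕ) (ih : ℕ → ℕ → ℕ → Bool) (v d m e : ℕ) : Bool :=
  and (not (Nat.beq (Nat.lor d e) (srchTbl T v)))
    (and (Nat.beq (Nat.land (Nat.shiftRight m (Nat.xor v e)) 1) 0)
      (ih (Nat.xor v e) e (Nat.lor m (Nat.shiftLeft 1 (Nat.xor v e)))))

/-- depth first search: `n` vertices are to be visited, then the path returns to `s`, which was
left in the direction `d0` -/
def srch (T : ℕ) (cl : ℕ → Bool) (s d0 n : ℕ) : ℕ → ℕ → ℕ → Bool :=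
  Nat.rec (motive := fun _ => ℕ → ℕ → ℕ → Bool)
    (fun v d _ => and (not (Nat.beq (Nat.lor d (Nat.xor v s)) (srchTbl T v)))
      (and (or (Nat.beq (Nat.xor v s) 1) (or (Nat.beq (Nat.xor v s) 2)
        (or (Nat.beq (Nat.xor v s) 4) (Nat.beq (Nat.xor v s) 8))))
          (cl (Nat.lor (Nat.xor v s) d0))))
    (fun _ ih v d m => or (srchStep T ih v d m 1) (or (srchStep T ih v d m 2)
      (or (srchStep T ih v d m 4) (srchStep T ih v d m 8)))) n

/-- the search with start `s` and first direction `d0` -/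
def srchRun (T : ℕ) (cl : ℕ → Bool) (s d0 : ℕ) : Bool :=
  srch T cl s d0 14 (Nat.xor s d0) d0
    (Nat.lor (Nat.shiftLeft 1 s) (Nat.shiftLeft 1 (Nat.xor s d0)))

/-- the table of the forbidden pairs of the outer cube -/
def outT : ℕ := 14080950895375967685

/-- the table of the forbidden pairs of the inner cube -/
def innT : ℕ := 229894741990048512

theorem run_out1 : srchRun outT (fun p => not (Nat.beq p 5)) 2 1 = false := by decide +kernel
theorem run_out2 : srchRun outT (fun p => not (Nat.beq p 5)) 2 2 = false := by decide +kernel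
theorem run_out4 : srchRun outT (fun p => not (Nat.beq p 5)) 2 4 = false := by decide +kernel
theorem run_out8 : srchRun outT (fun p => not (Nat.beq p 5)) 2 8 = false := by decide +kernel
theorem run_inn4 : srchRun innT (fun p => Nat.beq p 12) 1 4 = false := by decide +kernel
theorem run_inn8 : srchRun innT (fun p => Nat.beq p 12) 1 8 = false := by decide +kernel

/-- the number of a vertex -/
def code (x : Fin 4 → Bool) : Fin 16 :=
  ⟨(x 0).toNat + 2 * (x 1).toNat + 4 * (x 2).toNat + 8 * (x 3).toNat, by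
    have h : ∀ b : Bool, b.toNat ≤ 1 := fun b => Bool.toNat_le b
    have := h (x 0); have := h (x 1); have := h (x 2); have := h (x 3)
    omega⟩

/-- the forbidden pair of directions at every vertex of the outer cube -/
def outM (x : Fin 4 → Bool) : Fin 4 × Fin 4 :=
  (![(0, 2), (2, 3), (0, 2), (1, 2), (1, 3), (0, 3), (1, 3), (0, 1),
    (2, 3), (0, 1), (1, 2), (0, 3), (0, 3), (1, 2), (0, 1), (2, 3)] :
      Fin 16 → Fin 4 × Fin 4) (code x)

/-- the forbidden pair of directions at the odd vertices of the inner cube -/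
def innM (x : Fin 4 → Bool) : Fin 4 × Fin 4 :=
  if code x = 2 ∨ code x = 13 ∨ code x = 14 then (0, 1) else (2, 3)

/-- the free odd vertex of the inner cube, with `code r1 = 1` -/
def r1 : Fin 4 → Bool := ![true, false, false, false]

/-- the cycle `f` passes `f b` in the two directions of the pair `m` -/
def Uses (f : (Fin 4 → Bool) → (Fin 4 → Bool)) (b : Fin 4 → Bool) (m : Fin 4 × Fin 4) : Prop :=
  (b = flip m.1 (f b) ∧ f (f b) = flip m.2 (f b)) ∨
    (b = flip m.2 (f b) ∧ f (f b) = flip m.1 (f b))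

/-! ### Soundness -/

theorem code_flip : ∀ (i : Fin 4) (x : Fin 4 → Bool),
    (code (flip i x)).1 = Nat.xor (code x).1 (2 ^ i.1) := by
  decide +kernel

theorem code_inj : ∀ x y : Fin 4 → Bool, (code x).1 = (code y).1 → x = y := by
  decide +kernel

theorem out_tbl : ∀ x : Fin 4 → Bool, (outM x).1 ≠ (outM x).2 ∧
    srchTbl outT (code x).1 = Nat.lor (2 ^ (outM x).1.1) (2 ^ (outM x).2.1) := by
  decide +kernel

theorem inn_tbl : ∀ x : Fin 4 → Bool, srchTbl innT (code x).1 = 0 ∨
    (¬ Even (wt x) ∧ x ≠ r1 ∧ (innM x).1 ≠ (innM x).2 ∧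
      srchTbl innT (code x).1 = Nat.lor (2 ^ (innM x).1.1) (2 ^ (innM x).2.1)) := by
  decide +kernel

theorem lor_pair : ∀ i j a b : Fin 4, a ≠ b →
    Nat.lor (2 ^ i.1) (2 ^ j.1) = Nat.lor (2 ^ a.1) (2 ^ b.1) →
      (i = a ∧ j = b) ∨ (i = b ∧ j = a) := by
  decide +kernel

theorem lor_ne : ∀ i j : Fin 4, Nat.lor (2 ^ i.1) (2 ^ j.1) ≠ 0 := by
  decide +kernel

theorem bit_lor (m a b : ℕ) :
    (Nat.lor m (Nat.shiftLeft 1 a)).testBit b = (m.testBit b || decide (a = b)) := by
  change (m ||| (1 <<< a)).testBit b = _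
  rw [Nat.testBit_or, Nat.one_shiftLeft, Nat.testBit_two_pow]

theorem vis_of_bit {m a : ℕ} (h : m.testBit a = false) :
    Nat.beq (Nat.land (Nat.shiftRight m a) 1) 0 = true := by
  rw [Nat.beq_eq]
  change (m >>> a) &&& 1 = 0
  unfold Nat.testBit at h
  rw [Nat.land_comm]
  simpa using h

theorem or_four {F : ℕ → Bool} (i : Fin 4) (h : F (2 ^ i.1) = true) :
    or (F 1) (or (F 2) (or (F 4) (F 8))) = true := by
  fin_cases i
  · have h1 : F 1 = true := h
    rw [h1]
    rfl
  · have h1 : F 2 = true := h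
    rw [h1]
    cases F 1 <;> rfl
  · have h1 : F 4 = true := h
    rw [h1]
    cases F 1 <;> cases F 2 <;> rfl
  · have h1 : F 8 = true := h
    rw [h1]
    cases F 1 <;> cases F 2 <;> cases F 4 <;> rfl

theorem orbit_cube {f : (Fin 4 → Bool) → (Fin 4 → Bool)} (hf : HamMap (cube 4) f)
    (x : Fin 4 → Bool) : (∀ j < 16, ∀ k < 16, f^[j] x = f^[k] x → j = k) ∧ f^[16] x = x := by
  have hp : x ∈ Function.periodicPts f := hf.inj.mem_periodicPts x
  obtain ⟨p, hpp⟩ : ∃ p, p = Function.minimalPeriod f x := ⟨_, rfl⟩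
  have hpos : 0 < p := hpp ▸ Function.minimalPeriod_pos_of_mem_periodicPts hp
  have hit : f^[p] x = x := by
    rw [hpp]
    exact Function.iterate_minimalPeriod
  have hinj : Set.InjOn (fun k => f^[k] x) (Set.Iio p) := by
    rw [hpp]
    exact Function.iterate_injOn_Iio_minimalPeriod
  have huniv : (Finset.range p).image (fun k => f^[k] x) = Finset.univ := by
    have h1 := hf.trans {v | ∃ k < p, f^[k] x = v} ⟨x, 0, hpos, rfl⟩ (by
      rintro v ⟨k, hk, rfl⟩
      by_cases hk1 : k + 1 < p
      · exact ⟨k + 1, hk1, by rw [Function.iterate_succ_apply']⟩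
      · refine ⟨0, hpos, ?_⟩
        have h2 : k + 1 = p := by omega
        have h3 : f^[k + 1] x = x := by
          rw [h2]
          exact hit
        rw [Function.iterate_succ_apply'] at h3
        exact h3.symm)
    ext v
    have h2 : v ∈ {v | ∃ k < p, f^[k] x = v} := by
      rw [h1]
      exact Set.mem_univ v
    obtain ⟨k, hk, hv⟩ := h2
    simp only [Finset.mem_image, Finset.mem_range, Finset.mem_univ, iff_true]
    exact ⟨k, hk, hv⟩
  have hcard : p = 16 := by
    have h1 := congrArg Finset.card huniv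
    rw [Finset.card_image_of_injOn (by
      intro a ha b hb hab
      exact hinj (Finset.mem_range.1 ha) (Finset.mem_range.1 hb) hab), Finset.card_range,
      Finset.card_univ, Fintype.card_fun, Fintype.card_bool, Fintype.card_fin] at h1
    exact h1
  subst hcard
  exact ⟨fun j hj k hk h => hinj hj hk h, hit⟩

theorem srch_sound {f : (Fin 4 → Bool) → (Fin 4 → Bool)} (hf : HamMap (cube 4) f)
    {dr : (Fin 4 → Bool) → Fin 4} (hd : ∀ v, f v = flip (dr v) v) {T : ℕ} {cl : ℕ → Bool}
    {x : Fin 4 → Bool}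
    (hT : ∀ v, Nat.beq (Nat.lor (2 ^ (dr v).1) (2 ^ (dr (f v)).1))
      (srchTbl T (code (f v)).1) = false)
    (hcl : cl (Nat.lor (2 ^ (dr (f^[15] x)).1) (2 ^ (dr x).1)) = true) (n : ℕ) :
    ∀ k m, n + k = 14 → (∀ v, m.testBit (code v).1 = true → ∃ j ≤ k + 1, f^[j] x = v) →
      srch T cl (code x).1 (2 ^ (dr x).1) n (code (f^[k + 1] x)).1 (2 ^ (dr (f^[k] x)).1) m
        = true := by
  obtain ⟨hinj, hit⟩ := orbit_cube hf x
  induction n with
  | zero =>
    intro k m hk _
    have hk : k = 14 := by omega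
    subst hk
    obtain ⟨w, hw⟩ : ∃ w, w = f^[14 + 1] x := ⟨_, rfl⟩
    have hfw : flip (dr w) w = x := by
      rw [← hd, hw, ← Function.iterate_succ_apply' f]
      exact hit
    have hx : Nat.xor (code w).1 (code x).1 = 2 ^ (dr w).1 := by
      have h1 := code_flip (dr w) w
      rw [hfw] at h1
      rw [h1]
      change (code w).1 ^^^ ((code w).1 ^^^ 2 ^ (dr w).1) = _
      rw [← Nat.xor_assoc, Nat.xor_self, Nat.zero_xor]
    rw [← hw]
    change and (not (Nat.beq (Nat.lor (2 ^ (dr (f^[14] x)).1) (Nat.xor (code w).1 (code x).1))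
      (srchTbl T (code w).1))) (and (or (Nat.beq (Nat.xor (code w).1 (code x).1) 1)
        (or (Nat.beq (Nat.xor (code w).1 (code x).1) 2)
          (or (Nat.beq (Nat.xor (code w).1 (code x).1) 4)
            (Nat.beq (Nat.xor (code w).1 (code x).1) 8))))
              (cl (Nat.lor (Nat.xor (code w).1 (code x).1) (2 ^ (dr x).1)))) = true
    have h2 := hT (f^[14] x)
    rw [← Function.iterate_succ_apply' f, ← hw] at h2
    have h3 : cl (Nat.lor (2 ^ (dr w).1) (2 ^ (dr x).1)) = true := by
      rw [hw]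
      exact hcl
    rw [hx, h2, h3, or_four (F := fun q => Nat.beq (2 ^ (dr w).1) q) (dr w)
      (by rw [Nat.beq_eq])]
    rfl
  | succ n ih =>
    intro k m hk hm
    obtain ⟨w, hw⟩ : ∃ w, w = f^[k + 1] x := ⟨_, rfl⟩
    have hfw : f w = f^[k + 1 + 1] x := by
      rw [hw, ← Function.iterate_succ_apply' f]
    have hcode : Nat.xor (code w).1 (2 ^ (dr w).1) = (code (f w)).1 := by
      rw [hd w, code_flip]
    rw [← hw]
    refine or_four (F := fun e => srchStep T (srch T cl (code x).1 (2 ^ (dr x).1) n) (code w).1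
      (2 ^ (dr (f^[k] x)).1) m e) (dr w) ?_
    change and (not (Nat.beq (Nat.lor (2 ^ (dr (f^[k] x)).1) (2 ^ (dr w).1))
      (srchTbl T (code w).1)))
      (and (Nat.beq (Nat.land (Nat.shiftRight m (Nat.xor (code w).1 (2 ^ (dr w).1))) 1) 0)
        (srch T cl (code x).1 (2 ^ (dr x).1) n (Nat.xor (code w).1 (2 ^ (dr w).1))
          (2 ^ (dr w).1) (Nat.lor m (Nat.shiftLeft 1 (Nat.xor (code w).1 (2 ^ (dr w).1))))))
            = true
    have h2 := hT (f^[k] x)
    rw [← Function.iterate_succ_apply' f, ← hw] at h2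
    have h3 : m.testBit (code (f w)).1 = false := by
      by_contra hne
      obtain ⟨j, hj, hjv⟩ := hm (f w) (by
        cases hb : m.testBit (code (f w)).1
        · exact absurd hb hne
        · rfl)
      rw [hfw] at hjv
      have := hinj j (by omega) (k + 1 + 1) (by omega) hjv
      omega
    have h4 : srch T cl (code x).1 (2 ^ (dr x).1) n (code (f w)).1 (2 ^ (dr w).1)
        (Nat.lor m (Nat.shiftLeft 1 (code (f w)).1)) = true := by
      have h5 := ih (k + 1) (Nat.lor m (Nat.shiftLeft 1 (code (f w)).1)) (by omega) (by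
        intro v hv
        rw [bit_lor, Bool.or_eq_true, decide_eq_true_eq] at hv
        rcases hv with hv | hv
        · obtain ⟨j, hj, hjv⟩ := hm v hv
          exact ⟨j, by omega, hjv⟩
        · exact ⟨k + 1 + 1, le_rfl, by rw [← hfw]; exact code_inj _ _ hv⟩)
      rwa [← hfw, ← hw] at h5
    rw [h2, hcode, vis_of_bit h3, h4]
    rfl

theorem run_sound {f : (Fin 4 → Bool) → (Fin 4 → Bool)} (hf : HamMap (cube 4) f)
    {dr : (Fin 4 → Bool) → Fin 4} (hd : ∀ v, f v = flip (dr v) v) {T : ℕ} {cl : ℕ → Bool}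
    {x : Fin 4 → Bool}
    (hT : ∀ v, Nat.beq (Nat.lor (2 ^ (dr v).1) (2 ^ (dr (f v)).1))
      (srchTbl T (code (f v)).1) = false)
    (hcl : cl (Nat.lor (2 ^ (dr (f^[15] x)).1) (2 ^ (dr x).1)) = true) :
    srchRun T cl (code x).1 (2 ^ (dr x).1) = true := by
  have h1 := srch_sound hf hd hT hcl 14 0
    (Nat.lor (Nat.shiftLeft 1 (code x).1) (Nat.shiftLeft 1 (code (f x)).1)) rfl (by
      intro v hv
      rw [bit_lor, Bool.or_eq_true, decide_eq_true_eq] at hv
      rcases hv with hv | hv
      · have h2 : (Nat.shiftLeft 1 (code x).1).testBit (code v).1 = true := hv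
        change (1 <<< (code x).1).testBit (code v).1 = true at h2
        rw [Nat.one_shiftLeft, Nat.testBit_two_pow, decide_eq_true_eq] at h2
        exact ⟨0, by omega, code_inj _ _ h2⟩
      · exact ⟨1, le_rfl, code_inj _ _ hv⟩)
  have h2 : (code (f x)).1 = Nat.xor (code x).1 (2 ^ (dr x).1) := by
    rw [hd x, code_flip]
  have h3 : f^[0 + 1] x = f x := rfl
  rw [h3, h2] at h1
  exact h1

/-- the directions of a Hamilton cycle of the cube -/
theorem exists_cubeDir {f : (Fin 4 → Bool) → (Fin 4 → Bool)} (hf : HamMap (cube 4) f) :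
    ∃ dr : (Fin 4 → Bool) → Fin 4, ∀ v, f v = flip (dr v) v := by
  choose dr hdr using fun v => cube_adj_iff.1 (hf.adj v)
  exact ⟨dr, hdr⟩

theorem uses_of_lor {f : (Fin 4 → Bool) → (Fin 4 → Bool)} {dr : (Fin 4 → Bool) → Fin 4}
    (hd : ∀ v, f v = flip (dr v) v) {b : Fin 4 → Bool} {m : Fin 4 × Fin 4} (hm : m.1 ≠ m.2)
    (h : Nat.lor (2 ^ (dr b).1) (2 ^ (dr (f b)).1) = Nat.lor (2 ^ m.1.1) (2 ^ m.2.1)) :
    Uses f b m := by
  have h1 : b = flip (dr b) (f b) := by
    rw [hd b, flip_flip]
  rcases lor_pair _ _ _ _ hm h with ⟨h2, h3⟩ | ⟨h2, h3⟩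
  · left
    refine ⟨?_, ?_⟩
    · rw [← h2]
      exact h1
    · rw [← h3]
      exact hd (f b)
  · right
    refine ⟨?_, ?_⟩
    · rw [← h2]
      exact h1
    · rw [← h3]
      exact hd (f b)

/-- PACKAGE Z3a. Depth first search over the directions, from the vertex with number 2: 4137 nodes
(start 0: more). -/
theorem cube_outer {f : (Fin 4 → Bool) → (Fin 4 → Bool)} (hf : HamMap (cube 4) f) :
    ∃ b, Uses f b (outM (f b)) := by
  by_contra hno
  obtain ⟨dr, hd⟩ := exists_cubeDir hf
  have hT : ∀ v, Nat.beq (Nat.lor (2 ^ (dr v).1) (2 ^ (dr (f v)).1))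
      (srchTbl outT (code (f v)).1) = false := by
    intro v
    obtain ⟨h1, h2⟩ := out_tbl (f v)
    by_contra hne
    rw [Bool.not_eq_false, Nat.beq_eq, h2] at hne
    exact hno ⟨v, uses_of_lor hd h1 hne⟩
  obtain ⟨x, hx⟩ : ∃ x : Fin 4 → Bool, x = ![false, true, false, false] := ⟨_, rfl⟩
  have hcx : (code x).1 = 2 := by
    rw [hx]
    decide
  have hit := (orbit_cube hf x).2
  have hrun := run_sound (cl := fun p => not (Nat.beq p 5)) (x := x) hf hd hT (by
    have h1 := hT (f^[15] x)
    rw [← Function.iterate_succ_apply' f, hit, hcx] at h1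
    have h2 : srchTbl outT 2 = 5 := by decide +kernel
    rw [h2] at h1
    change not (Nat.beq (Nat.lor (2 ^ (dr (f^[15] x)).1) (2 ^ (dr x).1)) 5) = true
    rw [h1]
    rfl)
  rw [hcx] at hrun
  generalize dr x = i at hrun
  fin_cases i
  · exact absurd (hrun.symm.trans run_out1) (by decide)
  · exact absurd (hrun.symm.trans run_out2) (by decide)
  · exact absurd (hrun.symm.trans run_out4) (by decide)
  · exact absurd (hrun.symm.trans run_out8) (by decide)

/-- PACKAGE Z3b. Depth first search from `r1`, first direction 2 and last direction 3 or the other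
way round (8143 nodes each; or use the reversed cycle). -/
theorem cube_inner {g : (Fin 4 → Bool) → (Fin 4 → Bool)} (hg : HamMap (cube 4) g)
    {b : Fin 4 → Bool} (hb : g b = r1) (hu : Uses g b (2, 3)) :
    ∃ c, ¬ Even (wt (g c)) ∧ g c ≠ r1 ∧ Uses g c (innM (g c)) := by
  by_contra hno
  obtain ⟨dr, hd⟩ := exists_cubeDir hg
  have hT : ∀ v, Nat.beq (Nat.lor (2 ^ (dr v).1) (2 ^ (dr (g v)).1))
      (srchTbl innT (code (g v)).1) = false := by
    intro v
    by_contra hne
    rw [Bool.not_eq_false, Nat.beq_eq] at hne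
    rcases inn_tbl (g v) with h1 | ⟨h1, h2, h3, h4⟩
    · rw [h1] at hne
      exact lor_ne _ _ hne
    · rw [h4] at hne
      exact hno ⟨v, h1, h2, uses_of_lor hd h3 hne⟩
  have hcx : (code r1).1 = 1 := by decide
  have hit := (orbit_cube hg r1).2
  have hb15 : b = g^[15] r1 := by
    apply hg.inj
    rw [hb, ← Function.iterate_succ_apply' g]
    exact hit.symm
  have hdirs : (dr b = 2 ∧ dr r1 = 3) ∨ (dr b = 3 ∧ dr r1 = 2) := by
    have h1 : flip (dr b) b = r1 := by
      rw [← hd, hb]
    have h2 : flip (dr r1) r1 = g r1 := (hd r1).symm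
    rcases hu with ⟨hu1, hu2⟩ | ⟨hu1, hu2⟩
    · rw [hb] at hu1 hu2
      have h3 : flip 2 b = r1 := by
        rw [hu1]
        exact flip_flip 2 r1
      left
      refine ⟨?_, ?_⟩
      · apply flip_inj (x := b)
        rw [h1, h3]
      · apply flip_inj (x := r1)
        rw [h2, hu2]
    · rw [hb] at hu1 hu2
      have h3 : flip 3 b = r1 := by
        rw [hu1]
        exact flip_flip 3 r1
      right
      refine ⟨?_, ?_⟩
      · apply flip_inj (x := b)
        rw [h1, h3]
      · apply flip_inj (x := r1)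
        rw [h2, hu2]
  have hrun := run_sound (cl := fun p => Nat.beq p 12) (x := r1) hg hd hT (by
    change Nat.beq (Nat.lor (2 ^ (dr (g^[15] r1)).1) (2 ^ (dr r1).1)) 12 = true
    rw [← hb15]
    rcases hdirs with ⟨h1, h2⟩ | ⟨h1, h2⟩
    · rw [h1, h2]
      decide
    · rw [h1, h2]
      decide)
  rw [hcx] at hrun
  rcases hdirs with ⟨-, h2⟩ | ⟨-, h2⟩
  · rw [h2] at hrun
    exact absurd (hrun.symm.trans run_inn8) (by decide)
  · rw [h2] at hrun
    exact absurd (hrun.symm.trans run_inn4) (by decide)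

end FewFacets
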