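import Mathlib

/-!
The graph of a convex polytope.
-/

namespace FewFacets

/-- The graph of a convex polytope `P`: the vertices are the extreme points of `P`, two
different ones being adjacent if the segment between them is an extreme subset (an edge)
of `P`. -/
def polytopeGraph {E : Type*} [AddCommGroup E] [Module ℝ E] (P : Set E) :
    SimpleGraph (P.extremePoints ℝ) where
  Adj x y := x ≠ y ∧ IsExtreme ℝ P (segment ℝ (x : E) (y : E))
  symm := ⟨fun x y h => ⟨h.1.symm, by rw [segment_symm]; exact h.2⟩⟩
  loopless := ⟨fun x h => h.1 rfl⟩

end FewFacets
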