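import Pool.Agent.FewFacets.Trunc

/-!
The Hamiltonian cycle of a simple polytope all but `d + 3` of whose facets are simplices.
-/

set_option linter.unusedSectionVars false

namespace FewFacets

open Finset

variable {E : Type*} [NormedAddCommGroup E] [NormedSpace ℝ E] [FiniteDimensional ℝ E]
  {ι : Type*} [Fintype ι] [LinearOrder ι] {f : ι → E →ₗ[ℝ] ℝ} {b : ι → ℝ} {d K : ℕ}
  {J : Finset ι} {S : ι → Finset ι}

/-- relations vanishing where a minimal one does are proportional to it -/
lemma TData.prop (H : TData f b d K J S) {x z : ι → ℝ} (hx : InW f b x)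
    (hJ : ∀ j ∈ J, 0 ≤ x j) (h3 : (J.filter (fun j => x j ≠ 0)).card = 3)
    (hz : InW f b z) (hz0 : ∀ j ∈ J, x j = 0 → z j = 0) : ∃ t : ℝ, ∀ j, z j = t * x j := by
  have hne : (J.filter (fun j => x j ≠ 0)).Nonempty := by rw [← card_pos, h3]; norm_num
  have hpos : ∀ j ∈ J.filter (fun j => x j ≠ 0), 0 < x j := by
    intro j hj
    rw [mem_filter] at hj
    exact lt_of_le_of_ne (hJ j hj.1) (Ne.symm hj.2)
  obtain ⟨j0, hj0, hmin⟩ := exists_min_image _ (fun j => z j / x j) hne
  set t := z j0 / x j0 with ht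
  refine ⟨t, ?_⟩
  by_contra hcon
  push Not at hcon
  have h1 : 3 ≤ (J.filter (fun j => z j - t * x j ≠ 0)).card :=
    H.three (hz.sub_smul hx t) (fun j hj => by
    by_cases h : x j = 0
    · simp only [h, hz0 j hj h]; simp
    · have hjm : j ∈ J.filter (fun j => x j ≠ 0) := mem_filter.2 ⟨hj, h⟩
      have h2 := hmin j hjm
      rw [le_div_iff₀ (hpos j hjm)] at h2
      show 0 ≤ z j - t * x j
      linarith) (by
    obtain ⟨j, hj⟩ := hcon
    exact ⟨j, fun h => hj (by
      have h' : z j - t * x j = 0 := h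
      linarith)⟩)
  have hsub : J.filter (fun j => z j - t * x j ≠ 0) ⊆
      (J.filter (fun j => x j ≠ 0)).erase j0 := by
    intro j hj
    rw [mem_filter] at hj
    obtain ⟨hjJ, hj⟩ := hj
    have hj' : z j - t * x j ≠ 0 := hj
    refine mem_erase.2 ⟨?_, mem_filter.2 ⟨hjJ, ?_⟩⟩
    · rintro rfl
      apply hj'
      rw [ht, div_mul_cancel₀ _ (hpos j hj0).ne', sub_self]
    · intro h
      apply hj'
      rw [h, hz0 j hjJ h]; simp
  have h2 := card_le_card hsub
  rw [card_erase_of_mem hj0, h3] at h2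
  omega

/-- a vertex has only one neighbour on each edge line -/
lemma TData.port_unique (H : TData f b d K J S) {x x' x'' : ι → ℝ} {Z Z' Z'' : Finset ι}
    (hx : InW f b x) (hx' : InW f b x') (hx'' : InW f b x'')
    (h0 : ∀ j ∈ J, 0 ≤ x j) (h0' : ∀ j ∈ J, 0 ≤ x' j) (h0'' : ∀ j ∈ J, 0 ≤ x'' j)
    (hZ : J.filter (fun j => x j = 0) = Z) (hZ' : J.filter (fun j => x' j = 0) = Z')
    (hZ'' : J.filter (fun j => x'' j = 0) = Z'') (hc : Z.card = d) (hc' : Z'.card = d)
    (hc'' : Z''.card = d) (hi : (Z ∩ Z').card + 1 = d) (he : Z ∩ Z' = Z ∩ Z'')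
    (hne : Z' ≠ Z'') : False := by
  have hJc := H.hJ
  have h3 : (J.filter (fun j => x j ≠ 0)).card = 3 := by
    have hsplit := card_filter_add_card_filter_not (s := J) (fun j => x j = 0)
    have h3' : (J.filter (fun j => ¬ x j = 0)).card = (J.filter (fun j => x j ≠ 0)).card := rfl
    rw [hZ] at hsplit
    omega
  -- the elements
  have hex : ∀ X Y : Finset ι, X.card = d → (X ∩ Y).card + 1 = d → ∃ u ∈ X, u ∉ Y := by
    intro X Y hX hXY
    by_contra hcon
    push Not at hcon
    rw [inter_eq_left.2 hcon] at hXY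
    omega
  obtain ⟨a, haZ, haZ'⟩ := hex Z Z' hc hi
  have haZ'' : a ∉ Z'' := fun h => haZ' (mem_inter.1 (he ▸ mem_inter.2 ⟨haZ, h⟩)).2
  obtain ⟨c', hc'Z', hc'Z⟩ := hex Z' Z hc' (by rw [inter_comm]; exact hi)
  obtain ⟨c'', hc''Z'', hc''Z⟩ := hex Z'' Z hc'' (by rw [inter_comm, ← he]; exact hi)
  have hY' : insert c' (Z ∩ Z') = Z' := by
    refine eq_of_subset_of_card_le (insert_subset hc'Z' inter_subset_right) ?_
    rw [card_insert_of_notMem (fun h => hc'Z (mem_inter.1 h).1)]
    omega
  have hY'' : insert c'' (Z ∩ Z') = Z'' := by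
    refine eq_of_subset_of_card_le (insert_subset hc''Z'' (he ▸ inter_subset_right)) ?_
    rw [card_insert_of_notMem (fun h => hc''Z (mem_inter.1 h).1)]
    omega
  have hcc : c' ≠ c'' := by
    rintro rfl
    exact hne (hY'.symm.trans hY'')
  have hc'Z'' : c' ∉ Z'' := by
    rw [← hY'', mem_insert, not_or]
    exact ⟨hcc, fun h => hc'Z (mem_inter.1 h).1⟩
  have hc''Z' : c'' ∉ Z' := by
    rw [← hY', mem_insert, not_or]
    exact ⟨hcc.symm, fun h => hc''Z (mem_inter.1 h).1⟩
  have hJa : a ∈ J := by rw [← hZ] at haZ; exact (mem_filter.1 haZ).1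
  have hJc' : c' ∈ J := by rw [← hZ'] at hc'Z'; exact (mem_filter.1 hc'Z').1
  have hJc'' : c'' ∈ J := by rw [← hZ''] at hc''Z''; exact (mem_filter.1 hc''Z'').1
  have pos_of : ∀ (y : ι → ℝ) (Y : Finset ι), (∀ j ∈ J, 0 ≤ y j) →
      J.filter (fun j => y j = 0) = Y → ∀ j ∈ J, j ∉ Y → 0 < y j := by
    intro y Y hy hY j hj hjY
    refine lt_of_le_of_ne (hy j hj) fun h => hjY ?_
    rw [← hY]
    exact mem_filter.2 ⟨hj, h.symm⟩
  have zero_of : ∀ (y : ι → ℝ) (Y : Finset ι),
      J.filter (fun j => y j = 0) = Y → ∀ j ∈ Y, y j = 0 := by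
    intro y Y hY j hj
    rw [← hY] at hj
    exact (mem_filter.1 hj).2
  have pa' := pos_of x' Z' h0' hZ' a hJa haZ'
  have pa'' := pos_of x'' Z'' h0'' hZ'' a hJa haZ''
  set β := x'' a / x' a with hβ
  have hβ0 : 0 < β := div_pos pa'' pa'
  obtain ⟨t, ht⟩ := H.prop hx h0 h3 (hx''.sub_smul hx' β) (by
    intro j hj hxj
    show x'' j - β * x' j = 0
    have hjZ : j ∈ Z := by rw [← hZ]; exact mem_filter.2 ⟨hj, hxj⟩
    by_cases hja : j = a
    · rw [hja, hβ, div_mul_cancel₀ _ pa'.ne', sub_self]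
    · have hjZ' : j ∈ Z ∩ Z' := by
        by_contra hcon
        have h1 : insert j (insert a (Z ∩ Z')) ⊆ Z :=
          insert_subset hjZ (insert_subset haZ inter_subset_left)
        have h2 := card_le_card h1
        rw [card_insert_of_notMem, card_insert_of_notMem
          (fun h => haZ' (mem_inter.1 h).2)] at h2
        · omega
        · rw [mem_insert, not_or]; exact ⟨hja, hcon⟩
      have hjZ'' : j ∈ Z'' := (mem_inter.1 (he ▸ hjZ')).2
      rw [zero_of x' Z' hZ' j (mem_inter.1 hjZ').2, zero_of x'' Z'' hZ'' j hjZ'']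
      simp)
  have e1 : x'' c' - β * x' c' = t * x c' := ht c'
  have e2 : x'' c'' - β * x' c'' = t * x c'' := ht c''
  rw [zero_of x' Z' hZ' c' hc'Z'] at e1
  rw [zero_of x'' Z'' hZ'' c'' hc''Z''] at e2
  have p1 := pos_of x'' Z'' h0'' hZ'' c' hJc' hc'Z''
  have p2 := pos_of x' Z' h0' hZ' c'' hJc'' hc''Z'
  have p3 := pos_of x Z h0 hZ c' hJc' hc'Z
  have p4 := pos_of x Z h0 hZ c'' hJc'' hc''Z
  have t1 : 0 < t := by
    have : 0 < t * x c' := by rw [← e1]; linarith
    exact (pos_iff_pos_of_mul_pos this).2 p3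
  have t2 : t * x c'' < 0 := by
    rw [← e2]
    have := mul_pos hβ0 p2
    linarith
  have := mul_pos t1 p4
  linarith

/-- the list of a cyclic enumeration of alternating triples has length at least three -/
lemma gfam_len {κ : Type*} [Fintype κ] [LinearOrder κ] {g : κ → ℝ} {c : κ → Bool}
    {l : List (Finset κ)} (hl : Cyc (Gfam g c) l) {T0 : Finset κ} (hT0 : T0 ∈ Gfam g c)
    (hκ : 5 ≤ Fintype.card κ) : 3 ≤ l.length := by
  have h2 : 2 ≤ (T0)ᶜ.card := by
    rw [card_compl, gfam_card hT0]; omega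
  obtain ⟨m1, m2, hm1, hm2, hm⟩ := one_lt_card_iff.1 h2
  rw [mem_compl] at hm1 hm2
  obtain ⟨T1, hT1, hm1', hs1⟩ := gfam_nb hT0 hm1
  obtain ⟨T2, hT2, hm2', hs2⟩ := gfam_nb hT0 hm2
  have h01 : T0 ≠ T1 := fun h => hm1 (h ▸ hm1')
  have h02 : T0 ≠ T2 := fun h => hm2 (h ▸ hm2')
  have h12 : T1 ≠ T2 := by
    intro h
    have : m2 ∈ insert m1 T0 := hs1 (h ▸ hm2')
    rcases mem_insert.1 this with h' | h'
    · exact hm h'.symm
    · exact hm2 h'
  have hsub : ({T0, T1, T2} : Finset (Finset κ)) ⊆ l.toFinset := by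
    intro T hT
    simp only [mem_insert, mem_singleton] at hT
    rw [List.mem_toFinset, hl.mem]
    rcases hT with rfl | rfl | rfl
    · exact hT0
    · exact hT1
    · exact hT2
  have h3 := card_le_card hsub
  rw [card_insert_of_notMem (by simp [h01, h02]), card_pair h12,
    List.toFinset_card_of_nodup hl.nodup] at h3
  exact h3

lemma head_ne_last {α : Type*} {l : List α} (hnd : l.Nodup) (h : 3 ≤ l.length) {x y : α}
    (hx : x ∈ l.getLast?) (hy : y ∈ l.head?) : x ≠ y := by
  rintro rfl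
  obtain ⟨a, b', c', rest, hlr⟩ : ∃ a b' c' rest, l = a :: b' :: c' :: rest := by
    match l, h with
    | a :: b' :: c' :: rest, _ => exact ⟨a, b', c', rest, rfl⟩
  rw [hlr] at hx hy hnd
  simp only [List.head?_cons, Option.mem_def, Option.some.injEq] at hy
  subst hy
  rw [List.getLast?_cons_cons] at hx
  have := List.mem_of_mem_getLast? hx
  exact (List.nodup_cons.1 hnd).1 this

/-- neighbouring sets of active inequalities -/
def RR (d : ℕ) (A A' : Finset ι) : Prop := (A ∩ A').card + 1 = d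

open Classical in
/-- the vertices belonging to a triple -/
noncomputable def BB (f : ι → E →ₗ[ℝ] ℝ) (b : ι → ℝ) (d : ℕ) (J : Finset ι)
    (S : ι → Finset ι) (T : Finset {x // x ∈ J}) : Finset (Finset ι) :=
  (vert f b d).filter (fun A => A = NN J T ∨ ∃ i, i ∉ J ∧ i ∈ A ∧ NN J T = (S i).erase i)

open Classical in
/-- the vertex of the first triple next to the second one -/
noncomputable def PP (J : Finset ι) (S : ι → Finset ι) (T T' : Finset {x // x ∈ J}) :
    Finset ι :=
  if h : ∃ i, i ∉ J ∧ NN J T = (S i).erase i then insert h.choose (NN J T ∩ NN J T')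
  else NN J T

lemma mem_BB {T : Finset {x // x ∈ J}} {A : Finset ι} : A ∈ BB f b d J S T ↔
    A ∈ vert f b d ∧ (A = NN J T ∨ ∃ i, i ∉ J ∧ i ∈ A ∧ NN J T = (S i).erase i) := by
  classical
  simp [BB]

lemma TData.disj (H : TData f b d K J S) {T T' : Finset {x // x ∈ J}} (hne : T ≠ T') :
    Disjoint (BB f b d J S T) (BB f b d J S T') := by
  rw [disjoint_left]
  intro A h1 h2
  rw [mem_BB] at h1 h2
  apply hne
  apply NN_inj
  obtain ⟨hA, h1⟩ := h1
  obtain ⟨-, h2⟩ := h2
  rcases h1 with h1 | ⟨i, hi, hiA, h1⟩ <;> rcases h2 with h2 | ⟨i', hi', hiA', h2⟩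
  · rw [← h1, h2]
  · exfalso
    rw [h1] at hiA'
    exact hi' (NN_sub hiA')
  · exfalso
    rw [h2] at hiA
    exact hi (NN_sub hiA)
  · have hii : i = i' := by
      by_contra hne
      obtain ⟨a, ha, hAa⟩ := H.of_mem hi hA hiA
      have : i' ∈ (S i).erase i := by
        rw [hAa] at hiA'
        exact mem_erase.2 ⟨Ne.symm hne, (mem_erase.1 hiA').2⟩
      exact hi' (H.sub hi this)
    rw [h1, h2, hii]

lemma TData.clique (H : TData f b d K J S) {T : Finset {x // x ∈ J}} {A A' : Finset ι}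
    (hA : A ∈ BB f b d J S T) (hA' : A' ∈ BB f b d J S T) (hne : A ≠ A') : RR d A A' := by
  rw [mem_BB] at hA hA'
  obtain ⟨hAv, hA⟩ := hA
  obtain ⟨hAv', hA'⟩ := hA'
  rcases hA with hA | ⟨i, hi, hiA, h1⟩ <;> rcases hA' with hA' | ⟨i', hi', hiA', h2⟩
  · exact absurd (hA.trans hA'.symm) hne
  · exfalso
    rw [hA, h2] at hAv
    exact H.not_vert hi' hAv
  · exfalso
    rw [hA', h1] at hAv'
    exact H.not_vert hi hAv'
  · have hii : i = i' := H.inj hi hi' (h1.symm.trans h2)
    subst hii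
    obtain ⟨a, ha, rfl⟩ := H.of_mem hi hAv hiA
    obtain ⟨a', ha', rfl⟩ := H.of_mem hi hAv' hiA'
    have haa : a ≠ a' := fun h => hne (by rw [h])
    have haS := (mem_erase.1 ha).2
    have haS' := (mem_erase.1 ha').2
    have : (S i).erase a ∩ (S i).erase a' = ((S i).erase a).erase a' := by
      ext m
      simp only [mem_inter, mem_erase]
      tauto
    show ((S i).erase a ∩ (S i).erase a').card + 1 = d
    rw [this, card_erase_of_mem (mem_erase.2 ⟨haa.symm, haS'⟩), card_erase_of_mem haS,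
      H.hSc i hi]
    have := H.hd
    omega

/-- ports are in the block and contain the common part -/
lemma TData.port_mem (H : TData f b d K J S) {T T' : Finset {x // x ∈ J}}
    (hT : NN J T ∈ vert f b d ∨ ∃ i, i ∉ J ∧ NN J T = (S i).erase i)
    (hc : (NN J T).card = d) (hi : (NN J T ∩ NN J T').card + 1 = d) :
    PP J S T T' ∈ BB f b d J S T ∧ NN J T ∩ NN J T' ⊆ PP J S T T' := by
  unfold PP
  split_ifs with h
  · obtain ⟨hi1, hi2⟩ := h.choose_spec
    set i := h.choose with hidef
    refine ⟨?_, subset_insert _ _⟩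
    -- the missing element
    obtain ⟨a, ha, ha'⟩ : ∃ a ∈ NN J T, a ∉ NN J T' := by
      by_contra hcon
      push Not at hcon
      rw [inter_eq_left.2 hcon] at hi
      omega
    have haS : a ∈ (S i).erase i := hi2 ▸ ha
    have heq : insert i (NN J T ∩ NN J T') = (S i).erase a := by
      refine eq_of_subset_of_card_le ?_ ?_
      · refine insert_subset (mem_erase.2 ⟨fun h => (mem_erase.1 haS).1 h.symm,
          H.hSi i hi1⟩) ?_
        intro m hm
        have h1 := (mem_inter.1 hm).1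
        rw [hi2] at h1
        exact mem_erase.2 ⟨fun h => ha' (h ▸ (mem_inter.1 hm).2), (mem_erase.1 h1).2⟩
      · rw [card_insert_of_notMem, card_erase_of_mem (mem_erase.1 haS).2, H.hSc i hi1]
        · omega
        · intro hm
          have h1 := (mem_inter.1 hm).1
          rw [hi2] at h1
          exact (mem_erase.1 h1).1 rfl
    rw [mem_BB]
    refine ⟨?_, Or.inr ⟨i, hi1, mem_insert_self _ _, hi2⟩⟩
    rw [heq]
    exact H.erase_mem hi1 haS
  · rcases hT with hT | hT
    · exact ⟨mem_BB.2 ⟨hT, Or.inl rfl⟩, inter_subset_left⟩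
    · exact absurd hT h

/-- the Hamiltonian cycle -/
theorem TData.main (H : TData f b d K J S) (hcompact : IsCompact (Poly f b))
    [DecidableEq ((Poly f b).extremePoints ℝ)] :
    ∃ v, ∃ p : (polytopeGraph (Poly f b)).Walk v v, p.IsHamiltonianCycle := by
  classical
  have hd := H.hd
  have hJ := H.hJ
  obtain ⟨g, c, hgc⟩ := H.planar
  -- facts on the members of the family
  have hNc : ∀ T ∈ Gfam g c, (NN J T).card = d := fun T hT => NN_card hJ (gfam_card hT)
  have hcls : ∀ T ∈ Gfam g c, NN J T ∈ vert f b d ∨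
      ∃ i, i ∉ J ∧ NN J T = (S i).erase i := by
    intro T hT
    obtain ⟨h3, x, hx, hxJ, hxT⟩ := (hgc T).1 hT
    have hsplit := card_filter_add_card_filter_not (s := J) (fun j => x j = 0)
    have h4 : (J.filter (fun j => ¬ x j = 0)).card =
      (J.filter (fun j => x j ≠ 0)).card := rfl
    have h5 := hNc T hT
    rw [hxT] at hsplit
    have := H.classify hx hxJ (by omega)
    rwa [hxT] at this
  have hof : ∀ (x : ι → ℝ) (Z : Finset ι), InW f b x → (∀ j ∈ J, 0 ≤ x j) →
      J.filter (fun j => x j = 0) = Z → Z.card = d → ∃ T ∈ Gfam g c, NN J T = Z := by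
    intro x Z hx hxJ hxZ hZ
    have hZJ : Z ⊆ J := by rw [← hxZ]; exact filter_subset _ _
    have hNN : NN J (univ.filter (fun j : {x // x ∈ J} => j.1 ∉ Z)) = Z := by
      ext j
      rw [mem_NN]
      constructor
      · rintro ⟨h1, h2⟩
        by_contra h3
        exact h2 (mem_filter.2 ⟨mem_univ _, h3⟩)
      · intro h1
        exact ⟨hZJ h1, fun h2 => (mem_filter.1 h2).2 h1⟩
    refine ⟨univ.filter (fun j : {x // x ∈ J} => j.1 ∉ Z), ?_, hNN⟩
    rw [hgc]
    refine ⟨?_, x, hx, hxJ, by rw [hxZ, hNN]⟩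
    have h1 : (univ.filter (fun j : {x // x ∈ J} => j.1 ∉ Z)).map
        (Function.Embedding.subtype (fun x => x ∈ J)) = J \ Z := by
      ext j
      rw [mem_map, mem_sdiff]
      constructor
      · rintro ⟨⟨j', hj'⟩, h, e⟩
        have e' : j' = j := e
        subst e'
        exact ⟨hj', (mem_filter.1 h).2⟩
      · rintro ⟨h1, h2⟩
        exact ⟨⟨j, h1⟩, mem_filter.2 ⟨mem_univ _, h2⟩, rfl⟩
    have h2 := congrArg card h1
    rw [card_map, card_sdiff_of_subset hZJ, hJ, hZ] at h2
    omega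
  -- every vertex is in a block
  have hcov : ∀ A ∈ vert f b d, ∃ T ∈ Gfam g c, A ∈ BB f b d J S T := by
    intro A hA
    by_cases hAJ : A ⊆ J
    · obtain ⟨hAc, q, hq, hqA⟩ := mem_vert.1 hA
      obtain ⟨T, hT, hTA⟩ := hof (fun j => b j - f j q) A (InW.slack q)
        (fun j _ => by linarith [hq j]) (by
          ext j
          rw [mem_filter, ← hqA, mem_act]
          constructor
          · rintro ⟨_, h⟩; linarith
          · intro h
            refine ⟨hAJ ?_, by linarith⟩
            rw [← hqA, mem_act]; exact h) hAc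
      exact ⟨T, hT, mem_BB.2 ⟨hA, Or.inl hTA.symm⟩⟩
    · obtain ⟨i, hiA, hiJ⟩ := not_subset.1 hAJ
      obtain ⟨r, hr, hri, hr0⟩ := H.apex hiJ
      have hpos : ∀ j ∉ S i, 0 < r j := fun j hj =>
        H.pos_outside hiJ hr (by rw [hri]; norm_num) (fun a ha => (hr0 a ha).ge) hj
      obtain ⟨T, hT, hTA⟩ := hof r ((S i).erase i) hr (fun j hj => by
          by_cases hjS : j ∈ S i
          · exact (hr0 j (mem_erase.2 ⟨fun h => hiJ (h ▸ hj), hjS⟩)).ge
          · exact (hpos j hjS).le) (by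
          ext j
          rw [mem_filter]
          constructor
          · rintro ⟨hj, h⟩
            refine mem_erase.2 ⟨fun h' => hiJ (h' ▸ hj), ?_⟩
            by_contra hjS
            linarith [hpos j hjS]
          · intro h
            exact ⟨H.sub hiJ h, hr0 j h⟩) (by
          rw [card_erase_of_mem (H.hSi i hiJ), H.hSc i hiJ]; rfl)
      exact ⟨T, hT, mem_BB.2 ⟨hA, Or.inr ⟨i, hiJ, hiA, hTA⟩⟩⟩
  -- a vertex exists
  obtain ⟨q0, hq0⟩ := hcompact.extremePoints_nonempty H.D.ne
  have hcardE : Fintype.card ι = Module.finrank ℝ E + K := by rw [H.hcard, H.hE]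
  have hvert_of : ∀ q ∈ (Poly f b).extremePoints ℝ, act f b q ∈ vert f b d := by
    intro q hq
    rw [mem_vert]
    refine ⟨?_, q, hq.1, rfl⟩
    have h1 := H.D.card_of_extreme hcardE hq
    have h2 := act_card_add (f := f) (b := b) q
    have h3 := H.hcard
    omega
  obtain ⟨T0, hT0, -⟩ := hcov _ (hvert_of q0 hq0)
  obtain ⟨l, hl⟩ := gfam_cyc g c ⟨T0, hT0⟩
  have hlen := gfam_len hl hT0 (by rw [Fintype.card_coe, hJ]; omega)
  have hmem : ∀ T, T ∈ l → T ∈ Gfam g c := fun T => (hl.mem T).1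
  have hint : ∀ T ∈ l, ∀ T' ∈ l, Nb T T' → (NN J T ∩ NN J T').card + 1 = d :=
    fun T hT T' hT' h => NN_inter_card hJ (by omega) (gfam_card (hmem T hT))
      (gfam_card (hmem T' hT')) h
  obtain ⟨m, hm1, hm2, hm3, hm4, hm5⟩ := subst (R := RR d) (Nb := Nb)
    (fun u v h => by unfold RR at *; rwa [inter_comm])
    (fun _ _ h => h.symm) l hl.nodup hlen hl.chain
    (fun x hx y hy => (hl.close x hx y hy).resolve_left (head_ne_last hl.nodup hlen hx hy))
    (BB f b d J S)
    (fun x _ y _ hxy => H.disj hxy)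
    (fun x _ u hu v hv huv => H.clique hu hv huv)
    (PP J S)
    (fun x hx y hy _ h =>
      (H.port_mem (hcls x (hmem x hx)) (hNc x (hmem x hx)) (hint x hx y hy h)).1)
    (fun x hx y hy hxy h => by
      obtain ⟨h1, h2⟩ :=
        H.port_mem (hcls x (hmem x hx)) (hNc x (hmem x hx)) (hint x hx y hy h)
      obtain ⟨h3, h4⟩ :=
        H.port_mem (hcls y (hmem y hy)) (hNc y (hmem y hy)) (hint y hy x hx h.symm)
      rw [inter_comm] at h4
      have hne : PP J S x y ≠ PP J S y x := by
        intro e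
        rw [← e] at h3
        exact disjoint_left.1 (H.disj hxy) h1 h3
      have hc1 := (mem_vert.1 (mem_BB.1 h1).1).1
      have hc2 := (mem_vert.1 (mem_BB.1 h3).1).1
      have hle : (NN J x ∩ NN J y).card ≤ (PP J S x y ∩ PP J S y x).card :=
        card_le_card (subset_inter h2 h4)
      have hlt : (PP J S x y ∩ PP J S y x).card < d := by
        by_contra hcon
        rw [not_lt] at hcon
        have e1 : PP J S x y ∩ PP J S y x = PP J S x y :=
          eq_of_subset_of_card_le inter_subset_left (by omega)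
        have e2 : PP J S x y ∩ PP J S y x = PP J S y x :=
          eq_of_subset_of_card_le inter_subset_right (by omega)
        exact hne (e1.symm.trans e2)
      have := hint x hx y hy h
      show (PP J S x y ∩ PP J S y x).card + 1 = d
      omega)
    (fun x hx y hy z hz hxy hxz hyz h1 h2 he => by
      by_cases hS : ∃ i, i ∉ J ∧ NN J x = (S i).erase i
      · exfalso
        have e1 : PP J S x y = insert hS.choose (NN J x ∩ NN J y) := by
          unfold PP; rw [dif_pos hS]
        have e2 : PP J S x z = insert hS.choose (NN J x ∩ NN J z) := by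
          unfold PP; rw [dif_pos hS]
        have hnot : ∀ w, hS.choose ∉ NN J x ∩ NN J w := fun w h =>
          hS.choose_spec.1 (NN_sub (mem_inter.1 h).1)
        have e3 : NN J x ∩ NN J y = NN J x ∩ NN J z := by
          rw [e1, e2] at he
          have := congrArg (fun X => X.erase hS.choose) he
          rwa [erase_insert (hnot y), erase_insert (hnot z)] at this
        obtain ⟨-, u, hu, huJ, hux⟩ := (hgc x).1 (hmem x hx)
        obtain ⟨-, v, hv, hvJ, hvy⟩ := (hgc y).1 (hmem y hy)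
        obtain ⟨-, w, hw, hwJ, hwz⟩ := (hgc z).1 (hmem z hz)
        exact H.port_unique hu hv hw huJ hvJ hwJ hux hvy hwz (hNc x (hmem x hx))
          (hNc y (hmem y hy)) (hNc z (hmem z hz)) (hint x hx y hy h1) e3
          (fun e => hyz (NN_inj e))
      · have hV := (hcls x (hmem x hx)).resolve_right hS
        rw [card_eq_one]
        refine ⟨NN J x, ?_⟩
        ext A
        rw [mem_BB, mem_singleton]
        constructor
        · rintro ⟨_, h | ⟨i, hi, _, h⟩⟩
          · exact h
          · exact absurd ⟨i, hi, h⟩ hS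
        · rintro rfl
          exact ⟨hV, Or.inl rfl⟩)
  have hmv : ∀ A, A ∈ m ↔ A ∈ vert f b d := by
    intro A
    rw [hm2]
    constructor
    · rintro ⟨T, _, h⟩; exact (mem_BB.1 h).1
    · intro h
      obtain ⟨T, hT, hA⟩ := hcov A h
      exact ⟨T, (hl.mem T).2 hT, hA⟩
  -- the vertex of a set of active inequalities
  have hver : ∀ A ∈ vert f b d, ∃ q : (Poly f b).extremePoints ℝ, act f b q.1 = A := by
    intro A hA
    obtain ⟨hAc, q, hq, hqA⟩ := mem_vert.1 hA
    exact ⟨⟨q, H.D.extreme hq (H.D.supp_card H.hcard hAc hqA)⟩, hqA⟩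
  let ψ : Finset ι → (Poly f b).extremePoints ℝ := fun A =>
    if h : A ∈ vert f b d then (hver A h).choose else ⟨q0, hq0⟩
  have hψ : ∀ A ∈ vert f b d, act f b (ψ A).1 = A := by
    intro A hA
    have : ψ A = (hver A hA).choose := by simp [ψ, hA]
    rw [this]
    exact (hver A hA).choose_spec
  have hadj : ∀ A ∈ vert f b d, ∀ A' ∈ vert f b d, RR d A A' →
      (polytopeGraph (Poly f b)).Adj (ψ A) (ψ A') := by
    intro A hA A' hA' h
    have h0 : (A ∩ A').card + 1 = d := h
    have hAc := (mem_vert.1 hA).1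
    have hAc' := (mem_vert.1 hA').1
    refine ⟨?_, H.D.edge (ψ A).2.1 (ψ A').2.1 (H.D.supp_card H.hcard hAc (hψ A hA))
      (H.D.supp_card H.hcard hAc' (hψ A' hA')) ?_⟩
    · intro e
      have : A = A' := by rw [← hψ A hA, ← hψ A' hA', e]
      rw [this, inter_self, hAc'] at h0
      omega
    · have h1 : supp f b (ψ A).1 ∩ supp f b (ψ A').1 = (A ∪ A')ᶜ := by
        ext j
        rw [mem_inter, mem_compl, mem_union, not_or, ← hψ A hA, ← hψ A' hA', mem_act_iff,
          mem_act_iff, not_not, not_not, hψ A hA, hψ A' hA']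
      have h2 := card_union_add_card_inter A A'
      have h3 := H.hcard
      have h4 := H.D.pos
      rw [h1, card_compl]
      omega
  refine ham_of_list (m.map ψ) ?_ ?_ ?_ (by rw [List.length_map]; exact hm5) ?_
  · refine (List.nodup_map_iff_inj_on hm1).2 ?_
    intro A hA B hB hAB
    rw [← hψ A ((hmv A).1 hA), ← hψ B ((hmv B).1 hB), hAB]
  · intro q
    rw [List.mem_map]
    have hq := hvert_of q.1 q.2
    refine ⟨act f b q.1, (hmv _).2 hq, ?_⟩
    apply Subtype.ext
    refine H.D.unique q.2.1 (H.D.card_of_extreme hcardE q.2) ?_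
    intro j hj
    rw [mem_supp] at hj ⊢
    intro h
    apply hj
    rw [← mem_act, hψ _ hq, mem_act]
    exact h
  · rw [List.isChain_map]
    refine List.IsChain.imp_of_mem_imp ?_ hm3
    intro A B hA hB h
    exact hadj A ((hmv A).1 hA) B ((hmv B).1 hB) h
  · intro u hu v hv
    rw [List.getLast?_map] at hu
    rw [List.head?_map] at hv
    simp only [Option.mem_def, Option.map_eq_some_iff] at hu hv
    obtain ⟨A, hA, rfl⟩ := hu
    obtain ⟨B, hB, rfl⟩ := hv
    have hAF := (hmv A).1 (List.mem_of_mem_getLast? hA)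
    have hBF := (hmv B).1 (List.mem_of_mem_head? hB)
    exact hadj A hAF B hBF (hm4 A hA B hB)

end FewFacets
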