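import Mathlib

namespace FewFacets

open Finset

/-- PACKAGE B: a family of `d`-sets with the neighbour property; if at most `d` members contain
`i` then they are the sets `D.erase a`, `a ∈ D.erase i`, for one `(d+1)`-set `D`.
Proof: take `A = insert i B0` in the family; for `b ∈ B0` the neighbour leaving `b` is
`insert c_b (A.erase b)`, `c_b ∉ A` (it contains `i`); with `A` these are `d` different members
containing `i`, so all of them. The neighbour of the member of `b` leaving `b'` contains `i` and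
misses `b'`, so it is the member of `b'`; hence `c_b = c_b'` (uses `d - 1 ≥ 2`).
`D = insert c A`. -/
lemma simplex_facet {ι : Type*} [Fintype ι] [DecidableEq ι] (𝒱 : Finset (Finset ι)) {d : ℕ}
    (hd : 3 ≤ d) (hc : ∀ A ∈ 𝒱, A.card = d)
    (hN : ∀ A ∈ 𝒱, ∀ a ∈ A, ∃ A' ∈ 𝒱, a ∉ A' ∧ A.erase a ⊆ A') (i : ι)
    (hne : ∃ A ∈ 𝒱, i ∈ A) (hs : (𝒱.filter (fun A => i ∈ A)).card ≤ d) :
    ∃ D : Finset ι, D.card = d + 1 ∧ i ∈ D ∧
      𝒱.filter (fun A => i ∈ A) = (D.erase i).image (fun a => D.erase a) := by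
  obtain ⟨A, hA, hiA⟩ := hne
  have hAd := hc A hA
  have : Nonempty ι := ⟨i⟩
  -- the neighbours of `A`
  have h1 : ∀ b ∈ A.erase i, ∃ c, c ∉ A ∧ insert c (A.erase b) ∈ 𝒱 := by
    intro b hb
    have hbA : b ∈ A := mem_of_mem_erase hb
    obtain ⟨A', hA', hbA', hsub⟩ := hN A hA b hbA
    have hcard : (A' \ A.erase b).card = 1 := by
      rw [card_sdiff_of_subset hsub, hc A' hA', card_erase_of_mem hbA, hAd]
      omega
    obtain ⟨c, hcc⟩ := card_eq_one.1 hcard
    have hc1 : c ∈ A' \ A.erase b := by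
      rw [hcc]
      exact mem_singleton_self c
    rw [mem_sdiff] at hc1
    refine ⟨c, fun h => hc1.2 (mem_erase.2 ⟨fun h' => hbA' (h' ▸ hc1.1), h⟩), ?_⟩
    have h2 : insert c (A.erase b) = A' := by
      rw [insert_eq, ← hcc]
      exact sdiff_union_of_subset hsub
    rw [h2]
    exact hA'
  choose! c hcA hcV using h1
  have hB : (A.erase i).card = d - 1 := by
    rw [card_erase_of_mem hiA, hAd]
  -- all members which contain `i`
  have hinj : Set.InjOn (fun b => insert (c b) (A.erase b)) (A.erase i : Finset ι) := by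
    intro b hb b' hb' h
    by_contra hne
    have hb1 : b ∈ A.erase i := hb
    have h2 : b ∈ insert (c b') (A.erase b') :=
      mem_insert_of_mem (mem_erase.2 ⟨hne, mem_of_mem_erase hb1⟩)
    have h3 : b ∈ insert (c b) (A.erase b) := by
      have h' : insert (c b) (A.erase b) = insert (c b') (A.erase b') := h
      rw [h']
      exact h2
    rw [mem_insert] at h3
    rcases h3 with h3 | h3
    · exact hcA b hb1 (h3 ▸ mem_of_mem_erase hb1)
    · exact (mem_erase.1 h3).1 rfl
  have hnot : A ∉ (A.erase i).image (fun b => insert (c b) (A.erase b)) := by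
    intro h
    rw [mem_image] at h
    obtain ⟨b, hb, h2⟩ := h
    exact hcA b hb (by
      have h3 : c b ∈ insert (c b) (A.erase b) := mem_insert_self _ _
      rwa [h2] at h3)
  have hF : insert A ((A.erase i).image (fun b => insert (c b) (A.erase b))) =
      𝒱.filter (fun A => i ∈ A) := by
    refine eq_of_subset_of_card_le ?_ ?_
    · intro A' hA'
      rw [mem_insert, mem_image] at hA'
      rw [mem_filter]
      rcases hA' with rfl | ⟨b, hb, rfl⟩
      · exact ⟨hA, hiA⟩
      · refine ⟨hcV b hb, mem_insert_of_mem (mem_erase.2 ⟨?_, hiA⟩)⟩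
        rintro rfl
        exact (mem_erase.1 hb).1 rfl
    · rw [card_insert_of_notMem hnot, card_image_of_injOn hinj, hB]
      omega
  -- the new element does not depend on `b`
  have hcc : ∀ b ∈ A.erase i, ∀ b' ∈ A.erase i, c b = c b' := by
    intro b hb b' hb'
    by_cases hbb : b = b'
    · rw [hbb]
    have hb'A : b' ∈ insert (c b) (A.erase b) :=
      mem_insert_of_mem (mem_erase.2 ⟨fun h => hbb h.symm, mem_of_mem_erase hb'⟩)
    obtain ⟨A', hA', hb'A', hsub⟩ := hN _ (hcV b hb) b' hb'A
    have hi' : i ≠ b' := fun h => (mem_erase.1 hb').1 h.symm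
    have hib : i ≠ b := fun h => (mem_erase.1 hb).1 h.symm
    have hiA' : i ∈ A' :=
      hsub (mem_erase.2 ⟨hi', mem_insert_of_mem (mem_erase.2 ⟨hib, hiA⟩)⟩)
    have hmem : A' ∈ 𝒱.filter (fun A => i ∈ A) := mem_filter.2 ⟨hA', hiA'⟩
    rw [← hF, mem_insert, mem_image] at hmem
    have hcb' : c b ≠ b' := fun h => hcA b hb (h ▸ mem_of_mem_erase hb')
    have hcA' : c b ∈ A' := hsub (mem_erase.2 ⟨hcb', mem_insert_self _ _⟩)
    rcases hmem with h | ⟨x, hx, h⟩
    · exact absurd (h ▸ mem_of_mem_erase hb') hb'A'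
    · have hxb : x = b' := by
        by_contra hne
        apply hb'A'
        rw [← h]
        exact mem_insert_of_mem (mem_erase.2 ⟨fun h => hne h.symm, mem_of_mem_erase hb'⟩)
      subst hxb
      rw [← h, mem_insert] at hcA'
      rcases hcA' with h2 | h2
      · exact h2
      · exact absurd (mem_of_mem_erase h2) (hcA b hb)
  obtain ⟨b0, hb0⟩ : (A.erase i).Nonempty := by
    rw [← card_pos, hB]
    omega
  have hcb : ∀ b ∈ A.erase i, c b = c b0 := fun b hb => hcc b hb b0 hb0
  have hc0 : c b0 ∉ A := hcA b0 hb0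
  refine ⟨insert (c b0) A, ?_, mem_insert_of_mem hiA, ?_⟩
  · rw [card_insert_of_notMem hc0, hAd]
  · rw [← hF]
    have hi0 : c b0 ≠ i := fun h => hc0 (h ▸ hiA)
    rw [erase_insert_of_ne hi0, image_insert, erase_insert hc0]
    congr 1
    refine image_congr ?_
    intro b hb
    have hb1 : b ∈ A.erase i := hb
    have h2 : c b0 ≠ b := fun h => hc0 (h ▸ mem_of_mem_erase hb1)
    change insert (c b) (A.erase b) = (insert (c b0) A).erase b
    rw [erase_insert_of_ne h2, hcb b hb1]

end FewFacets
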