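import Pool.Agent.FewFacets.PolyK

/-!
Neighbours of a vertex, and the apex over a facet which is a simplex.
-/

set_option linter.unusedSectionVars false

namespace FewFacets

open Finset

variable {E : Type*} [NormedAddCommGroup E] [NormedSpace ℝ E] [FiniteDimensional ℝ E]
  {ι : Type*} [Fintype ι] [DecidableEq ι] {f : ι → E →ₗ[ℝ] ℝ} {b : ι → ℝ} {K : ℕ}

open Classical in
/-- the sets of active inequalities of the vertices -/
noncomputable def vert (f : ι → E →ₗ[ℝ] ℝ) (b : ι → ℝ) (d : ℕ) : Finset (Finset ι) :=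
  univ.filter (fun A => A.card = d ∧ ∃ q ∈ Poly f b, act f b q = A)

lemma mem_vert {d : ℕ} {A : Finset ι} :
    A ∈ vert f b d ↔ A.card = d ∧ ∃ q ∈ Poly f b, act f b q = A := by
  classical
  simp [vert]

lemma act_card_add (x : E) : (act f b x).card + (supp f b x).card = Fintype.card ι := by
  rw [← card_univ]
  exact card_filter_add_card_filter_not (s := (univ : Finset ι)) (fun i => f i x = b i)

lemma mem_act_iff {x : E} {i : ι} : i ∈ act f b x ↔ i ∉ supp f b x := by
  rw [mem_act, mem_supp, not_not]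

lemma DataK.supp_card (_D : DataK f b K) {d : ℕ} (hcard : Fintype.card ι = d + K)
    {A : Finset ι} (hA : A.card = d) {q : E} (hq : act f b q = A) :
    (supp f b q).card = K := by
  have := act_card_add (f := f) (b := b) q
  rw [hq, hA] at this
  omega

/-- the neighbour of a vertex on the edge leaving the facet of `a` -/
lemma DataK.exists_nb (D : DataK f b K) {d : ℕ} (hE : Module.finrank ℝ E = d)
    (hcard : Fintype.card ι = d + K) {A : Finset ι} (hA : A ∈ vert f b d) {a : ι}
    (ha : a ∈ A) : ∃ A' ∈ vert f b d, a ∉ A' ∧ A.erase a ⊆ A' := by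
  rw [mem_vert] at hA
  obtain ⟨hAc, u, hu, huA⟩ := hA
  have huK := D.supp_card hcard hAc huA
  have hlt : (A.erase a).card < Module.finrank ℝ E := by
    rw [card_erase_of_mem ha, hAc, hE]
    have := card_pos.2 ⟨a, ha⟩
    omega
  obtain ⟨w0, hw0, hw0A⟩ := exists_dir (f := f) _ hlt
  have hne0 : f a w0 ≠ 0 := by
    intro h0
    obtain ⟨t, ht⟩ := D.prop hu huK (r := fun i => f i w0) ⟨w0, 0, fun i => by ring⟩ (by
      intro i hi
      rw [← mem_act_iff, huA] at hi
      by_cases hia : i = a
      · rw [hia]; exact h0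
      · exact hw0A i (mem_erase.2 ⟨hia, hi⟩))
    by_cases ht0 : t = 0
    · refine hw0 (D.inj fun i => ?_)
      rw [ht i, ht0, zero_mul]
    · refine D.notRange (t⁻¹ • w0 + u) fun i => ?_
      rw [map_add, map_smul, smul_eq_mul, ht i]
      field_simp
      ring
  obtain ⟨w, hw, hwA⟩ : ∃ w : E, f a w < 0 ∧ ∀ i ∈ A.erase a, f i w = 0 := by
    rcases lt_or_gt_of_ne hne0 with h | h
    · exact ⟨w0, h, hw0A⟩
    · exact ⟨-w0, by rw [map_neg]; linarith, fun i hi => by rw [map_neg, hw0A i hi, neg_zero]⟩
  have hQ : (univ.filter (fun i => 0 < f i w)).Nonempty := by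
    by_contra hcon
    rw [not_nonempty_iff_eq_empty, filter_eq_empty_iff] at hcon
    have := D.rec0 w fun i => not_lt.1 (hcon (mem_univ i))
    rw [this, map_zero] at hw
    exact lt_irrefl _ hw
  obtain ⟨i0, hi0, hmin⟩ := exists_min_image _ (fun i => (b i - f i u) / f i w) hQ
  rw [mem_filter] at hi0
  set t := (b i0 - f i0 u) / f i0 w with ht
  have hi0A : i0 ∉ A := by
    intro h
    by_cases h1 : i0 = a
    · rw [h1] at hi0; linarith [hi0.2]
    · have := hwA i0 (mem_erase.2 ⟨h1, h⟩)
      linarith [hi0.2]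
  have ht0 : 0 < t := by
    refine div_pos ?_ hi0.2
    have h1 : i0 ∉ act f b u := by rw [huA]; exact hi0A
    rw [mem_act] at h1
    have := lt_of_le_of_ne (hu i0) h1
    linarith
  have hu' : u + t • w ∈ Poly f b := by
    intro i
    rw [map_add, map_smul, smul_eq_mul]
    by_cases hi : 0 < f i w
    · have := hmin i (mem_filter.2 ⟨mem_univ i, hi⟩)
      rw [le_div_iff₀ hi] at this
      linarith
    · have := mul_nonpos_of_nonneg_of_nonpos ht0.le (not_lt.1 hi)
      linarith [hu i]
  have hsub : insert i0 (A.erase a) ⊆ act f b (u + t • w) := by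
    intro i hi
    rw [mem_act, map_add, map_smul, smul_eq_mul]
    rcases mem_insert.1 hi with rfl | hi
    · rw [ht, div_mul_cancel₀ _ hi0.2.ne']; ring
    · rw [hwA i hi]
      have : i ∈ act f b u := by rw [huA]; exact (mem_erase.1 hi).2
      rw [mem_act] at this
      rw [this]; ring
  have hcge : d ≤ (act f b (u + t • w)).card := by
    have h1 := card_le_card hsub
    rw [card_insert_of_notMem (fun h => hi0A (mem_erase.1 h).2), card_erase_of_mem ha,
      hAc] at h1
    have := card_pos.2 ⟨a, ha⟩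
    omega
  have hcle := D.low _ hu'
  have hsum := act_card_add (f := f) (b := b) (u + t • w)
  refine ⟨act f b (u + t • w), mem_vert.2 ⟨by omega, _, hu', rfl⟩, ?_, ?_⟩
  · rw [mem_act, map_add, map_smul, smul_eq_mul]
    have h1 : a ∈ act f b u := by rw [huA]; exact ha
    rw [mem_act] at h1
    have := mul_neg_of_pos_of_neg ht0 hw
    intro h
    linarith
  · exact (subset_insert _ _).trans hsub

/-- the space of all relations as a submodule -/
def relSub (f : ι → E →ₗ[ℝ] ℝ) (b : ι → ℝ) : Submodule ℝ (ι → ℝ) :=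
  LinearMap.range (LinearMap.pi (fun i => (f i).comp (LinearMap.fst ℝ E ℝ) +
      (LinearMap.toSpanSingleton ℝ ℝ (b i)).comp (LinearMap.snd ℝ E ℝ)))

lemma mem_relSub {r : ι → ℝ} : r ∈ relSub f b ↔ InW f b r := by
  rw [relSub, LinearMap.mem_range]
  constructor
  · rintro ⟨⟨w, t⟩, h⟩
    exact ⟨w, t, fun i => by rw [← h]; simp⟩
  · rintro ⟨w, t, h⟩
    exact ⟨(w, t), funext fun i => by rw [h]; simp⟩

section apex

variable {d : ℕ} {S : Finset ι} {i : ι} {q : ι → E}

/-- a relation vanishing on `S` is zero -/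
lemma DataK.zero_of_vanish (D : DataK f b K) (hcard : Fintype.card ι = d + K) (hd : 1 ≤ d)
    (hS : S.card = d + 1) (hi : i ∈ S)
    (hq : ∀ a ∈ S.erase i, q a ∈ Poly f b ∧ act f b (q a) = S.erase a)
    {z : ι → ℝ} (hz : InW f b z) (hz0 : ∀ a ∈ S, z a = 0) : ∀ j, z j = 0 := by
  have hne : (S.erase i).Nonempty := by
    rw [← card_pos, card_erase_of_mem hi, hS]; omega
  obtain ⟨a, ha⟩ := hne
  obtain ⟨h1, h2⟩ := hq a ha
  have haS : a ∈ S := (mem_erase.1 ha).2
  have hK := D.supp_card hcard (by rw [card_erase_of_mem haS, hS]; rfl) h2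
  obtain ⟨t, ht⟩ := D.prop h1 hK hz (fun j hj => by
    rw [← mem_act_iff, h2] at hj
    exact hz0 j (mem_erase.1 hj).2)
  have h3 : b a - f a (q a) ≠ 0 := by
    have : a ∉ act f b (q a) := by rw [h2]; exact fun h => (mem_erase.1 h).1 rfl
    rw [mem_act] at this
    intro h; exact this (by linarith)
  have h4 : t = 0 := by
    have := ht a
    rw [hz0 a haS] at this
    rcases mul_eq_zero.1 this.symm with h | h
    · exact h
    · exact absurd h h3
  intro j
  rw [ht j, h4, zero_mul]

lemma DataK.exists_apex (D : DataK f b K) (hE : Module.finrank ℝ E = d)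
    (hcard : Fintype.card ι = d + K) (hd : 1 ≤ d)
    (hS : S.card = d + 1) (hi : i ∈ S)
    (hq : ∀ a ∈ S.erase i, q a ∈ Poly f b ∧ act f b (q a) = S.erase a) :
    ∃ r, InW f b r ∧ r i = -1 ∧ ∀ a ∈ S.erase i, r a = 0 := by
  let L : E × ℝ →ₗ[ℝ] ({x // x ∈ S.erase i} → ℝ) :=
    LinearMap.pi (fun j => (f j.1).comp (LinearMap.fst ℝ E ℝ) +
      (LinearMap.toSpanSingleton ℝ ℝ (b j.1)).comp (LinearMap.snd ℝ E ℝ))
  have hker : LinearMap.ker L ≠ ⊥ := by
    refine LinearMap.ker_ne_bot_of_finrank_lt ?_
    rw [Module.finrank_fintype_fun_eq_card, Fintype.card_coe, card_erase_of_mem hi, hS,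
      Module.finrank_prod, Module.finrank_self, hE]
    omega
  obtain ⟨⟨w, t⟩, hwt, hne⟩ := (Submodule.ne_bot_iff _).1 hker
  have hwt' : ∀ a ∈ S.erase i, f a w + t * b a = 0 := by
    intro a ha
    have h1 : L (w, t) = 0 := hwt
    have := congrFun h1 ⟨a, ha⟩
    simpa [L] using this
  have hri : f i w + t * b i ≠ 0 := by
    intro h0
    have hall := D.zero_of_vanish hcard hd hS hi hq (z := fun j => f j w + t * b j)
      ⟨w, t, fun _ => rfl⟩ (by
        intro a ha
        by_cases hai : a = i
        · rw [hai]; exact h0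
        · exact hwt' a (mem_erase.2 ⟨hai, ha⟩))
    apply hne
    by_cases ht : t = 0
    · subst ht
      have : w = 0 := D.inj fun j => by have := hall j; simpa using this
      rw [this]; rfl
    · exfalso
      refine D.notRange (-(t⁻¹ • w)) fun j => ?_
      have := hall j
      rw [map_neg, map_smul, smul_eq_mul]
      field_simp
      linarith
  refine ⟨fun j => f j (-(f i w + t * b i)⁻¹ • w) + (-(f i w + t * b i)⁻¹ * t) * b j,
    ⟨_, _, fun _ => rfl⟩, ?_, ?_⟩
  · simp only [map_smul, smul_eq_mul]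
    field_simp
    ring
  · intro a ha
    simp only [map_smul, smul_eq_mul]
    have := hwt' a ha
    linear_combination (-(f i w + t * b i)⁻¹) * this

/-- every relation is a combination of the vertices of the facet and of the apex -/
lemma DataK.decomp (D : DataK f b K) (hcard : Fintype.card ι = d + K) (hd : 1 ≤ d)
    (hS : S.card = d + 1) (hi : i ∈ S)
    (hq : ∀ a ∈ S.erase i, q a ∈ Poly f b ∧ act f b (q a) = S.erase a)
    {r : ι → ℝ} (hr : InW f b r) (hri : r i = -1) (hr0 : ∀ a ∈ S.erase i, r a = 0)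
    {x : ι → ℝ} (hx : InW f b x) (j : ι) :
    x j = ∑ a ∈ S.erase i, x a / (b a - f a (q a)) * (b j - f j (q a)) - x i * r j := by
  have hin : InW f b (fun j => x j - ∑ a ∈ S.erase i,
      x a / (b a - f a (q a)) * (b j - f j (q a)) + x i * r j) := by
    rw [← mem_relSub] at hx hr ⊢
    have hsum : (fun j => ∑ a ∈ S.erase i, x a / (b a - f a (q a)) * (b j - f j (q a))) ∈
        relSub f b := by
      have : (fun j => ∑ a ∈ S.erase i, x a / (b a - f a (q a)) * (b j - f j (q a))) =
          ∑ a ∈ S.erase i, (x a / (b a - f a (q a))) • (fun j => b j - f j (q a)) := by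
        ext j
        rw [Finset.sum_apply]
        rfl
      rw [this]
      exact Submodule.sum_mem _ fun a _ => Submodule.smul_mem _ _
        (mem_relSub.2 (InW.slack _))
    exact Submodule.add_mem _ (Submodule.sub_mem _ hx hsum) (Submodule.smul_mem _ (x i) hr)
  have hz := D.zero_of_vanish hcard hd hS hi hq hin (by
    intro c hc
    by_cases hci : c = i
    · rw [hci, hri]
      have : ∑ a ∈ S.erase i, x a / (b a - f a (q a)) * (b i - f i (q a)) = 0 := by
        refine sum_eq_zero fun a ha => ?_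
        have h1 : i ∈ act f b (q a) := by
          rw [(hq a ha).2]
          exact mem_erase.2 ⟨fun h => (mem_erase.1 ha).1 h.symm, hi⟩
        rw [mem_act] at h1
        rw [h1, sub_self, mul_zero]
      rw [this]; ring
    · have hcS : c ∈ S.erase i := mem_erase.2 ⟨hci, hc⟩
      have : ∑ a ∈ S.erase i, x a / (b a - f a (q a)) * (b c - f c (q a)) = x c := by
        rw [sum_eq_single_of_mem c hcS]
        · have h3 : b c - f c (q c) ≠ 0 := by
            have : c ∉ act f b (q c) := by
              rw [(hq c hcS).2]; exact fun h => (mem_erase.1 h).1 rfl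
            rw [mem_act] at this
            intro h; exact this (by linarith)
          rw [div_mul_cancel₀ _ h3]
        · intro a ha hac
          have h1 : c ∈ act f b (q a) := by
            rw [(hq a ha).2]
            exact mem_erase.2 ⟨fun h => hac h.symm, hc⟩
          rw [mem_act] at h1
          rw [h1, sub_self, mul_zero]
      rw [this, hr0 c hcS]; ring)
  have := hz j
  linarith

lemma slack_pos (hq : ∀ a ∈ S.erase i, q a ∈ Poly f b ∧ act f b (q a) = S.erase a)
    {a : ι} (ha : a ∈ S.erase i) {j : ι} (hj : j ∉ S.erase a) : 0 < b j - f j (q a) := by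
  have h1 : j ∉ act f b (q a) := by rw [(hq a ha).2]; exact hj
  rw [mem_act] at h1
  have := lt_of_le_of_ne ((hq a ha).1 j) h1
  linarith

/-- the apex satisfies all other inequalities strictly -/
lemma DataK.apex_pos (D : DataK f b K) (hcard : Fintype.card ι = d + K) (hd : 1 ≤ d)
    (hS : S.card = d + 1) (hi : i ∈ S)
    (hq : ∀ a ∈ S.erase i, q a ∈ Poly f b ∧ act f b (q a) = S.erase a)
    (hirr : ∀ j, ∃ y ∈ Poly f b, f j y = b j)
    {r : ι → ℝ} (hr : InW f b r) (hri : r i = -1) (hr0 : ∀ a ∈ S.erase i, r a = 0)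
    {j : ι} (hj : j ∉ S) : 0 < r j := by
  by_contra hcon
  rw [not_lt] at hcon
  obtain ⟨y, hy, hyj⟩ := hirr j
  have hdec := D.decomp hcard hd hS hi hq hr hri hr0 (InW.slack (f := f) (b := b) y)
  have hs : ∀ c, 0 ≤ b c - f c y := fun c => by linarith [hy c]
  have hterm : ∀ a ∈ S.erase i, 0 ≤ (b a - f a y) / (b a - f a (q a)) * (b j - f j (q a)) := by
    intro a ha
    have h1 := slack_pos hq ha (j := a) (fun h => (mem_erase.1 h).1 rfl)
    have h2 := slack_pos hq ha (j := j) (fun h => hj (mem_erase.1 h).2)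
    have := hs a
    positivity
  have hj0 := hdec j
  rw [hyj, sub_self] at hj0
  have hm : 0 ≤ (b i - f i y) * (-r j) := mul_nonneg (hs i) (by linarith)
  have hsum := sum_nonneg hterm
  have hsum0 : ∑ a ∈ S.erase i, (b a - f a y) / (b a - f a (q a)) * (b j - f j (q a)) = 0 := by
    linarith
  have hz : ∀ a ∈ S.erase i, b a - f a y = 0 := by
    intro a ha
    have h0 := (sum_eq_zero_iff_of_nonneg hterm).1 hsum0 a ha
    have h1 := slack_pos hq ha (j := a) (fun h => (mem_erase.1 h).1 rfl)
    have h2 := slack_pos hq ha (j := j) (fun h => hj (mem_erase.1 h).2)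
    rcases mul_eq_zero.1 h0 with h | h
    · rcases div_eq_zero_iff.1 h with h' | h'
      · exact h'
      · linarith
    · linarith
  -- now `d + 1` inequalities are active at `y`
  have hsub : insert j (S.erase i) ⊆ act f b y := by
    intro c hc
    rw [mem_act]
    rcases mem_insert.1 hc with rfl | hc
    · exact hyj
    · have := hz c hc
      linarith
  have h1 := card_le_card hsub
  rw [card_insert_of_notMem (fun h => hj (mem_erase.1 h).2), card_erase_of_mem hi, hS] at h1
  have h2 := D.low y hy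
  have h3 := act_card_add (f := f) (b := b) y
  omega

/-- a relation which is negative at `i` and nonnegative on the other elements of `S` is
positive outside `S` -/
lemma DataK.pos_outside (D : DataK f b K) (hE : Module.finrank ℝ E = d)
    (hcard : Fintype.card ι = d + K) (hd : 1 ≤ d)
    (hS : S.card = d + 1) (hi : i ∈ S)
    (hq : ∀ a ∈ S.erase i, q a ∈ Poly f b ∧ act f b (q a) = S.erase a)
    (hirr : ∀ j, ∃ y ∈ Poly f b, f j y = b j)
    {x : ι → ℝ} (hx : InW f b x) (hxi : x i < 0) (hx0 : ∀ a ∈ S.erase i, 0 ≤ x a)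
    {j : ι} (hj : j ∉ S) : 0 < x j := by
  obtain ⟨r, hr, hri, hr0⟩ := D.exists_apex hE hcard hd hS hi hq
  have hrj := D.apex_pos hcard hd hS hi hq hirr hr hri hr0 hj
  rw [D.decomp hcard hd hS hi hq hr hri hr0 hx j]
  have hterm : ∀ a ∈ S.erase i, 0 ≤ x a / (b a - f a (q a)) * (b j - f j (q a)) := by
    intro a ha
    have h1 := slack_pos hq ha (j := a) (fun h => (mem_erase.1 h).1 rfl)
    have h2 := slack_pos hq ha (j := j) (fun h => hj (mem_erase.1 h).2)
    have := hx0 a ha
    positivity
  have h1 := sum_nonneg hterm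
  have h2 : 0 < -x i * r j := mul_pos (by linarith) hrj
  linarith

end apex

end FewFacets
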