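import Pool.Agent.FewFacets.Simple

/-!
The theorem for polytopes that are intersections of at most `d + 3` half-spaces.
-/

set_option linter.unusedSectionVars false

namespace FewFacets

open Finset

variable {E : Type*} [NormedAddCommGroup E] [NormedSpace ℝ E] [FiniteDimensional ℝ E]
  {ι : Type*} [Fintype ι] [DecidableEq ι]

/-- a minimal subfamily of the inequalities -/
lemma exists_minimal (f : ι → E →ₗ[ℝ] ℝ) (b : ι → ℝ) :
    ∃ J : Finset ι, (∀ x, (∀ i ∈ J, f i x ≤ b i) → x ∈ Poly f b) ∧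
      ∀ i ∈ J, ∃ x, (∀ j ∈ J, j ≠ i → f j x ≤ b j) ∧ b i < f i x := by
  classical
  obtain ⟨J, hJ, hmin⟩ := exists_min_image
    (univ.filter (fun J : Finset ι => ∀ x, (∀ i ∈ J, f i x ≤ b i) → x ∈ Poly f b)) card
    ⟨univ, mem_filter.2 ⟨mem_univ _, fun x hx i => hx i (mem_univ i)⟩⟩
  rw [mem_filter] at hJ
  refine ⟨J, hJ.2, ?_⟩
  intro i hi
  have h1 : ¬ ∀ x, (∀ j ∈ J.erase i, f j x ≤ b j) → x ∈ Poly f b := by
    intro h
    have := hmin (J.erase i) (mem_filter.2 ⟨mem_univ _, h⟩)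
    rw [card_erase_of_mem hi] at this
    have := card_pos.2 ⟨i, hi⟩
    omega
  push Not at h1
  obtain ⟨x, hx, hxP⟩ := h1
  have hx' : ∀ j ∈ J, j ≠ i → f j x ≤ b j := fun j hj hji => hx j (mem_erase.2 ⟨hji, hj⟩)
  refine ⟨x, hx', ?_⟩
  by_contra hcon
  apply hxP
  refine hJ.2 x fun j hj => ?_
  by_cases h : j = i
  · rw [h]; exact not_lt.1 hcon
  · exact hx' j hj h

/-- an interior point satisfies an irredundant inequality strictly -/
lemma strict_of_interior {f : ι → E →ₗ[ℝ] ℝ} {b : ι → ℝ} {z : E}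
    (hz : z ∈ interior (Poly f b)) {i : ι} {x : E} (hx : b i < f i x) : f i z < b i := by
  have hzP : z ∈ Poly f b := interior_subset hz
  refine lt_of_le_of_ne (hzP i) ?_
  intro h
  have hc : Filter.Tendsto (fun t : ℝ => z + t • (x - z)) (nhdsWithin 0 (Set.Ioi 0))
      (nhds (z + (0 : ℝ) • (x - z))) := by
    refine Filter.Tendsto.mono_left ?_ nhdsWithin_le_nhds
    exact (by fun_prop : Continuous (fun t : ℝ => z + t • (x - z))).tendsto 0
  rw [zero_smul, add_zero] at hc
  have h1 := hc.eventually (mem_interior_iff_mem_nhds.1 hz)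
  obtain ⟨t, ht, ht0⟩ := (h1.and self_mem_nhdsWithin).exists
  have h2 := ht i
  rw [map_add, map_smul, map_sub, smul_eq_mul, h] at h2
  have h3 : 0 < t * (f i x - b i) := mul_pos (Set.mem_Ioi.1 ht0) (by linarith)
  linarith

theorem main_ineq {d : ℕ} (hd : 2 ≤ d) (hE : Module.finrank ℝ E = d)
    (f : ι → E →ₗ[ℝ] ℝ) (b : ι → ℝ) (hcard : Fintype.card ι ≤ d + 3)
    (hbd : Bornology.IsBounded (Poly f b)) (hint : (interior (Poly f b)).Nonempty)
    (hs : ∀ v : (Poly f b).extremePoints ℝ,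
      ((polytopeGraph (Poly f b)).neighborSet v).ncard = d)
    [DecidableEq ((Poly f b).extremePoints ℝ)] :
    ∃ v, ∃ p : (polytopeGraph (Poly f b)).Walk v v, p.IsHamiltonianCycle := by
  obtain ⟨J, hJ, hirr⟩ := exists_minimal f b
  obtain ⟨z, hz⟩ := hint
  -- the minimal subfamily
  set f1 : J → E →ₗ[ℝ] ℝ := fun i => f i.1 with hf1
  set b1 : J → ℝ := fun i => b i.1 with hb1
  have hP1 : Poly f1 b1 = Poly f b := by
    ext x
    constructor
    · intro h; exact hJ x fun i hi => h ⟨i, hi⟩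
    · intro h i; exact h i.1
  have I : Irr f1 b1 := by
    refine ⟨by rw [hP1]; exact hbd, ?_, z, ?_⟩
    · rintro ⟨i, hi⟩
      obtain ⟨x, hx, hxi⟩ := hirr i hi
      refine ⟨x, ?_, hxi⟩
      rintro ⟨j, hj⟩ hji
      exact hx j hj fun h => hji (Subtype.ext h)
    · rintro ⟨i, hi⟩
      obtain ⟨x, -, hxi⟩ := hirr i hi
      exact strict_of_interior hz hxi
  have hs1 : ∀ v : (Poly f1 b1).extremePoints ℝ,
      ((polytopeGraph (Poly f1 b1)).neighborSet v).ncard = d := by
    rw [hP1]; exact hs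
  have hact := fun x (hx : x ∈ Poly f1 b1) => I.act_card hd hE hs1 hx
  -- exactly `d + 3` inequalities
  have hJcard : Fintype.card J ≤ Fintype.card (Fin (d + 3)) := by
    rw [Fintype.card_coe, Fintype.card_fin]
    exact (card_le_univ J).trans hcard
  obtain ⟨e⟩ := Function.Embedding.nonempty_of_card_le hJcard
  set f2 : Fin (d + 3) → E →ₗ[ℝ] ℝ := Function.extend e f1 (fun _ => 0) with hf2
  set b2 : Fin (d + 3) → ℝ := Function.extend e b1 (fun _ => 1) with hb2
  have hf2e : ∀ i, f2 (e i) = f1 i := fun i => e.injective.extend_apply _ _ i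
  have hb2e : ∀ i, b2 (e i) = b1 i := fun i => e.injective.extend_apply _ _ i
  have hf2n : ∀ k, (¬ ∃ i, e i = k) → f2 k = 0 := fun k hk =>
    Function.extend_apply' _ _ _ hk
  have hb2n : ∀ k, (¬ ∃ i, e i = k) → b2 k = 1 := fun k hk =>
    Function.extend_apply' _ _ _ hk
  have hP2 : Poly f2 b2 = Poly f b := by
    rw [← hP1]
    ext x
    constructor
    · intro h i
      have := h (e i)
      rwa [hf2e, hb2e] at this
    · intro h k
      by_cases hk : ∃ i, e i = k
      · obtain ⟨i, rfl⟩ := hk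
        rw [hf2e, hb2e]
        exact h i
      · rw [hf2n k hk, hb2n k hk]
        simp
  have hs2 : ∀ x ∈ Poly f2 b2, (univ.filter (fun i => f2 i x = b2 i)).card ≤ d := by
    intro x hx
    have hx1 : x ∈ Poly f1 b1 := by rw [hP1, ← hP2]; exact hx
    refine le_trans ?_ (hact x hx1)
    rw [← card_map e]
    refine card_le_card ?_
    intro k hk
    rw [mem_filter] at hk
    rw [mem_map]
    by_cases hk' : ∃ i, e i = k
    · obtain ⟨i, rfl⟩ := hk'
      rw [hf2e, hb2e] at hk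
      exact ⟨i, mem_act.2 hk.2, rfl⟩
    · rw [hf2n k hk', hb2n k hk'] at hk
      simp at hk
  have key : ∀ (Q : Set E), Poly f2 b2 = Q → ∀ [DecidableEq (Q.extremePoints ℝ)],
      ∃ v, ∃ p : (polytopeGraph Q).Walk v v, p.IsHamiltonianCycle := by
    rintro Q rfl inst
    refine main_fin hd hE f2 b2 ?_ ?_ hs2
    · rw [hP2]; exact ⟨z, interior_subset hz⟩
    · rw [hP2]; exact hbd
  exact key _ hP2

end FewFacets
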