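import Pool.Agent.FewFacets.Expand
import Pool.Agent.FewFacets.Final

/-!
The theorem for simple polytopes with at most `d + 3` facets which are not simplices.
-/

set_option linter.unusedSectionVars false

namespace FewFacets

open Finset

variable {E : Type*} [NormedAddCommGroup E] [NormedSpace ℝ E] [FiniteDimensional ℝ E]

section

variable {ι : Type*} [Fintype ι] [DecidableEq ι] {f : ι → E →ₗ[ℝ] ℝ} {b : ι → ℝ}

/-- a vertex on which all inequalities active at `x` are active -/
lemma exists_extreme_above (hb : Bornology.IsBounded (Poly f b)) {x : E}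
    (hx : x ∈ Poly f b) : ∃ v ∈ (Poly f b).extremePoints ℝ, act f b x ⊆ act f b v := by
  have hcomp : IsCompact (Poly f b) :=
    Metric.isCompact_of_isClosed_isBounded (poly_closed f b) hb
  set F : Set E := Poly f b ∩ {y | ∀ i ∈ act f b x, f i y = b i} with hF
  have hFc : IsCompact F := by
    refine hcomp.inter_right ?_
    have : {y : E | ∀ i ∈ act f b x, f i y = b i} =
        ⋂ i, ⋂ _ : i ∈ act f b x, {y | f i y = b i} := by
      ext y; simp
    rw [this]
    exact isClosed_iInter fun i => isClosed_iInter fun _ =>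
      isClosed_eq (LinearMap.continuous_of_finiteDimensional (f i)) continuous_const
  have hFne : F.Nonempty := ⟨x, hx, fun i hi => mem_act.1 hi⟩
  have hFe : IsExtreme ℝ (Poly f b) F := by
    refine ⟨Set.inter_subset_left, ?_⟩
    rintro p hp q hq z ⟨hz, hzi⟩ ⟨α, β, hα, hβ, hαβ, rfl⟩
    refine ⟨hp, ?_⟩
    intro i hi
    have h1 := hzi i hi
    rw [map_add, map_smul, map_smul, smul_eq_mul, smul_eq_mul] at h1
    by_contra hne
    have h2 := lt_of_le_of_ne (hp i) hne
    have e : b i = α * b i + β * b i := by rw [← add_mul, hαβ, one_mul]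
    linarith [mul_lt_mul_of_pos_left h2 hα, mul_le_mul_of_nonneg_left (hq i) hβ.le]
  obtain ⟨v, hv⟩ := hFc.extremePoints_nonempty hFne
  exact ⟨v, hFe.extremePoints_subset_extremePoints hv, fun i hi => mem_act.2 (hv.1.2 i hi)⟩

/-- a point on every irredundant hyperplane -/
lemma Irr.facet_ne (I : Irr f b) (i : ι) : ∃ y ∈ Poly f b, f i y = b i := by
  obtain ⟨x, hx, hxi⟩ := I.irr i
  obtain ⟨z, hz⟩ := I.int
  have hzi := hz i
  set α := (f i x - b i) / (f i x - f i z) with hα
  set β := (b i - f i z) / (f i x - f i z) with hβ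
  have hd : 0 < f i x - f i z := by linarith
  have hα0 : 0 < α := div_pos (by linarith) hd
  have hβ0 : 0 < β := div_pos (by linarith) hd
  have hαβ : α + β = 1 := by
    rw [hα, hβ, ← add_div, show f i x - b i + (b i - f i z) = f i x - f i z by ring,
      div_self hd.ne']
  have hmid : α * f i z + β * f i x = b i := by
    rw [hα, hβ]
    field_simp
    ring
  refine ⟨α • z + β • x, ?_, ?_⟩
  · intro j
    rw [map_add, map_smul, map_smul, smul_eq_mul, smul_eq_mul]
    by_cases hji : j = i
    · rw [hji, hmid]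
    · have e : b j = α * b j + β * b j := by rw [← add_mul, hαβ, one_mul]
      linarith [mul_lt_mul_of_pos_left (hz j) hα0, mul_le_mul_of_nonneg_left (hx j hji) hβ0.le]
  · rw [map_add, map_smul, map_smul, smul_eq_mul, smul_eq_mul, hmid]

/-- the data of an irredundant simple polytope -/
lemma Irr.dataK (I : Irr f b) {d : ℕ} (hd : 2 ≤ d) (hE : Module.finrank ℝ E = d)
    (hs : ∀ v : (Poly f b).extremePoints ℝ,
      ((polytopeGraph (Poly f b)).neighborSet v).ncard = d) :
    ∃ K, Fintype.card ι = d + K ∧ DataK f b K := by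
  obtain ⟨z, hz⟩ := I.int
  have hzP : z ∈ Poly f b := fun i => (hz i).le
  have hact := fun x (hx : x ∈ Poly f b) => I.act_card hd hE hs hx
  have hrec := rec_of_bounded ⟨z, hzP⟩ I.bd
  obtain ⟨v, hv, -⟩ := exists_extreme_above I.bd hzP
  have hvd : d ≤ (act f b v).card := by
    by_contra hcon
    rw [not_le, ← hE] at hcon
    obtain ⟨w, hw0, hw⟩ := exists_dir (f := f) _ hcon
    exact hw0 (pointed hv hw)
  have hlt : d + 1 ≤ Fintype.card ι := by
    by_contra hcon
    have h1 := card_le_univ (act f b v)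
    have h2 : act f b v = univ := by
      rw [← card_eq_iff_eq_univ]
      omega
    have h3 : z - v = 0 := hrec _ fun i => by
      have : i ∈ act f b v := by rw [h2]; exact mem_univ i
      rw [mem_act] at this
      rw [map_sub, this]
      linarith [hz i]
    have hne : (act f b v).Nonempty := by rw [← card_pos]; omega
    obtain ⟨i, hi⟩ := hne
    rw [mem_act] at hi
    have h4 := hz i
    rw [sub_eq_zero.1 h3, hi] at h4
    exact lt_irrefl _ h4
  refine ⟨Fintype.card ι - d, by omega, by omega, ⟨z, hzP⟩, hrec, ?_⟩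
  intro x hx
  have h1 := hact x hx
  have h2 := act_card_add (f := f) (b := b) x
  omega

end

/-- the number of vertices on a hyperplane -/
lemma vert_card_le {ι : Type*} [Fintype ι] [DecidableEq ι] {f : ι → E →ₗ[ℝ] ℝ} {b : ι → ℝ}
    {d K : ℕ} (D : DataK f b K) (hE : Module.finrank ℝ E = d)
    (hcard : Fintype.card ι = d + K) (i : ι) :
    ((vert f b d).filter (fun A => i ∈ A)).card ≤
      {v | v ∈ (Poly f b).extremePoints ℝ ∧ f i v = b i}.ncard := by
  classical
  have hcardE : Fintype.card ι = Module.finrank ℝ E + K := by rw [hcard, hE]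
  have hinj : Set.InjOn (act f b) ((Poly f b).extremePoints ℝ) := by
    intro v hv w hw h
    refine (D.unique hv.1 (D.card_of_extreme hcardE hv) ?_).symm
    intro j hj
    by_contra hcon
    rw [← mem_act_iff, h, mem_act_iff] at hcon
    exact hcon hj
  have hfin : ((Poly f b).extremePoints ℝ).Finite :=
    Set.Finite.of_injOn (t := (Set.univ : Set (Finset ι))) (fun _ _ => Set.mem_univ _) hinj
      Set.finite_univ
  have hfin' : {v | v ∈ (Poly f b).extremePoints ℝ ∧ f i v = b i}.Finite :=
    hfin.subset fun v hv => hv.1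
  have hex : ∀ A ∈ (vert f b d).filter (fun A => i ∈ A), ∃ v,
      v ∈ {v | v ∈ (Poly f b).extremePoints ℝ ∧ f i v = b i} ∧ act f b v = A := by
    intro A hA
    rw [mem_filter] at hA
    obtain ⟨hAc, q, hq, hqA⟩ := mem_vert.1 hA.1
    refine ⟨q, ⟨D.extreme hq (D.supp_card hcard hAc hqA), ?_⟩, hqA⟩
    rw [← mem_act, hqA]
    exact hA.2
  choose! ψ hψ using hex
  rw [← Set.ncard_coe_finset]
  refine Set.ncard_le_ncard_of_injOn ψ (fun A hA => (hψ A hA).1) ?_ hfin'
  intro A hA B hB h
  rw [← (hψ A hA).2, ← (hψ B hB).2, h]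

/-- the theorem for an irredundant system -/
theorem main_simplex_irr {n d : ℕ} (hd : 3 ≤ d) (hE : Module.finrank ℝ E = d)
    {f : Fin n → E →ₗ[ℝ] ℝ} {b : Fin n → ℝ} (I : Irr f b)
    (hint : (interior (Poly f b)).Nonempty)
    (hs : ∀ v : (Poly f b).extremePoints ℝ,
      ((polytopeGraph (Poly f b)).neighborSet v).ncard = d)
    (hfew : {i | d < {v | v ∈ (Poly f b).extremePoints ℝ ∧ f i v = b i}.ncard}.ncard ≤ d + 3)
    [DecidableEq ((Poly f b).extremePoints ℝ)] :
    ∃ v, ∃ p : (polytopeGraph (Poly f b)).Walk v v, p.IsHamiltonianCycle := by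
  classical
  by_cases hn : n ≤ d + 3
  · exact main_ineq (by omega) hE f b (by rwa [Fintype.card_fin]) I.bd hint hs
  obtain ⟨K, hcard, D⟩ := I.dataK (by omega) hE hs
  set J1 : Finset (Fin n) := univ.filter (fun i =>
    d < ((vert f b d).filter (fun A => i ∈ A)).card) with hJ1
  have hJ1c : J1.card ≤ d + 3 := by
    refine le_trans ?_ hfew
    rw [← Set.ncard_coe_finset]
    refine Set.ncard_le_ncard ?_ (Set.toFinite _)
    intro i hi
    have hi' := (mem_filter.1 (mem_coe.1 hi)).2
    exact lt_of_lt_of_le hi' (vert_card_le D hE hcard i)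
  obtain ⟨J, hJ1J, hJ⟩ := exists_superset_card_eq hJ1c
    (by rw [Fintype.card_fin]; omega : d + 3 ≤ Fintype.card (Fin n))
  have hS : ∀ i, ∃ S : Finset (Fin n), i ∉ J → S.card = d + 1 ∧ i ∈ S ∧
      (vert f b d).filter (fun A => i ∈ A) = (S.erase i).image (fun a => S.erase a) := by
    intro i
    by_cases hi : i ∈ J
    · exact ⟨∅, fun h => absurd hi h⟩
    · obtain ⟨y, hy, hyi⟩ := I.facet_ne i
      obtain ⟨v, hv, hyv⟩ := exists_extreme_above I.bd hy
      have hvc : (act f b v).card = d := by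
        have h1 := D.card_of_extreme (by rw [hcard, hE]) hv
        have h2 := act_card_add (f := f) (b := b) v
        omega
      have hi1 : i ∉ J1 := fun h => hi (hJ1J h)
      rw [hJ1, mem_filter, not_and, not_lt] at hi1
      obtain ⟨S, h1, h2, h3⟩ := simplex_facet (vert f b d) hd
        (fun A hA => (mem_vert.1 hA).1) (fun A hA a ha => D.exists_nb hE hcard hA ha) i
        ⟨act f b v, mem_vert.2 ⟨hvc, v, hv.1, rfl⟩, hyv (mem_act.2 hyi)⟩ (hi1 (mem_univ i))
      exact ⟨S, fun _ => ⟨h1, h2, h3⟩⟩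
  choose S hS using hS
  have H : TData f b d K J S := ⟨D, hE, hcard, hd, hJ, I.facet_ne, fun i hi => (hS i hi).1,
    fun i hi => (hS i hi).2.1, fun i hi => by convert (hS i hi).2.2⟩
  exact H.main (Metric.isCompact_of_isClosed_isBounded (poly_closed f b) I.bd)

theorem main_simplex {ι : Type*} [Fintype ι] {d : ℕ} (hd : 3 ≤ d)
    (hE : Module.finrank ℝ E = d) (f : ι → E →ₗ[ℝ] ℝ) (b : ι → ℝ)
    (hbd : Bornology.IsBounded (Poly f b)) (hint : (interior (Poly f b)).Nonempty)
    (hs : ∀ v : (Poly f b).extremePoints ℝ,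
      ((polytopeGraph (Poly f b)).neighborSet v).ncard = d)
    (hfew : {i | d < {v | v ∈ (Poly f b).extremePoints ℝ ∧ f i v = b i}.ncard}.ncard ≤ d + 3)
    [DecidableEq ((Poly f b).extremePoints ℝ)] :
    ∃ v, ∃ p : (polytopeGraph (Poly f b)).Walk v v, p.IsHamiltonianCycle := by
  classical
  obtain ⟨J, hJ, hirr⟩ := exists_minimal f b
  obtain ⟨z, hz⟩ := hint
  let e : Fin J.card ≃ J := J.equivFin.symm
  set f1 : Fin J.card → E →ₗ[ℝ] ℝ := fun i => f (e i).1 with hf1
  set b1 : Fin J.card → ℝ := fun i => b (e i).1 with hb1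
  have hP1 : Poly f1 b1 = Poly f b := by
    ext x
    constructor
    · intro h
      refine hJ x fun i hi => ?_
      have := h (e.symm ⟨i, hi⟩)
      simpa [hf1, hb1] using this
    · intro h i; exact h (e i).1
  have I : Irr f1 b1 := by
    refine ⟨by rw [hP1]; exact hbd, ?_, z, ?_⟩
    · intro i
      obtain ⟨x, hx, hxi⟩ := hirr (e i).1 (e i).2
      refine ⟨x, ?_, hxi⟩
      intro j hji
      exact hx (e j).1 (e j).2 fun h => hji (e.injective (Subtype.ext h))
    · intro i
      obtain ⟨x, -, hxi⟩ := hirr (e i).1 (e i).2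
      exact strict_of_interior hz hxi
  have hfew1 : {i | d < {v | v ∈ (Poly f1 b1).extremePoints ℝ ∧ f1 i v = b1 i}.ncard}.ncard ≤
      d + 3 := by
    refine le_trans ?_ hfew
    refine Set.ncard_le_ncard_of_injOn (fun i => (e i).1) ?_ ?_ (Set.toFinite _)
    · intro i hi
      rw [hP1] at hi
      exact hi
    · intro i _ j _ h
      exact e.injective (Subtype.ext h)
  have key : ∀ (Q : Set E), Poly f1 b1 = Q → (interior Q).Nonempty →
      (∀ v : Q.extremePoints ℝ, ((polytopeGraph Q).neighborSet v).ncard = d) →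
      ∀ [DecidableEq (Q.extremePoints ℝ)],
      ∃ v, ∃ p : (polytopeGraph Q).Walk v v, p.IsHamiltonianCycle := by
    rintro Q rfl h2 h3 inst
    exact main_simplex_irr hd hE I h2 h3 hfew1
  exact key _ hP1 ⟨z, hz⟩ hs

end FewFacets
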