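import Pool.Agent.FewFacets.Final2

/-!
Simple polytopes: definitions used for sums, products and equivalences.
-/

set_option linter.unusedSectionVars false

namespace FewFacets

open Finset

/-- `P` is a simple convex polytope of dimension `d` in `ℝ ^ d`: a bounded set with nonempty
interior, which is an intersection of finitely many closed half-spaces, such that every vertex
of `P` has exactly `d` neighbours in the graph of `P`. -/
def SimplePolytope (d : ℕ) (P : Set (EuclideanSpace ℝ (Fin d))) : Prop :=
  (∃ (n : ℕ) (a : Fin n → EuclideanSpace ℝ (Fin d)) (b : Fin n → ℝ),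
    P = {x | ∀ i, inner ℝ (a i) x ≤ b i}) ∧
  Bornology.IsBounded P ∧ (interior P).Nonempty ∧
  ∀ v : P.extremePoints ℝ, ((polytopeGraph P).neighborSet v).ncard = d

variable {E : Type*} [NormedAddCommGroup E] [NormedSpace ℝ E] [FiniteDimensional ℝ E]

/-- a system of inequalities describing a simple polytope of dimension `d` -/
structure Good {ι : Type*} [Fintype ι] (f : ι → E →ₗ[ℝ] ℝ) (b : ι → ℝ) (d : ℕ) :
    Prop where
  dim : Module.finrank ℝ E = d
  rec0 : ∀ w, (∀ i, f i w ≤ 0) → w = 0
  int : ∃ z, ∀ i, f i z < b i
  act_le : ∀ x ∈ Poly f b, (act f b x).card ≤ d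

/-- the facets of the second polytope seen in the sum of two polytopes at vertices: the facets
of `B` are identified by `τ` with facets of the first polytope -/
def relab {κ κ' : Type*} [DecidableEq κ'] (B : Finset κ') (τ : κ' → κ) (c : κ') : κ ⊕ κ' :=
  if c ∈ B then Sum.inl (τ c) else Sum.inr c

end FewFacets
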