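import Pool.Agent.FewFacets.Good

/-!
The graph of a simple polytope given by a good system of inequalities.
-/

set_option linter.unusedSectionVars false
set_option linter.unusedVariables false

namespace FewFacets

open Finset

variable {E : Type*} [NormedAddCommGroup E] [NormedSpace ℝ E] [FiniteDimensional ℝ E]
  {ι : Type*} [Fintype ι] [DecidableEq ι] {f : ι → E →ₗ[ℝ] ℝ} {b : ι → ℝ} {d K : ℕ}

/-- a polyhedron without recession directions is bounded -/
lemma Good.bounded (h : Good f b d) : Bornology.IsBounded (Poly f b) := by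
  obtain ⟨z, hz⟩ := h.int
  by_cases hex : ∃ x ∈ Poly f b, x ≠ z
  · obtain ⟨x1, -, hx1⟩ := hex
    have hne : (Metric.sphere (0 : E) 1).Nonempty := by
      refine ⟨(‖x1 - z‖⁻¹ : ℝ) • (x1 - z), ?_⟩
      rw [mem_sphere_zero_iff_norm, norm_smul, norm_inv, norm_norm,
        inv_mul_cancel₀ (norm_ne_zero_iff.2 (sub_ne_zero.2 hx1))]
    have hproper : ProperSpace E := FiniteDimensional.proper_real E
    set g : E → ℝ := fun w => ∑ i, max (f i w) 0 with hg
    have hgc : Continuous g := by
      refine continuous_finsetSum _ fun i _ => ?_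
      exact (LinearMap.continuous_of_finiteDimensional (f i)).max continuous_const
    obtain ⟨w, hw, hmin⟩ := (isCompact_sphere (0 : E) 1).exists_isMinOn hne hgc.continuousOn
    have hg0 : ∀ w, 0 ≤ g w := fun w => sum_nonneg fun i _ => le_max_right _ _
    have hc : 0 < g w := by
      refine lt_of_le_of_ne (hg0 w) fun h0 => ?_
      have h1 := (sum_eq_zero_iff_of_nonneg (fun i _ => le_max_right (f i w) 0)).1 h0.symm
      have h2 := h.rec0 w fun i => by
        have := h1 i (mem_univ i)
        have := le_max_left (f i w) 0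
        linarith
      rw [h2, mem_sphere_zero_iff_norm, norm_zero] at hw
      exact zero_ne_one hw
    rw [Metric.isBounded_iff_subset_closedBall z]
    refine ⟨(∑ i, (b i - f i z)) / g w, ?_⟩
    intro x hx
    rw [Metric.mem_closedBall, dist_eq_norm, le_div_iff₀ hc]
    by_cases hxz : x = z
    · rw [hxz, sub_self, norm_zero, zero_mul]
      exact sum_nonneg fun i _ => by linarith [hz i]
    · have hpos : 0 < ‖x - z‖ := norm_pos_iff.2 (sub_ne_zero.2 hxz)
      have hmem : (‖x - z‖⁻¹ : ℝ) • (x - z) ∈ Metric.sphere (0 : E) 1 := by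
        rw [mem_sphere_zero_iff_norm, norm_smul, norm_inv, norm_norm,
          inv_mul_cancel₀ hpos.ne']
      have h1 : g w ≤ g ((‖x - z‖⁻¹ : ℝ) • (x - z)) := hmin hmem
      calc ‖x - z‖ * g w ≤ ‖x - z‖ * g ((‖x - z‖⁻¹ : ℝ) • (x - z)) :=
            mul_le_mul_of_nonneg_left h1 hpos.le
        _ = ∑ i, max (f i (x - z)) 0 := by
            rw [hg]
            simp only
            rw [mul_sum]
            refine sum_congr rfl fun i _ => ?_
            rw [mul_max_of_nonneg _ _ hpos.le, mul_zero, map_smul, smul_eq_mul, ← mul_assoc,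
              mul_inv_cancel₀ hpos.ne', one_mul]
        _ ≤ ∑ i, (b i - f i z) := by
            refine sum_le_sum fun i _ => max_le ?_ ?_
            · rw [map_sub]
              linarith [hx i]
            · linarith [hz i]
  · push Not at hex
    exact (Bornology.isBounded_singleton (x := z)).subset fun x hx => hex x hx

lemma Good.interior (h : Good f b d) : (interior (Poly f b)).Nonempty := by
  obtain ⟨z, hz⟩ := h.int
  refine ⟨z, ?_⟩
  have ho : IsOpen {x : E | ∀ i, f i x < b i} := by
    have : {x : E | ∀ i, f i x < b i} = ⋂ i, {x | f i x < b i} := by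
      ext x; simp
    rw [this]
    exact isOpen_iInter_of_finite fun i =>
      isOpen_lt (LinearMap.continuous_of_finiteDimensional (f i)) continuous_const
  exact interior_maximal (fun x hx i => (hx i).le) ho hz

/-- (3) -/
lemma Good.dataK (h : Good f b d) (hd : 1 ≤ d) :
    ∃ K, Fintype.card ι = d + K ∧ DataK f b K := by
  obtain ⟨z, hz⟩ := h.int
  have hzP : z ∈ Poly f b := fun i => (hz i).le
  obtain ⟨v, hv, -⟩ := exists_extreme_above h.bounded hzP
  have hvd : d ≤ (act f b v).card := by
    by_contra hcon
    rw [not_le, ← h.dim] at hcon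
    obtain ⟨w, hw0, hw⟩ := exists_dir (f := f) _ hcon
    exact hw0 (pointed hv hw)
  have hlt : d + 1 ≤ Fintype.card ι := by
    by_contra hcon
    have h1 := card_le_univ (act f b v)
    have h2 : act f b v = univ := by
      rw [← card_eq_iff_eq_univ]
      omega
    have h3 : z - v = 0 := h.rec0 _ fun i => by
      have : i ∈ act f b v := by rw [h2]; exact mem_univ i
      rw [mem_act] at this
      rw [map_sub, this]
      linarith [hz i]
    have hne : (act f b v).Nonempty := by rw [← card_pos]; omega
    obtain ⟨i, hi⟩ := hne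
    rw [mem_act] at hi
    have h4 := hz i
    rw [sub_eq_zero.1 h3, hi] at h4
    exact lt_irrefl _ h4
  refine ⟨Fintype.card ι - d, by omega, by omega, ⟨z, hzP⟩, h.rec0, ?_⟩
  intro x hx
  have h1 := h.act_le x hx
  have h2 := act_card_add (f := f) (b := b) x
  omega

/-- the points of `vert` are vertices -/
lemma DataK.of_vert (D : DataK f b K) (hcard : Fintype.card ι = d + K) {V : Finset ι}
    (hV : V ∈ vert f b d) :
    ∃ x ∈ (Poly f b).extremePoints ℝ, act f b x = V ∧ (supp f b x).card = K := by
  obtain ⟨hVc, x, hx, hxV⟩ := mem_vert.1 hV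
  have := D.supp_card hcard hVc hxV
  exact ⟨x, D.extreme hx this, hxV, this⟩

lemma act_eq_of_supp {x y : E} (h : supp f b x = supp f b y) : act f b x = act f b y := by
  ext i
  rw [mem_act_iff, mem_act_iff, h]

/-- (4) at most two vertices contain a given set of `d - 1` inequalities -/
lemma DataK.line (D : DataK f b K) (hE : Module.finrank ℝ E = d)
    (hcard : Fintype.card ι = d + K) {M V V' V'' : Finset ι} (hM : M.card + 1 = d)
    (hV : V ∈ vert f b d) (hV' : V' ∈ vert f b d) (hV'' : V'' ∈ vert f b d)
    (h1 : M ⊆ V) (h2 : M ⊆ V') (h3 : M ⊆ V'') (hne : V ≠ V') (hne' : V ≠ V'') : V' = V'' := by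
  obtain ⟨x, hx, hxV, hxK⟩ := D.of_vert hcard hV
  obtain ⟨y, hy, hyV, hyK⟩ := D.of_vert hcard hV'
  obtain ⟨z, hz, hzV, hzK⟩ := D.of_vert hcard hV''
  have hVc := (mem_vert.1 hV).1
  -- the element of `V` outside `M`
  obtain ⟨a, haV, haM⟩ : ∃ a ∈ V, a ∉ M := by
    by_contra hcon
    push Not at hcon
    have := card_le_card hcon
    omega
  have hVM : V = insert a M := by
    symm
    refine eq_of_subset_of_card_le (insert_subset haV h1) ?_
    rw [card_insert_of_notMem haM]
    omega
  have hval : ∀ {y : E} {W : Finset ι}, act f b y = W → M ⊆ W → ∀ i ∈ M, f i (y - x) = 0 := by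
    intro y W hyW hMW i hi
    have e1 : f i y = b i := by rw [← mem_act, hyW]; exact hMW hi
    have e2 : f i x = b i := by rw [← mem_act, hxV]; exact h1 hi
    rw [map_sub, e1, e2, sub_self]
  have hax : f a x = b a := by rw [← mem_act, hxV]; exact haV
  have hneg : ∀ {y : E} {W : Finset ι}, y ∈ (Poly f b).extremePoints ℝ → act f b y = W →
      M ⊆ W → V ≠ W → f a (y - x) < 0 := by
    intro y W hy hyW hMW hVW
    refine lt_of_le_of_ne ?_ fun h0 => ?_
    · rw [map_sub, hax]
      linarith [hy.1 a]
    · have : y - x = 0 := pointed hx fun i hi => by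
        rw [hxV, hVM, mem_insert] at hi
        rcases hi with rfl | hi
        · exact h0
        · exact hval hyW hMW i hi
      apply hVW
      rw [← hxV, ← hyW, sub_eq_zero.1 this]
  have hy' := hneg hy hyV h2 hne
  have hz' := hneg hz hzV h3 hne'
  -- proportional directions
  have hprop : f a (z - x) • (y - x) = f a (y - x) • (z - x) := by
    rw [← sub_eq_zero]
    refine pointed hx fun i hi => ?_
    rw [hxV, hVM, mem_insert] at hi
    rw [map_sub, map_smul, map_smul, smul_eq_mul, smul_eq_mul]
    rcases hi with rfl | hi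
    · ring
    · rw [hval hyV h2 i hi, hval hzV h3 i hi]
      ring
  -- if `z` is between `x` and `y`
  have key : ∀ {y z : E}, y ∈ Poly f b → z ∈ Poly f b → (supp f b y).card = K →
      (supp f b z).card = K → f a (y - x) < f a (z - x) → f a (z - x) < 0 →
      f a (z - x) • (y - x) = f a (y - x) • (z - x) → act f b y = act f b z := by
    intro y z hy hz hyK hzK hlt hlt0 hp
    have hy0 : f a (y - x) < 0 := hlt.trans hlt0
    have hop : z ∈ openSegment ℝ y x := by
      refine ⟨f a (z - x) / f a (y - x), 1 - f a (z - x) / f a (y - x),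
        div_pos_of_neg_of_neg hlt0 hy0, ?_, by ring, ?_⟩
      · rw [sub_pos, div_lt_one_of_neg hy0]
        exact hlt
      · have e : z - x = (f a (z - x) / f a (y - x)) • (y - x) := by
          rw [div_eq_inv_mul, mul_smul, hp, ← mul_smul, inv_mul_cancel₀ hy0.ne, one_smul]
        have e2 : z = (f a (z - x) / f a (y - x)) • (y - x) + x := by
          rw [← e]; abel
        conv_rhs => rw [e2]
        module
    refine act_eq_of_supp ?_
    exact eq_of_subset_of_card_le (supp_subset_of_openSegment hy hx.1 hop) (by omega)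
  rcases lt_trichotomy (f a (y - x)) (f a (z - x)) with hlt | heq | hlt
  · rw [← hyV, ← hzV]
    exact key hy.1 hz.1 hyK hzK hlt hz' hprop
  · rw [heq] at hprop
    have := smul_right_injective E hz'.ne hprop
    have h4 : y = z := sub_left_injective this
    rw [← hyV, ← hzV, h4]
  · rw [← hyV, ← hzV]
    exact (key hz.1 hy.1 hzK hyK hlt hy' hprop.symm).symm

lemma DataK.act_card (D : DataK f b K) (hE : Module.finrank ℝ E = d)
    (hcard : Fintype.card ι = d + K) {x : E} (hx : x ∈ (Poly f b).extremePoints ℝ) :
    (act f b x).card = d := by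
  have h1 := D.card_of_extreme (by rw [hcard, hE]) hx
  have h2 := act_card_add (f := f) (b := b) x
  omega

lemma eq_of_act_sub {x y : E} (hx : x ∈ (Poly f b).extremePoints ℝ)
    (h : act f b x ⊆ act f b y) : x = y := by
  rw [← sub_eq_zero]
  refine pointed hx fun i hi => ?_
  have hi' := h hi
  rw [mem_act] at hi hi'
  rw [map_sub, hi, hi', sub_self]

/-- (5) the edges -/
lemma DataK.edge_iff (D : DataK f b K) (hE : Module.finrank ℝ E = d) (hd : 1 ≤ d)
    (hcard : Fintype.card ι = d + K) {x y : E} (hx : x ∈ (Poly f b).extremePoints ℝ)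
    (hy : y ∈ (Poly f b).extremePoints ℝ) (hxy : x ≠ y) :
    IsExtreme ℝ (Poly f b) (segment ℝ x y) ↔ (act f b x ∩ act f b y).card + 1 = d := by
  have hxd := D.act_card hE hcard hx
  have hyd := D.act_card hE hcard hy
  constructor
  · intro hex
    have hle : (act f b x ∩ act f b y).card + 1 ≤ d := by
      by_contra hcon
      have h1 : act f b x ∩ act f b y = act f b x :=
        eq_of_subset_of_card_le inter_subset_left (by omega)
      exact hxy (eq_of_act_sub hx (inter_eq_left.1 h1))
    by_contra hcon
    -- the index separating `x` and `y`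
    obtain ⟨j, hj⟩ : ∃ j, f j (y - x) ≠ 0 := by
      by_contra hc
      push Not at hc
      exact hxy (sub_eq_zero.1 (D.inj hc)).symm
    have hlt : (insert j (act f b x ∩ act f b y)).card < Module.finrank ℝ E := by
      have := card_insert_le j (act f b x ∩ act f b y)
      omega
    obtain ⟨w, hw0, hw⟩ := exists_dir (f := f) _ hlt
    set m : E := (1 / 2 : ℝ) • x + (1 / 2 : ℝ) • y with hm
    have hmseg : m ∈ segment ℝ x y := ⟨1 / 2, 1 / 2, by norm_num, by norm_num, by norm_num, rfl⟩
    have hmP : m ∈ Poly f b := hex.1 hmseg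
    have hact : ∀ i ∈ act f b m, i ∈ act f b x ∩ act f b y := by
      intro i hi
      rw [mem_act, hm, map_add, map_smul, map_smul, smul_eq_mul, smul_eq_mul] at hi
      rw [mem_inter, mem_act, mem_act]
      have := hx.1 i
      have := hy.1 i
      constructor <;> linarith
    obtain ⟨t, ht, h1⟩ := move (w := w) hmP fun i hi =>
      (hw i (mem_insert_of_mem (hact i hi))).le
    obtain ⟨s, hs, h2⟩ := move (w := -w) hmP fun i hi => by
      rw [map_neg, hw i (mem_insert_of_mem (hact i hi)), neg_zero]
    have hop : m ∈ openSegment ℝ (m + t • w) (m + s • (-w)) := by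
      have hts : t + s ≠ 0 := by positivity
      have e1 : s / (t + s) + t / (t + s) = 1 := by
        rw [← add_div, add_comm s t, div_self hts]
      refine ⟨s / (t + s), t / (t + s), by positivity, by positivity, e1, ?_⟩
      have e2 : s / (t + s) * t - t / (t + s) * s = 0 := by field_simp; ring
      calc (s / (t + s)) • (m + t • w) + (t / (t + s)) • (m + s • (-w))
          = (s / (t + s) + t / (t + s)) • m +
            (s / (t + s) * t - t / (t + s) * s) • w := by module
        _ = m := by rw [e1, e2, one_smul, zero_smul, add_zero]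
    have h3 := hex.2 h1 h2 hmseg hop
    obtain ⟨α, β, hα, hβ, hαβ, h4⟩ := h3
    have hfw : f j w = 0 := hw j (mem_insert_self _ _)
    have h5 := congrArg (f j) h4
    rw [map_add, map_smul, map_smul, map_add, map_smul, hfw, hm, map_add, map_smul, map_smul]
      at h5
    simp only [smul_eq_mul, mul_zero, add_zero] at h5
    rw [map_sub] at hj
    have hβ2 : β = 1 / 2 := by
      have h6 : (β - 1 / 2) * (f j y - f j x) = 0 := by
        have hα' : α = 1 - β := by linarith
        rw [hα'] at h5
        linarith
      rcases mul_eq_zero.1 h6 with h | h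
      · linarith
      · exact absurd h hj
    have hα2 : α = 1 / 2 := by linarith
    rw [hα2, hβ2, ← hm] at h4
    have h7 : t • w = 0 := by
      have : m + 0 = m + t • w := by rw [add_zero]; exact h4
      exact (add_left_cancel this).symm
    rcases smul_eq_zero.1 h7 with h | h
    · exact ht.ne' h
    · exact hw0 h
  · intro h
    have hxK := D.card_of_extreme (by rw [hcard, hE]) hx
    have hyK := D.card_of_extreme (by rw [hcard, hE]) hy
    refine D.edge hx.1 hy.1 hxK hyK ?_
    have e : supp f b x ∩ supp f b y = (act f b x ∪ act f b y)ᶜ := by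
      ext i
      rw [mem_inter, mem_compl, mem_union, mem_act_iff, mem_act_iff]
      tauto
    have h1 := card_union_add_card_inter (act f b x) (act f b y)
    have h2 := card_compl_add_card (act f b x ∪ act f b y)
    have := D.pos
    rw [e]
    omega

/-- (6) every vertex has `d` neighbours -/
lemma Good.ncard (h : Good f b d) (hd : 1 ≤ d) (v : (Poly f b).extremePoints ℝ) :
    ((polytopeGraph (Poly f b)).neighborSet v).ncard = d := by
  obtain ⟨K, hcard, D⟩ := h.dataK hd
  have hE := h.dim
  have hvd := D.act_card hE hcard v.2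
  have hvV : act f b v.1 ∈ vert f b d := mem_vert.2 ⟨hvd, v.1, v.2.1, rfl⟩
  have hex : ∀ a ∈ act f b v.1, ∃ u : (Poly f b).extremePoints ℝ,
      a ∉ act f b u.1 ∧ (act f b v.1).erase a ⊆ act f b u.1 := by
    intro a ha
    obtain ⟨A', hA', h1, h2⟩ := D.exists_nb hE hcard hvV ha
    obtain ⟨x, hx, hxA, -⟩ := D.of_vert hcard hA'
    exact ⟨⟨x, hx⟩, by rw [hxA]; exact h1, by rw [hxA]; exact h2⟩
  have hne : Nonempty ((Poly f b).extremePoints ℝ) := ⟨v⟩
  choose! q hq1 hq2 using hex
  have hset : (polytopeGraph (Poly f b)).neighborSet v = q '' (act f b v.1 : Set ι) := by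
    ext u
    rw [SimpleGraph.mem_neighborSet, Set.mem_image]
    constructor
    · rintro ⟨hne, hexu⟩
      have hne' : v.1 ≠ u.1 := fun h => hne (Subtype.ext h)
      have hM := (D.edge_iff hE hd hcard v.2 u.2 hne').1 hexu
      obtain ⟨a, haV, haM⟩ : ∃ a ∈ act f b v.1, a ∉ act f b u.1 := by
        by_contra hcon
        push Not at hcon
        exact hne' (eq_of_act_sub v.2 hcon)
      refine ⟨a, haV, ?_⟩
      have hMe : act f b v.1 ∩ act f b u.1 = (act f b v.1).erase a := by
        refine eq_of_subset_of_card_le ?_ ?_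
        · intro i hi
          rw [mem_inter] at hi
          exact mem_erase.2 ⟨fun h => haM (h ▸ hi.2), hi.1⟩
        · rw [card_erase_of_mem haV, hvd]
          omega
      have hud := D.act_card hE hcard u.2
      have hqd := D.act_card hE hcard (q a).2
      have h4 := D.line hE hcard (M := act f b v.1 ∩ act f b u.1) hM hvV
        (mem_vert.2 ⟨hqd, (q a).1, (q a).2.1, rfl⟩) (mem_vert.2 ⟨hud, u.1, u.2.1, rfl⟩)
        inter_subset_left (by rw [hMe]; exact hq2 a haV) inter_subset_right
        (fun h => hq1 a haV (h ▸ haV)) (fun h => haM (h ▸ haV))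
      exact Subtype.ext (eq_of_act_sub (q a).2 h4.le)
    · rintro ⟨a, ha, rfl⟩
      rw [mem_coe] at ha
      have hne : v.1 ≠ (q a).1 := fun h => hq1 a ha (h ▸ ha)
      refine ⟨fun h => hne (congrArg Subtype.val h), ?_⟩
      rw [D.edge_iff hE hd hcard v.2 (q a).2 hne]
      have : act f b v.1 ∩ act f b (q a).1 = (act f b v.1).erase a := by
        ext i
        rw [mem_inter, mem_erase]
        constructor
        · rintro ⟨h1, h2⟩
          exact ⟨fun h => hq1 a ha (h ▸ h2), h1⟩
        · rintro ⟨h1, h2⟩
          exact ⟨h2, hq2 a ha (mem_erase.2 ⟨h1, h2⟩)⟩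
      rw [this, card_erase_of_mem ha, hvd]
      omega
  rw [hset, Set.InjOn.ncard_image, Set.ncard_coe_finset, hvd]
  intro a ha a' ha' haa'
  rw [mem_coe] at ha ha'
  by_contra hne
  have h1 := hq2 a ha (mem_erase.2 ⟨fun h => hne h.symm, ha'⟩)
  rw [haa'] at h1
  exact hq1 a' ha' h1

end FewFacets
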