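import Pool.Agent.FewFacets.SumGood
import Pool.Agent.FewFacets.CubeHost
import Mathlib.Combinatorics.SimpleGraph.Prod

/-!
Products of graphs of simple polytopes.
-/

set_option linter.unusedSectionVars false

namespace FewFacets

open Finset

open scoped SimpleGraph

section Join

variable {d e : ℕ}

/-- the first coordinates -/
def pr1 (d e : ℕ) : EuclideanSpace ℝ (Fin (d + e)) →ₗ[ℝ] EuclideanSpace ℝ (Fin d) where
  toFun x := WithLp.toLp 2 (fun i => x (Fin.castAdd e i))
  map_add' _ _ := rfl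
  map_smul' _ _ := rfl

/-- the last coordinates -/
def pr2 (d e : ℕ) : EuclideanSpace ℝ (Fin (d + e)) →ₗ[ℝ] EuclideanSpace ℝ (Fin e) where
  toFun x := WithLp.toLp 2 (fun i => x (Fin.natAdd d i))
  map_add' _ _ := rfl
  map_smul' _ _ := rfl

/-- the point with given first and last coordinates -/
def join (x : EuclideanSpace ℝ (Fin d)) (y : EuclideanSpace ℝ (Fin e)) :
    EuclideanSpace ℝ (Fin (d + e)) := WithLp.toLp 2 (Fin.addCases (fun i => x i) (fun j => y j))

lemma pr1_join (x : EuclideanSpace ℝ (Fin d)) (y : EuclideanSpace ℝ (Fin e)) :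
    pr1 d e (join x y) = x := by
  ext i
  change Fin.addCases (motive := fun _ => ℝ) (fun i => x i) (fun j => y j) (Fin.castAdd e i) = x i
  rw [Fin.addCases_left]

lemma pr2_join (x : EuclideanSpace ℝ (Fin d)) (y : EuclideanSpace ℝ (Fin e)) :
    pr2 d e (join x y) = y := by
  ext i
  change Fin.addCases (motive := fun _ => ℝ) (fun i => x i) (fun j => y j) (Fin.natAdd d i) = y i
  rw [Fin.addCases_right]

lemma eq_zero_of_pr {w : EuclideanSpace ℝ (Fin (d + e))} (h1 : pr1 d e w = 0)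
    (h2 : pr2 d e w = 0) : w = 0 := by
  ext i
  refine Fin.addCases (fun j => ?_) (fun j => ?_) i
  · exact congrArg (fun v : EuclideanSpace ℝ (Fin d) => v j) h1
  · exact congrArg (fun v : EuclideanSpace ℝ (Fin e) => v j) h2

variable {κ κ' : Type} [Fintype κ] [DecidableEq κ] [Fintype κ'] [DecidableEq κ']

/-- the inequalities of the product -/
def prodF (f : κ → EuclideanSpace ℝ (Fin d) →ₗ[ℝ] ℝ) (g : κ' → EuclideanSpace ℝ (Fin e) →ₗ[ℝ] ℝ) :
    κ ⊕ κ' → EuclideanSpace ℝ (Fin (d + e)) →ₗ[ℝ] ℝ :=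
  Sum.elim (fun i => f i ∘ₗ pr1 d e) (fun j => g j ∘ₗ pr2 d e)

variable {f : κ → EuclideanSpace ℝ (Fin d) →ₗ[ℝ] ℝ} {b : κ → ℝ}
  {g : κ' → EuclideanSpace ℝ (Fin e) →ₗ[ℝ] ℝ} {c : κ' → ℝ}

lemma mem_Poly_prod {z : EuclideanSpace ℝ (Fin (d + e))} :
    z ∈ Poly (prodF f g) (Sum.elim b c) ↔ pr1 d e z ∈ Poly f b ∧ pr2 d e z ∈ Poly g c := by
  constructor
  · intro h
    exact ⟨fun i => h (Sum.inl i), fun j => h (Sum.inr j)⟩
  · rintro ⟨h1, h2⟩ (i | j)
    · exact h1 i
    · exact h2 j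

lemma act_prod (z : EuclideanSpace ℝ (Fin (d + e))) :
    act (prodF f g) (Sum.elim b c) z = (act f b (pr1 d e z)).disjSum (act g c (pr2 d e z)) := by
  ext i
  rw [mem_act]
  rcases i with i | j
  · rw [inl_mem_disjSum, mem_act]
    rfl
  · rw [inr_mem_disjSum, mem_act]
    rfl

lemma disjSum_inter (V V' : Finset κ) (U U' : Finset κ') :
    V.disjSum U ∩ V'.disjSum U' = (V ∩ V').disjSum (U ∩ U') := by
  ext i
  rcases i with i | j
  · simp only [mem_inter, inl_mem_disjSum]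
  · simp only [mem_inter, inr_mem_disjSum]

lemma disjSum_inj {V V' : Finset κ} {U U' : Finset κ'} (h : V.disjSum U = V'.disjSum U') :
    V = V' ∧ U = U' := by
  constructor
  · ext i
    have := congrArg (fun S => (Sum.inl i : κ ⊕ κ') ∈ S) h
    simpa only [inl_mem_disjSum, eq_iff_iff] using this
  · ext i
    have := congrArg (fun S => (Sum.inr i : κ ⊕ κ') ∈ S) h
    simpa only [inr_mem_disjSum, eq_iff_iff] using this

lemma good_prod (hf : Good f b d) (hg : Good g c e) :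
    Good (prodF f g) (Sum.elim b c) (d + e) := by
  refine ⟨by simp, ?_, ?_, ?_⟩
  · intro w hw
    exact eq_zero_of_pr (hf.rec0 _ fun i => hw (Sum.inl i)) (hg.rec0 _ fun j => hw (Sum.inr j))
  · obtain ⟨x, hx⟩ := hf.int
    obtain ⟨y, hy⟩ := hg.int
    refine ⟨join x y, ?_⟩
    rintro (i | j)
    · change f i (pr1 d e (join x y)) < b i
      rw [pr1_join]
      exact hx i
    · change g j (pr2 d e (join x y)) < c j
      rw [pr2_join]
      exact hy j
  · intro z hz
    rw [mem_Poly_prod] at hz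
    rw [act_prod, card_disjSum]
    exact add_le_add (hf.act_le _ hz.1) (hg.act_le _ hz.2)

lemma mem_vert_prod (hf : Good f b d) (hg : Good g c e) {A : Finset (κ ⊕ κ')} :
    A ∈ vert (prodF f g) (Sum.elim b c) (d + e) ↔
      ∃ V ∈ vert f b d, ∃ U ∈ vert g c e, A = V.disjSum U := by
  rw [mem_vert]
  constructor
  · rintro ⟨hA, z, hz, rfl⟩
    rw [mem_Poly_prod] at hz
    rw [act_prod, card_disjSum] at hA
    have h1 := hf.act_le _ hz.1
    have h2 := hg.act_le _ hz.2
    refine ⟨_, mem_vert.2 ⟨?_, _, hz.1, rfl⟩, _, mem_vert.2 ⟨?_, _, hz.2, rfl⟩, act_prod z⟩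
    · omega
    · omega
  · rintro ⟨V, hV, U, hU, rfl⟩
    obtain ⟨hV1, x, hx, hV2⟩ := mem_vert.1 hV
    obtain ⟨hU1, y, hy, hU2⟩ := mem_vert.1 hU
    refine ⟨by rw [card_disjSum, hV1, hU1], join x y, ?_, ?_⟩
    · rw [mem_Poly_prod, pr1_join, pr2_join]
      exact ⟨hx, hy⟩
    · rw [act_prod, pr1_join, pr2_join, hV2, hU2]

end Join

/-- PACKAGE X. The inequalities `f i (x, y) = f i x`, `g j (x, y) = g j y` for `i : κ`, `j : κ'` on
`E × E'`, transported to `EuclideanSpace ℝ (Fin (d + e))` by a linear equivalence. The active sets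
are the disjoint unions, hence the vertices are the pairs of vertices (the active sets have at
most `d` and `e` elements), and two pairs are adjacent if one component is equal and the other
adjacent. Use `IsGood.of_map` (file CubeHost) or `IsGood` directly. -/
theorem IsGood.prod {β γ : Type*} {d e : ℕ} (hd : 1 ≤ d) (he : 1 ≤ e) {Γ : SimpleGraph β}
    {Δ : SimpleGraph γ} (hΓ : IsGood d Γ) (hΔ : IsGood e Δ) : IsGood (d + e) (Γ □ Δ) := by
  obtain ⟨κ, _, _, f, b, hf, ⟨φ⟩⟩ := hΓ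
  obtain ⟨κ', _, _, g, c, hg, ⟨ψ⟩⟩ := hΔ
  have hcV : ∀ x : β, (φ.symm x).1.card = d := fun x => (mem_vert.1 (φ.symm x).2).1
  have hcU : ∀ y : γ, (ψ.symm y).1.card = e := fun y => (mem_vert.1 (ψ.symm y).2).1
  refine IsGood.of_map (good_prod hf hg)
    (fun p : β × γ => (φ.symm p.1).1.disjSum (ψ.symm p.2).1) ?_ ?_ ?_
  · intro A
    rw [mem_vert_prod hf hg]
    constructor
    · rintro ⟨V, hV, U, hU, rfl⟩
      refine ⟨(φ ⟨V, hV⟩, ψ ⟨U, hU⟩), ?_⟩
      simp only [RelIso.symm_apply_apply]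
    · rintro ⟨p, rfl⟩
      exact ⟨_, (φ.symm p.1).2, _, (ψ.symm p.2).2, rfl⟩
  · rintro ⟨x, y⟩ ⟨x', y'⟩ h
    obtain ⟨h1, h2⟩ := disjSum_inj h
    exact Prod.ext (φ.symm.injective (Subtype.ext h1)) (ψ.symm.injective (Subtype.ext h2))
  · rintro ⟨x, y⟩ ⟨x', y'⟩
    have hx : Γ.Adj x x' ↔ x ≠ x' ∧ ((φ.symm x).1 ∩ (φ.symm x').1).card + 1 = d := by
      rw [← φ.symm.map_rel_iff]
      change (φ.symm x ≠ φ.symm x' ∧ _) ↔ _
      rw [φ.symm.injective.ne_iff]
    have hy : Δ.Adj y y' ↔ y ≠ y' ∧ ((ψ.symm y).1 ∩ (ψ.symm y').1).card + 1 = e := by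
      rw [← ψ.symm.map_rel_iff]
      change (ψ.symm y ≠ ψ.symm y' ∧ _) ↔ _
      rw [ψ.symm.injective.ne_iff]
    have hx' : ((φ.symm x).1 ∩ (φ.symm x').1).card = d ↔ x = x' := by
      constructor
      · intro h
        have h1 : (φ.symm x).1 ∩ (φ.symm x').1 = (φ.symm x).1 :=
          eq_of_subset_of_card_le inter_subset_left (by rw [h, hcV])
        have h2 : (φ.symm x).1 ∩ (φ.symm x').1 = (φ.symm x').1 :=
          eq_of_subset_of_card_le inter_subset_right (by rw [h, hcV])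
        exact φ.symm.injective (Subtype.ext (h1.symm.trans h2))
      · rintro rfl
        rw [inter_self, hcV]
    have hy' : ((ψ.symm y).1 ∩ (ψ.symm y').1).card = e ↔ y = y' := by
      constructor
      · intro h
        have h1 : (ψ.symm y).1 ∩ (ψ.symm y').1 = (ψ.symm y).1 :=
          eq_of_subset_of_card_le inter_subset_left (by rw [h, hcU])
        have h2 : (ψ.symm y).1 ∩ (ψ.symm y').1 = (ψ.symm y').1 :=
          eq_of_subset_of_card_le inter_subset_right (by rw [h, hcU])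
        exact ψ.symm.injective (Subtype.ext (h1.symm.trans h2))
      · rintro rfl
        rw [inter_self, hcU]
    have hlx : ((φ.symm x).1 ∩ (φ.symm x').1).card ≤ d :=
      (card_le_card inter_subset_left).trans (hcV x).le
    have hly : ((ψ.symm y).1 ∩ (ψ.symm y').1).card ≤ e :=
      (card_le_card inter_subset_left).trans (hcU y).le
    rw [SimpleGraph.boxProd_adj, hx, hy]
    simp only [disjSum_inter, card_disjSum, Ne, Prod.mk.injEq]
    rw [← hx', ← hy']
    omega

end FewFacets
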