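import Pool.Agent.FewFacets.Good

/-!
The cube as a system of inequalities.
-/

namespace FewFacets

open Finset

/-- the functionals of the cube -/
noncomputable def cubeF (d : ℕ) (p : Fin d × Bool) : EuclideanSpace ℝ (Fin d) →ₗ[ℝ] ℝ :=
  if p.2 = true then (EuclideanSpace.proj p.1 : EuclideanSpace ℝ (Fin d) →L[ℝ] ℝ).toLinearMap
  else -(EuclideanSpace.proj p.1 : EuclideanSpace ℝ (Fin d) →L[ℝ] ℝ).toLinearMap

/-- the right-hand sides of the cube -/
def cubeB (d : ℕ) (p : Fin d × Bool) : ℝ := if p.2 = true then 1 else 0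

lemma cubeF_true {d : ℕ} (i : Fin d) (x : EuclideanSpace ℝ (Fin d)) :
    cubeF d (i, true) x = x i := by
  simp [cubeF]

lemma cubeF_false {d : ℕ} (i : Fin d) (x : EuclideanSpace ℝ (Fin d)) :
    cubeF d (i, false) x = -x i := by
  simp [cubeF]

lemma cubeB_true {d : ℕ} (i : Fin d) : cubeB d (i, true) = 1 := by simp [cubeB]

lemma cubeB_false {d : ℕ} (i : Fin d) : cubeB d (i, false) = 0 := by simp [cubeB]

lemma cube_act_inj {d : ℕ} (x : EuclideanSpace ℝ (Fin d)) :
    Set.InjOn (Prod.fst : Fin d × Bool → Fin d) (act (cubeF d) (cubeB d) x) := by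
  rintro ⟨i, s⟩ hp ⟨j, t⟩ hq h
  change i = j at h
  subst h
  rw [mem_coe, mem_act] at hp hq
  cases s <;> cases t
  · rfl
  · rw [cubeF_false, cubeB_false] at hp
    rw [cubeF_true, cubeB_true] at hq
    rw [hq] at hp
    norm_num at hp
  · rw [cubeF_false, cubeB_false] at hq
    rw [cubeF_true, cubeB_true] at hp
    rw [hp] at hq
    norm_num at hq
  · rfl

lemma cube_card_le {d : ℕ} (x : EuclideanSpace ℝ (Fin d)) :
    (act (cubeF d) (cubeB d) x).card ≤ d := by
  have h := card_le_card_of_injOn (t := (univ : Finset (Fin d))) Prod.fst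
    (fun _ _ => mem_coe.2 (mem_univ _)) (cube_act_inj x)
  rwa [card_univ, Fintype.card_fin] at h

lemma card_pts {d : ℕ} (ε : Fin d → Bool) :
    (univ.image (fun i => (i, ε i)) : Finset (Fin d × Bool)).card = d := by
  rw [card_image_of_injective _ (fun i j h => (Prod.mk.inj h).1), card_univ, Fintype.card_fin]

/-- The cube is a good system, and its vertices are the vectors of zeros and ones. -/
theorem cube_good {d : ℕ} : ∃ (f : Fin d × Bool → EuclideanSpace ℝ (Fin d) →ₗ[ℝ] ℝ)
    (b : Fin d × Bool → ℝ), Good f b d ∧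
      vert f b d = univ.image (fun ε : Fin d → Bool => univ.image (fun i => (i, ε i))) := by
  classical
  refine ⟨cubeF d, cubeB d, ⟨?_, ?_, ?_, fun x _ => cube_card_le x⟩, ?_⟩
  · simp
  · intro w hw
    ext i
    have h1 := hw (i, true)
    have h2 := hw (i, false)
    rw [cubeF_true] at h1
    rw [cubeF_false] at h2
    change w i = 0
    linarith
  · refine ⟨WithLp.toLp 2 (fun _ => 1 / 2), ?_⟩
    rintro ⟨i, s⟩
    cases s
    · rw [cubeF_false, cubeB_false]
      norm_num
    · rw [cubeF_true, cubeB_true]
      norm_num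
  · ext A
    rw [mem_vert, mem_image]
    constructor
    · rintro ⟨hA, q, -, rfl⟩
      have hsurj : ∀ i : Fin d, ∃ s : Bool, (i, s) ∈ act (cubeF d) (cubeB d) q := by
        intro i
        have h1 : (act (cubeF d) (cubeB d) q).image Prod.fst = univ := by
          apply eq_univ_of_card
          rw [card_image_of_injOn (cube_act_inj q), hA, Fintype.card_fin]
        have h2 : i ∈ (act (cubeF d) (cubeB d) q).image Prod.fst := by
          rw [h1]; exact mem_univ i
        rw [mem_image] at h2
        obtain ⟨⟨j, s⟩, hp, hj⟩ := h2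
        change j = i at hj
        subst hj
        exact ⟨s, hp⟩
      choose ε hε using hsurj
      refine ⟨ε, mem_univ _, ?_⟩
      apply eq_of_subset_of_card_le
      · intro p hp
        rw [mem_image] at hp
        obtain ⟨i, -, rfl⟩ := hp
        exact hε i
      · rw [hA, card_pts]
    · rintro ⟨ε, -, rfl⟩
      refine ⟨card_pts ε, WithLp.toLp 2 (fun i => if ε i = true then 1 else 0), ?_, ?_⟩
      · rintro ⟨i, s⟩
        cases s
        · rw [cubeF_false, cubeB_false]
          change -(if ε i = true then (1 : ℝ) else 0) ≤ 0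
          split_ifs <;> norm_num
        · rw [cubeF_true, cubeB_true]
          change (if ε i = true then (1 : ℝ) else 0) ≤ 1
          split_ifs <;> norm_num
      · ext ⟨i, s⟩
        rw [mem_act, mem_image]
        have hR : (∃ a ∈ (univ : Finset (Fin d)), (a, ε a) = (i, s)) ↔ ε i = s := by
          constructor
          · rintro ⟨a, -, h⟩
            obtain ⟨h1, h2⟩ := Prod.mk.inj h
            subst h1
            exact h2
          · intro h
            exact ⟨i, mem_univ i, by rw [h]⟩
        rw [hR]
        cases s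
        · rw [cubeF_false, cubeB_false]
          change -(if ε i = true then (1 : ℝ) else 0) = 0 ↔ _
          cases ε i <;> simp
        · rw [cubeF_true, cubeB_true]
          change (if ε i = true then (1 : ℝ) else 0) = 1 ↔ _
          cases ε i <;> simp

end FewFacets
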