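import Pool.Agent.FewFacets.MultiPoly

/-!
The equivalences for Hamilton paths and cycles of simple polytopes, stated briefly.
-/

set_option linter.unusedSectionVars false

namespace FewFacets

/-- the vertices of `P` -/
def Vtx {d : ℕ} (P : Set (EuclideanSpace ℝ (Fin d))) : Type := P.extremePoints ℝ

/-- the graph of `P` -/
def gr {d : ℕ} (P : Set (EuclideanSpace ℝ (Fin d))) : SimpleGraph (Vtx P) := polytopeGraph P

open Classical in
/-- `G` has a Hamilton path -/
def HamPath {V : Type*} (G : SimpleGraph V) : Prop :=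
  ∃ (a b : V) (p : G.Walk a b), p.IsHamiltonian

open Classical in
/-- `G` has a Hamilton cycle -/
def HamCycle {V : Type*} (G : SimpleGraph V) : Prop :=
  ∃ (a : V) (p : G.Walk a a), p.IsHamiltonianCycle

open Classical in
/-- `G` has a Hamilton cycle through the edge `uv` -/
def HamThrough {V : Type*} (G : SimpleGraph V) (u v : V) : Prop :=
  ∃ (a : V) (p : G.Walk a a), p.IsHamiltonianCycle ∧ s(u, v) ∈ p.edges

open Classical in
/-- `G` has a Hamilton cycle that avoids the edge `uv` -/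
def HamOff {V : Type*} (G : SimpleGraph V) (u v : V) : Prop :=
  ∃ (a : V) (p : G.Walk a a), p.IsHamiltonianCycle ∧ s(u, v) ∉ p.edges

/-- `G` has at most `c N` pairwise disjoint paths which cover its `N` vertices -/
def CoverBy {V : Type*} (G : SimpleGraph V) (c : ℝ) : Prop :=
  ∃ L : List (Σ a b : V, G.Walk a b), PathCover L ∧ (L.length : ℝ) ≤ c * Nat.card V

/-- `G` has a path with at least `(1 - c) N` of its `N` vertices -/
def LongPath {V : Type*} (G : SimpleGraph V) (c : ℝ) : Prop :=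
  ∃ (a b : V) (p : G.Walk a b), p.IsPath ∧ (1 - c) * Nat.card V ≤ p.support.length

theorem hamPath_iff {V : Type*} (i : DecidableEq V) {G : SimpleGraph V} :
    (∃ (a b : V) (p : G.Walk a b), p.IsHamiltonian) ↔ HamPath G := by
  have h : i = (fun a b => Classical.propDecidable (a = b)) := Subsingleton.elim _ _
  subst h
  exact Iff.rfl

theorem hamCycle_iff {V : Type*} (i : DecidableEq V) {G : SimpleGraph V} :
    (∃ (a : V) (p : G.Walk a a), p.IsHamiltonianCycle) ↔ HamCycle G := by
  have h : i = (fun a b => Classical.propDecidable (a = b)) := Subsingleton.elim _ _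
  subst h
  exact Iff.rfl

theorem hamThrough_iff {V : Type*} (i : DecidableEq V) {G : SimpleGraph V} (u v : V) :
    (∃ (a : V) (p : G.Walk a a), p.IsHamiltonianCycle ∧ s(u, v) ∈ p.edges) ↔
      HamThrough G u v := by
  have h : i = (fun a b => Classical.propDecidable (a = b)) := Subsingleton.elim _ _
  subst h
  exact Iff.rfl

theorem hamOff_iff {V : Type*} (i : DecidableEq V) {G : SimpleGraph V} (u v : V) :
    (∃ (a : V) (p : G.Walk a a), p.IsHamiltonianCycle ∧ s(u, v) ∉ p.edges) ↔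
      HamOff G u v := by
  have h : i = (fun a b => Classical.propDecidable (a = b)) := Subsingleton.elim _ _
  subst h
  exact Iff.rfl

theorem fewPaths_iff {d : ℕ} : FewPaths d ↔ ∀ c : ℝ, 0 < c → ∃ N : ℕ,
    ∀ P : Set (EuclideanSpace ℝ (Fin d)), SimplePolytope d P → N ≤ Nat.card (Vtx P) →
      CoverBy (gr P) c := by
  have h : ∀ P : Set (EuclideanSpace ℝ (Fin d)), Nat.card (Vtx P) = (P.extremePoints ℝ).ncard :=
    fun P => Nat.card_coe_set_eq _
  constructor
  · intro hF c hc
    obtain ⟨N, hN⟩ := hF c hc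
    refine ⟨N, fun P hP hNP => ?_⟩
    rw [h] at hNP
    obtain ⟨L, h1, h2⟩ := hN P hP hNP
    exact ⟨L, h1, by rw [h]; exact h2⟩
  · intro hF c hc
    obtain ⟨N, hN⟩ := hF c hc
    refine ⟨N, fun P hP hNP => ?_⟩
    rw [← h] at hNP
    obtain ⟨L, h1, h2⟩ := hN P hP hNP
    rw [h] at h2
    exact ⟨L, h1, h2⟩

theorem longPaths_iff {d : ℕ} : LongPaths d ↔ ∀ c : ℝ, 0 < c → ∃ N : ℕ,
    ∀ P : Set (EuclideanSpace ℝ (Fin d)), SimplePolytope d P → N ≤ Nat.card (Vtx P) →
      LongPath (gr P) c := by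
  have h : ∀ P : Set (EuclideanSpace ℝ (Fin d)), Nat.card (Vtx P) = (P.extremePoints ℝ).ncard :=
    fun P => Nat.card_coe_set_eq _
  constructor
  · intro hF c hc
    obtain ⟨N, hN⟩ := hF c hc
    refine ⟨N, fun P hP hNP => ?_⟩
    rw [h] at hNP
    obtain ⟨a, b, p, h1, h2⟩ := hN P hP hNP
    exact ⟨a, b, p, h1, by rw [h]; exact h2⟩
  · intro hF c hc
    obtain ⟨N, hN⟩ := hF c hc
    refine ⟨N, fun P hP hNP => ?_⟩
    rw [← h] at hNP
    obtain ⟨a, b, p, h1, h2⟩ := hN P hP hNP
    rw [h] at h2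
    exact ⟨a, b, p, h1, h2⟩

/-- **Hamilton paths and cycles**: the equivalences. -/
theorem ham_tfae' {d : ℕ} (hd : 3 ≤ d) : List.TFAE [
    ∀ c : ℝ, 0 < c → ∃ N : ℕ, ∀ P : Set (EuclideanSpace ℝ (Fin d)), SimplePolytope d P →
      N ≤ Nat.card (Vtx P) → CoverBy (gr P) c,
    ∀ c : ℝ, 0 < c → ∃ N : ℕ, ∀ P : Set (EuclideanSpace ℝ (Fin d)), SimplePolytope d P →
      N ≤ Nat.card (Vtx P) → LongPath (gr P) c,
    ∀ P : Set (EuclideanSpace ℝ (Fin d)), SimplePolytope d P → HamPath (gr P),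
    ∀ P : Set (EuclideanSpace ℝ (Fin d)), SimplePolytope d P → HamCycle (gr P),
    ∀ P : Set (EuclideanSpace ℝ (Fin d)), SimplePolytope d P →
      ∀ u v : Vtx P, (gr P).Adj u v → HamThrough (gr P) u v ∧ HamOff (gr P) u v] := by
  have h := ham_tfae hd
  rw [fewPaths_iff, longPaths_iff] at h
  tfae_have 1 ↔ 2 := h.out 0 1
  tfae_have 1 ↔ 3 := (h.out 0 2).trans
    (forall_congr' fun P => forall_congr' fun _ => hamPath_iff (G := gr P) _)
  tfae_have 1 ↔ 4 := (h.out 0 3).trans
    (forall_congr' fun P => forall_congr' fun _ => hamCycle_iff (G := gr P) _)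
  tfae_have 1 ↔ 5 := (h.out 0 4).trans
    (forall_congr' fun P => forall_congr' fun _ => forall_congr' fun u => forall_congr' fun v =>
      forall_congr' fun _ => and_congr (hamThrough_iff (G := gr P) _ u v)
        (hamOff_iff (G := gr P) _ u v))
  tfae_finish

end FewFacets
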