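import Pool.Agent.FewFacets.HamMap

/-!
Hamilton cycles as walks and as maps.
-/

namespace PolySum

/-- PACKAGE Z1a. -/
theorem hamMap_of_walk {V : Type*} [DecidableEq V] {G : SimpleGraph V}
    (h : ∃ (v : V) (p : G.Walk v v), p.IsHamiltonianCycle) : ∃ f, HamMap G f := by
  obtain ⟨v, p, hp⟩ := h
  have hcyc := hp.isCycle
  have h3 : 3 ≤ p.length := hcyc.three_le_length
  have hex : ∀ u : V, ∃ i : ℕ, i < p.length ∧ p.getVert i = u := by
    intro u
    obtain ⟨i, hi, hil⟩ := SimpleGraph.Walk.mem_support_iff_exists_getVert.1 (hp.mem_support u)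
    rcases hil.lt_or_eq with h | h
    · exact ⟨i, h, hi⟩
    · refine ⟨0, by omega, ?_⟩
      rw [SimpleGraph.Walk.getVert_zero, ← hi, h, SimpleGraph.Walk.getVert_length]
  choose idx hidx hget using hex
  have hinj : ∀ i j : ℕ, i < p.length → j < p.length → p.getVert i = p.getVert j → i = j := by
    intro i j hi hj hij
    exact hcyc.getVert_injOn' (show i ≤ p.length - 1 by omega)
      (show j ≤ p.length - 1 by omega) hij
  have hinj1 : ∀ i j : ℕ, i < p.length → j < p.length →
      p.getVert (i + 1) = p.getVert (j + 1) → i = j := by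
    intro i j hi hj hij
    have h := hcyc.getVert_injOn (show 1 ≤ i + 1 ∧ i + 1 ≤ p.length by omega)
      (show 1 ≤ j + 1 ∧ j + 1 ≤ p.length by omega) hij
    omega
  have hidx' : ∀ i < p.length, idx (p.getVert i) = i := fun i hi =>
    hinj _ _ (hidx _) hi (hget _)
  refine ⟨fun u => p.getVert (idx u + 1), ⟨?_, ?_, ?_⟩⟩
  · intro u
    have h := p.adj_getVert_succ (hidx u)
    rw [hget] at h
    exact h
  · intro a b hab
    have h := hinj1 _ _ (hidx a) (hidx b) hab
    rw [← hget a, ← hget b, h]
  · intro T hT hcl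
    have step : ∀ i < p.length, p.getVert i ∈ T → p.getVert (i + 1) ∈ T := by
      intro i hi h
      have h1 := hcl _ h
      beta_reduce at h1
      rw [hidx' i hi] at h1
      exact h1
    obtain ⟨u, hu⟩ := hT
    have h1 : ∀ j, idx u + j ≤ p.length → p.getVert (idx u + j) ∈ T := by
      intro j
      induction j with
      | zero => intro _; rw [add_zero, hget]; exact hu
      | succ j ih => intro hj; exact step (idx u + j) (by omega) (ih (by omega))
    have h0 : p.getVert 0 ∈ T := by
      have h2 := h1 (p.length - idx u) (by have := hidx u; omega)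
      have h3 : idx u + (p.length - idx u) = p.length := by have := hidx u; omega
      rw [h3, SimpleGraph.Walk.getVert_length] at h2
      rw [SimpleGraph.Walk.getVert_zero]
      exact h2
    have h2 : ∀ j, j ≤ p.length → p.getVert j ∈ T := by
      intro j
      induction j with
      | zero => intro _; exact h0
      | succ j ih => intro hj; exact step _ (by omega) (ih (by omega))
    rw [Set.eq_univ_iff_forall]
    intro w
    rw [← hget w]
    exact h2 _ (hidx w).le

/-- the walk `u, f u, f (f u), ...` -/
def orbitWalk {V : Type*} {G : SimpleGraph V} {f : V → V} (hf : ∀ v, G.Adj v (f v)) :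
    ∀ (k : ℕ) (u : V), G.Walk u (f^[k] u)
  | 0, _ => SimpleGraph.Walk.nil
  | k + 1, u => SimpleGraph.Walk.cons (hf u) (orbitWalk hf k (f u))

theorem support_orbitWalk {V : Type*} {G : SimpleGraph V} {f : V → V}
    (hf : ∀ v, G.Adj v (f v)) (k : ℕ) : ∀ u : V,
      (orbitWalk hf k u).support = (List.range (k + 1)).map (fun i => f^[i] u) := by
  induction k with
  | zero => intro u; rfl
  | succ k ih =>
    intro u
    have h : (orbitWalk hf (k + 1) u).support = u :: (orbitWalk hf k (f u)).support := rfl
    rw [h, ih, List.range_succ_eq_map (n := k + 1), List.map_cons, List.map_map]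
    rfl

theorem edges_orbitWalk {V : Type*} {G : SimpleGraph V} {f : V → V}
    (hf : ∀ v, G.Adj v (f v)) (k : ℕ) : ∀ u : V,
      (orbitWalk hf k u).edges = (List.range k).map (fun i => s(f^[i] u, f^[i + 1] u)) := by
  induction k with
  | zero => intro u; rfl
  | succ k ih =>
    intro u
    have h : (orbitWalk hf (k + 1) u).edges = s(u, f u) :: (orbitWalk hf k (f u)).edges := rfl
    rw [h, ih, List.range_succ_eq_map, List.map_cons, List.map_map]
    rfl

/-- PACKAGE Z1b. (The walk `v, f v, f (f v), ...`; the orbit of `v` is everything by `trans`.) -/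
theorem walk_of_hamMap {V : Type*} [Finite V] [DecidableEq V] {G : SimpleGraph V} {f : V → V}
    (hf : HamMap G f) (h3 : 3 ≤ Nat.card V) :
    ∃ (v : V) (p : G.Walk v v), p.IsHamiltonianCycle ∧ ∀ u, s(u, f u) ∈ p.edges := by
  have hne : Nonempty V := by
    by_contra h
    rw [not_nonempty_iff] at h
    rw [Nat.card_of_isEmpty] at h3
    omega
  obtain ⟨v⟩ := hne
  have hper : v ∈ Function.periodicPts f := hf.inj.mem_periodicPts v
  have hpos := Function.minimalPeriod_pos_of_mem_periodicPts hper
  have hall : ∀ u : V, ∃ i < Function.minimalPeriod f v, f^[i] v = u := by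
    have h1 := hf.trans {u | ∃ i < Function.minimalPeriod f v, f^[i] v = u}
      ⟨v, 0, hpos, rfl⟩ (by
        rintro _ ⟨i, hi, rfl⟩
        refine ⟨(i + 1) % Function.minimalPeriod f v, Nat.mod_lt _ hpos, ?_⟩
        rw [Function.iterate_mod_minimalPeriod_eq, Function.iterate_succ_apply'])
    intro u
    have h2 : u ∈ (Set.univ : Set V) := trivial
    rw [← h1] at h2
    exact h2
  have hinj : ∀ i j, i < Function.minimalPeriod f v → j < Function.minimalPeriod f v →
      f^[i] v = f^[j] v → i = j := fun i j hi hj hij =>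
    Function.iterate_injOn_Iio_minimalPeriod hi hj hij
  have hlen : 3 ≤ Function.minimalPeriod f v := by
    have h1 : Function.Surjective (fun i : Fin (Function.minimalPeriod f v) => f^[i.1] v) := by
      intro u
      obtain ⟨i, hi, h⟩ := hall u
      exact ⟨⟨i, hi⟩, h⟩
    have h2 := Nat.card_le_card_of_surjective _ h1
    rw [Nat.card_fin] at h2
    omega
  obtain ⟨m, hm⟩ : ∃ m, Function.minimalPeriod f v = m + 1 :=
    ⟨Function.minimalPeriod f v - 1, by omega⟩
  have hend : f^[m] (f v) = v := by
    have h1 : f^[Function.minimalPeriod f v] v = v := Function.iterate_minimalPeriod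
    rw [hm] at h1
    exact h1
  rw [hm] at hinj hlen hall
  set q : G.Walk (f v) v := (orbitWalk hf.adj m (f v)).copy rfl hend with hq
  have hsup : q.support = (List.range (m + 1)).map (fun i => f^[i + 1] v) := by
    rw [hq, SimpleGraph.Walk.support_copy, support_orbitWalk]
    rfl
  have hedg : q.edges = (List.range m).map (fun i => s(f^[i + 1] v, f^[i + 2] v)) := by
    rw [hq, SimpleGraph.Walk.edges_copy, edges_orbitWalk]
    rfl
  have hmod : ∀ i < m + 1, ∀ j < m + 1, f^[i + 1] v = f^[j + 1] v → i = j := by
    intro i hi j hj hij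
    rw [Function.iterate_succ_apply', Function.iterate_succ_apply'] at hij
    exact hinj i j hi hj (hf.inj hij)
  have hnd : q.support.Nodup := by
    rw [hsup]
    refine List.Nodup.map_on ?_ List.nodup_range
    intro i hi j hj hij
    exact hmod i (List.mem_range.1 hi) j (List.mem_range.1 hj) hij
  have hmem : ∀ u, u ∈ q.support := by
    intro u
    obtain ⟨i, hi, rfl⟩ := hall u
    rw [hsup, List.mem_map]
    rcases Nat.eq_zero_or_pos i with rfl | h
    · exact ⟨m, List.mem_range.2 (Nat.lt_succ_self m), hend⟩
    · exact ⟨i - 1, List.mem_range.2 (by omega), by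
        have h4 : i - 1 + 1 = i := by omega
        rw [h4]⟩
  have hpath : q.IsPath := SimpleGraph.Walk.IsPath.mk' hnd
  have hcyc : (SimpleGraph.Walk.cons (hf.adj v) q).IsCycle := by
    rw [SimpleGraph.Walk.cons_isCycle_iff]
    refine ⟨hpath, ?_⟩
    rw [hedg, List.mem_map]
    rintro ⟨i, hi, he⟩
    have hi' := List.mem_range.1 hi
    rw [Sym2.eq_iff] at he
    rcases he with ⟨h1, -⟩ | ⟨h1, h2⟩
    · have h5 := hinj (i + 1) 0 (by omega) (by omega) h1
      omega
    · have h5 := hinj (i + 1) 1 (by omega) (by omega) h1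
      have h6 : i = 0 := by omega
      subst h6
      have h7 := hinj 2 0 (by omega) (by omega) h2
      omega
  refine ⟨v, SimpleGraph.Walk.cons (hf.adj v) q, ?_, ?_⟩
  · rw [SimpleGraph.Walk.isHamiltonianCycle_iff_isCycle_and_support_count_tail_eq_one]
    refine ⟨hcyc, fun a => ?_⟩
    rw [SimpleGraph.Walk.support_cons, List.tail_cons]
    exact List.count_eq_one_of_mem hnd (hmem a)
  · intro u
    obtain ⟨i, hi, rfl⟩ := hall u
    rw [SimpleGraph.Walk.edges_cons, hedg]
    rcases Nat.eq_zero_or_pos i with rfl | h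
    · exact List.mem_cons_self
    · refine List.mem_cons_of_mem _ (List.mem_map.2 ⟨i - 1, List.mem_range.2 (by omega), ?_⟩)
      have h4 : i - 1 + 1 = i := by omega
      have h5 : i - 1 + 2 = i + 1 := by omega
      rw [h4, h5, Function.iterate_succ_apply']

end PolySum
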