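import Pool.Agent.FewFacets.SumGood
import Pool.Agent.FewFacets.CubeHost
import Pool.Agent.FewFacets.Back

/-!
Large bipartite simple polytopes.
-/

set_option linter.unusedSectionVars false

namespace FewFacets

open Finset PolySum

/-- there is a simple polytope of dimension `d` with a bipartite graph, the class `Sᶜ` having at
least as many vertices as `S` and at least `k` -/
def Host (d k : ℕ) : Prop :=
  ∃ (β : Type) (_ : Finite β) (B : SimpleGraph β) (S : Set β), IsGood d B ∧
    (∀ b b', B.Adj b b' → (b ∈ S ↔ b' ∉ S)) ∧ S.ncard ≤ Sᶜ.ncard ∧ k ≤ Sᶜ.ncard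

/-- By `IsGood.polytope` the graph `Γ` is isomorphic to the graph of a simple polytope, whose
vertices have `d` neighbours. -/
theorem IsGood.ncard {β : Type*} {d : ℕ} (hd : 1 ≤ d) {Γ : SimpleGraph β} (h : IsGood d Γ)
    (v : β) : (Γ.neighborSet v).ncard = d := by
  obtain ⟨P, ⟨-, -, -, hs⟩, ⟨iso⟩⟩ := h.polytope hd
  have h1 := hs (iso.symm v)
  rw [← Nat.card_coe_set_eq] at h1 ⊢
  rw [← h1]
  exact Nat.card_congr (iso.symm.mapNeighborSet v)

/-- Injections from the neighbours of `r` to the neighbours of `w`. -/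
theorem IsGood.exists_port {β V : Type*} {d : ℕ} (hd : 1 ≤ d) {B : SimpleGraph β}
    (hB : IsGood d B) {G : SimpleGraph V} {w : V} (hw : (G.neighborSet w).ncard = d) :
    ∃ port : β → β → V, (∀ r b, G.Adj w (port r b)) ∧
      ∀ r b b', B.Adj r b → B.Adj r b' → port r b = port r b' → b = b' := by
  classical
  have hfw : Finite (G.neighborSet w) := by
    refine Set.finite_of_ncard_ne_zero ?_
    rw [hw]; omega
  have he : ∀ r : β, Nonempty (B.neighborSet r ≃ G.neighborSet w) := by
    intro r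
    have h1 := hB.ncard hd r
    have hfr : Finite (B.neighborSet r) := by
      refine Set.finite_of_ncard_ne_zero ?_
      rw [h1]; omega
    refine Finite.card_eq.1 ?_
    rw [Nat.card_coe_set_eq, Nat.card_coe_set_eq, h1, hw]
  let e := fun r => Classical.choice (he r)
  have hne : (G.neighborSet w).Nonempty := by
    refine Set.nonempty_of_ncard_ne_zero ?_
    rw [hw]; omega
  obtain ⟨x0, hx0⟩ := hne
  refine ⟨fun r b => if h : B.Adj r b then (e r ⟨b, h⟩).1 else x0, ?_, ?_⟩
  · intro r b
    by_cases h : B.Adj r b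
    · simp only [dif_pos h]
      exact (e r ⟨b, h⟩).2
    · simp only [dif_neg h]
      exact hx0
  · intro r b b' h h' hbb
    simp only [dif_pos h, dif_pos h'] at hbb
    have := (e r).injective (Subtype.ext hbb)
    exact congrArg Subtype.val this

theorem even_wt_false {d : ℕ} : Even (wt (fun _ : Fin d => false)) := by
  have h : wt (fun _ : Fin d => false) = 0 := by
    unfold wt
    rw [card_eq_zero, filter_eq_empty_iff]
    intro i _ h
    cases h
  rw [h]
  exact Even.zero

/-- Replace all vertices `r ∉ S` of a host `(B, S)` by copies of the cube minus the vertex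
`w = 0`. The new class is the set of the `p` with `p.1.2` of even weight (it contains `p` if
`p.1.1 ∈ S`, as `p.1.2 = w`). -/
theorem host_step {d k : ℕ} (hd : 2 ≤ d) (hk : 1 ≤ k) (h : Host d k) : Host d (k + 1) := by
  classical
  obtain ⟨β, hβ, B, S, hB, hbip, hbal, hsize⟩ := h
  set w : Fin d → Bool := fun _ => false with hwdef
  have hw0 : Even (wt w) := even_wt_false
  obtain ⟨port, hp1, hp2⟩ := hB.exists_port (by omega) (cube_deg w)
  have hpodd : ∀ r b, ¬ Even (wt (port r b)) := by
    intro r b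
    exact (cube_bip (hp1 r b)).1 hw0
  set R : Set β := Sᶜ with hR
  have hfin : Finite (SumVert R w) := by
    unfold SumVert
    infer_instance
  have hSw : ∀ p : SumVert R w, p.1.1 ∈ S → p.1.2 = w := by
    intro p hp
    by_contra hcon
    exact (p.2.2 hcon) hp
  have hRw : ∀ p : SumVert R w, p.1.1 ∉ S → p.1.2 ≠ w := fun p hp => p.2.1 hp
  set S' : Set (SumVert R w) := {p | Even (wt p.1.2)} with hS'
  have hi0 : 0 < d := by omega
  -- an injection of `S` into its complement
  obtain ⟨j, hj1, hj2⟩ : ∃ j : β → β, (∀ b ∈ S, j b ∈ Sᶜ) ∧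
      ∀ b ∈ S, ∀ b' ∈ S, j b = j b' → b = b' := by
    have h1 : Nat.card S ≤ Nat.card (Sᶜ : Set β) := by
      rw [Nat.card_coe_set_eq, Nat.card_coe_set_eq]; exact hbal
    have := Fintype.ofFinite S
    have := Fintype.ofFinite (Sᶜ : Set β)
    rw [Nat.card_eq_fintype_card, Nat.card_eq_fintype_card] at h1
    obtain ⟨f⟩ := Function.Embedding.nonempty_of_card_le h1
    refine ⟨fun b => if hb : b ∈ S then (f ⟨b, hb⟩).1 else b, ?_, ?_⟩
    · intro b hb
      simp only [dif_pos hb]
      exact (f ⟨b, hb⟩).2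
    · intro b hb b' hb' hbb
      simp only [dif_pos hb, dif_pos hb'] at hbb
      have := f.injective (Subtype.ext hbb)
      exact congrArg Subtype.val this
  -- the vertex `(b, v)` for `b ∉ S` and `v` of odd weight
  have hmk : ∀ (b : β) (v : Fin d → Bool), b ∉ S → ¬ Even (wt v) →
      ∃ q : SumVert R w, q.1 = (b, v) ∧ q ∈ S'ᶜ := by
    intro b v hb hv
    have hvw : v ≠ w := by
      rintro rfl
      exact hv hw0
    exact ⟨⟨(b, v), ⟨fun _ => hvw, fun _ => hb⟩⟩, rfl, hv⟩
  have hflip : ∀ (i : Fin d) (v : Fin d → Bool), Even (wt v) → ¬ Even (wt (flip i v)) := by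
    intro i v hv
    rw [wt_flip, not_not]
    exact hv
  have hflipinj : ∀ (i : Fin d) (v v' : Fin d → Bool), flip i v = flip i v' → v = v' := by
    intro i v v' hvv
    have := congrArg (flip i) hvv
    rwa [flip_flip, flip_flip] at this
  refine ⟨SumVert R w, hfin, sumGraph B (cube d) w R port, S', ?_, ?_, ?_, ?_⟩
  · exact IsGood.sumSet (by omega) (fun h => h.simp (by omega)) hB cube_isGood w port R
      (Set.toFinite R) (fun r _ z _ => hp1 r z) (fun r _ z z' hz hz' hzz => hp2 r z z' hz hz' hzz)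
  · rintro p q (⟨-, h2⟩ | ⟨h1, h2, h3⟩)
    · exact cube_bip h2
    · by_cases hp : p.1.1 ∈ S
      · have hq : q.1.1 ∉ S := (hbip _ _ h1).1 hp
        have hp' : p ∈ S' := by
          show Even (wt p.1.2)
          rw [hSw p hp]; exact hw0
        have hq' : q ∉ S' := by
          show ¬ Even (wt q.1.2)
          rw [h3 hq]; exact hpodd _ _
        exact ⟨fun _ => hq', fun _ => hp'⟩
      · have hq : q.1.1 ∈ S := by
          by_contra hcon
          exact hp ((hbip _ _ h1).2 hcon)
        have hq' : q ∈ S' := by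
          show Even (wt q.1.2)
          rw [hSw q hq]; exact hw0
        have hp' : p ∉ S' := by
          show ¬ Even (wt p.1.2)
          rw [h2 hp]; exact hpodd _ _
        exact ⟨fun hh => absurd hh hp', fun hh => absurd hq' hh⟩
  · -- balanced
    have hex : ∀ p : SumVert R w, ∃ q : SumVert R w, p ∈ S' → q ∈ S'ᶜ ∧
        (p.1.1 ∈ S → q.1 = (j p.1.1, flip ⟨0, hi0⟩ w)) ∧
        (p.1.1 ∉ S → q.1 = (p.1.1, flip ⟨0, hi0⟩ p.1.2)) := by
      intro p
      by_cases hp : p ∈ S'
      · by_cases hpS : p.1.1 ∈ S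
        · obtain ⟨q, hq1, hq2⟩ := hmk (j p.1.1) (flip ⟨0, hi0⟩ w) (hj1 _ hpS) (hflip _ _ hw0)
          exact ⟨q, fun _ => ⟨hq2, fun _ => hq1, fun hh => absurd hpS hh⟩⟩
        · obtain ⟨q, hq1, hq2⟩ := hmk p.1.1 (flip ⟨0, hi0⟩ p.1.2) hpS (hflip _ _ hp)
          exact ⟨q, fun _ => ⟨hq2, fun hh => absurd hh hpS, fun _ => hq1⟩⟩
      · exact ⟨p, fun hh => absurd hh hp⟩
    choose g hg using hex
    refine Set.ncard_le_ncard_of_injOn g (fun p hp => (hg p hp).1) ?_ (Set.toFinite _)
    intro p hp q hq hpq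
    have hp3 := (hg p hp).2
    have hq3 := (hg q hq).2
    by_cases hpS : p.1.1 ∈ S <;> by_cases hqS : q.1.1 ∈ S
    · have h1 := hp3.1 hpS
      rw [hpq, hq3.1 hqS] at h1
      have h2 := hj2 _ hqS _ hpS (Prod.mk.inj h1).1
      exact Subtype.ext (Prod.ext h2.symm ((hSw p hpS).trans (hSw q hqS).symm))
    · have h1 := hp3.1 hpS
      rw [hpq, hq3.2 hqS] at h1
      exact absurd (hflipinj _ _ _ (Prod.mk.inj h1).2) (hRw q hqS)
    · have h1 := hp3.2 hpS
      rw [hpq, hq3.1 hqS] at h1
      exact absurd (hflipinj _ _ _ (Prod.mk.inj h1).2).symm (hRw p hpS)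
    · have h1 := hp3.2 hpS
      rw [hpq, hq3.2 hqS] at h1
      exact Subtype.ext (Prod.ext (Prod.mk.inj h1).1.symm
        (hflipinj _ _ _ (Prod.mk.inj h1).2).symm)
  · -- size
    have hex : ∀ x : (Sᶜ : Set β) × Fin d, ∃ q : (S'ᶜ : Set (SumVert R w)),
        q.1.1 = (x.1.1, flip x.2 w) := by
      rintro ⟨⟨r, hr⟩, i⟩
      obtain ⟨q, hq1, hq2⟩ := hmk r (flip i w) hr (hflip _ _ hw0)
      exact ⟨⟨q, hq2⟩, hq1⟩
    choose g hg using hex
    have hginj : Function.Injective g := by
      intro x y hxy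
      have h1 := hg x
      rw [hxy, hg y] at h1
      have h2 := flip_inj (Prod.mk.inj h1).2
      exact Prod.ext (Subtype.ext (Prod.mk.inj h1).1.symm) h2.symm
    have h1 := Nat.card_le_card_of_injective g hginj
    rw [Nat.card_prod, Nat.card_coe_set_eq, Nat.card_coe_set_eq, Nat.card_fin] at h1
    have h2 : k * 2 ≤ (Sᶜ : Set β).ncard * d := Nat.mul_le_mul hsize hd
    omega

theorem host {d : ℕ} (hd : 2 ≤ d) (k : ℕ) : Host d k := by
  have h1 : ∀ k, Host d (k + 1) := by
    intro k
    induction k with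
    | zero =>
      refine ⟨Fin d → Bool, inferInstance, cube d, {x | Even (wt x)}, cube_isGood,
        fun b b' hbb => cube_bip hbb, cube_bal (by omega), ?_⟩
      have h2 := cube_bal (d := d) (by omega)
      have h3 : 1 ≤ {x : Fin d → Bool | Even (wt x)}.ncard := by
        rw [Nat.succ_le_iff, Set.ncard_pos]
        exact ⟨_, even_wt_false⟩
      omega
    | succ k ih => exact host_step hd (by omega) ih
  obtain ⟨β, hβ, B, S, h2, h3, h4, h5⟩ := h1 k
  exact ⟨β, hβ, B, S, h2, h3, h4, by omega⟩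

end FewFacets
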