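import Pool.Agent.FewFacets.HamMap

/-!
A Hamilton cycle of a sum gives Hamilton cycles of the host and of the copies.
-/

namespace PolySum

variable {β V : Type*} {B : SimpleGraph β} {G : SimpleGraph V} {w : V} {R : Set β}
  {port : β → β → V}

namespace HostMap

theorem finite_sumVert [Finite β] [Finite V] : Finite (SumVert R w) :=
  inferInstanceAs (Finite {p : β × V // p.1 ∈ R ↔ p.2 ≠ w})

theorem exists_vert (hne : ∃ v, v ≠ w) (b : β) : ∃ z : SumVert R w, z.1.1 = b := by
  by_cases hb : b ∈ R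
  · obtain ⟨v, hv⟩ := hne
    exact ⟨⟨(b, v), iff_of_true hb hv⟩, rfl⟩
  · exact ⟨⟨(b, w), iff_of_false hb (by simp)⟩, rfl⟩

theorem vert_ext {z z' : SumVert R w} (h1 : z.1.1 = z'.1.1) (h2 : z.1.1 ∉ R) : z = z' := by
  have h3 : z.1.2 = w := by
    by_contra h
    exact h2 (z.2.2 h)
  have h4 : z'.1.2 = w := by
    by_contra h
    exact h2 (h1 ▸ z'.2.2 h)
  exact Subtype.ext (Prod.ext h1 (h3.trans h4.symm))

theorem exit_adj {F : SumVert R w → SumVert R w} (hF : HamMap (sumGraph B G w R port) F)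
    {z : SumVert R w} (hz : (F z).1.1 ≠ z.1.1) :
    B.Adj z.1.1 (F z).1.1 ∧ (z.1.1 ∈ R → z.1.2 = port z.1.1 (F z).1.1) ∧
      ((F z).1.1 ∈ R → (F z).1.2 = port (F z).1.1 z.1.1) := by
  rcases hF.adj z with ⟨h1, _⟩ | h
  · exact absurd h1.symm hz
  · exact h

theorem exists_exit (hne : ∃ v, v ≠ w) (htwo : ∀ b : β, ∃ b', b' ≠ b)
    {F : SumVert R w → SumVert R w} (hF : HamMap (sumGraph B G w R port) F) (b : β) :
    ∃ z : SumVert R w, z.1.1 = b ∧ (F z).1.1 ≠ z.1.1 := by
  by_contra hcon
  push Not at hcon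
  obtain ⟨z, hz⟩ := exists_vert (R := R) hne b
  have h := hF.trans {z | z.1.1 = b} ⟨z, hz⟩ (fun v hv => (hcon v hv).trans hv)
  obtain ⟨b', hb'⟩ := htwo b
  obtain ⟨z', hz'⟩ := exists_vert (R := R) hne b'
  have h2 : z' ∈ {z : SumVert R w | z.1.1 = b} := h ▸ Set.mem_univ z'
  exact hb' (hz'.symm.trans h2)

/-- every copy is entered from another one -/
theorem exists_entry (hne : ∃ v, v ≠ w) (htwo : ∀ b : β, ∃ b', b' ≠ b)
    {F : SumVert R w → SumVert R w} (hF : HamMap (sumGraph B G w R port) F) (b : β) :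
    ∃ z : SumVert R w, z.1.1 ≠ b ∧ (F z).1.1 = b := by
  by_contra hcon
  push Not at hcon
  obtain ⟨b', hb'⟩ := htwo b
  obtain ⟨z', hz'⟩ := exists_vert (R := R) hne b'
  have h := hF.trans {z | z.1.1 ≠ b} ⟨z', by simpa [hz'] using hb'⟩ (fun v hv => hcon v hv)
  obtain ⟨z, hz⟩ := exists_vert (R := R) hne b
  have h2 : z ∈ {z : SumVert R w | z.1.1 ≠ b} := h ▸ Set.mem_univ z
  exact h2 hz

theorem exit_unique [Finite β] [Finite V] {S : Set β}
    (hbip : ∀ b b', B.Adj b b' → (b ∈ S ↔ b' ∉ S)) (hbal : S.ncard ≤ Sᶜ.ncard)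
    (hRS : ∀ b ∈ R, b ∉ S) (hne : ∃ v, v ≠ w) (htwo : ∀ b : β, ∃ b', b' ≠ b)
    {F : SumVert R w → SumVert R w} (hF : HamMap (sumGraph B G w R port) F)
    {z z' : SumVert R w} (h : z.1.1 = z'.1.1) (hz : (F z).1.1 ≠ z.1.1)
    (hz' : (F z').1.1 ≠ z'.1.1) : z = z' := by
  choose e he using exists_exit hne htwo hF
  have hS : ∀ y : SumVert R w, y.1.1 ∉ S → (F y).1.1 ≠ y.1.1 → (F y).1.1 ∈ S := by
    intro y hy hy'
    by_contra hcon
    exact hy ((hbip _ _ (exit_adj hF hy').1).2 hcon)
  have hSR : ∀ b ∈ S, b ∉ R := fun b hb hb' => hRS b hb' hb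
  have hsur := Set.surj_on_of_inj_on_of_ncard_le (s := Sᶜ) (t := S)
    (fun b _ => (F (e b)).1.1)
    (fun b hb => hS _ (by rw [(he b).1]; exact hb) (he b).2)
    (fun b1 b2 hb1 hb2 heq => by
      have h1 : (F (e b1)).1.1 ∉ R :=
        hSR _ (hS _ (by rw [(he b1).1]; exact hb1) (he b1).2)
      have h2 := hF.inj (vert_ext heq h1)
      rw [← (he b1).1, ← (he b2).1, h2]) hbal (Set.toFinite S)
  have key : ∀ y : SumVert R w, y.1.1 ∉ S → (F y).1.1 ≠ y.1.1 → y = e y.1.1 := by
    intro y hy hy'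
    have h1 := hS y hy hy'
    obtain ⟨b3, hb3, h3⟩ := hsur _ h1
    have h4 := hF.inj (vert_ext h3 (hSR _ h1))
    have h5 : y.1.1 = b3 := by rw [h4, (he b3).1]
    rw [h5]
    exact h4
  by_cases hzS : z.1.1 ∈ S
  · exact vert_ext h (hSR _ hzS)
  · rw [key z hzS hz, key z' (h ▸ hzS) hz', h]

end HostMap

open HostMap in
/-- PACKAGE Z2. Call `z` an exit of the copy `z.1.1` if `(F z).1.1 ≠ z.1.1`. Every copy has an
exit (else it is closed under `F`). An exit of a copy `r ∉ S` goes to a vertex `(b, w)`, `b ∈ S`,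
`b ∉ R`, and `F` is injective: there are at most `S.ncard ≤ Sᶜ.ncard` exits of copies `r ∉ S`,
so each of them has exactly one exit; for `b ∈ S` the copy is one vertex. Put
`f b = (F z).1.1` for the exit `z` of `b`. It is surjective (every copy is entered from another
one, else the complement is closed under the inverse, hence under `F`, by finiteness), so
injective; `trans` from `{z | z.1.1 ∈ T}`. For `r ∈ R`, `f b = r`, let `g w = port r b`,
`g v = w` for the exit `(r, v)` (then `v = port r (f r)`), and `g v = v'` if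
`F (r, v) = (r, v')`. It is injective; if `T` is nonempty and closed under `g` then `w ∈ T`
(else `{(r, v) | v ∈ T}` is closed under `F`), and the same for the complement of `T`, which is
closed under `g` by finiteness, so the complement is empty. -/
theorem host_map [Finite β] [Finite V] {S : Set β}
    (hbip : ∀ b b', B.Adj b b' → (b ∈ S ↔ b' ∉ S)) (hbal : S.ncard ≤ Sᶜ.ncard)
    (hRS : ∀ b ∈ R, b ∉ S) (hne : ∃ v, v ≠ w) (htwo : ∀ b : β, ∃ b', b' ≠ b)
    (hport : ∀ r ∈ R, ∀ b, B.Adj r b → G.Adj w (port r b))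
    {F : SumVert R w → SumVert R w} (hF : HamMap (sumGraph B G w R port) F) :
    ∃ f : β → β, HamMap B f ∧
      (∀ b, ∃ z : SumVert R w, z.1.1 = b ∧ (F z).1.1 = f b) ∧
      ∀ r ∈ R, ∀ b, f b = r → ∃ g : V → V, HamMap G g ∧ g w = port r b ∧
        g (port r (f r)) = w ∧
        ∀ v, v ≠ w → g v ≠ w → ∃ z : SumVert R w, z.1 = (r, v) ∧ (F z).1 = (r, g v) := by
  classical
  have huniq : ∀ z z' : SumVert R w, z.1.1 = z'.1.1 → (F z).1.1 ≠ z.1.1 →
      (F z').1.1 ≠ z'.1.1 → z = z' := fun z z' => exit_unique hbip hbal hRS hne htwo hF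
  choose e he using exists_exit hne htwo hF
  have hex : ∀ z : SumVert R w, (F z).1.1 ≠ z.1.1 → z = e z.1.1 := fun z hz =>
    huniq z _ (he _).1.symm hz (he _).2
  obtain ⟨f, hf⟩ : ∃ f : β → β, ∀ b, f b = (F (e b)).1.1 := ⟨fun b => (F (e b)).1.1, fun _ => rfl⟩
  have hfz : ∀ z : SumVert R w, (F z).1.1 ≠ z.1.1 → f z.1.1 = (F z).1.1 := by
    intro z hz
    rw [hf, ← hex z hz]
  have hadj : ∀ b, B.Adj b (f b) := by
    intro b
    have := (exit_adj hF (he b).2).1
    rwa [(he b).1, ← hf] at this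
  have hsurj : Function.Surjective f := by
    intro c
    obtain ⟨z, hz1, hz2⟩ := exists_entry hne htwo hF c
    exact ⟨z.1.1, by rw [hfz z (by rw [hz2]; exact hz1.symm), hz2]⟩
  have hinj : Function.Injective f := Finite.injective_iff_surjective.2 hsurj
  refine ⟨f, ⟨hadj, hinj, ?_⟩, fun b => ⟨e b, (he b).1, (hf b).symm⟩, ?_⟩
  · rintro T ⟨b, hb⟩ hT
    obtain ⟨z, hz⟩ := exists_vert (R := R) hne b
    have h := hF.trans {z | z.1.1 ∈ T} ⟨z, by simpa [hz] using hb⟩ (fun v hv => by
      by_cases h1 : (F v).1.1 = v.1.1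
      · show (F v).1.1 ∈ T
        rw [h1]; exact hv
      · show (F v).1.1 ∈ T
        rw [← hfz v h1]; exact hT _ hv)
    refine Set.eq_univ_of_forall fun b' => ?_
    obtain ⟨z', hz'⟩ := exists_vert (R := R) hne b'
    have h2 : z' ∈ {z : SumVert R w | z.1.1 ∈ T} := h ▸ Set.mem_univ z'
    rw [← hz']
    exact h2
  · intro r hr b hb
    have hbr : b ≠ r := by
      rintro rfl
      exact B.ne_of_adj (hadj b) hb.symm
    -- the entry
    have hFe : (F (e b)).1 = (r, port r b) := by
      have h1 : (F (e b)).1.1 = r := by rw [← hf, hb]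
      have h2 := (exit_adj hF (he b).2).2.2 (by rw [h1]; exact hr)
      rw [h1, (he b).1] at h2
      exact Prod.ext h1 h2
    have hpb : port r b ≠ w := by
      have := (F (e b)).2
      rw [hFe] at this
      exact this.1 hr
    -- the exit
    have her : (e r).1 = (r, port r (f r)) := by
      have h2 := (exit_adj hF (he r).2).2.1 (by rw [(he r).1]; exact hr)
      rw [(he r).1, ← hf] at h2
      exact Prod.ext (he r).1 h2
    have hpr : port r (f r) ≠ w := by
      have := (e r).2
      rw [her] at this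
      exact this.1 hr
    obtain ⟨g, hg⟩ : ∃ g : V → V, ∀ v, g v = if hv : v = w then port r b else
        if (F ⟨(r, v), iff_of_true hr hv⟩).1.1 = r then (F ⟨(r, v), iff_of_true hr hv⟩).1.2
          else w := ⟨fun v => _, fun v => rfl⟩
    have hgw : g w = port r b := by rw [hg, dif_pos rfl]
    have hgi : ∀ v (hv : v ≠ w), (F ⟨(r, v), iff_of_true hr hv⟩).1.1 = r →
        (F ⟨(r, v), iff_of_true hr hv⟩).1 = (r, g v) ∧ g v ≠ w := by
      intro v hv h1
      have h2 : g v = (F ⟨(r, v), iff_of_true hr hv⟩).1.2 := by rw [hg, dif_neg hv, if_pos h1]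
      refine ⟨Prod.ext h1 h2.symm, ?_⟩
      rw [h2]
      exact (F ⟨(r, v), iff_of_true hr hv⟩).2.1 (by rw [h1]; exact hr)
    have hgo : ∀ v (hv : v ≠ w), (F ⟨(r, v), iff_of_true hr hv⟩).1.1 ≠ r →
        g v = w ∧ v = port r (f r) := by
      intro v hv h1
      refine ⟨by rw [hg, dif_neg hv, if_neg h1], ?_⟩
      have h2 := hex ⟨(r, v), iff_of_true hr hv⟩ h1
      have h3 : ((r, v) : β × V) = (e r).1 := congrArg Subtype.val h2
      rw [her] at h3
      exact (Prod.ext_iff.1 h3).2
    have hgv : ∀ v (hv : v ≠ w), g v ≠ w → (F ⟨(r, v), iff_of_true hr hv⟩).1 = (r, g v) := by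
      intro v hv h1
      by_cases h2 : (F ⟨(r, v), iff_of_true hr hv⟩).1.1 = r
      · exact (hgi v hv h2).1
      · exact absurd (hgo v hv h2).1 h1
    have hginj : Function.Injective g := by
      intro v1 v2 h12
      by_cases h1 : v1 = w
      · by_cases h2 : v2 = w
        · rw [h1, h2]
        · exfalso
          rw [h1, hgw] at h12
          have h3 := hgv v2 h2 (by rw [← h12]; exact hpb)
          rw [← h12, ← hFe] at h3
          have h4 := hF.inj (Subtype.ext h3)
          have h5 := congrArg (fun z : SumVert R w => z.1.1) h4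
          exact hbr ((he b).1.symm.trans h5.symm)
      · by_cases h2 : v2 = w
        · exfalso
          rw [h2, hgw] at h12
          have h3 := hgv v1 h1 (by rw [h12]; exact hpb)
          rw [h12, ← hFe] at h3
          have h4 := hF.inj (Subtype.ext h3)
          have h5 := congrArg (fun z : SumVert R w => z.1.1) h4
          exact hbr ((he b).1.symm.trans h5.symm)
        · by_cases h3 : g v1 = w
          · have h4 : g v2 = w := h12 ▸ h3
            by_cases h5 : (F ⟨(r, v1), iff_of_true hr h1⟩).1.1 = r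
            · exact absurd h3 (hgi v1 h1 h5).2
            · by_cases h6 : (F ⟨(r, v2), iff_of_true hr h2⟩).1.1 = r
              · exact absurd h4 (hgi v2 h2 h6).2
              · rw [(hgo v1 h1 h5).2, ← (hgo v2 h2 h6).2]
          · have h4 : g v2 ≠ w := h12 ▸ h3
            have h5 := hgv v1 h1 h3
            have h6 := hgv v2 h2 h4
            rw [h12, ← h6] at h5
            have h7 := congrArg Subtype.val (hF.inj (Subtype.ext h5))
            exact (Prod.ext_iff.1 h7).2
    have hw : ∀ T : Set V, T.Nonempty → (∀ v ∈ T, g v ∈ T) → w ∈ T := by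
      rintro T ⟨v, hv⟩ hT
      by_contra hwT
      have hvw : v ≠ w := by
        rintro rfl
        exact hwT hv
      have h := hF.trans {z | z.1.1 = r ∧ z.1.2 ∈ T}
        ⟨⟨(r, v), iff_of_true hr hvw⟩, rfl, hv⟩ (by
        rintro ⟨⟨r', u⟩, hu⟩ ⟨h1, h2⟩
        have h1' : r' = r := h1
        subst h1'
        have h2' : u ∈ T := h2
        have huw : u ≠ w := by
          rintro rfl
          exact hwT h2'
        have h3 : g u ≠ w := by
          intro h4
          exact hwT (h4 ▸ hT u h2')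
        have h4 := hgv u huw h3
        show (F _).1.1 = _ ∧ (F _).1.2 ∈ T
        rw [h4]
        exact ⟨rfl, hT u h2'⟩)
      obtain ⟨b', hb'⟩ := htwo r
      obtain ⟨z', hz'⟩ := exists_vert (R := R) hne b'
      have h2 : z' ∈ {z : SumVert R w | z.1.1 = r ∧ z.1.2 ∈ T} := h ▸ Set.mem_univ z'
      exact hb' (hz'.symm.trans h2.1)
    refine ⟨g, ⟨?_, hginj, ?_⟩, hgw, ?_, ?_⟩
    · intro v
      by_cases hv : v = w
      · rw [hv, hgw]
        refine hport r hr b ?_
        have := hadj b
        rw [hb] at this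
        exact this.symm
      · by_cases h1 : (F ⟨(r, v), iff_of_true hr hv⟩).1.1 = r
        · have h2 := (hgi v hv h1).1
          rcases hF.adj ⟨(r, v), iff_of_true hr hv⟩ with ⟨_, h3⟩ | ⟨h3, _⟩
          · rw [h2] at h3
            exact h3
          · rw [h2] at h3
            exact absurd rfl (B.ne_of_adj h3)
        · obtain ⟨h2, h3⟩ := hgo v hv h1
          rw [h2, h3]
          exact (hport r hr _ (hadj r)).symm
    · intro T hT0 hT
      by_contra hcon
      have hc : (Tᶜ).Nonempty := Set.nonempty_compl.2 hcon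
      have himg : g '' T = T := by
        refine Set.eq_of_subset_of_ncard_le ?_ ?_ (Set.toFinite T)
        · rintro _ ⟨v, hv, rfl⟩
          exact hT v hv
        · rw [Set.ncard_image_of_injective T hginj]
      have h2 := hw Tᶜ hc (by
        intro v hv hgT
        rw [← himg] at hgT
        obtain ⟨u, hu, hgu⟩ := hgT
        exact hv (hginj hgu ▸ hu))
      exact h2 (hw T hT0 hT)
    · by_cases h1 : (F ⟨(r, port r (f r)), iff_of_true hr hpr⟩).1.1 = r
      · exfalso
        have h2 : (⟨(r, port r (f r)), iff_of_true hr hpr⟩ : SumVert R w) = e r :=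
          Subtype.ext her.symm
        rw [h2] at h1
        exact (he r).2 (h1.trans (he r).1.symm)
      · exact (hgo _ hpr h1).1
    · intro v hv hgv'
      exact ⟨⟨(r, v), iff_of_true hr hv⟩, rfl, hgv v hv hgv'⟩

end PolySum
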