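import Pool.Agent.FewFacets.CubeHost
import Mathlib.Data.ZMod.Basic

/-!
Polygons.
-/

set_option linter.unusedSectionVars false

namespace FewFacets

open Finset

/-- the graph of the polygon with `n` vertices -/
def cyc (n : ℕ) : SimpleGraph (ZMod n) where
  Adj x y := x ≠ y ∧ (y = x + 1 ∨ x = y + 1)
  symm := ⟨fun _ _ h => ⟨h.1.symm, h.2.symm⟩⟩
  loopless := ⟨fun _ h => h.1 rfl⟩

/-- the functionals of the polygon -/
noncomputable def ngF (n : ℕ) (i : ZMod n) : EuclideanSpace ℝ (Fin 2) →ₗ[ℝ] ℝ :=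
  if i.val + 1 = n then
    (EuclideanSpace.proj 1 : EuclideanSpace ℝ (Fin 2) →L[ℝ] ℝ).toLinearMap -
      ((n : ℝ) - 1) • (EuclideanSpace.proj 0 : EuclideanSpace ℝ (Fin 2) →L[ℝ] ℝ).toLinearMap
  else (2 * (i.val : ℝ) + 1) •
      (EuclideanSpace.proj 0 : EuclideanSpace ℝ (Fin 2) →L[ℝ] ℝ).toLinearMap -
      (EuclideanSpace.proj 1 : EuclideanSpace ℝ (Fin 2) →L[ℝ] ℝ).toLinearMap

/-- the right-hand sides of the polygon -/
noncomputable def ngB (n : ℕ) (i : ZMod n) : ℝ :=
  if i.val + 1 = n then 0 else (i.val : ℝ) * ((i.val : ℝ) + 1)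

/-- the vertices of the polygon -/
noncomputable def ngP (n : ℕ) (j : ZMod n) : EuclideanSpace ℝ (Fin 2) :=
  WithLp.toLp 2 (fun s => if s = 0 then (j.val : ℝ) else (j.val : ℝ) ^ 2)

lemma ngF_top {n : ℕ} {i : ZMod n} (h : i.val + 1 = n) (x : EuclideanSpace ℝ (Fin 2)) :
    ngF n i x = x 1 - ((n : ℝ) - 1) * x 0 := by
  simp [ngF, h]

lemma ngF_ne {n : ℕ} {i : ZMod n} (h : i.val + 1 ≠ n) (x : EuclideanSpace ℝ (Fin 2)) :
    ngF n i x = (2 * (i.val : ℝ) + 1) * x 0 - x 1 := by
  simp [ngF, h]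

lemma ngB_top {n : ℕ} {i : ZMod n} (h : i.val + 1 = n) : ngB n i = 0 := by
  simp [ngB, h]

lemma ngB_ne {n : ℕ} {i : ZMod n} (h : i.val + 1 ≠ n) :
    ngB n i = (i.val : ℝ) * ((i.val : ℝ) + 1) := by
  simp [ngB, h]

lemma ngP_zero {n : ℕ} (j : ZMod n) : ngP n j 0 = (j.val : ℝ) := rfl

lemma ngP_one {n : ℕ} (j : ZMod n) : ngP n j 1 = (j.val : ℝ) ^ 2 := rfl

lemma ng_val_add_one {n : ℕ} (hn : 3 ≤ n) (l : ZMod n) :
    (l + 1).val = if l.val + 1 = n then 0 else l.val + 1 := by
  have : NeZero n := ⟨by omega⟩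
  have hl := ZMod.val_lt l
  rw [ZMod.val_add, ZMod.val_one_eq_one_mod, Nat.mod_eq_of_lt (show 1 < n by omega)]
  split_ifs with h
  · rw [h, Nat.mod_self]
  · exact Nat.mod_eq_of_lt (by omega)

lemma ng_eq_iff {n : ℕ} (hn : 3 ≤ n) (l j : ZMod n) :
    l = j - 1 ↔ (l.val + 1 = n ∧ j.val = 0) ∨ (l.val + 1 ≠ n ∧ l.val + 1 = j.val) := by
  have : NeZero n := ⟨by omega⟩
  rw [eq_sub_iff_add_eq, ← (ZMod.val_injective n).eq_iff, ng_val_add_one hn]
  split_ifs with h <;> simp [h, eq_comm]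

lemma ng_mem_poly {n : ℕ} (hn : 3 ≤ n) (j : ZMod n) : ngP n j ∈ Poly (ngF n) (ngB n) := by
  have : NeZero n := ⟨by omega⟩
  have hj := ZMod.val_lt j
  intro i
  by_cases h : i.val + 1 = n
  · rw [ngF_top h, ngB_top h, ngP_zero, ngP_one]
    have h1 : (j.val : ℝ) ≤ (n : ℝ) - 1 := by
      rw [le_sub_iff_add_le]
      exact_mod_cast hj
    have h2 : (0 : ℝ) ≤ (j.val : ℝ) := Nat.cast_nonneg _
    nlinarith
  · rw [ngF_ne h, ngB_ne h, ngP_zero, ngP_one]
    rcases Nat.lt_or_ge i.val j.val with h1 | h1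
    · have h2 : (i.val : ℝ) + 1 ≤ (j.val : ℝ) := by exact_mod_cast h1
      nlinarith
    · have h2 : (j.val : ℝ) ≤ (i.val : ℝ) := by exact_mod_cast h1
      nlinarith

lemma ng_act {n : ℕ} [NeZero n] (hn : 3 ≤ n) (j : ZMod n) :
    act (ngF n) (ngB n) (ngP n j) = {j, j - 1} := by
  have hj := ZMod.val_lt j
  ext i
  have hi := ZMod.val_lt i
  rw [mem_act, mem_insert, mem_singleton, ng_eq_iff hn, ← (ZMod.val_injective n).eq_iff]
  by_cases h : i.val + 1 = n
  · rw [ngF_top h, ngB_top h, ngP_zero, ngP_one]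
    have h0 : (j.val : ℝ) ^ 2 - ((n : ℝ) - 1) * (j.val : ℝ) =
        (j.val : ℝ) * ((j.val : ℝ) + 1 - (n : ℝ)) := by ring
    rw [h0, mul_eq_zero]
    constructor
    · rintro (h1 | h1)
      · right; left
        exact ⟨h, by exact_mod_cast h1⟩
      · left
        have h2 : (j.val : ℝ) + 1 = (n : ℝ) := by linarith
        have h3 : j.val + 1 = n := by exact_mod_cast h2
        omega
    · rintro (h1 | ⟨_, h1⟩ | ⟨h1, _⟩)
      · right
        have h3 : j.val + 1 = n := by omega
        have h2 : (j.val : ℝ) + 1 = (n : ℝ) := by exact_mod_cast h3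
        linarith
      · left
        rw [h1]; norm_num
      · exact absurd h h1
  · rw [ngF_ne h, ngB_ne h, ngP_zero, ngP_one]
    have h0 : (2 * (i.val : ℝ) + 1) * (j.val : ℝ) - (j.val : ℝ) ^ 2 =
        (i.val : ℝ) * ((i.val : ℝ) + 1) ↔
        ((i.val : ℝ) - (j.val : ℝ)) * ((i.val : ℝ) + 1 - (j.val : ℝ)) = 0 := by
      constructor
      · intro h1; linarith
      · intro h1; linarith
    rw [h0, mul_eq_zero]
    constructor
    · rintro (h1 | h1)
      · left
        have h2 : (i.val : ℝ) = (j.val : ℝ) := by linarith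
        exact_mod_cast h2
      · right; right
        have h2 : (i.val : ℝ) + 1 = (j.val : ℝ) := by linarith
        exact ⟨h, by exact_mod_cast h2⟩
    · rintro (h1 | ⟨h1, _⟩ | ⟨_, h1⟩)
      · left
        rw [h1, sub_self]
      · exact absurd h1 h
      · right
        rw [← h1]; push_cast; ring

lemma ng_two {n : ℕ} [NeZero n] (hn : 3 ≤ n) {x : EuclideanSpace ℝ (Fin 2)}
    (hx : x ∈ Poly (ngF n) (ngB n)) {i k : ZMod n} (hik : i.val < k.val)
    (hi : i ∈ act (ngF n) (ngB n) x) (hk : k ∈ act (ngF n) (ngB n) x) :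
    ∃ j, x = ngP n j := by
  have hkn := ZMod.val_lt k
  have hc : ∀ m : ℕ, m + 1 < n → (2 * (m : ℝ) + 1) * x 0 - x 1 ≤ (m : ℝ) * ((m : ℝ) + 1) := by
    intro m hm
    have h1 := hx (m : ZMod n)
    have h2 : ((m : ZMod n)).val = m := ZMod.val_natCast_of_lt (by omega)
    have h3 : ((m : ZMod n)).val + 1 ≠ n := by rw [h2]; omega
    rw [ngF_ne h3, ngB_ne h3, h2] at h1
    exact h1
  have hfin : ∀ j : ZMod n, x 0 = (j.val : ℝ) → x 1 = (j.val : ℝ) ^ 2 → ∃ j, x = ngP n j := by
    intro j h0 h1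
    refine ⟨j, ?_⟩
    ext s
    fin_cases s
    · exact h0
    · exact h1
  rw [mem_act] at hi hk
  have hin : i.val + 1 ≠ n := by omega
  rw [ngF_ne hin, ngB_ne hin] at hi
  generalize i.val = a at *
  by_cases hkt : k.val + 1 = n
  · rw [ngF_top hkt, ngB_top hkt] at hk
    have hkn' : (k.val : ℝ) + 1 = (n : ℝ) := by exact_mod_cast hkt
    rcases Nat.eq_zero_or_pos a with ha | ha
    · rw [ha] at hi
      have h1 : x 0 = x 1 := by
        push_cast at hi
        linarith
      have h2 : ((n : ℝ) - 2) * x 0 = 0 := by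
        rw [← h1] at hk
        linarith
      have h3 : (n : ℝ) - 2 ≠ 0 := by
        have : (3 : ℝ) ≤ (n : ℝ) := by exact_mod_cast hn
        intro h; linarith
      have h4 : x 0 = 0 := by
        rcases mul_eq_zero.1 h2 with h | h
        · exact absurd h h3
        · exact h
      refine hfin 0 ?_ ?_
      · rw [h4, ZMod.val_zero]; norm_num
      · rw [← h1, h4, ZMod.val_zero]; norm_num
    · by_cases hal : a + 2 = n
      · have hal' : (a : ℝ) + 2 = (n : ℝ) := by exact_mod_cast hal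
        have h1 : (a : ℝ) * x 0 = (a : ℝ) * (k.val : ℝ) := by
          have h2 : (k.val : ℝ) = (a : ℝ) + 1 := by linarith
          rw [h2]
          have h3 : x 1 = ((a : ℝ) + 1) * x 0 := by
            rw [← hal'] at hk
            linarith
          rw [h3] at hi
          linarith
        have ha' : (a : ℝ) ≠ 0 := by
          have : (0 : ℝ) < (a : ℝ) := by exact_mod_cast ha
          exact ne_of_gt this
        have h2 : x 0 = (k.val : ℝ) := mul_left_cancel₀ ha' h1
        refine hfin k h2 ?_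
        have h3 : x 1 = ((n : ℝ) - 1) * x 0 := by linarith
        rw [h3, h2, ← hkn']
        ring
      · exfalso
        have ha3 : a + 3 ≤ n := by omega
        have h1 := hc (a + 1) (by omega)
        have h2 := hc (a - 1) (by omega)
        have h3 : ((a - 1 : ℕ) : ℝ) = (a : ℝ) - 1 := by
          rw [Nat.cast_sub ha]; norm_num
        rw [h3] at h2
        push_cast at h1
        have hu : x 0 ≤ (a : ℝ) + 1 := by linarith
        have hl : (a : ℝ) ≤ x 0 := by linarith
        have ha1 : (1 : ℝ) ≤ (a : ℝ) := by exact_mod_cast ha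
        have ha3' : (a : ℝ) + 3 ≤ (n : ℝ) := by exact_mod_cast ha3
        have h4 : (2 * (a : ℝ) + 2 - (n : ℝ)) * x 0 = (a : ℝ) * ((a : ℝ) + 1) := by linarith
        have h5 : (2 * (a : ℝ) + 2 - (n : ℝ)) * x 0 ≤ ((a : ℝ) - 1) * x 0 :=
          mul_le_mul_of_nonneg_right (by linarith) (by linarith)
        have h6 : ((a : ℝ) - 1) * x 0 ≤ ((a : ℝ) - 1) * ((a : ℝ) + 1) :=
          mul_le_mul_of_nonneg_left hu (by linarith)
        nlinarith
  · rw [ngF_ne hkt, ngB_ne hkt] at hk
    have hik' : (a : ℝ) < (k.val : ℝ) := by exact_mod_cast hik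
    have h1 : ((k.val : ℝ) - (a : ℝ)) * (2 * x 0) =
        ((k.val : ℝ) - (a : ℝ)) * ((a : ℝ) + (k.val : ℝ) + 1) := by linarith
    have h2 : 2 * x 0 = (a : ℝ) + (k.val : ℝ) + 1 :=
      mul_left_cancel₀ (by intro h; linarith) h1
    have h3 := hc (a + 1) (by omega)
    push_cast at h3
    have h4 : x 0 ≤ (a : ℝ) + 1 := by linarith
    have h5 : (k.val : ℝ) ≤ (a : ℝ) + 1 := by linarith
    have h6 : k.val ≤ a + 1 := by exact_mod_cast h5
    have h7 : k.val = a + 1 := by omega
    have h8 : (k.val : ℝ) = (a : ℝ) + 1 := by exact_mod_cast h7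
    refine hfin k (by linarith) ?_
    have h9 : x 0 = (a : ℝ) + 1 := by linarith
    rw [h9] at hi
    rw [h8]
    linarith

lemma ng_two_of_ne {n : ℕ} [NeZero n] (hn : 3 ≤ n) {x : EuclideanSpace ℝ (Fin 2)}
    (hx : x ∈ Poly (ngF n) (ngB n)) (hc : 1 < (act (ngF n) (ngB n) x).card) :
    ∃ j, x = ngP n j := by
  obtain ⟨i, hi, k, hk, hne⟩ := one_lt_card.1 hc
  rcases lt_trichotomy i.val k.val with h | h | h
  · exact ng_two hn hx h hi hk
  · exact absurd (ZMod.val_injective n h) hne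
  · exact ng_two hn hx h hk hi

lemma ng_ne {n : ℕ} (hn : 3 ≤ n) (j : ZMod n) : j ≠ j - 1 := by
  have : NeZero n := ⟨by omega⟩
  have hj := ZMod.val_lt j
  intro h
  rw [ng_eq_iff hn] at h
  omega

lemma ng_card {n : ℕ} (hn : 3 ≤ n) (j : ZMod n) : ({j, j - 1} : Finset (ZMod n)).card = 2 :=
  card_pair (ng_ne hn j)

lemma ng_good {n : ℕ} [NeZero n] (hn : 3 ≤ n) : Good (ngF n) (ngB n) 2 := by
  have hn' : (3 : ℝ) ≤ (n : ℝ) := by exact_mod_cast hn
  refine ⟨by simp, ?_, ?_, ?_⟩
  · intro w hw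
    have h1 : ((0 : ZMod n)).val + 1 ≠ n := by rw [ZMod.val_zero]; omega
    have h2 : (((n - 2 : ℕ) : ZMod n)).val = n - 2 := ZMod.val_natCast_of_lt (by omega)
    have h3 : (((n - 2 : ℕ) : ZMod n)).val + 1 ≠ n := by rw [h2]; omega
    have h4 : (((n - 1 : ℕ) : ZMod n)).val = n - 1 := ZMod.val_natCast_of_lt (by omega)
    have h5 : (((n - 1 : ℕ) : ZMod n)).val + 1 = n := by rw [h4]; omega
    have e1 := hw 0
    have e2 := hw ((n - 2 : ℕ) : ZMod n)
    have e3 := hw ((n - 1 : ℕ) : ZMod n)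
    rw [ngF_ne h1, ZMod.val_zero] at e1
    rw [ngF_ne h3, h2, Nat.cast_sub (by omega : 2 ≤ n)] at e2
    rw [ngF_top h5] at e3
    push_cast at e1 e2
    have h6 : ((n : ℝ) - 2) * w 0 ≤ 0 := by linarith
    have h7 : 0 ≤ ((n : ℝ) - 2) * w 0 := by linarith
    have h8 : ((n : ℝ) - 2) * w 0 = 0 := le_antisymm h6 h7
    have h9 : w 0 = 0 := by
      rcases mul_eq_zero.1 h8 with h | h
      · exfalso; linarith
      · exact h
    rw [h9] at e1 e3
    have h10 : w 1 = 0 := by linarith
    ext s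
    fin_cases s
    · exact h9
    · exact h10
  · refine ⟨WithLp.toLp 2 (fun s => if s = 0 then (1 : ℝ) else 3 / 2), ?_⟩
    intro i
    by_cases h : i.val + 1 = n
    · rw [ngF_top h, ngB_top h]
      change (3 / 2 : ℝ) - ((n : ℝ) - 1) * 1 < 0
      linarith
    · rw [ngF_ne h, ngB_ne h]
      change (2 * (i.val : ℝ) + 1) * 1 - (3 / 2 : ℝ) < _
      rcases Nat.eq_zero_or_pos i.val with h1 | h1
      · rw [h1]; norm_num
      · have h2 : (1 : ℝ) ≤ (i.val : ℝ) := by exact_mod_cast h1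
        nlinarith
  · intro x hx
    by_contra hc
    obtain ⟨j, rfl⟩ := ng_two_of_ne hn hx (by omega)
    rw [ng_act hn, ng_card hn] at hc
    exact hc le_rfl

/-- PACKAGE P. The convex hull of the points `(j, j ^ 2)`, `j = 0, ..., n - 1`, of the parabola:
the facets are the lines `y ≥ (2 i + 1) x - i (i + 1)` for `i < n - 1` (through the vertices `i`
and `i + 1`) and `y ≤ (n - 1) x` (through `n - 1` and `0`). The lines `i < k` of the first kind
meet at `x = (i + k + 1) / 2`, where the line `m` is at the height `(m - i) (m - k)` below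
(negative for `i < m < k`), so only consecutive ones are active together. Use `IsGood.of_map`
with `A x = {x, x - 1}` (facet `n - 1` = the top line). -/
theorem cyc_isGood {n : ℕ} (hn : 3 ≤ n) : IsGood 2 (cyc n) := by
  have : NeZero n := ⟨by omega⟩
  have hinj : Function.Injective (fun x : ZMod n => ({x, x - 1} : Finset (ZMod n))) := by
    intro x y hxy
    have hx : x ∈ ({y, y - 1} : Finset (ZMod n)) := by
      change (({x, x - 1} : Finset (ZMod n))) = {y, y - 1} at hxy
      rw [← hxy]; exact mem_insert_self _ _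
    have hy : y ∈ ({x, x - 1} : Finset (ZMod n)) := by
      change (({x, x - 1} : Finset (ZMod n))) = {y, y - 1} at hxy
      rw [hxy]; exact mem_insert_self _ _
    rw [mem_insert, mem_singleton] at hx hy
    rcases hx with hx | hx
    · exact hx
    · rcases hy with hy | hy
      · exact hy.symm
      · exfalso
        rw [ng_eq_iff hn] at hx hy
        have h1 := ZMod.val_lt x
        have h2 := ZMod.val_lt y
        omega
  refine IsGood.of_map (ng_good hn) (fun x => {x, x - 1}) ?_ hinj ?_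
  · intro V
    rw [mem_vert]
    constructor
    · rintro ⟨hV, q, hq, rfl⟩
      obtain ⟨j, rfl⟩ := ng_two_of_ne hn hq (by omega)
      exact ⟨j, (ng_act hn j).symm⟩
    · rintro ⟨j, rfl⟩
      exact ⟨ng_card hn j, ngP n j, ng_mem_poly hn j, ng_act hn j⟩
  · intro x y
    change (x ≠ y ∧ (y = x + 1 ∨ x = y + 1)) ↔ _
    refine and_congr_right fun hxy => ?_
    have hle : (({x, x - 1} : Finset (ZMod n)) ∩ {y, y - 1}).card ≤ 1 := by
      by_contra hc
      have h1 : ({x, x - 1} : Finset (ZMod n)) ∩ {y, y - 1} = {x, x - 1} :=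
        eq_of_subset_of_card_le inter_subset_left (by rw [ng_card hn]; omega)
      have h2 : ({x, x - 1} : Finset (ZMod n)) ∩ {y, y - 1} = {y, y - 1} :=
        eq_of_subset_of_card_le inter_subset_right (by rw [ng_card hn]; omega)
      exact hxy (hinj (h1.symm.trans h2))
    constructor
    · intro h
      have hpos : 0 < (({x, x - 1} : Finset (ZMod n)) ∩ {y, y - 1}).card := by
        rw [card_pos]
        rcases h with h | h
        · refine ⟨x, mem_inter.2 ⟨mem_insert_self _ _, ?_⟩⟩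
          rw [mem_insert, mem_singleton, h, add_sub_cancel_right]
          exact Or.inr rfl
        · refine ⟨y, mem_inter.2 ⟨?_, mem_insert_self _ _⟩⟩
          rw [mem_insert, mem_singleton, h, add_sub_cancel_right]
          exact Or.inr rfl
      change (({x, x - 1} : Finset (ZMod n)) ∩ {y, y - 1}).card + 1 = 2
      omega
    · intro h
      have hpos : 0 < (({x, x - 1} : Finset (ZMod n)) ∩ {y, y - 1}).card := by
        change (({x, x - 1} : Finset (ZMod n)) ∩ {y, y - 1}).card + 1 = 2 at h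
        omega
      obtain ⟨c, hc⟩ := card_pos.1 hpos
      rw [mem_inter, mem_insert, mem_insert, mem_singleton, mem_singleton] at hc
      obtain ⟨h1 | h1, h2 | h2⟩ := hc
      · exact absurd (h1.symm.trans h2) hxy
      · left
        rw [← h1, h2, sub_add_cancel]
      · right
        rw [← h2, h1, sub_add_cancel]
      · exact absurd (sub_left_injective (h1.symm.trans h2)) hxy

end FewFacets
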