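import Pool.Agent.FewFacets.GoodProd
import Pool.Agent.FewFacets.PolygonHost

/-!
Bipartite simple polytopes with a perfect labelling of one class.
-/

set_option linter.unusedSectionVars false

namespace FewFacets

open Finset

open scoped SimpleGraph

/-- there is a good graph of dimension `T.card` whose vertices are labelled by residues modulo
`n`, such that at every vertex the differences along the edges are exactly the elements of `T`,
each one once -/
def LabG {n : ℕ} (T : Finset (ZMod n)) : Prop :=
  ∃ (β : Type) (_ : Finite β) (_ : Nonempty β) (Γ : SimpleGraph β) (F : β → ZMod n),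
    IsGood T.card Γ ∧ (∀ x y, Γ.Adj x y → F y - F x ∈ T) ∧
    ∀ x, ∀ t ∈ T, ∃ y, Γ.Adj x y ∧ F y = F x + t ∧ ∀ z, Γ.Adj x z → F z = F x + t → z = y

theorem labG_polygon {n : ℕ} (hn : 3 ≤ n) {c : ZMod n} (hc : c ≠ -c) :
    LabG ({c, -c} : Finset (ZMod n)) := by
  have : NeZero n := ⟨by omega⟩
  have : Fact (1 < n) := ⟨by omega⟩
  refine ⟨ZMod n, inferInstance, inferInstance, cyc n, fun x => c * x, ?_, ?_, ?_⟩
  · rw [card_pair hc]
    exact cyc_isGood hn
  · rintro x y ⟨-, rfl | rfl⟩
    · rw [mem_insert]
      left
      ring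
    · rw [mem_insert, mem_singleton]
      right
      ring
  · intro x t ht
    rw [mem_insert, mem_singleton] at ht
    rcases ht with rfl | rfl
    · refine ⟨x + 1, ⟨fun h => ?_, Or.inl rfl⟩, by ring, ?_⟩
      · exact one_ne_zero (left_eq_add.1 h)
      · rintro z ⟨-, rfl | h⟩ hz
        · rfl
        · exfalso
          rw [h] at hz
          apply hc
          linear_combination (-1 : ZMod n) * hz
    · refine ⟨x - 1, ⟨fun h => ?_, Or.inr (by ring)⟩, by ring, ?_⟩
      · exact one_ne_zero (sub_eq_self.1 h.symm)
      · rintro z ⟨-, rfl | h⟩ hz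
        · exfalso
          apply hc
          linear_combination hz
        · rw [h]
          ring

theorem labG_segment {n : ℕ} {c : ZMod n} (hc : c = -c) : LabG ({c} : Finset (ZMod n)) := by
  have hcc : c + c = 0 := by
    nth_rewrite 1 [hc]
    exact neg_add_cancel c
  have hF : ∀ x : Fin 1 → Bool, (if flip 0 x 0 = true then c else 0) =
      (if x 0 = true then c else 0) + c := by
    intro x
    rw [flip, Function.update_self]
    cases x 0 <;> simp [hcc]
  refine ⟨Fin 1 → Bool, inferInstance, inferInstance, cube 1,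
    fun x => if x 0 = true then c else 0, ?_, ?_, ?_⟩
  · rw [card_singleton]
    exact cube_isGood
  · intro x y h
    obtain ⟨i, rfl⟩ := cube_adj_iff.1 h
    rw [Subsingleton.elim i 0]
    change (if flip 0 x 0 = true then c else 0) - (if x 0 = true then c else 0) ∈ _
    rw [hF, add_sub_cancel_left]
    exact mem_singleton_self c
  · intro x t ht
    rw [mem_singleton] at ht
    subst ht
    refine ⟨flip 0 x, cube_adj_iff.2 ⟨0, rfl⟩, hF x, ?_⟩
    intro z hz _
    obtain ⟨i, rfl⟩ := cube_adj_iff.1 hz
    rw [Subsingleton.elim i 0]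

theorem labG_prod {n : ℕ} {T T' : Finset (ZMod n)} (h : LabG T) (h' : LabG T')
    (hT : T.Nonempty) (hT' : T'.Nonempty) (hd : Disjoint T T') : LabG (T ∪ T') := by
  obtain ⟨β, hβ, hβ', Γ, F, h1, h2, h3⟩ := h
  obtain ⟨γ, hγ, hγ', Δ, F', h1', h2', h3'⟩ := h'
  refine ⟨β × γ, inferInstance, inferInstance, Γ □ Δ, fun p => F p.1 + F' p.2, ?_, ?_, ?_⟩
  · rw [card_union_of_disjoint hd]
    exact IsGood.prod hT.card_pos hT'.card_pos h1 h1'
  · rintro ⟨x, y⟩ ⟨x', y'⟩ hadj
    rw [SimpleGraph.boxProd_adj] at hadj
    rcases hadj with ⟨ha, he⟩ | ⟨ha, he⟩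
    · simp only at ha he
      subst he
      rw [add_sub_add_right_eq_sub]
      exact mem_union_left _ (h2 _ _ ha)
    · simp only at ha he
      subst he
      rw [add_sub_add_left_eq_sub]
      exact mem_union_right _ (h2' _ _ ha)
  · rintro ⟨x, y⟩ t ht
    rw [mem_union] at ht
    rcases ht with ht | ht
    · obtain ⟨x', ha, hx', hu⟩ := h3 x t ht
      refine ⟨(x', y), SimpleGraph.boxProd_adj.2 (Or.inl ⟨ha, rfl⟩), ?_, ?_⟩
      · simp only [hx']
        ring
      · rintro ⟨z, w⟩ hadj hz
        rw [SimpleGraph.boxProd_adj] at hadj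
        rcases hadj with ⟨hb, he⟩ | ⟨hb, he⟩
        · simp only at hb he hz
          subst he
          rw [hu z hb (by linear_combination hz)]
        · exfalso
          simp only at hb he hz
          subst he
          have h4 := h2' _ _ hb
          have h5 : F' w - F' y = t := by linear_combination hz
          rw [h5] at h4
          exact disjoint_left.1 hd ht h4
    · obtain ⟨y', ha, hy', hu⟩ := h3' y t ht
      refine ⟨(x, y'), SimpleGraph.boxProd_adj.2 (Or.inr ⟨ha, rfl⟩), ?_, ?_⟩
      · simp only [hy']
        ring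
      · rintro ⟨z, w⟩ hadj hz
        rw [SimpleGraph.boxProd_adj] at hadj
        rcases hadj with ⟨hb, he⟩ | ⟨hb, he⟩
        · exfalso
          simp only at hb he hz
          subst he
          have h4 := h2 _ _ hb
          have h5 : F z - F x = t := by linear_combination hz
          rw [h5] at h4
          exact disjoint_left.1 hd h4 ht
        · simp only at hb he hz
          subst he
          rw [hu w hb (by linear_combination hz)]

/-- the parity of a residue modulo `2 d` -/
def rpar (d : ℕ) : ZMod (2 * d) →+* ZMod 2 := ZMod.castHom (Dvd.intro d rfl) (ZMod 2)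

theorem rpar_cases {d : ℕ} (x : ZMod (2 * d)) : rpar d x = 0 ∨ rpar d x = 1 := by
  generalize rpar d x = y
  revert y
  decide

/-- the odd residues -/
noncomputable def oddR (d : ℕ) [NeZero (2 * d)] : Finset (ZMod (2 * d)) :=
  univ.filter (fun x => rpar d x = 1)

theorem mem_oddR {d : ℕ} [NeZero (2 * d)] {x : ZMod (2 * d)} : x ∈ oddR d ↔ rpar d x = 1 := by
  rw [oddR, mem_filter]
  exact ⟨fun h => h.2, fun h => ⟨mem_univ _, h⟩⟩

theorem neg_mem_oddR {d : ℕ} [NeZero (2 * d)] {x : ZMod (2 * d)} (h : x ∈ oddR d) :
    -x ∈ oddR d := by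
  rw [mem_oddR] at *
  rw [map_neg, h]
  decide

theorem even_card {d : ℕ} [NeZero (2 * d)] :
    (univ.filter (fun x : ZMod (2 * d) => rpar d x = 0)).card = d ∧ (oddR d).card = d := by
  have h1 : (univ.filter (fun x : ZMod (2 * d) => rpar d x = 0)).card = (oddR d).card := by
    refine card_bij (fun x _ => x + 1) ?_ ?_ ?_
    · intro x hx
      rw [mem_filter] at hx
      rw [mem_oddR, map_add, map_one, hx.2]
      decide
    · intro x _ y _ hxy
      exact add_right_cancel hxy
    · intro y hy
      rw [mem_oddR] at hy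
      refine ⟨y - 1, ?_, sub_add_cancel y 1⟩
      rw [mem_filter, map_sub, map_one, hy]
      exact ⟨mem_univ _, by decide⟩
  have h2 : (univ.filter (fun x : ZMod (2 * d) => rpar d x = 0)).card + (oddR d).card = 2 * d := by
    have h3 : oddR d = univ.filter (fun x : ZMod (2 * d) => ¬ rpar d x = 0) := by
      ext x
      rw [mem_oddR, mem_filter]
      rcases rpar_cases x with hx | hx
      · rw [hx]
        simp
      · rw [hx]
        simp
    rw [h3, card_filter_add_card_filter_not, card_univ, ZMod.card]
  omega

theorem labG_odd_aux {d : ℕ} [NeZero (2 * d)] (hd : 3 ≤ 2 * d) (k : ℕ) :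
    ∀ T : Finset (ZMod (2 * d)), (oddR d \ T).card ≤ k → T.Nonempty → T ⊆ oddR d →
      (∀ x ∈ T, -x ∈ T) → (∀ x ∈ oddR d, x = -x → x ∈ T) → LabG T → LabG (oddR d) := by
  induction k with
  | zero =>
    intro T h0 _ hsub _ _ hT
    have h1 : oddR d ⊆ T := sdiff_eq_empty_iff_subset.1 (card_eq_zero.1 (Nat.le_zero.1 h0))
    rw [Subset.antisymm h1 hsub]
    exact hT
  | succ k ih =>
    intro T hk hne hsub hneg hself hT
    by_cases h0 : oddR d ⊆ T
    · rw [Subset.antisymm h0 hsub]
      exact hT
    · obtain ⟨c, hc, hcT⟩ := not_subset.1 h0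
      have hcc : c ≠ -c := fun h => hcT (hself c hc h)
      have hnT : -c ∉ T := fun h => hcT (by
        have := hneg _ h
        rwa [neg_neg] at this)
      have hdis : Disjoint T ({c, -c} : Finset (ZMod (2 * d))) := by
        rw [disjoint_left]
        intro x hx hx'
        rw [mem_insert, mem_singleton] at hx'
        rcases hx' with rfl | rfl
        · exact hcT hx
        · exact hnT hx
      refine ih (T ∪ {c, -c}) ?_ (hne.mono subset_union_left) ?_ ?_ ?_
        (labG_prod hT (labG_polygon hd hcc) hne ⟨c, mem_insert_self _ _⟩ hdis)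
      · have h1 : oddR d \ (T ∪ {c, -c}) ⊆ (oddR d \ T).erase c := by
          intro x hx
          rw [mem_sdiff, mem_union, not_or] at hx
          rw [mem_erase, mem_sdiff]
          refine ⟨fun h => hx.2.2 ?_, hx.1, hx.2.1⟩
          rw [h]
          exact mem_insert_self _ _
        have h2 := card_le_card h1
        rw [card_erase_of_mem (mem_sdiff.2 ⟨hc, hcT⟩)] at h2
        omega
      · refine union_subset hsub ?_
        intro x hx
        rw [mem_insert, mem_singleton] at hx
        rcases hx with rfl | rfl
        · exact hc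
        · exact neg_mem_oddR hc
      · intro x hx
        rw [mem_union, mem_insert, mem_singleton] at *
        rcases hx with hx | rfl | rfl
        · exact Or.inl (hneg x hx)
        · exact Or.inr (Or.inr rfl)
        · exact Or.inr (Or.inl (neg_neg _))
      · intro x hx hxx
        exact mem_union_left _ (hself x hx hxx)

theorem labG_odd {d : ℕ} [NeZero (2 * d)] (hd : 3 ≤ 2 * d) : LabG (oddR d) := by
  have h1 : (1 : ZMod (2 * d)) ∈ oddR d := by
    rw [mem_oddR, map_one]
  by_cases h : ∃ c ∈ oddR d, c = -c
  · obtain ⟨c, hc, hcc⟩ := h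
    refine labG_odd_aux hd _ {c} le_rfl (singleton_nonempty c) ?_ ?_ ?_ (labG_segment hcc)
    · intro x hx
      rw [mem_singleton] at hx
      rwa [hx]
    · intro x hx
      rw [mem_singleton] at *
      rw [hx]
      exact hcc.symm
    · intro x hx hxx
      rw [mem_singleton]
      -- two odd residues which are their own negatives
      have h2 : ∀ y : ZMod (2 * d), y ∈ oddR d → y = -y → y = (d : ZMod (2 * d)) := by
        intro y hy hyy
        have hy0 : y ≠ 0 := by
          rintro rfl
          rw [mem_oddR, map_zero] at hy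
          exact absurd hy (by decide)
        have h3 : (((2 * y.val : ℕ)) : ZMod (2 * d)) = 0 := by
          push_cast
          rw [ZMod.natCast_zmod_val]
          linear_combination hyy
        rw [ZMod.natCast_eq_zero_iff] at h3
        have h4 : d ∣ y.val := Nat.dvd_of_mul_dvd_mul_left (by norm_num) h3
        have h5 : y.val < 2 * d := ZMod.val_lt y
        have h6 : 0 < y.val := Nat.pos_of_ne_zero fun h => hy0 ((ZMod.val_eq_zero y).1 h)
        obtain ⟨q, hq⟩ := h4
        have h7 : q = 1 := by
          rw [hq] at h5 h6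
          have hq1 : q < 2 := by
            by_contra hq2
            have : d * 2 ≤ d * q := Nat.mul_le_mul_left d (by omega)
            omega
          have hq0 : q ≠ 0 := by
            rintro rfl
            simp at h6
          omega
        rw [h7, mul_one] at hq
        have h8 : ((y.val : ℕ) : ZMod (2 * d)) = ((d : ℕ) : ZMod (2 * d)) := congrArg _ hq
        rwa [ZMod.natCast_zmod_val] at h8
      rw [h2 x hx hxx, h2 c hc hcc]
  · push Not at h
    refine labG_odd_aux hd _ {1, -1} le_rfl ⟨1, mem_insert_self _ _⟩ ?_ ?_ ?_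
      (labG_polygon hd (h 1 h1))
    · intro x hx
      rw [mem_insert, mem_singleton] at hx
      rcases hx with rfl | rfl
      · exact h1
      · exact neg_mem_oddR h1
    · intro x hx
      rw [mem_insert, mem_singleton] at *
      rcases hx with rfl | rfl
      · exact Or.inr rfl
      · exact Or.inl (neg_neg _)
    · intro x hx hxx
      exact absurd hxx (h x hx)

/-- PACKAGE H. The host is the product of `d / 2` polygons with `2 d` vertices and, for odd `d`,
a segment (`cube 1`). Let `n = 2 d`. By recursion on the number of factors prove for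
`T ⊆ ZMod n` (a set of odd residues closed under negation) the existence of a finite nonempty
graph `Γ` with `IsGood T.card Γ` and `F : β → ZMod n` such that `F y - F x ∈ T` for adjacent
`x, y`, and for every `x` and `t ∈ T` there is exactly one `y` adjacent to `x` with
`F y = F x + t`. Polygon: `T = {c, -c}` (`c` odd, `c ≠ -c`), `F x = c * x`; segment: `T = {d}` for
`d` odd, `F = 0` or `d`; product: `F (x, y) = F₁ x + F₂ y`, `T₁ ∪ T₂` disjoint. The factors
`c = 1, 3, ..., ` give `T = ` all `d` odd residues. Then `S` is the set of `x` with `F x` even,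
`lab` is `F` composed with a bijection of the `d` even residues with `Fin d`, and the classes
have equal size because for every `t ∈ T` the map `x ↦` (neighbour with `F = F x + t`) is a
bijection, with inverse the same map for `- t`. -/
theorem exists_host {d : ℕ} (hd : 3 ≤ d) : ∃ (β : Type) (_ : Finite β) (Γ : SimpleGraph β)
    (S : Set β) (lab : β → Fin d) (m : ℕ), IsGood d Γ ∧ 0 < m ∧
    (∀ b b', Γ.Adj b b' → (b ∈ S ↔ b' ∉ S)) ∧ S.ncard ≤ Sᶜ.ncard ∧
    (∀ r ∉ S, ∀ b b', Γ.Adj r b → Γ.Adj r b' → lab b = lab b' → b = b') ∧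
    ∀ i, {b | b ∈ S ∧ lab b = i}.ncard = m := by
  have : NeZero (2 * d) := ⟨by omega⟩
  obtain ⟨β, hβ, ⟨x₀⟩, Γ, F, h1, h2, h3⟩ := labG_odd (d := d) (by omega)
  rw [even_card.2] at h1
  -- the number of vertices with a given residue
  have hle : ∀ (u t : ZMod (2 * d)), t ∈ oddR d →
      {x | F x = u}.ncard ≤ {x | F x = u + t}.ncard := by
    intro u t ht
    choose g hg using fun x => h3 x t ht
    refine Set.ncard_le_ncard_of_injOn g ?_ ?_ (Set.toFinite _)
    · intro x hx
      change F (g x) = u + t
      rw [(hg x).2.1]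
      change F x = u at hx
      rw [hx]
    · intro x hx y hy hxy
      change F x = u at hx
      change F y = u at hy
      obtain ⟨z, -, -, hz⟩ := h3 (g x) (-t) (neg_mem_oddR ht)
      have h4 : F (g x) + -t = u := by
        rw [(hg x).2.1, hx]
        ring
      rw [hz x (hg x).1.symm (by rw [h4, hx]),
        hz y (by rw [hxy]; exact (hg y).1.symm) (by rw [h4, hy])]
  have heq : ∀ (u t : ZMod (2 * d)), t ∈ oddR d →
      {x | F x = u}.ncard = {x | F x = u + t}.ncard := by
    intro u t ht
    refine le_antisymm (hle u t ht) ?_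
    have h4 := hle (u + t) (-t) (neg_mem_oddR ht)
    rwa [add_neg_cancel_right] at h4
  have h1odd : (1 : ZMod (2 * d)) ∈ oddR d := by
    rw [mem_oddR, map_one]
  have hall : ∀ u : ZMod (2 * d), {x | F x = u}.ncard = {x | F x = 0}.ncard := by
    intro u
    rcases rpar_cases u with hu | hu
    · have h4 := heq 0 1 h1odd
      have h5 := heq (0 + 1) (u - 1) (by
        rw [mem_oddR, map_sub, map_one, hu]
        decide)
      rw [h4, h5]
      congr 2
      ext x
      constructor
      · intro h
        rw [h]
        ring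
      · intro h
        rw [h]
        ring
    · have h4 := heq 0 u (mem_oddR.2 hu)
      rw [h4, zero_add]
  -- the labels
  have hcard : Fintype.card {x : ZMod (2 * d) // rpar d x = 0} = Fintype.card (Fin d) := by
    rw [Fintype.card_fin, Fintype.card_subtype]
    exact even_card.1
  obtain ⟨e⟩ : Nonempty ({x : ZMod (2 * d) // rpar d x = 0} ≃ Fin d) :=
    ⟨Fintype.equivOfCardEq hcard⟩
  have hedge : ∀ b b', Γ.Adj b b' → rpar d (F b') = rpar d (F b) + 1 := by
    intro b b' h
    have h4 := mem_oddR.1 (h2 b b' h)
    rw [map_sub] at h4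
    linear_combination h4
  have hzero : ∀ y : ZMod 2, (y = 0 ↔ ¬ y + 1 = 0) := by decide
  refine ⟨β, hβ, Γ, {b | rpar d (F b) = 0},
    fun b => if h : rpar d (F b) = 0 then e ⟨F b, h⟩ else ⟨0, by omega⟩,
    {x | F x = 0}.ncard, h1, ?_, ?_, ?_, ?_, ?_⟩
  · rw [← hall (F x₀)]
    exact (Set.ncard_pos (Set.toFinite _)).2 ⟨x₀, rfl⟩
  · intro b b' h
    change rpar d (F b) = 0 ↔ ¬ rpar d (F b') = 0
    rw [hedge b b' h]
    exact hzero _
  · choose g hg using fun x => h3 x 1 h1odd
    refine Set.ncard_le_ncard_of_injOn g ?_ ?_ (Set.toFinite _)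
    · intro x hx
      change ¬ rpar d (F (g x)) = 0
      change rpar d (F x) = 0 at hx
      rw [hedge x (g x) (hg x).1]
      exact (hzero _).1 hx
    · intro x _ y _ hxy
      obtain ⟨z, -, -, hz⟩ := h3 (g x) (-1) (neg_mem_oddR h1odd)
      have h4 : F x = F (g x) + -1 := by
        rw [(hg x).2.1]
        ring
      have h5 : F y = F (g x) + -1 := by
        rw [hxy, (hg y).2.1]
        ring
      rw [hz x (hg x).1.symm h4, hz y (by rw [hxy]; exact (hg y).1.symm) h5]
  · intro r hr b b' hb hb' hlab
    have h4 : rpar d (F b) = 0 := by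
      by_contra hne
      exact hne ((hzero _).2 fun h => by
        have h5 := hedge b r hb.symm
        rw [h] at h5
        exact hr h5)
    have h4' : rpar d (F b') = 0 := by
      by_contra hne
      exact hne ((hzero _).2 fun h => by
        have h5 := hedge b' r hb'.symm
        rw [h] at h5
        exact hr h5)
    simp only [h4, h4', dif_pos] at hlab
    have h6 : F b = F b' := congrArg Subtype.val (e.injective hlab)
    obtain ⟨z, -, -, hz⟩ := h3 r (F b - F r) (h2 r b hb)
    rw [hz b hb (by ring), hz b' hb' (by rw [h6]; ring)]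
  · intro i
    rw [← hall (e.symm i).1]
    congr 1
    ext b
    constructor
    · rintro ⟨hb, hi⟩
      change rpar d (F b) = 0 at hb
      change F b = (e.symm i).1
      simp only [hb, dif_pos] at hi
      rw [← hi, Equiv.symm_apply_apply]
    · intro hb
      change F b = (e.symm i).1 at hb
      have h4 : rpar d (F b) = 0 := by
        rw [hb]
        exact (e.symm i).2
      refine ⟨h4, ?_⟩
      simp only [h4, dif_pos]
      have h5 : (⟨F b, h4⟩ : {x : ZMod (2 * d) // rpar d x = 0}) = e.symm i := Subtype.ext hb
      rw [h5, Equiv.apply_symm_apply]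

end FewFacets
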