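import Mathlib

/-!
Cyclic and linear enumerations of families of finite sets in which consecutive members
share two elements, and the doubling (wedge) lemma.
-/

namespace FewFacets

open Finset

variable {α : Type*} [DecidableEq α]

/-- Two finite sets are neighbours if they have exactly two common elements. -/
def Nb (A B : Finset α) : Prop := (A ∩ B).card = 2

lemma Nb.symm {A B : Finset α} (h : Nb A B) : Nb B A := by
  unfold Nb at *; rwa [inter_comm]

/-- `l` is a cyclic enumeration of the family `F` with consecutive members neighbours. -/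
structure Cyc (F : Set (Finset α)) (l : List (Finset α)) : Prop where
  nodup : l.Nodup
  mem : ∀ T, T ∈ l ↔ T ∈ F
  chain : l.IsChain Nb
  close : ∀ x ∈ l.getLast?, ∀ y ∈ l.head?, x = y ∨ Nb x y

/-- `F` has an enumeration from `u` to `v` with consecutive members neighbours. -/
def HP (F : Set (Finset α)) (u v : Finset α) : Prop :=
  ∃ l : List (Finset α), l.Nodup ∧ (∀ T, T ∈ l ↔ T ∈ F) ∧ l.IsChain Nb ∧
    l.head? = some u ∧ l.getLast? = some v

lemma HP.symm {F : Set (Finset α)} {u v : Finset α} (h : HP F u v) : HP F v u := by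
  obtain ⟨l, h1, h2, h3, h4, h5⟩ := h
  refine ⟨l.reverse, List.nodup_reverse.2 h1, fun T => by rw [List.mem_reverse]; exact h2 T, ?_,
    by simpa using h5, by simpa using h4⟩
  rw [List.isChain_reverse]
  exact h3.imp fun a b hab => Nb.symm hab

lemma HP.cyc {F : Set (Finset α)} {u v : Finset α} (h : HP F u v) (huv : Nb v u) :
    ∃ l, Cyc F l := by
  obtain ⟨l, h1, h2, h3, h4, h5⟩ := h
  refine ⟨l, h1, h2, h3, ?_⟩
  intro x hx y hy
  rw [h5] at hx; rw [h4] at hy
  simp only [Option.mem_def, Option.some.injEq] at hx hy
  subst hx; subst hy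
  exact Or.inr huv

omit [DecidableEq α] in
lemma mem_last_append {l1 l2 : List (Finset α)} (h : l2 ≠ []) (x : Finset α) :
    x ∈ (l1 ++ l2).getLast? ↔ x ∈ l2.getLast? := by
  rw [List.getLast?_append_of_ne_nil _ h]

omit [DecidableEq α] in
lemma mem_head_append {l1 l2 : List (Finset α)} (h : l1 ≠ []) (x : Finset α) :
    x ∈ (l1 ++ l2).head? ↔ x ∈ l1.head? := by
  rw [List.head?_append_of_ne_nil _ h]

lemma Cyc.rotate {F : Set (Finset α)} {l1 l2 : List (Finset α)} (h : Cyc F (l1 ++ l2)) :
    Cyc F (l2 ++ l1) := by
  by_cases n1 : l1 = []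
  · subst n1; simpa using h
  by_cases n2 : l2 = []
  · subst n2; simpa using h
  have hch := List.isChain_append.1 h.chain
  refine ⟨?_, ?_, ?_, ?_⟩
  · exact (List.perm_append_comm.nodup_iff).1 h.nodup
  · intro T
    rw [← h.mem T]
    simp only [List.mem_append]
    tauto
  · refine List.isChain_append.2 ⟨hch.2.1, hch.1, ?_⟩
    intro x hx y hy
    have hd := List.nodup_append.1 h.nodup
    rcases h.close x ((mem_last_append n2 x).2 hx) y ((mem_head_append n1 y).2 hy)
      with he | he
    · exfalso
      have h1 : x ∈ l2 := List.mem_of_mem_getLast? hx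
      have h2 : y ∈ l1 := List.mem_of_mem_head? hy
      exact hd.2.2 y h2 x h1 he.symm
    · exact he
  · intro x hx y hy
    exact Or.inr (hch.2.2 x ((mem_last_append n1 x).1 hx) y ((mem_head_append n2 y).1 hy))

/-- Replace the element `p` by `q`. -/
def sw (p q : α) (T : Finset α) : Finset α := insert q (T.erase p)

lemma nb_sw_self {p q : α} {T : Finset α} (hp : p ∈ T) (hq : q ∉ T) (h3 : T.card = 3) :
    Nb T (sw p q T) := by
  unfold Nb sw
  have : T ∩ insert q (T.erase p) = T.erase p := by
    ext x
    simp only [mem_inter, mem_insert, mem_erase]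
    constructor
    · rintro ⟨h1, h2 | h2⟩
      · subst h2; exact absurd h1 hq
      · exact h2
    · rintro ⟨h1, h2⟩
      exact ⟨h2, Or.inr ⟨h1, h2⟩⟩
  rw [this, card_erase_of_mem hp, h3]

lemma nb_sw_sw {p q : α} {A B : Finset α} (hA : p ∈ A) (hB : p ∈ B) (qA : q ∉ A) (qB : q ∉ B)
    (h : Nb A B) : Nb (sw p q A) (sw p q B) := by
  unfold Nb sw at *
  have : insert q (A.erase p) ∩ insert q (B.erase p) = insert q ((A ∩ B).erase p) := by
    ext x
    simp only [mem_inter, mem_insert, mem_erase]
    tauto
  rw [this, card_insert_of_notMem (by simp [qA]), card_erase_of_mem (by simp [hA, hB]), h]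

lemma nb_sw_left {p q : α} {A B : Finset α} (hA : p ∈ A) (hB : p ∉ B) (qA : q ∉ A)
    (qB : q ∉ B) (h : Nb A B) : Nb (sw p q A) B := by
  unfold Nb sw at *
  have : insert q (A.erase p) ∩ B = A ∩ B := by
    ext x
    simp only [mem_inter, mem_insert, mem_erase]
    constructor
    · rintro ⟨h1 | h1, h2⟩
      · subst h1; exact absurd h2 qB
      · exact ⟨h1.2, h2⟩
    · rintro ⟨h1, h2⟩
      exact ⟨Or.inr ⟨fun h => hB (h ▸ h2), h1⟩, h2⟩
  rw [this, h]

/-- Double every member of the list which contains `p`, in zigzag order. -/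
def zig (p q : α) : Bool → List (Finset α) → List (Finset α)
  | _, [] => []
  | b, v :: l => if p ∈ v then
      (if b then v :: sw p q v :: zig p q false l else sw p q v :: v :: zig p q true l)
      else v :: zig p q true l

lemma zig_mem {p q : α} (l : List (Finset α)) : ∀ (b : Bool) (T : Finset α),
    T ∈ zig p q b l ↔ T ∈ l ∨ ∃ v ∈ l, p ∈ v ∧ T = sw p q v := by
  induction l with
  | nil => intro b T; simp [zig]
  | cons v l ih =>
    intro b T
    unfold zig
    by_cases hv : p ∈ v
    · cases b
      · simp only [hv, if_true, Bool.false_eq_true, if_false, List.mem_cons, ih]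
        constructor
        · rintro (h | h | h | ⟨w, h1, h2, h3⟩)
          · exact Or.inr ⟨v, Or.inl rfl, hv, h⟩
          · exact Or.inl (Or.inl h)
          · exact Or.inl (Or.inr h)
          · exact Or.inr ⟨w, Or.inr h1, h2, h3⟩
        · rintro ((h | h) | ⟨w, h1 | h1, h2, h3⟩)
          · exact Or.inr (Or.inl h)
          · exact Or.inr (Or.inr (Or.inl h))
          · subst h1; exact Or.inl h3
          · exact Or.inr (Or.inr (Or.inr ⟨w, h1, h2, h3⟩))
      · simp only [hv, if_true, List.mem_cons, ih]
        constructor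
        · rintro (h | h | h | ⟨w, h1, h2, h3⟩)
          · exact Or.inl (Or.inl h)
          · exact Or.inr ⟨v, Or.inl rfl, hv, h⟩
          · exact Or.inl (Or.inr h)
          · exact Or.inr ⟨w, Or.inr h1, h2, h3⟩
        · rintro ((h | h) | ⟨w, h1 | h1, h2, h3⟩)
          · exact Or.inl h
          · exact Or.inr (Or.inr (Or.inl h))
          · subst h1; exact Or.inr (Or.inl h3)
          · exact Or.inr (Or.inr (Or.inr ⟨w, h1, h2, h3⟩))
    · simp only [hv, if_false, List.mem_cons, ih]
      constructor
      · rintro (h | h | ⟨w, h1, h2, h3⟩)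
        · exact Or.inl (Or.inl h)
        · exact Or.inl (Or.inr h)
        · exact Or.inr ⟨w, Or.inr h1, h2, h3⟩
      · rintro ((h | h) | ⟨w, h1 | h1, h2, h3⟩)
        · exact Or.inl h
        · exact Or.inr (Or.inl h)
        · subst h1; exact absurd h2 hv
        · exact Or.inr (Or.inr ⟨w, h1, h2, h3⟩)

lemma q_mem_sw {p q : α} (T : Finset α) : q ∈ sw p q T := by simp [sw]

lemma sw_inj {p q : α} {A B : Finset α} (hA : p ∈ A) (hB : p ∈ B) (qA : q ∉ A)
    (qB : q ∉ B) (h : sw p q A = sw p q B) : A = B := by
  unfold sw at h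
  have h1 : (insert q (A.erase p)).erase q = (insert q (B.erase p)).erase q := by rw [h]
  rw [erase_insert (by simp [qA]), erase_insert (by simp [qB])] at h1
  rw [← insert_erase hA, ← insert_erase hB, h1]

lemma zig_nodup {p q : α} (l : List (Finset α)) (hq : ∀ v ∈ l, q ∉ v) (hl : l.Nodup) :
    ∀ b : Bool, (zig p q b l).Nodup := by
  induction l with
  | nil => intro b; simp [zig]
  | cons v l ih =>
    intro b
    have hq' : ∀ w ∈ l, q ∉ w := fun w hw => hq w (List.mem_cons_of_mem _ hw)
    have hvl : v ∉ l := (List.nodup_cons.1 hl).1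
    have ihl := ih hq' (List.nodup_cons.1 hl).2
    have hqv := hq v List.mem_cons_self
    have hv1 : ∀ b, v ∉ zig p q b l := by
      intro b h
      rcases (zig_mem l b v).1 h with h | ⟨w, _, _, h3⟩
      · exact hvl h
      · exact hqv (h3 ▸ q_mem_sw w)
    have hv2 : p ∈ v → ∀ b, sw p q v ∉ zig p q b l := by
      intro hp b h
      rcases (zig_mem l b _).1 h with h | ⟨w, h1, h2, h3⟩
      · exact hq' _ h (q_mem_sw v)
      · exact hvl (sw_inj hp h2 hqv (hq' w h1) h3 ▸ h1)
    have hv3 : v ≠ sw p q v := fun h => hqv (h ▸ q_mem_sw v)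
    unfold zig
    by_cases hv : p ∈ v
    · cases b
      · simp only [hv, if_true, Bool.false_eq_true, if_false, List.nodup_cons, List.mem_cons]
        exact ⟨fun h => h.elim (fun h => hv3 h.symm) (hv2 hv _), hv1 _, ihl _⟩
      · simp only [hv, if_true, List.nodup_cons, List.mem_cons]
        exact ⟨fun h => h.elim (fun h => hv3 h) (hv1 _), hv2 hv _, ihl _⟩
    · simp only [hv, if_false, List.nodup_cons]
      exact ⟨hv1 _, ihl _⟩

lemma zig_head {p q : α} (v : Finset α) (l : List (Finset α)) (b : Bool) :
    (zig p q b (v :: l)).head? = some (if p ∈ v ∧ b = false then sw p q v else v) := by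
  unfold zig
  by_cases hv : p ∈ v <;> cases b <;> simp [hv]

lemma zig_ne_nil {p q : α} (v : Finset α) (l : List (Finset α)) (b : Bool) :
    zig p q b (v :: l) ≠ [] := by
  intro h
  have := zig_head (p := p) (q := q) v l b
  rw [h] at this
  simp at this

lemma zig_last {p q : α} (l : List (Finset α)) : ∀ (b : Bool) (x : Finset α),
    x ∈ (zig p q b l).getLast? → ∃ v ∈ l.getLast?, x = v ∨ (p ∈ v ∧ x = sw p q v) := by
  induction l with
  | nil => intro b x hx; simp [zig] at hx
  | cons v l ih =>
    intro b x hx
    cases l with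
    | nil =>
      refine ⟨v, by simp, ?_⟩
      unfold zig at hx
      by_cases hv : p ∈ v
      · cases b
        · simp [hv, zig] at hx; exact Or.inl hx.symm
        · simp [hv, zig] at hx; exact Or.inr ⟨hv, hx.symm⟩
      · simp [hv, zig] at hx; exact Or.inl hx.symm
    | cons w l =>
      have key : ∃ b' : Bool, x ∈ (zig p q b' (w :: l)).getLast? := by
        have hz : ∀ (b' : Bool) (u : Finset α),
            (u :: zig p q b' (w :: l)).getLast? = (zig p q b' (w :: l)).getLast? := by
          intro b' u
          exact List.getLast?_append_of_ne_nil [u] (zig_ne_nil w l b')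
        have hz2 : ∀ (b' : Bool) (u u' : Finset α),
            (u :: u' :: zig p q b' (w :: l)).getLast? = (zig p q b' (w :: l)).getLast? := by
          intro b' u u'
          exact List.getLast?_append_of_ne_nil [u, u'] (zig_ne_nil w l b')
        rw [zig] at hx
        by_cases hv : p ∈ v
        · cases b
          · simp only [hv, if_true, Bool.false_eq_true, if_false] at hx
            rw [hz2] at hx
            exact ⟨_, hx⟩
          · simp only [hv, if_true] at hx
            rw [hz2] at hx
            exact ⟨_, hx⟩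
        · simp only [hv, if_false] at hx
          rw [hz] at hx
          exact ⟨_, hx⟩
      obtain ⟨b', hb'⟩ := key
      obtain ⟨u, hu, hux⟩ := ih b' x hb'
      refine ⟨u, ?_, hux⟩
      rw [List.getLast?_cons_cons]
      exact hu

lemma zig_chain {p q : α} (l : List (Finset α)) (hq : ∀ v ∈ l, q ∉ v)
    (h3 : ∀ v ∈ l, v.card = 3) (hl : l.IsChain Nb) : ∀ b : Bool, (zig p q b l).IsChain Nb := by
  induction l with
  | nil => intro b; simp [zig]
  | cons v l ih =>
    intro b
    have hq' : ∀ w ∈ l, q ∉ w := fun w hw => hq w (List.mem_cons_of_mem _ hw)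
    have h3' : ∀ w ∈ l, w.card = 3 := fun w hw => h3 w (List.mem_cons_of_mem _ hw)
    have hqv := hq v List.mem_cons_self
    have h3v := h3 v List.mem_cons_self
    have ihl := ih hq' h3' hl.tail
    -- junctions
    have j1 : ∀ y ∈ (zig p q true l).head?, Nb v y := by
      cases l with
      | nil => intro y hy; simp [zig] at hy
      | cons w l =>
        intro y hy
        rw [zig_head] at hy
        simp at hy
        rw [← hy]
        exact hl.rel
    have j2 : p ∈ v → ∀ y ∈ (zig p q false l).head?, Nb (sw p q v) y := by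
      intro hv
      cases l with
      | nil => intro y hy; simp [zig] at hy
      | cons w l =>
        intro y hy
        rw [zig_head] at hy
        have hvw : Nb v w := hl.rel
        have hqw := hq' w List.mem_cons_self
        by_cases hw : p ∈ w
        · simp [hw] at hy
          rw [← hy]
          exact nb_sw_sw hv hw hqv hqw hvw
        · simp [hw] at hy
          rw [← hy]
          exact nb_sw_left hv hw hqv hqw hvw
    have hself : p ∈ v → Nb v (sw p q v) := fun hv => nb_sw_self hv hqv h3v
    unfold zig
    by_cases hv : p ∈ v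
    · cases b
      · simp only [hv, if_true, Bool.false_eq_true, if_false]
        rw [List.isChain_cons_cons]
        refine ⟨(hself hv).symm, ?_⟩
        rw [List.isChain_cons]
        exact ⟨j1, ihl _⟩
      · simp only [hv, if_true]
        rw [List.isChain_cons_cons]
        refine ⟨hself hv, ?_⟩
        rw [List.isChain_cons]
        exact ⟨j2 hv, ihl _⟩
    · simp only [hv, if_false]
      rw [List.isChain_cons]
      exact ⟨j1, ihl _⟩

lemma zig_pair {p q : α} {v : Finset α} (hp : p ∈ v) (l : List (Finset α)) (hv : v ∈ l) :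
    ∀ b : Bool, ∃ l1 l2, zig p q b l = l1 ++ v :: sw p q v :: l2 ∨
      zig p q b l = l1 ++ sw p q v :: v :: l2 := by
  induction l with
  | nil => simp at hv
  | cons w l ih =>
    intro b
    by_cases hwv : w = v
    · subst hwv
      refine ⟨[], ?_⟩
      rw [zig]
      cases b
      · exact ⟨zig p q true l, Or.inr (by simp [hp])⟩
      · exact ⟨zig p q false l, Or.inl (by simp [hp])⟩
    · have hvl : v ∈ l := by
        rcases List.mem_cons.1 hv with h | h
        · exact absurd h.symm hwv
        · exact h
      rw [zig]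
      by_cases hw : p ∈ w
      · cases b
        · obtain ⟨l1, l2, h | h⟩ := ih hvl true
          · exact ⟨sw p q w :: w :: l1, l2, Or.inl (by simp [hw, h])⟩
          · exact ⟨sw p q w :: w :: l1, l2, Or.inr (by simp [hw, h])⟩
        · obtain ⟨l1, l2, h | h⟩ := ih hvl false
          · exact ⟨w :: sw p q w :: l1, l2, Or.inl (by simp [hw, h])⟩
          · exact ⟨w :: sw p q w :: l1, l2, Or.inr (by simp [hw, h])⟩
      · obtain ⟨l1, l2, h | h⟩ := ih hvl true
        · exact ⟨w :: l1, l2, Or.inl (by simp [hw, h])⟩
        · exact ⟨w :: l1, l2, Or.inr (by simp [hw, h])⟩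

end FewFacets
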