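import Pool.Agent.FewFacets.Signs
import Pool.Agent.FewFacets.Defs

/-!
Hamiltonian cycles of simple `d`-polytopes given by at most `d + 3` inequalities.
-/

set_option linter.unusedSectionVars false

namespace FewFacets

open Finset

section walks

variable {V : Type*} {G : SimpleGraph V}

lemma cycle_of_path {u v : V} (p : G.Walk u v) (hp : p.IsPath) (h2 : 2 ≤ p.length)
    (h : G.Adj v u) : (SimpleGraph.Walk.cons h p).IsCycle := by
  rw [SimpleGraph.Walk.cons_isCycle_iff]
  refine ⟨hp, ?_⟩
  intro he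
  cases p with
  | nil => simp at h2
  | @cons _ w _ h' q =>
    rw [SimpleGraph.Walk.edges_cons, List.mem_cons] at he
    rw [SimpleGraph.Walk.cons_isPath_iff] at hp
    rcases he with he | he
    · have hwv : w = v := by
        rw [Sym2.eq_iff] at he
        rcases he with ⟨h1, h3⟩ | ⟨h1, h3⟩
        · exact absurd h1.symm h.ne'
        · exact h1.symm
      subst hwv
      have hnil := SimpleGraph.Walk.length_eq_zero_iff.2
        (SimpleGraph.Walk.isPath_iff_nil.1 hp.1)
      rw [SimpleGraph.Walk.length_cons, hnil] at h2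
      omega
    · exact hp.2 (SimpleGraph.Walk.snd_mem_support_of_mem_edges q he)

lemma ham_of_list [DecidableEq V] (L : List V) (hnd : L.Nodup) (hall : ∀ v, v ∈ L)
    (hch : L.IsChain G.Adj) (h3 : 3 ≤ L.length)
    (hcl : ∀ x ∈ L.getLast?, ∀ y ∈ L.head?, G.Adj x y) :
    ∃ v, ∃ p : G.Walk v v, p.IsHamiltonianCycle := by
  have hne : L ≠ [] := by rintro rfl; simp at h3
  have h : G.Adj (L.getLast hne) (L.head hne) :=
    hcl _ (List.getLast?_eq_getLast_of_ne_nil hne ▸ rfl) _ (List.head?_eq_some_head hne ▸ rfl)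
  let p0 := SimpleGraph.Walk.ofSupport L hne hch
  have hs : p0.support = L := SimpleGraph.Walk.support_ofSupport hne hch
  refine ⟨L.getLast hne, SimpleGraph.Walk.cons h p0, ?_⟩
  rw [SimpleGraph.Walk.isHamiltonianCycle_iff_isCycle_and_support_count_tail_eq_one]
  refine ⟨cycle_of_path p0 ?_ ?_ h, ?_⟩
  · rw [SimpleGraph.Walk.isPath_def, hs]; exact hnd
  · have := SimpleGraph.Walk.length_support p0
    rw [hs] at this
    omega
  · intro a
    rw [SimpleGraph.Walk.support_cons, List.tail_cons, hs]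
    exact List.count_eq_one_of_mem hnd (hall a)

end walks

variable {E : Type*} [NormedAddCommGroup E] [NormedSpace ℝ E] [FiniteDimensional ℝ E]

lemma rec_of_bounded {ι : Type*} {f : ι → E →ₗ[ℝ] ℝ} {b : ι → ℝ}
    (hne : (Poly f b).Nonempty) (hb : Bornology.IsBounded (Poly f b)) (w : E)
    (hw : ∀ i, f i w ≤ 0) : w = 0 := by
  obtain ⟨x0, hx0⟩ := hne
  obtain ⟨R, hR⟩ := hb.exists_norm_le
  by_contra hw0
  have hpos : 0 < ‖w‖ := norm_pos_iff.2 hw0
  set t := (R + ‖x0‖ + 1) / ‖w‖ with ht
  have hR0 : 0 ≤ R := (norm_nonneg _).trans (hR x0 hx0)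
  have ht0 : 0 ≤ t := by positivity
  have hmem : x0 + t • w ∈ Poly f b := by
    intro i
    rw [map_add, map_smul, smul_eq_mul]
    have := hx0 i
    have := mul_nonpos_of_nonneg_of_nonpos ht0 (hw i)
    linarith
  have h1 := hR _ hmem
  have h2 : ‖t • w‖ ≤ ‖x0 + t • w‖ + ‖x0‖ := by
    have := norm_sub_le (x0 + t • w) x0
    rwa [add_sub_cancel_left] at this
  rw [norm_smul, Real.norm_of_nonneg ht0, ht, div_mul_cancel₀ _ hpos.ne'] at h2
  linarith

lemma poly_closed {ι : Type*} (f : ι → E →ₗ[ℝ] ℝ) (b : ι → ℝ) : IsClosed (Poly f b) := by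
  have : Poly f b = ⋂ i, {x | f i x ≤ b i} := by
    ext x; simp [Poly]
  rw [this]
  refine isClosed_iInter fun i => ?_
  exact isClosed_le (LinearMap.continuous_of_finiteDimensional (f i)) continuous_const

/-- the main theorem for exactly `d + 3` inequalities -/
theorem main_fin {d : ℕ} (hd : 2 ≤ d) (hE : Module.finrank ℝ E = d)
    (f : Fin (d + 3) → E →ₗ[ℝ] ℝ) (b : Fin (d + 3) → ℝ) (hne : (Poly f b).Nonempty)
    (hb : Bornology.IsBounded (Poly f b))
    (hs : ∀ x ∈ Poly f b, (univ.filter (fun i => f i x = b i)).card ≤ d)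
    [DecidableEq ((Poly f b).extremePoints ℝ)] :
    ∃ v, ∃ p : (polytopeGraph (Poly f b)).Walk v v, p.IsHamiltonianCycle := by
  classical
  have D : Data f b := by
    refine ⟨hne, rec_of_bounded hne hb, ?_⟩
    intro x hx
    have h1 := hs x hx
    have h2 := card_filter_add_card_filter_not (s := (univ : Finset (Fin (d + 3))))
      (fun i => f i x = b i)
    rw [card_univ, Fintype.card_fin] at h2
    have h3 : (supp f b x).card = (univ.filter (fun i => ¬ f i x = b i)).card := rfl
    omega
  have hcard : Fintype.card (Fin (d + 3)) = Module.finrank ℝ E + 3 := by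
    rw [Fintype.card_fin, hE]
  obtain ⟨x, y, hy, hrel⟩ := D.plane hcard
  set g : Fin (d + 3) → ℝ := fun i => x i / y i with hg
  set c : Fin (d + 3) → Bool := fun i => decide (0 < y i) with hc
  -- extreme points and alternating triples
  have hext : ∀ q ∈ (Poly f b).extremePoints ℝ, supp f b q ∈ Gfam g c := fun q hq =>
    D.supp_mem hy hrel hq.1 (D.card_of_extreme hcard hq)
  have hcomp : IsCompact (Poly f b) :=
    Metric.isCompact_of_isClosed_isBounded (poly_closed f b) hb
  obtain ⟨q0, hq0⟩ := hcomp.extremePoints_nonempty hne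
  obtain ⟨l, hl⟩ := gfam_cyc g c ⟨_, hext q0 hq0⟩
  -- the vertex of a triple
  have hver : ∀ T ∈ Gfam g c, ∃ q : (Poly f b).extremePoints ℝ, supp f b q.1 = T := by
    intro T hT
    obtain ⟨q, hq, hqT⟩ := D.exists_vertex hy hrel hT
    exact ⟨⟨q, D.extreme hq (by rw [hqT]; exact gfam_card hT)⟩, hqT⟩
  let ψ : Finset (Fin (d + 3)) → (Poly f b).extremePoints ℝ := fun T =>
    if h : T ∈ Gfam g c then (hver T h).choose else ⟨q0, hq0⟩
  have hψ : ∀ T ∈ Gfam g c, supp f b (ψ T).1 = T := by
    intro T hT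
    have : ψ T = (hver T hT).choose := by simp [ψ, hT]
    rw [this]
    exact (hver T hT).choose_spec
  have hcard3 : ∀ q : (Poly f b).extremePoints ℝ, (supp f b q.1).card = 3 := fun q =>
    D.card_of_extreme hcard q.2
  have hadj : ∀ A ∈ Gfam g c, ∀ B ∈ Gfam g c, Nb A B →
      (polytopeGraph (Poly f b)).Adj (ψ A) (ψ B) := by
    intro A hA B hB h
    have h1 : (supp f b (ψ A).1 ∩ supp f b (ψ B).1).card = 2 := by
      rw [hψ A hA, hψ B hB]; exact h
    refine ⟨?_, D.edge (ψ A).2.1 (ψ B).2.1 (hcard3 _) (hcard3 _) h1⟩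
    intro he
    rw [he, inter_self, hcard3] at h1
    omega
  -- at least three vertices
  have hlen : 3 ≤ l.length := by
    have hT0 := hext q0 hq0
    set T0 := supp f b q0 with hT0def
    have hc0 : (T0)ᶜ.card = d := by
      rw [card_compl, Fintype.card_fin, gfam_card hT0]; omega
    have h2 : 2 ≤ (T0)ᶜ.card := by omega
    obtain ⟨m1, m2, hm1, hm2, hm⟩ := one_lt_card_iff.1 h2
    rw [mem_compl] at hm1 hm2
    obtain ⟨T1, hT1, hm1', hs1⟩ := gfam_nb hT0 hm1
    obtain ⟨T2, hT2, hm2', hs2⟩ := gfam_nb hT0 hm2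
    have h01 : T0 ≠ T1 := fun h => hm1 (h ▸ hm1')
    have h02 : T0 ≠ T2 := fun h => hm2 (h ▸ hm2')
    have h12 : T1 ≠ T2 := by
      intro h
      have : m2 ∈ insert m1 T0 := hs1 (h ▸ hm2')
      rcases mem_insert.1 this with h' | h'
      · exact hm h'.symm
      · exact hm2 h'
    have hsub : ({T0, T1, T2} : Finset (Finset (Fin (d + 3)))) ⊆ l.toFinset := by
      intro T hT
      simp only [mem_insert, mem_singleton] at hT
      rw [List.mem_toFinset, hl.mem]
      rcases hT with rfl | rfl | rfl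
      · exact hT0
      · exact hT1
      · exact hT2
    have h3 := card_le_card hsub
    rw [card_insert_of_notMem (by simp [h01, h02]), card_pair h12,
      List.toFinset_card_of_nodup hl.nodup] at h3
    exact h3
  refine ham_of_list (l.map ψ) ?_ ?_ ?_ (by rw [List.length_map]; exact hlen) ?_
  · refine (List.nodup_map_iff_inj_on hl.nodup).2 ?_
    intro A hA B hB hAB
    rw [← hψ A ((hl.mem A).1 hA), ← hψ B ((hl.mem B).1 hB), hAB]
  · intro q
    rw [List.mem_map]
    have hq := hext q.1 q.2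
    refine ⟨supp f b q.1, (hl.mem _).2 hq, ?_⟩
    apply Subtype.ext
    refine D.unique q.2.1 (hcard3 q) ?_
    rw [hψ _ hq]
  · rw [List.isChain_map]
    refine List.IsChain.imp_of_mem_imp ?_ hl.chain
    intro A B hA hB h
    exact hadj A ((hl.mem A).1 hA) B ((hl.mem B).1 hB) h
  · intro u hu v hv
    rw [List.getLast?_map] at hu
    rw [List.head?_map] at hv
    simp only [Option.mem_def, Option.map_eq_some_iff] at hu hv
    obtain ⟨A, hA, rfl⟩ := hu
    obtain ⟨B, hB, rfl⟩ := hv
    have hAF := (hl.mem A).1 (List.mem_of_mem_getLast? hA)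
    have hBF := (hl.mem B).1 (List.mem_of_mem_head? hB)
    rcases hl.close A hA B hB with rfl | h
    · exfalso
      obtain ⟨a, b', c', rest, hlr⟩ : ∃ a b' c' rest, l = a :: b' :: c' :: rest := by
        match l, hlen with
        | a :: b' :: c' :: rest, _ => exact ⟨a, b', c', rest, rfl⟩
      have hnd := hl.nodup
      rw [hlr] at hA hB hnd
      simp only [List.head?_cons, Option.some.injEq] at hB
      subst hB
      rw [List.getLast?_cons_cons] at hA
      have := List.mem_of_mem_getLast? hA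
      exact (List.nodup_cons.1 hnd).1 this
    · exact hadj A hAF B hBF h

end FewFacets
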