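import Pool.Agent.PolySum.Defs
import Mathlib.Combinatorics.SimpleGraph.Walk.Counting

/-!
Walks visiting every vertex at most `m` times in a sum.
-/

set_option linter.unusedSectionVars false

namespace PolySum

open Finset

variable {β V : Type*} {B : SimpleGraph β} {G : SimpleGraph V} {w : V} {R : Set β}
  {port : β → β → V}

/-- exclusive conditions -/
theorem sum_countP_le {α ι : Type*} [DecidableEq ι] (s : Finset ι) (p : ι → α → Prop)
    [∀ i, DecidablePred (p i)] (q : α → Prop) [DecidablePred q]
    (h1 : ∀ i ∈ s, ∀ x, p i x → q x) (h2 : ∀ i ∈ s, ∀ j ∈ s, ∀ x, p i x → p j x → i = j)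
    (L : List α) :
    ∑ i ∈ s, L.countP (fun x => decide (p i x)) ≤ L.countP (fun x => decide (q x)) := by
  induction L with
  | nil => simp
  | cons x L ih =>
    simp only [List.countP_cons, sum_add_distrib, decide_eq_true_eq]
    refine Nat.add_le_add ih ?_
    by_cases hx : ∃ i ∈ s, p i x
    · obtain ⟨i, hi, hpi⟩ := hx
      rw [if_pos (h1 i hi x hpi), sum_eq_single_of_mem i hi]
      · rw [if_pos hpi]
      · intro j hj hji
        rw [if_neg fun h => hji (h2 j hj i hi x h hpi)]
    · push Not at hx
      rw [sum_eq_zero]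
      · exact Nat.zero_le _
      · intro i hi
        rw [if_neg (hx i hi)]

/-- exhaustive conditions -/
theorem countP_le_sum {α ι : Type*} [DecidableEq ι] (s : Finset ι) (p : ι → α → Prop)
    [∀ i, DecidablePred (p i)] (q : α → Prop) [DecidablePred q]
    (h1 : ∀ x, q x → ∃ i ∈ s, p i x) (L : List α) :
    L.countP (fun x => decide (q x)) ≤ ∑ i ∈ s, L.countP (fun x => decide (p i x)) := by
  induction L with
  | nil => simp
  | cons x L ih =>
    simp only [List.countP_cons, sum_add_distrib, decide_eq_true_eq]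
    refine Nat.add_le_add ih ?_
    by_cases hx : q x
    · obtain ⟨i, hi, hpi⟩ := h1 x hx
      rw [if_pos hx]
      have h2 : (if p i x then 1 else 0) ≤ ∑ i ∈ s, (if p i x then 1 else 0) :=
        single_le_sum (f := fun i => if p i x then 1 else 0) (fun _ _ => Nat.zero_le _) hi
      rwa [if_pos hpi] at h2
    · rw [if_neg hx]
      exact Nat.zero_le _

/-- what is seen in the copy at `r` -/
def seen [DecidableEq β] (r : β) (x : SumVert R w) : V := if x.1.1 = r then x.1.2 else w

/-- the number of times a walk leaves the copy at `r` -/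
def exits [DecidableEq β] (r : β) {a b : SumVert R w} (p : (sumGraph B G w R port).Walk a b) : ℕ :=
  p.darts.countP (fun e => decide (e.fst.1.1 = r ∧ e.snd.1.1 ≠ r))

/-- the vertex `v` of the copy at `r` -/
def inCopy {r : β} (hr : r ∈ R) (v : V) (hv : v ≠ w) : SumVert R w :=
  ⟨(r, v), ⟨fun _ => hv, fun _ => hr⟩⟩

/-- the vertex `s` which is not replaced -/
def kept {s : β} (hs : s ∉ R) : SumVert R w :=
  ⟨(s, w), ⟨fun h => absurd h hs, fun h => absurd rfl h⟩⟩

/-- A walk of the sum seen in the copy at `r`. -/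
theorem proj_walk [DecidableEq β] [DecidableEq V] [DecidableEq (SumVert R w)] {r : β}
    (hr : r ∈ R) (hport : ∀ b, B.Adj r b → G.Adj w (port r b))
    {a b : SumVert R w} (p : (sumGraph B G w R port).Walk a b) :
    ∃ q : G.Walk (seen r a) (seen r b),
      (∀ v (hv : v ≠ w), q.support.count v = p.support.count (inCopy hr v hv)) ∧
      q.support.tail.count w = exits r p := by
  have hin : ∀ x : SumVert R w, x.1.1 = r → seen r x = x.1.2 ∧ x.1.2 ≠ w := fun x hx =>
    ⟨if_pos hx, x.2.1 (hx ▸ hr)⟩
  have hout : ∀ x : SumVert R w, x.1.1 ≠ r → seen r x = w := fun x hx => if_neg hx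
  have hseen : ∀ (x : SumVert R w) v (hv : v ≠ w), seen r x = v ↔
      x = inCopy hr v hv := by
    intro x v hv
    constructor
    · intro h
      by_cases hx : x.1.1 = r
      · rw [(hin x hx).1] at h
        exact Subtype.ext (Prod.ext hx h)
      · rw [hout x hx] at h
        exact absurd h.symm hv
    · rintro rfl
      exact (hin _ rfl).1
  have hone : ∀ (x : SumVert R w) v (hv : v ≠ w), (if seen r x = v then 1 else 0) =
      if x = inCopy hr v hv then 1 else 0 := by
    intro x v hv
    by_cases h : seen r x = v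
    · rw [if_pos h, if_pos ((hseen x v hv).1 h)]
    · rw [if_neg h, if_neg fun h1 => h ((hseen x v hv).2 h1)]
  have hw : ∀ x : SumVert R w, (x.1.1 = r → (if seen r x = w then 1 else 0) = 0) ∧
      (x.1.1 ≠ r → (if seen r x = w then 1 else 0) = 1) := by
    intro x
    constructor
    · intro hx
      rw [(hin x hx).1, if_neg (hin x hx).2]
    · intro hx
      rw [hout x hx, if_pos rfl]
  induction p with
  | nil =>
    rename_i x
    refine ⟨SimpleGraph.Walk.nil, ?_, ?_⟩
    · intro v hv
      have := hone x v hv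
      simp only [SimpleGraph.Walk.support_nil, List.count_cons, List.count_nil, beq_iff_eq]
      rw [this]
    · simp [exits]
  | cons hadj p ih =>
    rename_i x y z
    obtain ⟨q, hq1, hq2⟩ := ih
    have hcount : ∀ v, q.support.count v = q.support.tail.count v +
        (if seen r y = v then 1 else 0) := by
      intro v
      conv_lhs => rw [← q.cons_tail_support]
      rw [List.count_cons]
      simp only [beq_iff_eq]
    have hex : exits r (SimpleGraph.Walk.cons hadj p) = exits r p +
        (if x.1.1 = r ∧ y.1.1 ≠ r then 1 else 0) := by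
      unfold exits
      rw [SimpleGraph.Walk.darts_cons, List.countP_cons]
      simp only [decide_eq_true_eq]
    have hsupp : ∀ v (hv : v ≠ w), (SimpleGraph.Walk.cons hadj p).support.count
        (inCopy hr v hv) =
        q.support.count v + (if seen r x = v then 1 else 0) := by
      intro v hv
      rw [SimpleGraph.Walk.support_cons, List.count_cons, hq1 v hv, hone x v hv]
      simp only [beq_iff_eq]
    by_cases hx : x.1.1 = r
    · by_cases hy : y.1.1 = r
      · -- inside
        have hG : G.Adj (seen r x) (seen r y) := by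
          rw [(hin x hx).1, (hin y hy).1]
          rcases hadj with ⟨_, h⟩ | ⟨h, _⟩
          · exact h
          · exact absurd (hx.trans hy.symm) (B.ne_of_adj h)
        refine ⟨SimpleGraph.Walk.cons hG q, ?_, ?_⟩
        · intro v hv
          rw [hsupp v hv, SimpleGraph.Walk.support_cons, List.count_cons]
          simp only [beq_iff_eq]
        · rw [hex, if_neg (fun h => h.2 hy), SimpleGraph.Walk.support_cons, List.tail_cons,
            hcount, (hw y).1 hy, hq2]
      · have hG : G.Adj (seen r x) (seen r y) := by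
          rw [(hin x hx).1, hout y hy]
          rcases hadj with ⟨h, _⟩ | ⟨h, h1, _⟩
          · exact absurd (h.symm.trans hx) hy
          · rw [h1 (hx ▸ hr), hx]
            exact (hport _ (hx ▸ h)).symm
        refine ⟨SimpleGraph.Walk.cons hG q, ?_, ?_⟩
        · intro v hv
          rw [hsupp v hv, SimpleGraph.Walk.support_cons, List.count_cons]
          simp only [beq_iff_eq]
        · rw [hex, if_pos ⟨hx, hy⟩, SimpleGraph.Walk.support_cons, List.tail_cons,
            hcount, (hw y).2 hy, hq2]
    · by_cases hy : y.1.1 = r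
      · have hG : G.Adj (seen r x) (seen r y) := by
          rw [hout x hx, (hin y hy).1]
          rcases hadj with ⟨h, _⟩ | ⟨h, _, h1⟩
          · exact absurd (h.trans hy) hx
          · rw [h1 (hy ▸ hr), hy]
            exact hport _ (hy ▸ h.symm)
        refine ⟨SimpleGraph.Walk.cons hG q, ?_, ?_⟩
        · intro v hv
          rw [hsupp v hv, SimpleGraph.Walk.support_cons, List.count_cons]
          simp only [beq_iff_eq]
        · rw [hex, if_neg (fun h => hx h.1), SimpleGraph.Walk.support_cons, List.tail_cons,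
            hcount, (hw y).1 hy, hq2]
      · have hxy : seen r y = seen r x := by rw [hout x hx, hout y hy]
        refine ⟨q.copy hxy rfl, ?_, ?_⟩
        · intro v hv
          rw [hsupp v hv, SimpleGraph.Walk.support_copy, hout x hx, if_neg (Ne.symm hv), add_zero]
        · rw [hex, if_neg (fun h => hx h.1), SimpleGraph.Walk.support_copy, hq2, add_zero]

/-- the number of visits of the walks in a list to a vertex -/
def visits {W : Type*} [DecidableEq W] {H : SimpleGraph W} (L : List (Σ a b : W, H.Walk a b))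
    (v : W) : ℕ :=
  (L.map (fun p => p.2.2.support.count v)).sum

/-- the number of times a walk leaves a copy -/
theorem sum_exits_le [DecidableEq β] {S : Set β}
    (hbip : ∀ b b', B.Adj b b' → (b ∈ S ↔ b' ∉ S)) (hRS : ∀ b ∈ R, b ∉ S)
    {a b : SumVert R w} (p : (sumGraph B G w R port).Walk a b) (Rf Sf : Finset β)
    (hRf : ∀ x, x ∈ Rf ↔ x ∈ R) (hSf : ∀ x, x ∈ Sf ↔ x ∈ S) :
    ∑ r ∈ Rf, exits r p ≤ ∑ s ∈ Sf, p.support.countP (fun x => decide (x.1.1 = s)) := by
  have h1 : ∑ r ∈ Rf, exits r p ≤ p.darts.countP (fun e => decide (e.snd.1.1 ∈ Sf)) := by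
    refine sum_countP_le Rf (fun r (e : (sumGraph B G w R port).Dart) =>
      e.fst.1.1 = r ∧ e.snd.1.1 ≠ r) (fun e => e.snd.1.1 ∈ Sf) ?_ ?_ p.darts
    · rintro r hr e ⟨h1, h2⟩
      rw [hSf]
      rcases e.adj with ⟨h3, _⟩ | ⟨h3, _⟩
      · exact absurd (h3.symm.trans h1) h2
      · by_contra h4
        exact hRS r ((hRf r).1 hr) (h1 ▸ (hbip _ _ h3).2 h4)
    · rintro r _ r' _ e ⟨h1, _⟩ ⟨h2, _⟩
      exact h1.symm.trans h2
  have h2 : p.darts.countP (fun e => decide (e.snd.1.1 ∈ Sf)) =
      p.support.tail.countP (fun x => decide (x.1.1 ∈ Sf)) := by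
    rw [← p.cons_map_snd_darts, List.tail_cons, List.countP_map]
    rfl
  have h3 : p.support.tail.countP (fun x => decide (x.1.1 ∈ Sf)) ≤
      ∑ s ∈ Sf, p.support.tail.countP (fun x => decide (x.1.1 = s)) :=
    countP_le_sum Sf (fun s (x : SumVert R w) => x.1.1 = s) (fun x => x.1.1 ∈ Sf)
      (fun x hx => ⟨x.1.1, hx, rfl⟩) _
  calc ∑ r ∈ Rf, exits r p ≤ _ := h1
    _ = _ := h2
    _ ≤ _ := h3
    _ ≤ _ := sum_le_sum fun s _ => (List.tail_sublist p.support).countP_le

/-- the number of times the walks of a list leave a copy -/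
theorem sum_exits_list [DecidableEq β] [DecidableEq (SumVert R w)] {S : Set β} {m : ℕ}
    (hbip : ∀ b b', B.Adj b b' → (b ∈ S ↔ b' ∉ S)) (hRS : ∀ b ∈ R, b ∉ S)
    (L : List (Σ a b : SumVert R w, (sumGraph B G w R port).Walk a b))
    (hL : ∀ x, visits L x ≤ m) (Rf Sf : Finset β)
    (hRf : ∀ x, x ∈ Rf ↔ x ∈ R) (hSf : ∀ x, x ∈ Sf ↔ x ∈ S) :
    ∑ r ∈ Rf, (L.map (fun p => exits r p.2.2)).sum ≤ Sf.card * m := by
  have h1 : ∑ r ∈ Rf, (L.map (fun p => exits r p.2.2)).sum ≤
      ∑ s ∈ Sf, (L.map (fun p => p.2.2.support.countP (fun x => decide (x.1.1 = s)))).sum := by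
    clear hL
    induction L with
    | nil => simp
    | cons p L ih =>
      simp only [List.map_cons, List.sum_cons, sum_add_distrib]
      exact Nat.add_le_add (sum_exits_le hbip hRS p.2.2 Rf Sf hRf hSf) ih
  refine h1.trans ?_
  rw [← smul_eq_mul, ← sum_const]
  refine sum_le_sum fun s hs => ?_
  have hsR : s ∉ R := fun h => hRS s h ((hSf s).1 hs)
  have h2 : ∀ p : Σ a b : SumVert R w, (sumGraph B G w R port).Walk a b,
      p.2.2.support.countP (fun x => decide (x.1.1 = s)) =
        p.2.2.support.count (kept hsR) := by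
    intro p
    unfold List.count
    refine List.countP_congr fun x _ => ?_
    rw [decide_eq_true_eq, beq_iff_eq]
    constructor
    · intro hx
      have hxw : x.1.2 = w := by
        by_contra hne
        exact hsR (hx ▸ x.2.2 hne)
      exact Subtype.ext (Prod.ext hx hxw)
    · intro hx
      rw [hx]
      rfl
  simp only [h2]
  exact hL _

/-- the walks of a list seen in the copy at `r` -/
theorem proj_list [DecidableEq β] [DecidableEq V] [DecidableEq (SumVert R w)] {r : β}
    (hr : r ∈ R) (hport : ∀ b, B.Adj r b → G.Adj w (port r b))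
    (L : List (Σ a b : SumVert R w, (sumGraph B G w R port).Walk a b))
    (hends : ∀ p ∈ L, p.1.1.1 ≠ r ∧ p.2.1.1.1 ≠ r) :
    ∃ q : G.Walk w w, (∀ v (hv : v ≠ w), q.support.tail.count v = visits L (inCopy hr v hv)) ∧
      q.support.tail.count w = (L.map (fun p => exits r p.2.2)).sum := by
  induction L with
  | nil => exact ⟨SimpleGraph.Walk.nil, fun v hv => by simp [visits], by simp⟩
  | cons p L ih =>
    obtain ⟨q, hq1, hq2⟩ := ih fun p' hp' => hends p' (List.mem_cons_of_mem _ hp')
    obtain ⟨ha, hb⟩ := hends p List.mem_cons_self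
    obtain ⟨q0, h1, h2⟩ := proj_walk hr hport p.2.2
    have ea : seen r p.1 = w := if_neg ha
    have eb : seen r p.2.1 = w := if_neg hb
    refine ⟨(q0.copy ea eb).append q, fun v hv => ?_, ?_⟩
    · rw [SimpleGraph.Walk.tail_support_append, List.count_append, hq1 v hv,
        SimpleGraph.Walk.support_copy]
      have h3 : q0.support.count v = q0.support.tail.count v := by
        conv_lhs => rw [← q0.cons_tail_support]
        rw [List.count_cons_of_ne (by rw [ea]; exact Ne.symm hv)]
      rw [← h3, h1 v hv]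
      simp [visits]
    · rw [SimpleGraph.Walk.tail_support_append, List.count_append, hq2,
        SimpleGraph.Walk.support_copy, h2, List.map_cons, List.sum_cons]

/-- **Few walks which cover the sum give a closed walk which covers the summand.** -/
theorem closed_of_walks [Finite β] [DecidableEq V] [DecidableEq (SumVert R w)]
    {S : Set β} {m : ℕ} (hbip : ∀ b b', B.Adj b b' → (b ∈ S ↔ b' ∉ S))
    (hbal : S.ncard ≤ Sᶜ.ncard) (hRS : ∀ b, b ∈ R ↔ b ∉ S) (hne : ∃ v, v ≠ w)
    (hport : ∀ r ∈ R, ∀ b, B.Adj r b → G.Adj w (port r b))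
    (L : List (Σ a b : SumVert R w, (sumGraph B G w R port).Walk a b))
    (hL : ∀ x, 1 ≤ visits L x ∧ visits L x ≤ m)
    (hlen : 2 * L.length * (m + 1) < Sᶜ.ncard) :
    ∃ (c : V) (q : G.Walk c c), ∀ v, 1 ≤ q.support.tail.count v ∧ q.support.tail.count v ≤ m := by
  classical
  have := Fintype.ofFinite β
  set Rf : Finset β := univ.filter (fun x => x ∈ R) with hRf
  set Sf : Finset β := univ.filter (fun x => x ∈ S) with hSf
  have hRm : ∀ x, x ∈ Rf ↔ x ∈ R := fun x => by simp [hRf]
  have hSm : ∀ x, x ∈ Sf ↔ x ∈ S := fun x => by simp [hSf]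
  have hRc : Sᶜ.ncard = Rf.card := by
    rw [← Set.ncard_coe_finset]
    congr 1
    ext x
    rw [mem_coe, hRm, hRS]
    rfl
  have hSc : S.ncard = Sf.card := by
    rw [← Set.ncard_coe_finset]
    congr 1
    ext x
    rw [mem_coe, hSm]
  have hsum := sum_exits_list hbip (fun x hx => (hRS x).1 hx) L (fun x => (hL x).2) Rf Sf hRm hSm
  obtain ⟨r, hrR, hends, hrm⟩ : ∃ r ∈ Rf, (∀ p ∈ L, p.1.1.1 ≠ r ∧ p.2.1.1.1 ≠ r) ∧
      (L.map (fun p => exits r p.2.2)).sum ≤ m := by
    by_contra hcon
    push Not at hcon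
    set X := Rf.filter (fun r => m + 1 ≤ (L.map (fun p => exits r p.2.2)).sum) with hX
    set Y := (L.map (fun p => p.1.1.1) ++ L.map (fun p => p.2.1.1.1)).toFinset with hY
    have hcov : Rf ⊆ X ∪ Y := by
      intro r hr
      rw [mem_union]
      by_cases h1 : ∀ p ∈ L, p.1.1.1 ≠ r ∧ p.2.1.1.1 ≠ r
      · exact Or.inl (mem_filter.2 ⟨hr, hcon r hr h1⟩)
      · right
        push Not at h1
        obtain ⟨p, hp, h2⟩ := h1
        rw [hY, List.mem_toFinset, List.mem_append, List.mem_map, List.mem_map]
        by_cases h3 : p.1.1.1 = r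
        · exact Or.inl ⟨p, hp, h3⟩
        · exact Or.inr ⟨p, hp, h2 h3⟩
    have h1 : X.card * (m + 1) ≤ ∑ r ∈ X, (L.map (fun p => exits r p.2.2)).sum := by
      rw [← smul_eq_mul, ← sum_const]
      exact sum_le_sum fun r hr => (mem_filter.1 hr).2
    have h2 : ∑ r ∈ X, (L.map (fun p => exits r p.2.2)).sum ≤
        ∑ r ∈ Rf, (L.map (fun p => exits r p.2.2)).sum :=
      sum_le_sum_of_subset (filter_subset _ _)
    have h3 : Y.card ≤ 2 * L.length := by
      refine (List.toFinset_card_le _).trans ?_
      rw [List.length_append, List.length_map, List.length_map]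
      omega
    have h4 : Rf.card ≤ X.card + Y.card := (card_le_card hcov).trans (card_union_le _ _)
    have h5 : Sf.card * m ≤ Rf.card * m := Nat.mul_le_mul_right m (by omega)
    rw [hRc] at hlen
    have h6 : Rf.card * (m + 1) ≤ (X.card + 2 * L.length) * (m + 1) :=
      Nat.mul_le_mul_right _ (by omega)
    rw [Nat.add_mul X.card] at h6
    have h7 : Rf.card * (m + 1) = Rf.card * m + Rf.card := by ring
    omega
  have hr := (hRm r).1 hrR
  obtain ⟨q, hq1, hq2⟩ := proj_list hr (hport r hr) L hends
  obtain ⟨v0, hv0⟩ := hne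
  refine ⟨w, q, fun v => ?_⟩
  by_cases hv : v = w
  · subst hv
    refine ⟨?_, by rw [hq2]; exact hrm⟩
    have hnil : ¬ q.Nil := by
      intro hnil
      have h1 := (hL (inCopy hr v0 hv0)).1
      rw [← hq1 v0 hv0, SimpleGraph.Walk.nil_iff_support_eq.1 hnil] at h1
      simp at h1
    exact List.one_le_count_iff.2 (q.end_mem_tail_support hnil)
  · rw [hq1 v hv]
    exact hL _

end PolySum
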