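import Pool.Agent.PolySum.Main

/-!
# Hamilton paths and cycles of a sum at all vertices of one class
-/

namespace PolySum

variable {β V : Type*} {B : SimpleGraph β} {G : SimpleGraph V} {w : V} {R : Set β}
  {port : β → β → V}

section aux

variable {n : ℕ} {F : ℕ → SumVert R w}

/-- A block is entered and left through different vertices. -/
theorem block_ends (h : Pos B G w R port n F) {S : Set β}
    (hbip : ∀ b b', B.Adj b b' → (b ∈ S ↔ b' ∉ S)) (hRS : ∀ b ∈ R, b ∉ S) {r : β} (hr : r ∈ R)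
    {i₀ j₀ : ℕ} (hi₀ : 0 < i₀) (hij : i₀ ≤ j₀) (hj₀ : j₀ < n)
    (hblock : ∀ k, k ≤ n → ((F k).1.1 = r ↔ i₀ ≤ k ∧ k ≤ j₀)) :
    (F (i₀ - 1)).1.1 ≠ (F (j₀ + 1)).1.1 := by
  have hri : (F i₀).1.1 = r := (hblock i₀ (by omega)).mpr ⟨le_rfl, hij⟩
  have hrj : (F j₀).1.1 = r := (hblock j₀ (by omega)).mpr ⟨hij, le_rfl⟩
  have hrS : r ∉ S := hRS r hr
  have hi1 : i₀ - 1 + 1 = i₀ := by omega
  have hne1 : (F (i₀ - 1)).1.1 ≠ r := by
    intro h1
    have := ((hblock (i₀ - 1) (by omega)).mp h1).1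
    omega
  have hne2 : (F (j₀ + 1)).1.1 ≠ r := by
    intro h1
    have := ((hblock (j₀ + 1) (by omega)).mp h1).2
    omega
  have st1 := (h.step (i := i₀ - 1) (by omega) (by rw [hi1, hri]; exact hne1)).1
  rw [hi1, hri] at st1
  have hbS : (F (i₀ - 1)).1.1 ∈ S := (hbip _ _ st1).mpr hrS
  intro h1
  have := h.unique (i := i₀ - 1) (j := j₀ + 1) (by omega) (by omega)
    (fun h2 => hRS _ h2 hbS) h1
  omega

/-- If the path starts in `S` there are at most as many starts as vertices in `S`. -/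
theorem card_starts' [Finite β] (h : Pos B G w R port n F) {S : Set β}
    (hbip : ∀ b b', B.Adj b b' → (b ∈ S ↔ b' ∉ S)) (hRS : ∀ b ∈ R, b ∉ S)
    (h0 : (F 0).1.1 ∈ S) : {i | Start F S n i}.ncard ≤ S.ncard := by
  have hpos : ∀ i, Start F S n i → i ≠ 0 := by
    rintro i ⟨_, h2, _⟩ rfl
    exact h2 h0
  refine Set.ncard_le_ncard_of_injOn (fun i => (F (i - 1)).1.1) ?_ ?_ (Set.toFinite S)
  · rintro i ⟨hi, hiS, hi0⟩
    have hne' : i ≠ 0 := hpos i ⟨hi, hiS, hi0⟩
    have hi1 : (F (i - 1)).1.1 ≠ (F i).1.1 := by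
      rcases hi0 with h0 | h0
      · exact absurd h0 hne'
      · exact h0
    have hi2 : i - 1 + 1 = i := by omega
    have h2 := h.step (i := i - 1) (by omega) (by rw [hi2]; exact hi1)
    rw [hi2] at h2
    exact (hbip _ _ h2.1).mpr hiS
  · rintro i ⟨hi, hiS, hi0⟩ j ⟨hj, hjS, hj0⟩ heq
    have h3 : i ≠ 0 := hpos i ⟨hi, hiS, hi0⟩
    have h4 : j ≠ 0 := hpos j ⟨hj, hjS, hj0⟩
    have hi1 : (F (i - 1)).1.1 ≠ (F i).1.1 := by
      rcases hi0 with h0 | h0
      · exact absurd h0 h3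
      · exact h0
    have hi2 : i - 1 + 1 = i := by omega
    have h2 := h.step (i := i - 1) (by omega) (by rw [hi2]; exact hi1)
    rw [hi2] at h2
    have h5 : (F (i - 1)).1.1 ∈ S := (hbip _ _ h2.1).mpr hiS
    have h6 := h.unique (i := i - 1) (j := j - 1) (by omega) (by omega)
      (fun h7 => hRS _ h7 h5) heq
    omega

/-- If the path starts in `S` then no vertex has two starts. -/
theorem no_multi [Finite β] (h : Pos B G w R port n F) {S : Set β}
    (hbip : ∀ b b', B.Adj b b' → (b ∈ S ↔ b' ∉ S)) (hRS : ∀ b ∈ R, b ∉ S)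
    (hbal : S.ncard ≤ Sᶜ.ncard) (hne : ∃ v, v ≠ w) (h0 : (F 0).1.1 ∈ S) (b : β) :
    ¬ Multi F S n b := by
  classical
  rintro ⟨i, j, hij, hi, hj, hib, hjb⟩
  have hex : ∀ c : β, ∃ i, c ∉ S → Start F S n i ∧ (F i).1.1 = c := by
    intro c
    by_cases hc : c ∈ S
    · exact ⟨0, fun h => absurd hc h⟩
    · obtain ⟨i, hi⟩ := exists_start h hne hc
      exact ⟨i, fun _ => hi⟩
  choose m hm using hex
  obtain ⟨e, he, heb, hem⟩ : ∃ e, Start F S n e ∧ (F e).1.1 = b ∧ e ≠ m b := by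
    by_cases him : i = m b
    · exact ⟨j, hj, hjb, fun h => hij (him.trans h.symm)⟩
    · exact ⟨i, hi, hib, him⟩
  have hinj : Set.InjOn m Sᶜ := by
    intro c hc c' hc' hcc
    have h1 := (hm c hc).2
    have h2 := (hm c' hc').2
    rw [hcc] at h1
    exact h1.symm.trans h2
  have hcard : (m '' Sᶜ).ncard = Sᶜ.ncard := hinj.ncard_image
  have hsub : insert e (m '' Sᶜ) ⊆ {i | Start F S n i} := by
    rintro i (rfl | ⟨c, hc, rfl⟩)
    · exact he
    · exact (hm c hc).1
  have h2 : e ∉ m '' Sᶜ := by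
    rintro ⟨c, hc, hce⟩
    have h2 := (hm c hc).2
    rw [hce, heb] at h2
    rw [← h2] at hce
    exact hem hce.symm
  have h3 := Set.ncard_le_ncard hsub (starts_finite F S n)
  rw [Set.ncard_insert_of_notMem h2 (Set.toFinite _), hcard] at h3
  have h4 := card_starts' h hbip hRS h0
  omega

/-- A vertex other than the first one which occurs at the positions `1` and `n` has two starts or
occurs at all positions except the first. -/
theorem all_between (_h : Pos B G w R port n F) {S : Set β} {r : β} (hr : r ∉ S)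
    (hmul : ¬ Multi F S n r) (h0 : (F 0).1.1 ≠ r) (h1 : (F 1).1.1 = r) (hn : (F n).1.1 = r)
    (hn1 : 1 ≤ n) (k : ℕ) (hk1 : 1 ≤ k) (hkn : k ≤ n) : (F k).1.1 = r := by
  classical
  by_contra hkr
  have hex : ∃ k', k < k' ∧ k' ≤ n ∧ (F k').1.1 = r := by
    refine ⟨n, ?_, le_rfl, hn⟩
    rcases Nat.lt_or_ge k n with h3 | h3
    · exact h3
    · have : k = n := by omega
      exact absurd (this ▸ hn) hkr
  have hk' := Nat.find_spec hex
  have hk'm := fun m => Nat.find_min hex (m := m)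
  set k' := Nat.find hex
  apply hmul
  refine ⟨1, k', by omega, ⟨hn1, by rw [h1]; exact hr, Or.inr (by rw [h1]; exact h0)⟩,
    ⟨hk'.2.1, by rw [hk'.2.2]; exact hr, Or.inr ?_⟩, h1, hk'.2.2⟩
  rw [hk'.2.2]
  intro h3
  by_cases h4 : k' - 1 = k
  · exact hkr (h4 ▸ h3)
  · exact hk'm (k' - 1) (by omega) ⟨by omega, by omega, h3⟩

end aux

/-- A Hamilton path of the sum at all vertices outside `S`, if there are at least four of them,
gives a Hamilton cycle of the summand. -/
theorem cycle_of_path [Finite β] [Finite V] [DecidableEq V] [DecidableEq (SumVert R w)]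
    {S : Set β} (hbip : ∀ b b', B.Adj b b' → (b ∈ S ↔ b' ∉ S)) (hbal : S.ncard ≤ Sᶜ.ncard)
    (hRS : ∀ b, b ∈ R ↔ b ∉ S) (hfour : 4 ≤ R.ncard) (hne : ∃ v, v ≠ w)
    (hport : ∀ r ∈ R, ∀ b, B.Adj r b → G.Adj w (port r b))
    (hinj : ∀ r ∈ R, ∀ b b', B.Adj r b → B.Adj r b' → port r b = port r b' → b = b')
    (hham : ∃ (a b : SumVert R w) (p : (sumGraph B G w R port).Walk a b), p.IsHamiltonian) :
    ∃ (c : V) (q : G.Walk c c), q.IsHamiltonianCycle := by
  classical
  obtain ⟨a, b, p, hp⟩ := hham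
  have h := pos_of_walk p hp
  set n := p.length with hn
  set F := p.getVert with hF
  have hRS' : ∀ b ∈ R, b ∉ S := fun b hb => (hRS b).1 hb
  obtain ⟨r, hr, h0, hn', hmul⟩ : ∃ r ∈ R, (F 0).1.1 ≠ r ∧ (F n).1.1 ≠ r ∧
      ¬ Multi F S n r := by
    by_contra hcon
    push Not at hcon
    have hM : {b | Multi F S n b}.ncard ≤ 1 := by
      rw [Set.ncard_le_one (Set.toFinite _)]
      intro x hx y hy
      exact multi_unique h hbip hRS' hbal hne hx hy
    have hsub : R ⊆ insert (F 0).1.1 (insert (F n).1.1 {b | Multi F S n b}) := by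
      intro r hr
      by_cases h0 : (F 0).1.1 = r
      · exact Or.inl h0.symm
      · by_cases h1 : (F n).1.1 = r
        · exact Or.inr (Or.inl h1.symm)
        · exact Or.inr (Or.inr (hcon r hr h0 h1))
    have h1 := Set.ncard_le_ncard hsub (Set.toFinite _)
    have h2 := Set.ncard_insert_le (F 0).1.1 (insert (F n).1.1 {b | Multi F S n b})
    have h3 := Set.ncard_insert_le (F n).1.1 {b | Multi F S n b}
    omega
  obtain ⟨i₀, j₀, hi₀, hij, hj₀, hblock⟩ := exists_block h hRS' hr hne h0 hn' hmul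
  obtain ⟨-, -, c, q, hq, -⟩ := cycle_of_block h hr (hport r hr) (hinj r hr) hi₀ hij hj₀
    hblock (block_ends h hbip hRS' hr hi₀ hij hj₀ hblock)
  exact ⟨c, q, hq⟩

/-- A Hamilton cycle of the sum gives Hamilton cycles of the summand with and without the
edge `w u`. -/
theorem edges_of_cycle [Finite β] [Finite V] [DecidableEq V] [DecidableEq (SumVert R w)]
    {S : Set β} (hbip : ∀ b b', B.Adj b b' → (b ∈ S ↔ b' ∉ S)) (hbal : S.ncard ≤ Sᶜ.ncard)
    (hRS : ∀ b ∈ R, b ∉ S)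
    (hport : ∀ r ∈ R, ∀ b, B.Adj r b → G.Adj w (port r b))
    (hinj : ∀ r ∈ R, ∀ b b', B.Adj r b → B.Adj r b' → port r b = port r b' → b = b')
    {u : V} {s : β} (hs : s ∈ S) (hthree : 3 ≤ (B.neighborSet s).ncard)
    (hsR : ∀ r, B.Adj s r → r ∈ R) (hsu : ∀ r, B.Adj s r → port r s = u)
    (hham : ∃ (c : SumVert R w) (p : (sumGraph B G w R port).Walk c c), p.IsHamiltonianCycle) :
    (∃ (c : V) (q : G.Walk c c), q.IsHamiltonianCycle ∧ s(w, u) ∈ q.edges) ∧
      ∃ (c : V) (q : G.Walk c c), q.IsHamiltonianCycle ∧ s(w, u) ∉ q.edges := by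
  classical
  obtain ⟨c, p, hp⟩ := hham
  have hsnR : s ∉ R := fun h1 => hRS _ h1 hs
  obtain ⟨x0, hx0⟩ : ∃ x0 : SumVert R w,
      x0 = ⟨(s, w), ⟨fun h => absurd h hsnR, fun h => absurd rfl h⟩⟩ :=
    ⟨_, rfl⟩
  have hx0s : x0.1.1 = s := by rw [hx0]
  -- rotate
  obtain ⟨p', hp'⟩ : ∃ p' : (sumGraph B G w R port).Walk x0 x0, p'.IsCycle ∧
      ∀ x, x ∈ p'.support := by
    have hp2 := (SimpleGraph.Walk.isHamiltonianCycle_rotate (hp.mem_support x0)).2 hp
    exact ⟨_, hp2.isCycle, hp2.mem_support⟩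
  obtain ⟨hcyc, hsup⟩ := hp'
  have hlen := hcyc.three_le_length
  obtain ⟨n, hn⟩ : ∃ n, n + 1 = p'.length := ⟨p'.length - 1, by omega⟩
  have h : Pos B G w R port n p'.getVert := by
    refine ⟨fun i hi => p'.adj_getVert_succ (by omega), ?_, ?_⟩
    · intro i j hi hj hij
      exact hcyc.getVert_injOn' (by rw [Set.mem_ofPred_eq]; omega)
        (by rw [Set.mem_ofPred_eq]; omega) hij
    · intro x
      obtain ⟨i, hi, hi'⟩ := SimpleGraph.Walk.mem_support_iff_exists_getVert.mp (hsup x)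
      rcases Nat.lt_or_ge n i with h1 | h1
      · refine ⟨0, Nat.zero_le _, ?_⟩
        have h2 : i = p'.length := by omega
        rw [h2, SimpleGraph.Walk.getVert_length] at hi
        rw [SimpleGraph.Walk.getVert_zero, hi]
      · exact ⟨i, h1, hi⟩
  have hlast : (sumGraph B G w R port).Adj (p'.getVert n) x0 := by
    have h1 := p'.adj_getVert_succ (i := n) (by omega)
    rwa [hn, SimpleGraph.Walk.getVert_length] at h1
  obtain ⟨F, hF⟩ : ∃ F, F = p'.getVert := ⟨_, rfl⟩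
  rw [← hF] at h hlast
  have hF0 : F 0 = x0 := by rw [hF, SimpleGraph.Walk.getVert_zero]
  have hF0s : (F 0).1.1 = s := by rw [hF0, hx0s]
  have hnonempty : (B.neighborSet s).Nonempty := by
    rw [Set.nonempty_iff_ne_empty]
    intro h1
    rw [h1, Set.ncard_empty] at hthree
    omega
  have hne : ∃ v, v ≠ w := by
    obtain ⟨r, hr⟩ := hnonempty
    have hr' : B.Adj s r := hr
    exact ⟨port r s, fun h1 => G.ne_of_adj (hport r (hsR r hr') _ hr'.symm) h1.symm⟩
  have hmul : ∀ b, ¬ Multi F S n b := no_multi h hbip hRS hbal hne (by rw [hF0s]; exact hs)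
  -- the neighbours on the cycle
  have hne1 : (F 0).1.1 ≠ (F 1).1.1 := by
    intro h2
    have := h.unique (i := 0) (j := 1) (by omega) (by omega) (by rw [hF0s]; exact hsnR) h2
    omega
  have adj1 : B.Adj s (F 1).1.1 := by
    have st := (h.step (i := 0) (by omega) hne1).1
    rwa [hF0s] at st
  have hnen : (F n).1.1 ≠ s := by
    intro h2
    have := h.unique (i := 0) (j := n) (by omega) (by omega) (by rw [hF0s]; exact hsnR)
      (by rw [hF0s, h2])
    omega
  have adjn : B.Adj s (F n).1.1 := by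
    rcases hlast with ⟨h1, _⟩ | ⟨h1, _⟩
    · exact absurd (h1.trans hx0s) hnen
    · rw [hx0s] at h1
      exact h1.symm
  have hgood : ∀ r, B.Adj s r → (F n).1.1 ≠ r → ∃ (c : V) (q : G.Walk c c),
      q.IsHamiltonianCycle ∧ (s(w, u) ∈ q.edges ↔ (F 1).1.1 = r) := by
    intro r hr hnr
    obtain ⟨c, q, hq, hqe⟩ := good h hbip hRS hport hinj hs hr (hsR r hr) (hsu r hr)
      (by rw [hF0s]; exact B.ne_of_adj hr) hnr (hmul r) (Nat.zero_le n) hF0s
    refine ⟨c, q, hq, hqe.trans ?_⟩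
    constructor
    · rintro (⟨h1, _⟩ | ⟨_, h1⟩)
      · exact absurd h1 (lt_irrefl 0)
      · exact h1
    · intro h1
      exact Or.inr ⟨by omega, h1⟩
  have hdiff : (F n).1.1 ≠ (F 1).1.1 := by
    intro heq
    -- everything but the first vertex is in one copy
    have hall := all_between h (S := S) (r := (F 1).1.1) (hRS _ (hsR _ adj1)) (hmul _)
      hne1 rfl heq (by omega)
    have hsub : B.neighborSet s ⊆ {(F 1).1.1} := by
      intro r hr
      have hr' : B.Adj s r := hr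
      obtain ⟨v, hv⟩ := hne
      obtain ⟨k, hk, hFk⟩ := h.surj ⟨(r, v), ⟨fun _ => hv, fun _ => hsR r hr'⟩⟩
      have hkr : (F k).1.1 = r := by rw [hFk]
      rcases Nat.eq_zero_or_pos k with h1 | h1
      · rw [h1, hF0s] at hkr
        exact absurd hkr (B.ne_of_adj hr')
      · rw [Set.mem_singleton_iff, ← hkr]
        exact hall k h1 hk
    have h1 := Set.ncard_le_ncard hsub (Set.toFinite _)
    rw [Set.ncard_singleton] at h1
    omega
  constructor
  · obtain ⟨c, q, hq, hqe⟩ := hgood _ adj1 hdiff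
    exact ⟨c, q, hq, hqe.2 rfl⟩
  · obtain ⟨r, hr, hr1, hrn⟩ : ∃ r, B.Adj s r ∧ (F 1).1.1 ≠ r ∧ (F n).1.1 ≠ r := by
      by_contra hcon
      push Not at hcon
      have hsub : B.neighborSet s ⊆ {(F 1).1.1, (F n).1.1} := by
        intro r hr
        by_cases h1 : (F 1).1.1 = r
        · exact Or.inl h1.symm
        · exact Or.inr (hcon r hr h1).symm
      have h1 := Set.ncard_le_ncard hsub (Set.toFinite _)
      have h2 : ({(F 1).1.1, (F n).1.1} : Set β).ncard ≤ 2 := by
        have := Set.ncard_insert_le (F 1).1.1 ({(F n).1.1} : Set β)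
        rw [Set.ncard_singleton] at this
        exact this
      omega
    obtain ⟨c, q, hq, hqe⟩ := hgood r hr hrn
    exact ⟨c, q, hq, fun h1 => hr1 (hqe.1 h1)⟩

end PolySum
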