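import Pool.Agent.FewFacets.SumGood
import Pool.Agent.FewFacets.CubeHost
import Pool.Agent.FewFacets.Back
import Pool.Agent.FewFacets.SumHam

/-!
Hamilton paths in all simple polytopes of a dimension give Hamilton cycles.
-/

set_option linter.unusedSectionVars false

namespace FewFacets

open Finset PolySum

/-- a Hamilton path is carried over by an isomorphism -/
theorem ham_path_iso {V W : Type*} [DecidableEq V] [DecidableEq W] {G : SimpleGraph V}
    {H : SimpleGraph W} (e : G ≃g H)
    (h : ∃ (v w : V) (p : G.Walk v w), p.IsHamiltonian) :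
    ∃ (v w : W) (p : H.Walk v w), p.IsHamiltonian := by
  obtain ⟨v, w, p, hp⟩ := h
  exact ⟨_, _, p.map e.toHom, hp.map e.toHom e.bijective⟩

/-- a Hamilton cycle is carried over by an isomorphism -/
theorem ham_cycle_iso {V W : Type*} [DecidableEq V] [DecidableEq W] {G : SimpleGraph V}
    {H : SimpleGraph W} (e : G ≃g H)
    (h : ∃ (v : V) (p : G.Walk v v), p.IsHamiltonianCycle) :
    ∃ (v : W) (p : H.Walk v v), p.IsHamiltonianCycle := by
  obtain ⟨v, p, hp⟩ := h
  exact ⟨_, p.map e.toHom, hp.map e.bijective⟩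

/-- the neighbours of a vertex, one of them at a given place -/
theorem exists_nbr {V : Type*} {G : SimpleGraph V} {d : ℕ} (hd : 0 < d) {w : V}
    (hw : (G.neighborSet w).ncard = d) : ∃ nbr : Fin d → V, Function.Injective nbr ∧
      (∀ j, G.Adj w (nbr j)) ∧ ∀ u, G.Adj w u → ∃ j, nbr j = u := by
  have hfin : (G.neighborSet w).Finite := Set.finite_of_ncard_pos (by omega)
  have : Finite (G.neighborSet w) := hfin
  have hc : Nat.card (G.neighborSet w) = d := hw
  let e : Fin d ≃ G.neighborSet w := (Finite.equivFinOfCardEq hc).symm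
  exact ⟨fun j => (e j).1, fun i j h => e.injective (Subtype.ext h), fun j => (e j).2,
    fun u hu => ⟨e.symm ⟨u, hu⟩, by simp⟩⟩

/-- the graph of a simple polytope is finite -/
theorem SimplePolytope.finite {d : ℕ} (hd : 2 ≤ d) {P : Set (EuclideanSpace ℝ (Fin d))}
    (hP : SimplePolytope d P) : Finite (P.extremePoints ℝ) := by
  obtain ⟨κ, i1, i2, f, b, -, ⟨e⟩⟩ := hP.isGood hd
  exact Finite.of_equiv _ e.toEquiv

/-- the sum of the cube with copies of `G` at its odd vertices -/
noncomputable abbrev bigSum {d : ℕ} {V : Type*} (hd : 0 < d) (G : SimpleGraph V) (w : V)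
    (nbr : Fin d → V) (j0 : Fin d) : SimpleGraph (SumVert {x : Fin d → Bool | Even (wt x)}ᶜ w) :=
  sumGraph (cube d) G w {x : Fin d → Bool | Even (wt x)}ᶜ (cport hd nbr j0)

theorem bigSum_polytope {d : ℕ} (hd : 2 ≤ d) (hd0 : 0 < d) {P : Set (EuclideanSpace ℝ (Fin d))}
    (hP : SimplePolytope d P) (w : P.extremePoints ℝ) {nbr : Fin d → P.extremePoints ℝ}
    (hinj : Function.Injective nbr) (hadj : ∀ j, (polytopeGraph P).Adj w (nbr j)) (j0 : Fin d) :
    ∃ Q, SimplePolytope d Q ∧ Nonempty (polytopeGraph Q ≃g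
      bigSum hd0 (polytopeGraph P) w nbr j0) := by
  refine IsGood.polytope (by omega) ?_
  refine IsGood.sumSet (by omega) (fun h => h.simp (by omega)) cube_isGood (hP.isGood hd) w _ _
    (Set.toFinite _) ?_ ?_
  · intro r _ z _
    exact hadj _
  · intro r _ z z' hz hz' h
    exact cport_inj hd0 hinj hz hz' h

open Classical in
/-- **Hamilton paths give Hamilton cycles.** -/
theorem cycle_of_paths {d : ℕ} (hd : 3 ≤ d)
    (hall : ∀ Q : Set (EuclideanSpace ℝ (Fin d)), SimplePolytope d Q →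
      ∃ (v w : Q.extremePoints ℝ) (p : (polytopeGraph Q).Walk v w), p.IsHamiltonian)
    {P : Set (EuclideanSpace ℝ (Fin d))} (hP : SimplePolytope d P) :
    ∃ (v : P.extremePoints ℝ) (p : (polytopeGraph P).Walk v v), p.IsHamiltonianCycle := by
  have hfin := hP.finite (by omega)
  obtain ⟨w, -, -, -⟩ := hall P hP
  obtain ⟨nbr, h1, h2, -⟩ := exists_nbr (by omega) (hP.2.2.2 w)
  obtain ⟨Q, hQ, ⟨e⟩⟩ := bigSum_polytope (by omega) (by omega) hP w h1 h2 ⟨0, by omega⟩
  have hham := ham_path_iso e (hall Q hQ)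
  refine PolySum.cycle_of_path (S := {x : Fin d → Bool | Even (wt x)}) (fun b b' h => cube_bip h)
    (cube_bal (by omega)) (fun b => Iff.rfl) (cube_four hd) ⟨nbr ⟨0, by omega⟩, ?_⟩ ?_ ?_ hham
  · intro h
    exact (polytopeGraph P).ne_of_adj (h2 ⟨0, by omega⟩) h.symm
  · intro r _ b _
    exact h2 _
  · intro r _ b b' hb hb' h
    exact cport_inj _ h1 hb hb' h

open Classical in
/-- **Hamilton cycles give Hamilton cycles through and off every edge.** -/
theorem edges_of_cycles {d : ℕ} (hd : 3 ≤ d)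
    (hall : ∀ Q : Set (EuclideanSpace ℝ (Fin d)), SimplePolytope d Q →
      ∃ (v : Q.extremePoints ℝ) (p : (polytopeGraph Q).Walk v v), p.IsHamiltonianCycle)
    {P : Set (EuclideanSpace ℝ (Fin d))} (hP : SimplePolytope d P) {w u : P.extremePoints ℝ}
    (hwu : (polytopeGraph P).Adj w u) :
    (∃ (v : P.extremePoints ℝ) (p : (polytopeGraph P).Walk v v), p.IsHamiltonianCycle ∧
      s(w, u) ∈ p.edges) ∧
    ∃ (v : P.extremePoints ℝ) (p : (polytopeGraph P).Walk v v), p.IsHamiltonianCycle ∧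
      s(w, u) ∉ p.edges := by
  have hfin := hP.finite (by omega)
  obtain ⟨nbr, h1, h2, h3⟩ := exists_nbr (by omega) (hP.2.2.2 w)
  obtain ⟨j0, hj0⟩ := h3 u hwu
  obtain ⟨Q, hQ, ⟨e⟩⟩ := bigSum_polytope (by omega) (by omega) hP w h1 h2 j0
  have hham := ham_cycle_iso e (hall Q hQ)
  refine PolySum.edges_of_cycle (S := {x : Fin d → Bool | Even (wt x)}) (fun b b' h => cube_bip h)
    (cube_bal (by omega)) (fun b hb => hb) ?_ ?_ (s := fun _ => false) ?_ ?_ ?_ ?_ hham
  · intro r _ b _
    exact h2 _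
  · intro r _ b b' hb hb' h
    exact cport_inj _ h1 hb hb' h
  · change Even (wt _)
    simp [wt]
  · rw [cube_deg]; exact hd
  · intro r hr
    exact (cube_bip hr).1 (by change Even (wt _); simp [wt])
  · intro r _
    rw [cport_zero, hj0]

/-- a Hamilton cycle gives a Hamilton path -/
theorem path_of_cycle {V : Type*} [DecidableEq V] {G : SimpleGraph V}
    (h : ∃ (v : V) (p : G.Walk v v), p.IsHamiltonianCycle) :
    ∃ (v w : V) (p : G.Walk v w), p.IsHamiltonian := by
  obtain ⟨v, p, hp⟩ := h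
  exact ⟨_, _, p.tail, hp.isHamiltonian_tail⟩

end FewFacets
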