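import Pool.Agent.FewFacets.WalkDefs
import Pool.Agent.FewFacets.MultiWalk
import Pool.Agent.FewFacets.Host
import Pool.Agent.FewFacets.PathCycle

/-!
Almost spanning walks in all simple polytopes of a dimension give closed spanning walks.
-/

set_option linter.unusedSectionVars false

namespace FewFacets

open Finset PolySum

/-- the number of vertices of a sum -/
theorem card_sumVert {β V : Type*} [Finite β] [Finite V] {R : Set β} {w : V}
    (hne : ∃ v, v ≠ w) :
    Finite (SumVert R w) ∧ R.ncard ≤ Nat.card (SumVert R w) ∧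
      Nat.card (SumVert R w) ≤ Nat.card β * Nat.card V := by
  have hfin : Finite (SumVert R w) := Subtype.finite
  obtain ⟨v0, hv0⟩ := hne
  refine ⟨hfin, ?_, ?_⟩
  · rw [← Nat.card_coe_set_eq]
    exact Nat.card_le_card_of_injective
      (fun r : R => (⟨(r.1, v0), ⟨fun _ => hv0, fun _ => r.2⟩⟩ : SumVert R w))
      (fun r r' h => Subtype.ext (congrArg (fun x : SumVert R w => x.1.1) h))
  · rw [← Nat.card_prod]
    exact Nat.card_le_card_of_injective (fun x : SumVert R w => x.1) Subtype.val_injective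

theorem count_congr {V : Type*} (i1 i2 : DecidableEq V) (v : V) (l : List V) :
    @List.count V (@instBEqOfDecidableEq V i1) v l =
      @List.count V (@instBEqOfDecidableEq V i2) v l := by
  rw [Subsingleton.elim i1 i2]

theorem visits_iso {V W : Type*} [DecidableEq W] {G : SimpleGraph V} {H : SimpleGraph W}
    (e : G ≃g H)
    (L : List (Σ a b : V, G.Walk a b)) (v : V) :
    PolySum.visits (H := H) (L.map (fun p => ⟨e p.1, e p.2.1, p.2.2.map e.toHom⟩)) (e v) =
      visits L v := by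
  classical
  unfold PolySum.visits visits
  rw [List.map_map]
  congr 1
  refine List.map_congr_left fun p _ => ?_
  change (p.2.2.map e.toHom).support.count (e v) = _
  rw [SimpleGraph.Walk.support_map]
  exact (List.count_map_of_injective _ _ e.injective _).trans (count_congr _ _ _ _)

theorem closed_of_few {d m : ℕ} (hd : 2 ≤ d) (h : FewWalks d m)
    {P : Set (EuclideanSpace ℝ (Fin d))} (hP : SimplePolytope d P) :
    SpanClosed (polytopeGraph P) m := by
  classical
  have hfin := hP.finite hd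
  have hPg := hP.isGood hd
  -- a vertex
  obtain ⟨w, u, hwu⟩ : ∃ w u, (polytopeGraph P).Adj w u := by
    obtain ⟨n, f, b, rfl, hg⟩ := hP.good hd
    obtain ⟨z, hz⟩ := hg.int
    obtain ⟨w, hw, -⟩ := exists_extreme_above hg.bounded (fun i => (hz i).le : z ∈ Poly f b)
    have h1 := hP.2.2.2 ⟨w, hw⟩
    obtain ⟨u, hu⟩ := Set.nonempty_of_ncard_ne_zero
      (s := (polytopeGraph (Poly f b)).neighborSet ⟨w, hw⟩) (by omega)
    exact ⟨_, u, hu⟩
  have hne : ∃ v, v ≠ w := ⟨u, fun h => (polytopeGraph P).ne_of_adj hwu h.symm⟩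
  set nV := Nat.card (P.extremePoints ℝ) with hnV
  have hnV0 : 0 < nV := Nat.card_pos_iff.2 ⟨⟨w⟩, hfin⟩
  set ε : ℝ := 1 / (8 * nV * (m + 1)) with hε
  have hε0 : 0 < ε := by positivity
  obtain ⟨N0, hN0⟩ := h ε hε0
  obtain ⟨β, hβ, B, S, hB, hbip, hbal, hk⟩ := host hd (max N0 1)
  obtain ⟨port, hport, hinj⟩ := hB.exists_port (by omega) (hP.2.2.2 w)
  have hR : ∀ b, b ∈ Sᶜ ↔ b ∉ S := fun b => Iff.rfl
  obtain ⟨Q, hQ, ⟨e⟩⟩ : ∃ Q, SimplePolytope d Q ∧ Nonempty (polytopeGraph Q ≃g
      sumGraph B (polytopeGraph P) w Sᶜ port) := by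
    refine IsGood.polytope (by omega) ?_
    exact IsGood.sumSet (by omega) (fun h => h.simp (by omega)) hB hPg w _ _
      (Set.toFinite _) (fun r _ z _ => hport r z) (fun r _ z z' => hinj r z z')
  obtain ⟨hfS, hc1, hc2⟩ := card_sumVert (R := Sᶜ) hne
  have hcQ : (Q.extremePoints ℝ).ncard = Nat.card (SumVert Sᶜ w) := by
    rw [← Nat.card_coe_set_eq]
    exact Nat.card_congr e.toEquiv
  have hβc := Set.ncard_add_ncard_compl S
  have hNlarge : N0 ≤ (Q.extremePoints ℝ).ncard := by
    rw [hcQ]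
    exact (le_max_left _ _).trans (hk.trans hc1)
  obtain ⟨L, hlen, hL⟩ := hN0 Q hQ hNlarge
  have h4 : 1 ≤ Sᶜ.ncard := (le_max_right _ _).trans hk
  have hkey : 2 * L.length * (m + 1) < Sᶜ.ncard := by
    have h5 : (Nat.card (SumVert Sᶜ w) : ℝ) ≤ 2 * Sᶜ.ncard * nV := by
      have h6 : Nat.card (SumVert Sᶜ w) ≤ (2 * Sᶜ.ncard) * nV :=
        hc2.trans (Nat.mul_le_mul_right _ (by omega))
      exact_mod_cast h6
    rw [hcQ] at hlen
    have h7 : (L.length : ℝ) ≤ ε * (2 * Sᶜ.ncard * nV) :=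
      hlen.trans (mul_le_mul_of_nonneg_left h5 hε0.le)
    have h8 : ε * (2 * Sᶜ.ncard * nV) = Sᶜ.ncard / (4 * (m + 1)) := by
      rw [hε]
      have : (nV : ℝ) ≠ 0 := by exact_mod_cast hnV0.ne'
      field_simp
      ring
    rw [h8, le_div_iff₀ (by positivity)] at h7
    have h9 : L.length * (4 * (m + 1)) ≤ Sᶜ.ncard := by exact_mod_cast h7
    nlinarith
  obtain ⟨c, q, hq⟩ := closed_of_walks hbip hbal hR hne (fun r _ b _ => hport r b)
    (L.map (fun p => ⟨e p.1, e p.2.1, p.2.2.map e.toHom⟩)) (fun x => by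
      obtain ⟨y, rfl⟩ := e.surjective x
      rw [visits_iso e L y]
      exact hL y) (by rwa [List.length_map])
  exact ⟨c, q, fun v => ⟨(hq v).1.trans_eq (count_congr _ _ v _),
    (count_congr _ _ v _).trans_le (hq v).2⟩⟩

/-- a closed spanning walk gives a spanning walk -/
theorem spanWalk_of_closed {V : Type*} {G : SimpleGraph V} {m : ℕ} (h : SpanClosed G m) :
    SpanWalk G m := by
  classical
  obtain ⟨a, p, hp⟩ := h
  have hnil : ¬ p.Nil := by
    intro hn
    have h1 := (hp a).1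
    rw [SimpleGraph.Walk.nil_iff_support_eq.1 hn] at h1
    simp at h1
  refine ⟨_, _, p.tail, fun v => ?_⟩
  rw [SimpleGraph.Walk.support_tail_of_not_nil p hnil]
  exact hp v

theorem SpanWalk.list {V : Type*} {G : SimpleGraph V} {m : ℕ} (h : SpanWalk G m) :
    ∃ L : List (Σ a b : V, G.Walk a b), L.length = 1 ∧
      ∀ v, 1 ≤ visits L v ∧ visits L v ≤ m := by
  obtain ⟨a, b, p, hp⟩ := h
  refine ⟨[⟨a, b, p⟩], rfl, fun v => ?_⟩
  unfold visits
  simp only [List.map_cons, List.map_nil, List.sum_cons, List.sum_nil, add_zero]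
  exact hp v

theorem SpanWalk.ham {V : Type*} [DecidableEq V] {G : SimpleGraph V} (h : SpanWalk G 1) :
    ∃ (a b : V) (p : G.Walk a b), p.IsHamiltonian := by
  obtain ⟨a, b, p, hp⟩ := h
  refine ⟨a, b, p, fun v => ?_⟩
  obtain ⟨h1, h2⟩ := hp v
  exact (count_congr _ _ v _).trans (le_antisymm h2 h1)

theorem spanWalk_of_ham {V : Type*} [DecidableEq V] {G : SimpleGraph V}
    (h : ∃ (a b : V) (p : G.Walk a b), p.IsHamiltonian) : SpanWalk G 1 := by
  obtain ⟨a, b, p, hp⟩ := h
  refine ⟨a, b, p, fun v => ?_⟩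
  exact ⟨((count_congr _ _ v _).trans (hp v)).ge, ((count_congr _ _ v _).trans (hp v)).le⟩

theorem few_of_span {d m : ℕ} (h : ∀ P : Set (EuclideanSpace ℝ (Fin d)), SimplePolytope d P →
    SpanWalk (polytopeGraph P) m) : FewWalks d m := by
  intro ε hε
  obtain ⟨N0, hN0⟩ := exists_nat_ge (1 / ε)
  refine ⟨N0, fun P hP hN => ?_⟩
  obtain ⟨L, hL, hv⟩ := (h P hP).list
  refine ⟨L, ?_, hv⟩
  rw [hL, Nat.cast_one]
  have h1 : 1 / ε ≤ (P.extremePoints ℝ).ncard := hN0.trans (by exact_mod_cast hN)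
  rw [div_le_iff₀ hε] at h1
  linarith

/-- **Spanning walks**: the equivalences. -/
theorem walks_tfae {d : ℕ} (hd : 2 ≤ d) (m : ℕ) : List.TFAE [
    FewWalks d m,
    ∀ P : Set (EuclideanSpace ℝ (Fin d)), SimplePolytope d P → SpanWalk (polytopeGraph P) m,
    ∀ P : Set (EuclideanSpace ℝ (Fin d)), SimplePolytope d P →
      SpanClosed (polytopeGraph P) m] := by
  tfae_have 1 → 3 := fun h P hP => closed_of_few hd h hP
  tfae_have 3 → 2 := fun h P hP => spanWalk_of_closed (h P hP)
  tfae_have 2 → 1 := fun h => few_of_span h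
  tfae_finish

theorem few_of_fewPaths {d : ℕ} (h : FewPaths d) : FewWalks d 1 := by
  intro ε hε
  obtain ⟨N0, hN0⟩ := h ε hε
  refine ⟨N0, fun P hP hN => ?_⟩
  obtain ⟨L, hL, hlen⟩ := hN0 P hP hN
  exact ⟨L, hlen, fun v => ⟨(hL v).ge, (hL v).le⟩⟩

theorem SpanWalk.cover {V : Type*} {G : SimpleGraph V} (h : SpanWalk G 1) :
    ∃ L : List (Σ a b : V, G.Walk a b), L.length = 1 ∧ PathCover L := by
  obtain ⟨L, h1, h2⟩ := h.list
  exact ⟨L, h1, fun v => le_antisymm (h2 v).2 (h2 v).1⟩

theorem fewPaths_of_span {d : ℕ}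
    (h : ∀ P : Set (EuclideanSpace ℝ (Fin d)), SimplePolytope d P →
      SpanWalk (polytopeGraph P) 1) : FewPaths d := by
  intro ε hε
  obtain ⟨N0, hN0⟩ := exists_nat_ge (1 / ε)
  refine ⟨N0, fun P hP hN => ?_⟩
  obtain ⟨L, hL, hv⟩ := (h P hP).cover
  refine ⟨L, hv, ?_⟩
  rw [hL, Nat.cast_one]
  have h1 : 1 / ε ≤ (P.extremePoints ℝ).ncard := hN0.trans (by exact_mod_cast hN)
  rw [div_le_iff₀ hε] at h1
  linarith

/-- a path and single vertices -/
theorem exists_cover {V : Type*} [Finite V] {G : SimpleGraph V} {a b : V} (p : G.Walk a b)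
    (hp : p.IsPath) : ∃ L : List (Σ a b : V, G.Walk a b), PathCover L ∧
      L.length + p.support.length = 1 + Nat.card V := by
  classical
  have := Fintype.ofFinite V
  set M : Finset V := univ.filter (fun v => v ∉ p.support) with hM
  refine ⟨⟨a, b, p⟩ :: M.toList.map (fun v => ⟨v, v, SimpleGraph.Walk.nil⟩), fun v => ?_, ?_⟩
  · rw [List.map_cons, List.sum_cons, List.map_map]
    have h1 : (M.toList.map ((fun q : Σ a b : V, G.Walk a b => q.2.2.support.count v) ∘
        (fun v => ⟨v, v, SimpleGraph.Walk.nil⟩))).sum = if v ∈ M then 1 else 0 := by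
      have h2 : ((fun q : Σ a b : V, G.Walk a b => q.2.2.support.count v) ∘
          (fun v => ⟨v, v, SimpleGraph.Walk.nil⟩)) = fun u => if v = u then 1 else 0 := by
        funext u
        simp only [Function.comp, SimpleGraph.Walk.support_nil, List.count_cons, List.count_nil,
          beq_iff_eq, zero_add]
        by_cases h : u = v
        · rw [if_pos h, if_pos h.symm]
        · rw [if_neg h, if_neg (Ne.symm h)]
      rw [h2, Finset.sum_map_toList, Finset.sum_ite_eq]
    rw [h1]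
    change p.support.count v + _ = 1
    by_cases hv : v ∈ p.support
    · rw [List.count_eq_one_of_mem hp.support_nodup hv, if_neg (by simp [hM, hv])]
    · rw [List.count_eq_zero_of_not_mem hv, if_pos (by simp [hM, hv])]
  · rw [List.length_cons, List.length_map, Finset.length_toList]
    have h1 : p.support.toFinset.card = p.support.length :=
      List.toFinset_card_of_nodup hp.support_nodup
    have h2 : M = p.support.toFinsetᶜ := by
      ext v
      simp [hM]
    have h3 := Finset.card_compl_add_card p.support.toFinset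
    rw [h2, Nat.card_eq_fintype_card]
    omega

theorem fewPaths_of_long {d : ℕ} (hd : 2 ≤ d) (h : LongPaths d) : FewPaths d := by
  intro ε hε
  obtain ⟨N0, hN0⟩ := h (ε / 2) (half_pos hε)
  obtain ⟨N1, hN1⟩ := exists_nat_ge (2 / ε)
  refine ⟨max N0 N1, fun P hP hN => ?_⟩
  obtain ⟨a, b, p, hp, hlen⟩ := hN0 P hP ((le_max_left _ _).trans hN)
  have hfin := hP.finite hd
  obtain ⟨L, hL, hc⟩ := exists_cover p hp
  refine ⟨L, hL, ?_⟩
  rw [Nat.card_coe_set_eq] at hc
  have h1 : (L.length : ℝ) + p.support.length = 1 + (P.extremePoints ℝ).ncard := by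
    exact_mod_cast hc
  have h2 : 2 / ε ≤ (P.extremePoints ℝ).ncard :=
    hN1.trans (by exact_mod_cast (le_max_right _ _).trans hN)
  rw [div_le_iff₀ hε] at h2
  linarith

theorem longPaths_of_ham {d : ℕ}
    (h : ∀ P : Set (EuclideanSpace ℝ (Fin d)), SimplePolytope d P →
      SpanWalk (polytopeGraph P) 1) (hd : 2 ≤ d) : LongPaths d := by
  intro ε hε
  refine ⟨0, fun P hP _ => ?_⟩
  have hfin := hP.finite hd
  classical
  obtain ⟨a, b, p, hp⟩ := (h P hP).ham
  refine ⟨a, b, p, hp.isPath, ?_⟩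
  have h1 : p.support.toFinset.card = p.support.length :=
    List.toFinset_card_of_nodup hp.isPath.support_nodup
  have := Fintype.ofFinite (P.extremePoints ℝ)
  have h2 : p.support.toFinset = univ := by
    ext v
    simp [hp.mem_support v]
  rw [h2, card_univ, ← Nat.card_eq_fintype_card, Nat.card_coe_set_eq] at h1
  rw [← h1]
  have h3 : (0 : ℝ) ≤ (P.extremePoints ℝ).ncard := Nat.cast_nonneg _
  nlinarith

open Classical in
/-- **Hamilton paths and cycles**: the equivalences. -/
theorem ham_tfae {d : ℕ} (hd : 3 ≤ d) : List.TFAE [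
    FewPaths d,
    LongPaths d,
    ∀ P : Set (EuclideanSpace ℝ (Fin d)), SimplePolytope d P →
      ∃ (a b : P.extremePoints ℝ) (p : (polytopeGraph P).Walk a b), p.IsHamiltonian,
    ∀ P : Set (EuclideanSpace ℝ (Fin d)), SimplePolytope d P →
      ∃ (a : P.extremePoints ℝ) (p : (polytopeGraph P).Walk a a), p.IsHamiltonianCycle,
    ∀ P : Set (EuclideanSpace ℝ (Fin d)), SimplePolytope d P →
      ∀ u v : P.extremePoints ℝ, (polytopeGraph P).Adj u v →
        (∃ (a : P.extremePoints ℝ) (p : (polytopeGraph P).Walk a a),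
          p.IsHamiltonianCycle ∧ s(u, v) ∈ p.edges) ∧
        ∃ (a : P.extremePoints ℝ) (p : (polytopeGraph P).Walk a a),
          p.IsHamiltonianCycle ∧ s(u, v) ∉ p.edges] := by
  tfae_have 1 → 3 := fun h P hP =>
    (spanWalk_of_closed (closed_of_few (by omega) (few_of_fewPaths h) hP)).ham
  tfae_have 2 → 1 := fun h => fewPaths_of_long (by omega) h
  tfae_have 3 → 2 := fun h => longPaths_of_ham (fun P hP => spanWalk_of_ham (h P hP)) (by omega)
  tfae_have 3 → 4 := fun h P hP => cycle_of_paths hd h hP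
  tfae_have 4 → 5 := fun h P hP u v huv => edges_of_cycles hd h hP huv
  tfae_have 5 → 3 := by
    intro h P hP
    obtain ⟨w, u, hwu⟩ : ∃ w u, (polytopeGraph P).Adj w u := by
      obtain ⟨n, f, b, rfl, hg⟩ := hP.good (by omega)
      obtain ⟨z, hz⟩ := hg.int
      obtain ⟨w, hw, -⟩ := exists_extreme_above hg.bounded (fun i => (hz i).le : z ∈ Poly f b)
      have h1 := hP.2.2.2 ⟨w, hw⟩
      obtain ⟨u, hu⟩ := Set.nonempty_of_ncard_ne_zero
        (s := (polytopeGraph (Poly f b)).neighborSet ⟨w, hw⟩) (by omega)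
      exact ⟨_, u, hu⟩
    obtain ⟨⟨c, p, hp, -⟩, -⟩ := h P hP w u hwu
    exact path_of_cycle ⟨c, p, hp⟩
  tfae_finish

end FewFacets
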