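import Pool.Agent.FewFacets.Wedge

/-!
Alternating triples of a two-coloured chain, and the case of an alternating chain of odd
length.
-/

namespace FewFacets

open Finset

/-- The alternating triples `i < j < k` of the chain `S` with colouring `c`. -/
def Alt3 {α : Type*} [LinearOrder α] (c : α → Bool) (S : Finset α) : Set (Finset α) :=
  {T | ∃ i j k, i < j ∧ j < k ∧ i ∈ S ∧ j ∈ S ∧ k ∈ S ∧ c i ≠ c j ∧ c j ≠ c k ∧
    T = {i, j, k}}

section general

variable {α : Type*} [LinearOrder α]

lemma card_three {i j k : α} (h1 : i < j) (h2 : j < k) : ({i, j, k} : Finset α).card = 3 := by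
  rw [card_insert_of_notMem, card_pair h2.ne]
  simp only [mem_insert, mem_singleton, not_or]
  exact ⟨h1.ne, (h1.trans h2).ne⟩

lemma Alt3.card {c : α → Bool} {S : Finset α} {T : Finset α} (h : T ∈ Alt3 c S) :
    T.card = 3 := by
  obtain ⟨i, j, k, h1, h2, _, _, _, _, _, rfl⟩ := h
  exact card_three h1 h2

lemma Alt3.subset {c : α → Bool} {S : Finset α} {T : Finset α} (h : T ∈ Alt3 c S) :
    T ⊆ S := by
  obtain ⟨i, j, k, _, _, hi, hj, hk, _, _, rfl⟩ := h
  intro x hx
  simp only [mem_insert, mem_singleton] at hx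
  rcases hx with rfl | rfl | rfl <;> assumption

lemma nb_of_eq {A B : Finset α} {x y : α} (hxy : x ≠ y) (h : A ∩ B = {x, y}) : Nb A B := by
  unfold Nb
  rw [h, card_pair hxy]

lemma HP.append {F G H : Set (Finset α)} {u v w z : Finset α} (h1 : HP F u v)
    (h2 : HP G w z) (hd : ∀ T ∈ F, T ∉ G) (hvw : Nb v w)
    (hH : ∀ T, T ∈ H ↔ T ∈ F ∨ T ∈ G) : HP H u z := by
  obtain ⟨l, a1, a2, a3, a4, a5⟩ := h1
  obtain ⟨m, b1, b2, b3, b4, b5⟩ := h2
  have hl : l ≠ [] := by rintro rfl; simp at a4
  have hm : m ≠ [] := by rintro rfl; simp at b4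
  refine ⟨l ++ m, List.nodup_append.2 ⟨a1, b1, ?_⟩, ?_, List.isChain_append.2 ⟨a3, b3, ?_⟩,
    ?_, ?_⟩
  · intro x hx y hy hxy
    exact hd x ((a2 x).1 hx) (hxy ▸ (b2 y).1 hy)
  · intro T
    rw [List.mem_append, a2, b2, hH]
  · intro x hx y hy
    rw [a5] at hx; rw [b4] at hy
    simp only [Option.mem_def, Option.some.injEq] at hx hy
    subst hx; subst hy; exact hvw
  · rw [List.head?_append_of_ne_nil _ hl, a4]
  · rw [List.getLast?_append_of_ne_nil _ hm, b5]

end general

/-- the parity colouring of the natural numbers -/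
def par (n : ℕ) : Bool := decide (n % 2 = 0)

lemma par_ne {i j : ℕ} : par i ≠ par j ↔ i % 2 ≠ j % 2 := by
  unfold par
  rcases Nat.mod_two_eq_zero_or_one i with h | h <;>
  rcases Nat.mod_two_eq_zero_or_one j with h' | h' <;> simp [h, h']

/-- the triple `2a < 2b+1 < N` -/
def cell (N a b : ℕ) : Finset ℕ := {2 * a, 2 * b + 1, N}

lemma mem_cell {N a b x : ℕ} : x ∈ cell N a b ↔ x = 2 * a ∨ x = 2 * b + 1 ∨ x = N := by
  simp [cell]

lemma cell_inj {N a b a' b' : ℕ} (h1 : 2 * a < N) (h2 : 2 * b + 1 < N)
    (h : cell N a b = cell N a' b') : a = a' ∧ b = b' := by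
  have e1 : 2 * a ∈ cell N a' b' := h ▸ mem_cell.2 (Or.inl rfl)
  have e2 : 2 * b + 1 ∈ cell N a' b' := h ▸ mem_cell.2 (Or.inr (Or.inl rfl))
  rw [mem_cell] at e1 e2
  omega

lemma nb_col {N a a' b : ℕ} (h0 : a ≠ a') (_ : 2 * a < N) (_ : 2 * a' < N)
    (_ : 2 * b + 1 < N) : Nb (cell N a b) (cell N a' b) := by
  refine nb_of_eq (x := 2 * b + 1) (y := N) (by omega) ?_
  ext x
  simp only [mem_inter, mem_cell, mem_insert, mem_singleton]
  omega

lemma nb_row {N a b b' : ℕ} (h0 : b ≠ b') (_ : 2 * a < N) (_ : 2 * b + 1 < N)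
    (_ : 2 * b' + 1 < N) : Nb (cell N a b) (cell N a b') := by
  refine nb_of_eq (x := 2 * a) (y := N) (by omega) ?_
  ext x
  simp only [mem_inter, mem_cell, mem_insert, mem_singleton]
  omega

/-- the triples of the staircase -/
def LS (N k : ℕ) : Set (Finset ℕ) := {T | ∃ a b, a ≤ b ∧ b ≤ k ∧ T = cell N a b}

lemma col_path {N k : ℕ} (hN : 2 * (k + 1) + 1 < N) :
    HP {T | ∃ a, a ≤ k + 1 ∧ T = cell N a (k + 1)} (cell N k (k + 1))
      (cell N (k + 1) (k + 1)) := by
  have hmem : ∀ a, a ∈ (k :: (List.range k ++ [k + 1])) ↔ a ≤ k + 1 := by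
    intro a
    simp only [List.mem_cons, List.mem_append, List.mem_range, List.not_mem_nil, or_false]
    omega
  have hnd : (k :: (List.range k ++ [k + 1])).Nodup := by
    rw [List.nodup_cons, List.nodup_append]
    refine ⟨?_, List.nodup_range, by simp, ?_⟩
    · simp only [List.mem_append, List.mem_range, List.mem_cons, List.not_mem_nil, or_false]
      omega
    · intro a ha b hb
      simp only [List.mem_range, List.mem_cons, List.not_mem_nil, or_false] at ha hb
      omega
  refine ⟨(k :: (List.range k ++ [k + 1])).map (fun a => cell N a (k + 1)), ?_, ?_, ?_,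
    by simp, ?_⟩
  · refine (List.nodup_map_iff_inj_on hnd).2 ?_
    intro x hx y hy hxy
    rw [hmem] at hx hy
    exact (cell_inj (by omega) (by omega) hxy).1
  · intro T
    rw [List.mem_map]
    constructor
    · rintro ⟨a, h1, h2⟩; exact ⟨a, (hmem a).1 h1, h2.symm⟩
    · rintro ⟨a, h1, h2⟩; exact ⟨a, (hmem a).2 h1, h2.symm⟩
  · rw [List.isChain_map]
    refine List.Pairwise.isChain ?_
    refine List.Pairwise.imp_of_mem ?_ hnd
    intro a b ha hb hab
    rw [hmem] at ha hb
    exact nb_col hab (by omega) (by omega) (by omega)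
  · have e : (k :: (List.range k ++ [k + 1])) = (k :: List.range k) ++ [k + 1] := rfl
    rw [e, List.map_append, List.getLast?_append_of_ne_nil _ (by simp)]
    simp

lemma stair_path {N : ℕ} : ∀ k : ℕ, 2 * k + 1 < N → HP (LS N k) (cell N 0 0) (cell N k k)
  | 0, hN => by
    refine ⟨[cell N 0 0], by simp, ?_, by simp, by simp, by simp⟩
    intro T
    rw [List.mem_singleton]
    constructor
    · intro h; exact ⟨0, 0, le_refl _, le_refl _, h⟩
    · rintro ⟨a, b, h1, h2, h3⟩
      have hb : b = 0 := by omega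
      have ha : a = 0 := by omega
      rw [h3, ha, hb]
  | k + 1, hN => by
    refine HP.append (stair_path k (by omega)) (col_path hN) ?_
      (nb_row (by omega) (by omega) (by omega) (by omega)) ?_
    · rintro T ⟨a, b, h1, h2, h3⟩ ⟨a', h4, h5⟩
      rw [h3] at h5
      have := cell_inj (by omega) (by omega) h5
      omega
    · intro T
      constructor
      · rintro ⟨a, b, h1, h2, h3⟩
        by_cases hb : b ≤ k
        · exact Or.inl ⟨a, b, h1, hb, h3⟩
        · have : b = k + 1 := by omega
          subst this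
          exact Or.inr ⟨a, h1, h3⟩
      · rintro (⟨a, b, h1, h2, h3⟩ | ⟨a, h1, h3⟩)
        · exact ⟨a, b, h1, by omega, h3⟩
        · exact ⟨a, k + 1, h1, le_refl _, h3⟩

lemma odd_case : ∀ m : ℕ, ∃ l, Cyc (Alt3 par (range (2 * (m + 1) + 1))) l
  | 0 => by
    refine ⟨[{0, 1, 2}], by simp, ?_, by simp, by simp⟩
    intro T
    rw [List.mem_singleton]
    constructor
    · rintro rfl
      exact ⟨0, 1, 2, by omega, by omega, by simp, by simp, by simp,
        par_ne.2 (by omega), par_ne.2 (by omega), rfl⟩
    · rintro ⟨i, j, k, h1, h2, hi, hj, hk, _, _, rfl⟩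
      rw [mem_range] at hi hj hk
      have e1 : i = 0 := by omega
      have e2 : j = 1 := by omega
      have e3 : k = 2 := by omega
      rw [e1, e2, e3]
  | m + 1 => by
    obtain ⟨l, hl⟩ := odd_case m
    set M := 2 * (m + 1) with hM
    have hF' : ∀ T, T ∈ Alt3 par (range (M + 2)) ↔ T ∈ Alt3 par (range (M + 1)) ∨
        ∃ v ∈ Alt3 par (range (M + 1)), 0 ∈ v ∧ T = sw 0 (M + 1) v := by
      intro T
      constructor
      · rintro ⟨i, j, k, h1, h2, hi, hj, hk, c1, c2, rfl⟩
        rw [mem_range] at hi hj hk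
        by_cases hk' : k < M + 1
        · refine Or.inl ⟨i, j, k, h1, h2, ?_, ?_, ?_, c1, c2, rfl⟩ <;> rw [mem_range] <;>
            omega
        · have hk2 : k = M + 1 := by omega
          subst hk2
          rw [par_ne] at c1 c2
          refine Or.inr ⟨{0, i, j}, ⟨0, i, j, by omega, h1, ?_, ?_, ?_, par_ne.2 ?_,
            par_ne.2 ?_, rfl⟩, by simp, ?_⟩
          · rw [mem_range]; omega
          · rw [mem_range]; omega
          · rw [mem_range]; omega
          · omega
          · omega
          · ext x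
            simp only [sw, mem_insert, mem_singleton, mem_erase]
            omega
      · rintro (⟨i, j, k, h1, h2, hi, hj, hk, c1, c2, rfl⟩ |
          ⟨v, ⟨i, j, k, h1, h2, hi, hj, hk, c1, c2, rfl⟩, h0, rfl⟩)
        · rw [mem_range] at hi hj hk
          refine ⟨i, j, k, h1, h2, ?_, ?_, ?_, c1, c2, rfl⟩ <;> rw [mem_range] <;> omega
        · rw [mem_range] at hi hj hk
          simp only [mem_insert, mem_singleton] at h0
          have hi0 : i = 0 := by omega
          subst hi0
          rw [par_ne] at c1 c2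
          refine ⟨j, k, M + 1, h2, by omega, ?_, ?_, ?_, par_ne.2 c2, par_ne.2 ?_, ?_⟩
          · rw [mem_range]; omega
          · rw [mem_range]; omega
          · rw [mem_range]; omega
          · omega
          · ext x
            simp only [sw, mem_insert, mem_singleton, mem_erase]
            omega
    have hv : ({0, 1, M} : Finset ℕ) ∈ Alt3 par (range (M + 1)) := by
      refine ⟨0, 1, M, by omega, by omega, ?_, ?_, ?_, par_ne.2 ?_, par_ne.2 ?_, rfl⟩
      · rw [mem_range]; omega
      · rw [mem_range]; omega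
      · rw [mem_range]; omega
      · omega
      · omega
    have hW := wedge (F' := Alt3 par (range (M + 2))) (p := 0) (q := M + 1)
      (fun T hT => Alt3.card hT) (fun T hT hq => by
        have := mem_range.1 (Alt3.subset hT hq)
        omega) hF' hl hv (by simp)
    have hS := (stair_path (N := M + 2) (m + 1) (by omega)).symm
    have hn1 : Nb (sw 0 (M + 1) ({0, 1, M} : Finset ℕ)) (cell (M + 2) (m + 1) (m + 1)) := by
      refine nb_of_eq (x := M) (y := M + 1) (by omega) ?_
      ext x
      simp only [sw, cell, mem_inter, mem_insert, mem_singleton, mem_erase]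
      omega
    have hn2 : Nb (cell (M + 2) 0 0) ({0, 1, M} : Finset ℕ) := by
      refine nb_of_eq (x := 0) (y := 1) (by omega) ?_
      ext x
      simp only [cell, mem_inter, mem_insert, mem_singleton]
      omega
    have hfin : HP (Alt3 par (range (M + 3))) ({0, 1, M} : Finset ℕ) (cell (M + 2) 0 0) := by
      refine HP.append hW hS ?_ hn1 ?_
      · rintro T hT ⟨a, b, h1, h2, rfl⟩
        have := mem_range.1 (Alt3.subset hT (mem_cell.2 (Or.inr (Or.inr rfl))))
        omega
      · intro T
        constructor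
        · rintro ⟨i, j, k, h1, h2, hi, hj, hk, c1, c2, rfl⟩
          rw [mem_range] at hi hj hk
          by_cases hk' : k < M + 2
          · refine Or.inl ⟨i, j, k, h1, h2, ?_, ?_, ?_, c1, c2, rfl⟩ <;> rw [mem_range] <;>
              omega
          · have hk2 : k = M + 2 := by omega
            subst hk2
            rw [par_ne] at c1 c2
            refine Or.inr ⟨i / 2, j / 2, by omega, by omega, ?_⟩
            ext x
            simp only [cell, mem_insert, mem_singleton]
            omega
        · rintro (⟨i, j, k, h1, h2, hi, hj, hk, c1, c2, rfl⟩ | ⟨a, b, h1, h2, rfl⟩)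
          · rw [mem_range] at hi hj hk
            refine ⟨i, j, k, h1, h2, ?_, ?_, ?_, c1, c2, rfl⟩ <;> rw [mem_range] <;> omega
          · refine ⟨2 * a, 2 * b + 1, M + 2, by omega, by omega, ?_, ?_, ?_, par_ne.2 ?_,
              par_ne.2 ?_, rfl⟩
            · rw [mem_range]; omega
            · rw [mem_range]; omega
            · rw [mem_range]; omega
            · omega
            · omega
    exact hfin.cyc hn2

end FewFacets
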