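import Pool.Agent.FewFacets.IsGood

/-!
The combinatorics of the sum of two simple polytopes at a vertex.
-/

set_option linter.unusedSectionVars false

namespace FewFacets

open Finset

namespace OneStep

section Star

variable {κ β : Type*} [DecidableEq κ] {d : ℕ} {𝒱 : Finset (Finset κ)}
  {B : SimpleGraph β}

/-- `z` is the neighbour of `y` which is reached by leaving the facet `a` of `y` -/
def Leave (eB : vgraph 𝒱 d ≃g B) (y : β) (a : κ) (z : β) : Prop :=
  a ∈ (eB.symm y).1 ∧ z ≠ y ∧ (eB.symm y).1.erase a ⊆ (eB.symm z).1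

variable (h : Simp 𝒱 d) (hd : 1 ≤ d) (eB : vgraph 𝒱 d ≃g B) (y : β)

include h hd

theorem card_symm (z : β) : (eB.symm z).1.card = d := h.card _ (eB.symm z).2

theorem symm_inj {z z' : β} (hz : (eB.symm z).1 = (eB.symm z').1) : z = z' :=
  eB.symm.injective (Subtype.ext hz)

theorem Leave.inter {a : κ} {z : β} (hl : Leave eB y a z) :
    (eB.symm y).1 ∩ (eB.symm z).1 = (eB.symm y).1.erase a := by
  obtain ⟨ha, hne, hs⟩ := hl
  have hn : a ∉ (eB.symm z).1 := by
    intro hz
    have hsub : (eB.symm y).1 ⊆ (eB.symm z).1 := by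
      intro c hc
      by_cases hca : c = a
      · rw [hca]; exact hz
      · exact hs (mem_erase.2 ⟨hca, hc⟩)
    have := eq_of_subset_of_card_le hsub
      (by rw [card_symm h hd eB, card_symm h hd eB])
    exact hne (symm_inj h hd eB this.symm)
  ext c
  simp only [mem_inter, mem_erase]
  constructor
  · rintro ⟨h1, h2⟩
    exact ⟨fun hca => hn (hca ▸ h2), h1⟩
  · rintro ⟨h1, h2⟩
    exact ⟨h2, hs (mem_erase.2 ⟨h1, h2⟩)⟩

theorem Leave.adj {a : κ} {z : β} (hl : Leave eB y a z) : B.Adj y z := by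
  have h1 : (vgraph 𝒱 d).Adj (eB.symm y) (eB.symm z) := by
    refine ⟨fun hh => hl.2.1 (eB.symm.injective hh).symm, ?_⟩
    rw [hl.inter h hd eB y, card_erase_of_mem hl.1, card_symm h hd eB]
    omega
  exact eB.symm.map_adj_iff.1 h1

theorem exists_of_adj {z : β} (hz : B.Adj y z) : ∃ a, Leave eB y a z := by
  have h1 : (vgraph 𝒱 d).Adj (eB.symm y) (eB.symm z) := eB.symm.map_adj_iff.2 hz
  have h2 := h1.2
  have h3 : ((eB.symm y).1 \ (eB.symm z).1).card = 1 := by
    have h4 := card_sdiff_add_card_inter (eB.symm y).1 (eB.symm z).1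
    have h5 := card_symm h hd eB y
    omega
  obtain ⟨a, ha⟩ := card_eq_one.1 h3
  have haA : a ∈ (eB.symm y).1 \ (eB.symm z).1 := by rw [ha]; exact mem_singleton_self a
  refine ⟨a, (mem_sdiff.1 haA).1, hz.ne', ?_⟩
  intro c hc
  by_contra hcz
  have : c ∈ (eB.symm y).1 \ (eB.symm z).1 := mem_sdiff.2 ⟨(mem_erase.1 hc).2, hcz⟩
  rw [ha, mem_singleton] at this
  exact (mem_erase.1 hc).1 this

theorem exists_of_mem {a : κ} (ha : a ∈ (eB.symm y).1) : ∃ z, Leave eB y a z := by
  obtain ⟨V, hV, haV, hs⟩ := h.nb _ (eB.symm y).2 a ha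
  refine ⟨eB ⟨V, hV⟩, ha, ?_, ?_⟩
  · intro hh
    have : (⟨V, hV⟩ : {V // V ∈ 𝒱}) = eB.symm y := by rw [← hh]; simp
    rw [← this] at ha
    exact haV ha
  · simpa using hs

theorem Leave.unique {a : κ} {z z' : β} (hl : Leave eB y a z) (hl' : Leave eB y a z') :
    z = z' := by
  refine symm_inj h hd eB (h.line ((eB.symm y).1.erase a) (eB.symm y).1 _ _ ?_ (eB.symm y).2
    (eB.symm z).2 (eB.symm z').2 (erase_subset _ _) hl.2.2 hl'.2.2 ?_ ?_)
  · rw [card_erase_of_mem hl.1, card_symm h hd eB]; omega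
  · exact fun hh => hl.2.1 (symm_inj h hd eB hh).symm
  · exact fun hh => hl'.2.1 (symm_inj h hd eB hh).symm

theorem Leave.unique' {a a' : κ} {z : β} (hl : Leave eB y a z) (hl' : Leave eB y a' z) :
    a = a' := by
  have h1 := hl.inter h hd eB y
  have h2 := hl'.inter h hd eB y
  by_contra hne
  have h3 : a' ∈ (eB.symm y).1.erase a := mem_erase.2 ⟨fun hh => hne hh.symm, hl'.1⟩
  rw [← h1, h2] at h3
  exact (mem_erase.1 h3).1 rfl

end Star

section Match

variable {κ κ' β γ : Type*} [DecidableEq κ] [DecidableEq κ'] {d : ℕ}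
  {𝒱 : Finset (Finset κ)} {𝒱' : Finset (Finset κ')} {B : SimpleGraph β} {G : SimpleGraph γ}

/-- the bijection `τ` -/
theorem exists_match (hd : 1 ≤ d) (h : Simp 𝒱 d) (h' : Simp 𝒱' d)
    (eB : vgraph 𝒱 d ≃g B) (eG : vgraph 𝒱' d ≃g G)
    (y : β) (w : γ) (port : β → β → γ) (hport : ∀ z, B.Adj y z → G.Adj w (port y z))
    (hinj : ∀ z z', B.Adj y z → B.Adj y z' → port y z = port y z' → z = z') :
    ∃ τ : κ' → κ, Set.InjOn τ ((eG.symm w).1 : Set κ') ∧
      (eG.symm w).1.image τ = (eB.symm y).1 ∧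
      ∀ e ∈ (eG.symm w).1, ∃ z, Leave eB y (τ e) z ∧ Leave eG w e (port y z) := by
  classical
  have hz : ∀ a : {a // a ∈ (eB.symm y).1}, ∃ z, Leave eB y a.1 z := fun a =>
    exists_of_mem h hd eB y a.2
  choose φ hφ using hz
  have he : ∀ a : {a // a ∈ (eB.symm y).1}, ∃ e, Leave eG w e (port y (φ a)) := fun a =>
    exists_of_adj h' hd eG w (hport _ ((hφ a).adj h hd eB y))
  choose σ hσ using he
  let σ' : {a // a ∈ (eB.symm y).1} → {e // e ∈ (eG.symm w).1} := fun a => ⟨σ a, (hσ a).1⟩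
  have hσinj : Function.Injective σ' := by
    intro a a' haa
    have h1 : σ a = σ a' := congrArg Subtype.val haa
    have h2 := hσ a'
    rw [← h1] at h2
    have h3 := (hσ a).unique h' hd eG w h2
    have h4 := hinj _ _ ((hφ a).adj h hd eB y) ((hφ a').adj h hd eB y) h3
    have h5 := hφ a'
    rw [← h4] at h5
    exact Subtype.ext ((hφ a).unique' h hd eB y h5)
  have hcard : Fintype.card {a // a ∈ (eB.symm y).1} = Fintype.card {e // e ∈ (eG.symm w).1} := by
    rw [Fintype.card_coe, Fintype.card_coe, card_symm h hd eB, card_symm h' hd eG]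
  have hbij : Function.Bijective σ' :=
    (Fintype.bijective_iff_injective_and_card σ').2 ⟨hσinj, hcard⟩
  let E := Equiv.ofBijective σ' hbij
  have hne : (eB.symm y).1.Nonempty := by
    rw [← card_pos, card_symm h hd eB]; omega
  obtain ⟨a0, -⟩ := hne
  refine ⟨fun c => if hc : c ∈ (eG.symm w).1 then (E.symm ⟨c, hc⟩).1 else a0, ?_, ?_, ?_⟩
  · intro c hc c' hc' hcc
    have hc1 : c ∈ (eG.symm w).1 := hc
    have hc2 : c' ∈ (eG.symm w).1 := hc'
    simp only [dif_pos hc1, dif_pos hc2] at hcc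
    have := E.symm.injective (Subtype.ext hcc)
    exact congrArg Subtype.val this
  · ext a
    rw [mem_image]
    constructor
    · rintro ⟨c, hc, rfl⟩
      simp only [dif_pos hc]
      exact (E.symm ⟨c, hc⟩).2
    · intro ha
      refine ⟨(E ⟨a, ha⟩).1, (E ⟨a, ha⟩).2, ?_⟩
      simp only [dif_pos (E ⟨a, ha⟩).2]
      simp
  · intro e he
    simp only [dif_pos he]
    refine ⟨φ (E.symm ⟨e, he⟩), hφ _, ?_⟩
    have h1 := hσ (E.symm ⟨e, he⟩)
    have h2 : σ (E.symm ⟨e, he⟩) = e := by
      have : E (E.symm ⟨e, he⟩) = ⟨e, he⟩ := E.apply_symm_apply _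
      exact congrArg Subtype.val this
    rwa [h2] at h1

theorem relab_injective {A' : Finset κ'} {τ : κ' → κ} (hτ : Set.InjOn τ (A' : Set κ')) :
    Function.Injective (relab A' τ) := by
  intro c c' hcc
  unfold relab at hcc
  by_cases h1 : c ∈ A' <;> by_cases h2 : c' ∈ A'
  · rw [if_pos h1, if_pos h2] at hcc
    exact hτ h1 h2 (Sum.inl.inj hcc)
  · rw [if_pos h1, if_neg h2] at hcc
    cases hcc
  · rw [if_neg h1, if_pos h2] at hcc
    cases hcc
  · rw [if_neg h1, if_neg h2] at hcc
    exact Sum.inr.inj hcc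

theorem inl_inter_relab {A' : Finset κ'} {τ : κ' → κ} (V : Finset κ) (W : Finset κ') :
    V.image Sum.inl ∩ W.image (relab A' τ) =
      (V ∩ (A' ∩ W).image τ).image (Sum.inl : κ → κ ⊕ κ') := by
  ext c
  simp only [mem_inter, mem_image]
  constructor
  · rintro ⟨⟨a, ha, rfl⟩, e, he, hea⟩
    unfold relab at hea
    by_cases h1 : e ∈ A'
    · rw [if_pos h1] at hea
      have h2 := Sum.inl.inj hea
      exact ⟨a, ⟨ha, e, ⟨h1, he⟩, h2⟩, rfl⟩
    · rw [if_neg h1] at hea
      cases hea
  · rintro ⟨a, ⟨ha, e, ⟨h1, he⟩, h2⟩, rfl⟩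
    exact ⟨⟨a, ha, rfl⟩, e, he, by unfold relab; rw [if_pos h1, h2]⟩

end Match

section Mixed

variable {κ κ' β γ : Type*} [DecidableEq κ] [DecidableEq κ'] {d : ℕ}
  {𝒱 : Finset (Finset κ)} {𝒱' : Finset (Finset κ')} {B : SimpleGraph β} {G : SimpleGraph γ}

theorem mixed_card (hd : 1 ≤ d) (h : Simp 𝒱 d) (h' : Simp 𝒱' d)
    (eB : vgraph 𝒱 d ≃g B) (eG : vgraph 𝒱' d ≃g G)
    (y : β) (w : γ) (port : β → β → γ) {τ : κ' → κ}
    (hτ : Set.InjOn τ ((eG.symm w).1 : Set κ'))
    (him : (eG.symm w).1.image τ = (eB.symm y).1)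
    (hK : ∀ e ∈ (eG.symm w).1, ∃ z, Leave eB y (τ e) z ∧ Leave eG w e (port y z))
    {z : β} {v : γ} (hz : z ≠ y) (hv : v ≠ w) :
    ((eB.symm z).1.image Sum.inl ∩ (eG.symm v).1.image (relab (eG.symm w).1 τ)).card + 1 = d ↔
      B.Adj z y ∧ v = port y z := by
  rw [inl_inter_relab, card_image_of_injective _ Sum.inl_injective]
  have hS : ∀ e ∈ (eG.symm w).1,
      ((eG.symm w).1.erase e).image τ = (eB.symm y).1.erase (τ e) := by
    intro e he
    ext a
    rw [mem_image, mem_erase, ← him, mem_image]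
    constructor
    · rintro ⟨c, hc, rfl⟩
      have hc2 := (mem_erase.1 hc).2
      exact ⟨fun hh => (mem_erase.1 hc).1 (hτ hc2 he hh), c, hc2, rfl⟩
    · rintro ⟨h1, c, hc, rfl⟩
      exact ⟨c, mem_erase.2 ⟨fun hh => h1 (by rw [hh]), hc⟩, rfl⟩
  constructor
  · intro hc
    have h1 : ((eB.symm z).1 ∩ ((eG.symm w).1 ∩ (eG.symm v).1).image τ).card ≤
        (((eG.symm w).1 ∩ (eG.symm v).1).image τ).card := card_le_card inter_subset_right
    have h2 : (((eG.symm w).1 ∩ (eG.symm v).1).image τ).card ≤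
        ((eG.symm w).1 ∩ (eG.symm v).1).card := card_image_le
    have h3 : ((eG.symm w).1 ∩ (eG.symm v).1).card < d := by
      by_contra hcon
      have h4 := eq_of_subset_of_card_le
        (inter_subset_left : (eG.symm w).1 ∩ (eG.symm v).1 ⊆ (eG.symm w).1)
        (by rw [card_symm h' hd eG]; omega)
      have h5 : (eG.symm w).1 ⊆ (eG.symm v).1 := inter_eq_left.1 h4
      have h6 := eq_of_subset_of_card_le h5
        (by rw [card_symm h' hd eG, card_symm h' hd eG])
      exact hv (symm_inj h' hd eG h6.symm)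
    have h4 : (vgraph 𝒱' d).Adj (eG.symm w) (eG.symm v) :=
      ⟨fun hh => hv (eG.symm.injective hh).symm, by omega⟩
    obtain ⟨e, he⟩ := exists_of_adj h' hd eG w (eG.symm.map_adj_iff.1 h4)
    have h5 := he.inter h' hd eG w
    rw [h5, hS e he.1] at hc h1
    have h6 : (eB.symm z).1 ∩ (eB.symm y).1.erase (τ e) = (eB.symm y).1.erase (τ e) := by
      refine eq_of_subset_of_card_le inter_subset_right ?_
      have h7 : ((eB.symm y).1.erase (τ e)).card ≤ ((eG.symm w).1.erase e).card := by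
        rw [← hS e he.1]; exact card_image_le
      rw [card_erase_of_mem he.1, card_symm h' hd eG] at h7
      omega
    have h7 : τ e ∈ (eB.symm y).1 := by rw [← him]; exact mem_image_of_mem τ he.1
    have h8 : Leave eB y (τ e) z := ⟨h7, hz, inter_eq_right.1 h6⟩
    obtain ⟨z', hz1, hz2⟩ := hK e he.1
    have h9 := h8.unique h hd eB y hz1
    rw [← h9] at hz2
    exact ⟨(h8.adj h hd eB y).symm, he.unique h' hd eG w hz2⟩
  · rintro ⟨hadj, rfl⟩
    obtain ⟨a, ha⟩ := exists_of_adj h hd eB y hadj.symm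
    have h1 : a ∈ (eG.symm w).1.image τ := by rw [him]; exact ha.1
    obtain ⟨e, he, rfl⟩ := mem_image.1 h1
    obtain ⟨z', hz1, hz2⟩ := hK e he
    have h2 := ha.unique h hd eB y hz1
    rw [← h2] at hz2
    rw [hz2.inter h' hd eG w, hS e he, inter_eq_right.2 ha.2.2, card_erase_of_mem ha.1,
      card_symm h hd eB]
    omega

end Mixed

end OneStep

open OneStep in
/-- `B` and `G` are the graphs of the families `𝒱`, `𝒱'` (vertices of two simple
polytopes); the neighbours `z` of the vertex `y` of `B` are matched by `port y` with neighbours of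
the vertex `w` of `G`. Then there is `τ`, matching the facets at `w` with the facets at `y`, such
that the graph of the family of the sum is `sumGraph`.

Proof. Write `A` for the set of `y` and `A'` for the set of `w`. A neighbour `V` of `A` misses
exactly one `a ∈ A`, so `A ∩ V = A.erase a`, and `V` is determined by `a` (`Leave`). So both
vertices have `d` neighbours, and `port y` is a bijection of the neighbours; `τ` maps the facet
of `A'` left by `port y z` to the facet of `A` left by `z`. A set `V ≠ A` of the first family and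
the relabelled set of `W ≠ A'` meet in the elements of `V ∩ τ (W ∩ A')`; these are `d - 1`
elements iff `W ∩ A' = A'.erase e` for some `e` and `A.erase (τ e) ⊆ V`, i.e. `V` and `W` are
neighbours matched by `port y`. -/
theorem onestep {κ κ' β γ : Type*} [DecidableEq κ] [DecidableEq κ'] {d : ℕ} (hd : 1 ≤ d)
    {𝒱 : Finset (Finset κ)} {𝒱' : Finset (Finset κ')} (h : Simp 𝒱 d) (h' : Simp 𝒱' d)
    {B : SimpleGraph β} {G : SimpleGraph γ} (eB : vgraph 𝒱 d ≃g B) (eG : vgraph 𝒱' d ≃g G)
    (y : β) (w : γ) (port : β → β → γ) (hport : ∀ z, B.Adj y z → G.Adj w (port y z))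
    (hinj : ∀ z z', B.Adj y z → B.Adj y z' → port y z = port y z' → z = z') :
    ∃ τ : κ' → κ, Set.InjOn τ ((eG.symm w).1 : Set κ') ∧
      (eG.symm w).1.image τ = (eB.symm y).1 ∧
      ∀ 𝒲 : Finset (Finset (κ ⊕ κ')),
        𝒲 = (𝒱.erase (eB.symm y).1).image (fun V => V.image Sum.inl) ∪
          (𝒱'.erase (eG.symm w).1).image (fun W => W.image (relab (eG.symm w).1 τ)) →
        Nonempty (vgraph 𝒲 d ≃g PolySum.sumGraph B G w {y} port) := by
  classical
  obtain ⟨τ, hτ, him, hK⟩ := exists_match hd h h' eB eG y w port hport hinj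
  refine ⟨τ, hτ, him, ?_⟩
  intro 𝒲 h𝒲
  have hrel : Function.Injective (relab (eG.symm w).1 τ) := relab_injective hτ
  -- the two kinds of sets
  have hmix : ∀ z v, v ≠ w → (eB.symm z).1.image Sum.inl ≠
      (eG.symm v).1.image (relab (eG.symm w).1 τ) := by
    intro z v hv hh
    have h1 : (eG.symm v).1 ⊆ (eG.symm w).1 := by
      intro c hc
      by_contra hcw
      have h2 : relab (eG.symm w).1 τ c ∈ (eB.symm z).1.image (Sum.inl : κ → κ ⊕ κ') := by
        rw [hh]; exact mem_image_of_mem _ hc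
      obtain ⟨a, -, ha⟩ := mem_image.1 h2
      unfold relab at ha
      rw [if_neg hcw] at ha
      cases ha
    have h2 := eq_of_subset_of_card_le h1
      (by rw [card_symm h' hd eG, card_symm h' hd eG])
    exact hv (symm_inj h' hd eG h2)
  let g : PolySum.SumVert {y} w → Finset (κ ⊕ κ') := fun p =>
    if p.1.1 = y then (eG.symm p.1.2).1.image (relab (eG.symm w).1 τ)
    else (eB.symm p.1.1).1.image Sum.inl
  have hg1 : ∀ p : PolySum.SumVert ({y} : Set β) w, p.1.1 = y →
      g p = (eG.symm p.1.2).1.image (relab (eG.symm w).1 τ) := fun p hp => if_pos hp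
  have hg2 : ∀ p : PolySum.SumVert ({y} : Set β) w, p.1.1 ≠ y →
      g p = (eB.symm p.1.1).1.image Sum.inl := fun p hp => if_neg hp
  have hp1 : ∀ p : PolySum.SumVert ({y} : Set β) w, p.1.1 = y → p.1.2 ≠ w :=
    fun p hp => p.2.1 hp
  have hp2 : ∀ p : PolySum.SumVert ({y} : Set β) w, p.1.1 ≠ y → p.1.2 = w := by
    intro p hp
    by_contra hcon
    exact hp (p.2.2 hcon)
  have hgm : ∀ p, g p ∈ 𝒲 := by
    intro p
    rw [h𝒲, mem_union]
    by_cases hp : p.1.1 = y
    · right
      rw [hg1 p hp]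
      refine mem_image_of_mem (fun W : Finset κ' => W.image (relab (eG.symm w).1 τ))
        (mem_erase.2 ⟨?_, (eG.symm p.1.2).2⟩)
      exact fun hh => hp1 p hp (symm_inj h' hd eG hh)
    · left
      rw [hg2 p hp]
      refine mem_image_of_mem (fun V : Finset κ => V.image (Sum.inl : κ → κ ⊕ κ'))
        (mem_erase.2 ⟨?_, (eB.symm p.1.1).2⟩)
      exact fun hh => hp (symm_inj h hd eB hh)
  have hginj : Function.Injective g := by
    intro p q hpq
    by_cases hp : p.1.1 = y <;> by_cases hq : q.1.1 = y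
    · rw [hg1 p hp, hg1 q hq] at hpq
      have h1 := symm_inj h' hd eG (image_injective hrel hpq)
      exact Subtype.ext (Prod.ext (hp.trans hq.symm) h1)
    · rw [hg1 p hp, hg2 q hq] at hpq
      exact absurd hpq.symm (hmix _ _ (hp1 p hp))
    · rw [hg2 p hp, hg1 q hq] at hpq
      exact absurd hpq (hmix _ _ (hp1 q hq))
    · rw [hg2 p hp, hg2 q hq] at hpq
      have h1 := symm_inj h hd eB (image_injective Sum.inl_injective hpq)
      exact Subtype.ext (Prod.ext h1 ((hp2 p hp).trans (hp2 q hq).symm))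
  have hgsurj : ∀ U ∈ 𝒲, ∃ p, g p = U := by
    intro U hU
    rw [h𝒲, mem_union] at hU
    rcases hU with hU | hU
    · obtain ⟨V, hV, rfl⟩ := mem_image.1 hU
      obtain ⟨hV1, hV2⟩ := mem_erase.1 hV
      have hne : eB ⟨V, hV2⟩ ≠ y := by
        intro hh
        apply hV1
        rw [← hh]
        simp
      have hm : ((eB ⟨V, hV2⟩, w) : β × γ).1 ∈ ({y} : Set β) ↔
          ((eB ⟨V, hV2⟩, w) : β × γ).2 ≠ w := by
        constructor
        · intro hh
          exact absurd (Set.mem_singleton_iff.1 hh) hne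
        · intro hh
          exact absurd rfl hh
      have h1 := hg2 ⟨(eB ⟨V, hV2⟩, w), hm⟩ hne
      refine ⟨⟨(eB ⟨V, hV2⟩, w), hm⟩, h1.trans ?_⟩
      simp
    · obtain ⟨W, hW, rfl⟩ := mem_image.1 hU
      obtain ⟨hW1, hW2⟩ := mem_erase.1 hW
      have hne : eG ⟨W, hW2⟩ ≠ w := by
        intro hh
        apply hW1
        rw [← hh]
        simp
      have hm : ((y, eG ⟨W, hW2⟩) : β × γ).1 ∈ ({y} : Set β) ↔
          ((y, eG ⟨W, hW2⟩) : β × γ).2 ≠ w := by
        constructor
        · intro _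
          exact hne
        · intro _
          exact Set.mem_singleton y
      have h1 := hg1 ⟨(y, eG ⟨W, hW2⟩), hm⟩ rfl
      refine ⟨⟨(y, eG ⟨W, hW2⟩), hm⟩, h1.trans ?_⟩
      simp
  have hadj : ∀ p q, ((vgraph 𝒲 d).Adj ⟨g p, hgm p⟩ ⟨g q, hgm q⟩ ↔
      (PolySum.sumGraph B G w {y} port).Adj p q) := by
    -- mixed case
    have hmixed : ∀ p q, p.1.1 ≠ y → q.1.1 = y →
        ((vgraph 𝒲 d).Adj ⟨g p, hgm p⟩ ⟨g q, hgm q⟩ ↔
        (PolySum.sumGraph B G w {y} port).Adj p q) := by
      intro p q hp hq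
      have h1 := mixed_card hd h h' eB eG y w port hτ him hK (z := p.1.1) (v := q.1.2) hp
        (hp1 q hq)
      have h2 : (g p ∩ g q).card + 1 = d ↔ B.Adj p.1.1 y ∧ q.1.2 = port y p.1.1 := by
        rw [hg2 p hp, hg1 q hq]; exact h1
      constructor
      · rintro ⟨-, h3⟩
        obtain ⟨h4, h5⟩ := h2.1 h3
        refine Or.inr ⟨by rw [hq]; exact h4, fun hh => absurd hh hp, fun _ => ?_⟩
        rw [hq]; exact h5
      · rintro (⟨h3, -⟩ | ⟨h3, -, h4⟩)
        · exact absurd (h3.trans hq) hp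
        · have h5 := h4 hq
          rw [hq] at h3 h5
          refine ⟨?_, h2.2 ⟨h3, h5⟩⟩
          intro hh
          have h6 := hginj (congrArg Subtype.val hh)
          rw [h6] at hp
          exact hp hq
    intro p q
    by_cases hp : p.1.1 = y <;> by_cases hq : q.1.1 = y
    · have h1 : (g p ∩ g q).card = ((eG.symm p.1.2).1 ∩ (eG.symm q.1.2).1).card := by
        rw [hg1 p hp, hg1 q hq, ← image_inter _ _ hrel, card_image_of_injective _ hrel]
      have h2 : (vgraph 𝒱' d).Adj (eG.symm p.1.2) (eG.symm q.1.2) ↔ G.Adj p.1.2 q.1.2 :=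
        eG.symm.map_adj_iff
      constructor
      · rintro ⟨h3, h4⟩
        refine Or.inl ⟨hp.trans hq.symm, h2.1 ⟨?_, ?_⟩⟩
        · intro hh
          apply h3
          have h5 := eG.symm.injective hh
          have h6 : p = q := Subtype.ext (Prod.ext (hp.trans hq.symm) h5)
          rw [h6]
        · rw [← h1]; exact h4
      · rintro (⟨-, h3⟩ | ⟨h3, -⟩)
        · have h4 := h2.2 h3
          refine ⟨?_, ?_⟩
          · intro hh
            have h6 := hginj (congrArg Subtype.val hh)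
            rw [h6] at h3
            exact G.ne_of_adj h3 rfl
          · show (g p ∩ g q).card + 1 = d
            rw [h1]; exact h4.2
        · exact absurd (hp.trans hq.symm) (B.ne_of_adj h3)
    · rw [SimpleGraph.adj_comm, SimpleGraph.adj_comm (PolySum.sumGraph B G w {y} port)]
      exact hmixed q p hq hp
    · exact hmixed p q hp hq
    · have h1 : (g p ∩ g q).card = ((eB.symm p.1.1).1 ∩ (eB.symm q.1.1).1).card := by
        rw [hg2 p hp, hg2 q hq, ← image_inter _ _ Sum.inl_injective,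
          card_image_of_injective _ Sum.inl_injective]
      have h2 : (vgraph 𝒱 d).Adj (eB.symm p.1.1) (eB.symm q.1.1) ↔ B.Adj p.1.1 q.1.1 :=
        eB.symm.map_adj_iff
      constructor
      · rintro ⟨h3, h4⟩
        refine Or.inr ⟨h2.1 ⟨?_, ?_⟩, fun hh => absurd hh hp, fun hh => absurd hh hq⟩
        · intro hh
          apply h3
          have h5 := eB.symm.injective hh
          have h6 : p = q := Subtype.ext (Prod.ext h5 ((hp2 p hp).trans (hp2 q hq).symm))
          rw [h6]
        · rw [← h1]; exact h4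
      · rintro (⟨-, h3⟩ | ⟨h3, -⟩)
        · rw [hp2 p hp, hp2 q hq] at h3
          exact absurd rfl (G.ne_of_adj h3)
        · have h4 := h2.2 h3
          refine ⟨?_, ?_⟩
          · intro hh
            have h6 := hginj (congrArg Subtype.val hh)
            rw [h6] at h3
            exact B.ne_of_adj h3 rfl
          · show (g p ∩ g q).card + 1 = d
            rw [h1]; exact h4.2
  let F : PolySum.SumVert ({y} : Set β) w → {U // U ∈ 𝒲} := fun p => ⟨g p, hgm p⟩
  have hF : Function.Bijective F := by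
    constructor
    · intro p q hpq
      exact hginj (congrArg Subtype.val hpq)
    · rintro ⟨U, hU⟩
      obtain ⟨p, hp⟩ := hgsurj U hU
      exact ⟨p, Subtype.ext hp⟩
  exact ⟨(RelIso.mk (Equiv.ofBijective F hF) (fun {p q} => hadj p q) :
    PolySum.sumGraph B G w {y} port ≃g vgraph 𝒲 d).symm⟩

end FewFacets
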