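import Pool.Agent.FewFacets.Poly

/-!
The planar configuration (Gale diagram) of a simple polytope with at most `d + 3` facets,
and its two-coloured chain.
-/

set_option linter.unusedSectionVars false

namespace FewFacets

open Finset

variable {E : Type*} [AddCommGroup E] [Module ℝ E] {ι : Type*} [Fintype ι] [LinearOrder ι]
variable {f : ι → E →ₗ[ℝ] ℝ} {b : ι → ℝ}

/-- the planar configuration -/
lemma Data.plane [FiniteDimensional ℝ E] (D : Data f b)
    (hcard : Fintype.card ι = Module.finrank ℝ E + 3) :
    ∃ x y : ι → ℝ, (∀ i, y i ≠ 0) ∧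
      ∀ r : ι → ℝ, InW f b r ↔ (∑ i, r i * x i = 0 ∧ ∑ i, r i * y i = 0) := by
  let Φ : E × ℝ →ₗ[ℝ] (ι → ℝ) :=
    LinearMap.pi (fun i => (f i).comp (LinearMap.fst ℝ E ℝ) +
      (LinearMap.toSpanSingleton ℝ ℝ (b i)).comp (LinearMap.snd ℝ E ℝ))
  have hΦ : ∀ w t i, Φ (w, t) i = f i w + t * b i := by
    intro w t i
    simp [Φ]
  have hinj : Function.Injective Φ := by
    rw [injective_iff_map_eq_zero]
    rintro ⟨w, t⟩ h
    have h' : ∀ i, f i w + t * b i = 0 := fun i => by rw [← hΦ, h]; rfl
    by_cases ht : t = 0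
    · subst ht
      have : w = 0 := D.inj fun i => by have := h' i; simpa using this
      rw [this]; rfl
    · exfalso
      refine D.notRange (-(t⁻¹ • w)) fun i => ?_
      have := h' i
      rw [map_neg, map_smul, smul_eq_mul]
      field_simp
      linarith
  set W := LinearMap.range Φ with hWdef
  have hW : ∀ r, r ∈ W ↔ InW f b r := by
    intro r
    rw [hWdef, LinearMap.mem_range]
    constructor
    · rintro ⟨⟨w, t⟩, h⟩
      exact ⟨w, t, fun i => by rw [← h, hΦ]⟩
    · rintro ⟨w, t, h⟩
      exact ⟨(w, t), funext fun i => by rw [hΦ, h]⟩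
  have hfW : Module.finrank ℝ W = Module.finrank ℝ E + 1 := by
    rw [hWdef, LinearMap.finrank_range_of_inj hinj, Module.finrank_prod,
      Module.finrank_self]
  have hfQ : Module.finrank ℝ ((ι → ℝ) ⧸ W) = Module.finrank ℝ (Fin 2 → ℝ) := by
    have h1 := Submodule.finrank_quotient_add_finrank W
    rw [hfW, Module.finrank_fintype_fun_eq_card, hcard] at h1
    rw [Module.finrank_fintype_fun_eq_card, Fintype.card_fin]
    omega
  let e := LinearEquiv.ofFinrankEq _ _ hfQ
  let L : (ι → ℝ) →ₗ[ℝ] (Fin 2 → ℝ) := e.toLinearMap.comp W.mkQ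
  have hL : ∀ r, L r = 0 ↔ r ∈ W := by
    intro r
    simp only [L, LinearMap.comp_apply, LinearEquiv.coe_coe, LinearEquiv.map_eq_zero_iff,
      Submodule.mkQ_apply, Submodule.Quotient.mk_eq_zero]
  have hsum : ∀ (r : ι → ℝ) (m : Fin 2), L r m = ∑ i, r i * L (Pi.single i 1) m := by
    intro r m
    have := congrFun (L.pi_apply_eq_sum_univ r) m
    rw [this, Finset.sum_apply]
    refine sum_congr rfl fun i _ => ?_
    have hfun : (fun j => if i = j then (1 : ℝ) else 0) = Pi.single i 1 := by
      ext j
      simp [Pi.single_apply, eq_comm]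
    rw [Pi.smul_apply, smul_eq_mul, hfun]
  have hnz : ∀ i, L (Pi.single i 1) 0 ≠ 0 ∨ L (Pi.single i 1) 1 ≠ 0 := by
    intro i
    by_contra hcon
    push Not at hcon
    have h0 : L (Pi.single i 1) = 0 := by
      ext m
      fin_cases m
      · exact hcon.1
      · exact hcon.2
    have hin := (hW _).1 ((hL _).1 h0)
    have h3 := D.three_of_rel hin (fun j => by
      rw [Pi.single_apply]; split_ifs <;> norm_num) ⟨i, by simp⟩
    have hsub : univ.filter (fun j => (Pi.single i (1 : ℝ) : ι → ℝ) j ≠ 0) ⊆ {i} := by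
      intro j hj
      simp only [mem_filter, mem_univ, true_and, Pi.single_apply, ne_eq, ite_eq_right_iff,
        one_ne_zero, imp_false, not_not] at hj
      rw [mem_singleton]; exact hj
    have := card_le_card hsub
    rw [card_singleton] at this
    omega
  obtain ⟨t, ht⟩ := Infinite.exists_notMem_finset
    (univ.image (fun i => - L (Pi.single i 1) 1 / L (Pi.single i 1) 0))
  refine ⟨fun i => L (Pi.single i 1) 0,
    fun i => L (Pi.single i 1) 1 + t * L (Pi.single i 1) 0, ?_, ?_⟩
  · intro i hi
    simp only at hi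
    by_cases h0 : L (Pi.single i 1) 0 = 0
    · rcases hnz i with h | h
      · exact h h0
      · rw [h0] at hi; exact h (by linarith)
    · apply ht
      rw [mem_image]
      refine ⟨i, mem_univ _, ?_⟩
      rw [div_eq_iff h0]
      linarith
  · intro r
    rw [← hW, ← hL]
    have e0 := hsum r 0
    have e1 := hsum r 1
    have e2 : ∑ i, r i * (L (Pi.single i 1) 1 + t * L (Pi.single i 1) 0) =
        L r 1 + t * L r 0 := by
      rw [e0, e1, mul_sum, ← sum_add_distrib]
      refine sum_congr rfl fun i _ => ?_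
      ring
    rw [e2, ← e0]
    constructor
    · intro h
      rw [h]
      simp
    · rintro ⟨h1, h2⟩
      ext m
      fin_cases m
      · exact h1
      · show L r 1 = 0
        rw [h1] at h2
        linarith

end FewFacets
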