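import Mathlib

/-!
Polyhedra given by inequalities `f i x ≤ b i`: slack, supports, extreme points and edges,
for a bounded polyhedron all of whose points have at least three non-active inequalities
(equivalently: a simple polytope of dimension `d` given by `d + 3` inequalities).
-/

namespace FewFacets

open Finset

set_option linter.unusedSectionVars false

variable {E : Type*} [AddCommGroup E] [Module ℝ E] {ι : Type*} [Fintype ι] [DecidableEq ι]

/-- the polyhedron of the inequalities `f i x ≤ b i` -/
def Poly (f : ι → E →ₗ[ℝ] ℝ) (b : ι → ℝ) : Set E := {x | ∀ i, f i x ≤ b i}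

/-- the non-active inequalities at `x` -/
noncomputable def supp (f : ι → E →ₗ[ℝ] ℝ) (b : ι → ℝ) (x : E) : Finset ι :=
  univ.filter (fun i => f i x ≠ b i)

lemma mem_supp {f : ι → E →ₗ[ℝ] ℝ} {b : ι → ℝ} {x : E} {i : ι} :
    i ∈ supp f b x ↔ f i x ≠ b i := by simp [supp]

/-- the data used throughout -/
structure Data (f : ι → E →ₗ[ℝ] ℝ) (b : ι → ℝ) : Prop where
  ne : (Poly f b).Nonempty
  rec0 : ∀ w, (∀ i, f i w ≤ 0) → w = 0
  three : ∀ x ∈ Poly f b, 3 ≤ (supp f b x).card

/-- `r` is a combination of `b` and of a vector of values `f i w` -/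
def InW (f : ι → E →ₗ[ℝ] ℝ) (b : ι → ℝ) (r : ι → ℝ) : Prop :=
  ∃ w t, ∀ i, r i = f i w + t * b i

variable {f : ι → E →ₗ[ℝ] ℝ} {b : ι → ℝ}

lemma InW.slack (x : E) : InW f b (fun i => b i - f i x) :=
  ⟨-x, 1, fun i => by rw [map_neg]; ring⟩

lemma InW.sub_smul {r s : ι → ℝ} (hr : InW f b r) (hs : InW f b s) (c : ℝ) :
    InW f b (fun i => r i - c * s i) := by
  obtain ⟨w, t, h⟩ := hr
  obtain ⟨w', t', h'⟩ := hs
  refine ⟨w - c • w', t - c * t', fun i => ?_⟩
  show r i - c * s i = _
  rw [h, h', map_sub, map_smul, smul_eq_mul]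
  ring

lemma Data.rel (D : Data f b) {r : ι → ℝ} (hr : InW f b r) (h0 : ∀ i, 0 ≤ r i)
    (hne : ∃ i, r i ≠ 0) : ∃ x ∈ Poly f b, ∃ t : ℝ, 0 < t ∧ ∀ i, r i = t * (b i - f i x) := by
  obtain ⟨w, t, h⟩ := hr
  by_cases ht : 0 < t
  · have hx : ∀ i, r i = t * (b i - f i (-(t⁻¹ • w))) := by
      intro i
      rw [h, map_neg, map_smul, smul_eq_mul]
      field_simp
      ring
    refine ⟨-(t⁻¹ • w), ?_, t, ht, hx⟩
    intro i
    have h1 := h0 i
    rw [hx i] at h1
    have h2 := (mul_nonneg_iff_of_pos_left ht).1 h1
    linarith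
  · exfalso
    obtain ⟨x0, hx0⟩ := D.ne
    have key : ∀ i, r i + (-t) * (b i - f i x0) = f i (w + t • x0) := by
      intro i
      rw [h, map_add, map_smul, smul_eq_mul]
      ring
    have hnn : ∀ i, 0 ≤ (-t) * (b i - f i x0) := fun i =>
      mul_nonneg (by linarith) (by linarith [hx0 i])
    have hz : -(w + t • x0) = 0 := by
      refine D.rec0 _ fun i => ?_
      rw [map_neg, ← key i]
      linarith [h0 i, hnn i]
    obtain ⟨i, hi⟩ := hne
    have h1 := key i
    rw [neg_eq_zero.1 hz, map_zero] at h1
    have := h0 i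
    have := hnn i
    exact hi (by linarith)

lemma Data.three_of_rel (D : Data f b) {r : ι → ℝ} (hr : InW f b r) (h0 : ∀ i, 0 ≤ r i)
    (hne : ∃ i, r i ≠ 0) : 3 ≤ (univ.filter (fun i => r i ≠ 0)).card := by
  obtain ⟨x, hx, t, ht, h⟩ := D.rel hr h0 hne
  have : univ.filter (fun i => r i ≠ 0) = supp f b x := by
    ext i
    simp only [mem_filter, mem_univ, true_and, mem_supp]
    rw [h i, mul_ne_zero_iff]
    constructor
    · rintro ⟨_, h2⟩ h3; exact h2 (by rw [h3]; ring)
    · intro h3; exact ⟨ht.ne', fun h4 => h3 (by linarith)⟩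
  rw [this]
  exact D.three x hx

/-- relations supported in a three element support are proportional -/
lemma Data.prop (D : Data f b) {x : E} (hx : x ∈ Poly f b) (h3 : (supp f b x).card = 3)
    {r : ι → ℝ} (hr : InW f b r) (hs : ∀ i, i ∉ supp f b x → r i = 0) :
    ∃ t : ℝ, ∀ i, r i = t * (b i - f i x) := by
  have hpos : ∀ i ∈ supp f b x, 0 < b i - f i x := by
    intro i hi
    rw [mem_supp] at hi
    have := hx i
    rcases lt_or_eq_of_le this with h | h
    · linarith
    · exact absurd h hi
  have hzero : ∀ i, i ∉ supp f b x → b i - f i x = 0 := by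
    intro i hi
    rw [mem_supp, not_not] at hi
    linarith
  have hne : (supp f b x).Nonempty := by
    rw [← card_pos, h3]; norm_num
  obtain ⟨i0, hi0, hmin⟩ := exists_min_image (supp f b x) (fun i => r i / (b i - f i x)) hne
  set t := r i0 / (b i0 - f i0 x) with ht
  refine ⟨t, ?_⟩
  by_contra hcon
  push Not at hcon
  have hW : InW f b (fun i => r i - t * (b i - f i x)) := hr.sub_smul (InW.slack x) t
  have hnn : ∀ i, 0 ≤ r i - t * (b i - f i x) := by
    intro i
    by_cases hi : i ∈ supp f b x
    · have h1 := hmin i hi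
      have h2 := hpos i hi
      rw [le_div_iff₀ h2] at h1
      linarith
    · rw [hs i hi, hzero i hi]; simp
  have h3' := D.three_of_rel hW hnn (by
    obtain ⟨i, hi⟩ := hcon
    exact ⟨i, fun h => hi (by linarith)⟩)
  have hsub : univ.filter (fun i => r i - t * (b i - f i x) ≠ 0) ⊆ (supp f b x).erase i0 := by
    intro i hi
    simp only [mem_filter, mem_univ, true_and] at hi
    rw [mem_erase]
    constructor
    · rintro rfl
      apply hi
      have := (hpos i hi0).ne'
      rw [ht]
      field_simp
      ring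
    · by_contra hi2
      exact hi (by rw [hs i hi2, hzero i hi2]; ring)
  have := card_le_card hsub
  rw [card_erase_of_mem hi0, h3] at this
  omega

lemma Data.inj (D : Data f b) {w : E} (h : ∀ i, f i w = 0) : w = 0 :=
  D.rec0 w fun i => (h i).le

/-- `b` is not a vector of values -/
lemma Data.notRange (D : Data f b) (x : E) : ¬ ∀ i, f i x = b i := by
  intro h
  have hx : x ∈ Poly f b := fun i => (h i).le
  have := D.three x hx
  have h0 : supp f b x = ∅ := by
    ext i
    simp [mem_supp, h i]
  rw [h0] at this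
  simp at this

/-- a point with three non-active inequalities is determined by their set -/
lemma Data.unique (D : Data f b) {x y : E} (hx : x ∈ Poly f b)
    (h3 : (supp f b x).card = 3) (hs : supp f b y ⊆ supp f b x) : y = x := by
  obtain ⟨t, ht⟩ := D.prop hx h3 (InW.slack y) (fun i hi => by
    have : i ∉ supp f b y := fun h => hi (hs h)
    rw [mem_supp, not_not] at this
    linarith)
  have key : ∀ i, f i (y - t • x) = (1 - t) * b i := by
    intro i
    have := ht i
    rw [map_sub, map_smul, smul_eq_mul]
    linarith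
  have ht1 : t = 1 := by
    by_contra hne
    have h1 : (1 - t) ≠ 0 := fun h => hne (by linarith)
    refine D.notRange ((1 - t)⁻¹ • (y - t • x)) fun i => ?_
    rw [map_smul, smul_eq_mul, key i]
    field_simp
  rw [ht1] at key
  have : y - (1 : ℝ) • x = 0 := D.inj fun i => by rw [key i]; ring
  rw [one_smul] at this
  exact sub_eq_zero.1 this

lemma supp_subset_of_openSegment {x y z : E} (hy : y ∈ Poly f b) (hz : z ∈ Poly f b)
    (h : x ∈ openSegment ℝ y z) : supp f b y ⊆ supp f b x := by
  obtain ⟨α, β, hα, hβ, hαβ, rfl⟩ := h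
  intro i hi
  rw [mem_supp] at hi ⊢
  intro hcon
  rw [map_add, map_smul, map_smul, smul_eq_mul, smul_eq_mul] at hcon
  have h1 := hy i
  have h2 := hz i
  have h3 : f i y < b i := lt_of_le_of_ne h1 hi
  have e : b i = α * b i + β * b i := by rw [← add_mul, hαβ, one_mul]
  linarith [mul_lt_mul_of_pos_left h3 hα, mul_le_mul_of_nonneg_left h2 hβ.le]

lemma Data.extreme (D : Data f b) {x : E} (hx : x ∈ Poly f b)
    (h3 : (supp f b x).card = 3) : x ∈ (Poly f b).extremePoints ℝ := by
  rw [mem_extremePoints]
  refine ⟨hx, ?_⟩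
  intro y hy z hz h
  refine ⟨D.unique hx h3 (supp_subset_of_openSegment hy hz h), ?_⟩
  rw [openSegment_symm] at h
  exact D.unique hx h3 (supp_subset_of_openSegment hz hy h)

/-- two vertices whose supports have two common elements span an edge -/
lemma Data.edge (D : Data f b) {x y : E} (hx : x ∈ Poly f b) (hy : y ∈ Poly f b)
    (hx3 : (supp f b x).card = 3) (hy3 : (supp f b y).card = 3)
    (hxy : (supp f b x ∩ supp f b y).card = 2) : IsExtreme ℝ (Poly f b) (segment ℝ x y) := by
  -- the elements k, k' outside the intersection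
  have hk : ∃ k ∈ supp f b x, k ∉ supp f b y := by
    by_contra hcon
    push Not at hcon
    have : supp f b x ∩ supp f b y = supp f b x := inter_eq_left.2 hcon
    rw [this, hx3] at hxy
    omega
  have hk' : ∃ k ∈ supp f b y, k ∉ supp f b x := by
    by_contra hcon
    push Not at hcon
    have : supp f b x ∩ supp f b y = supp f b y := inter_eq_right.2 hcon
    rw [this, hy3] at hxy
    omega
  obtain ⟨k, hkx, hky⟩ := hk
  obtain ⟨k', hk'y, hk'x⟩ := hk'
  have hxk : supp f b x = insert k (supp f b x ∩ supp f b y) := by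
    symm
    refine eq_of_subset_of_card_le ?_ ?_
    · rw [insert_subset_iff]
      exact ⟨hkx, inter_subset_left⟩
    · rw [card_insert_of_notMem (fun h => hky (mem_inter.1 h).2), hxy, hx3]
  have hyk : supp f b y = insert k' (supp f b x ∩ supp f b y) := by
    symm
    refine eq_of_subset_of_card_le ?_ ?_
    · rw [insert_subset_iff]
      exact ⟨hk'y, inter_subset_right⟩
    · rw [card_insert_of_notMem (fun h => hk'x (mem_inter.1 h).1), hxy, hy3]
  refine ⟨?_, ?_⟩
  · rintro z ⟨α, β, hα, hβ, hαβ, rfl⟩ i
    rw [map_add, map_smul, map_smul, smul_eq_mul, smul_eq_mul]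
    have e : b i = α * b i + β * b i := by rw [← add_mul, hαβ, one_mul]
    linarith [mul_le_mul_of_nonneg_left (hx i) hα, mul_le_mul_of_nonneg_left (hy i) hβ]
  · intro p hp p' hp' z hz hzp
    have hsz : supp f b z ⊆ supp f b x ∪ supp f b y := by
      obtain ⟨α, β, hα, hβ, hαβ, rfl⟩ := hz
      intro i hi
      by_contra hcon
      rw [mem_union, not_or, mem_supp, mem_supp, not_not, not_not] at hcon
      rw [mem_supp] at hi
      apply hi
      rw [map_add, map_smul, map_smul, smul_eq_mul, smul_eq_mul, hcon.1, hcon.2, ← add_mul,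
        hαβ, one_mul]
    have hsp : supp f b p ⊆ supp f b x ∪ supp f b y :=
      (supp_subset_of_openSegment hp hp' hzp).trans hsz
    -- slacks
    have sx : ∀ i, 0 ≤ b i - f i x := fun i => by linarith [hx i]
    have sy : ∀ i, 0 ≤ b i - f i y := fun i => by linarith [hy i]
    have sp : ∀ i, 0 ≤ b i - f i p := fun i => by linarith [hp i]
    have sxk : b k - f k x ≠ 0 := by
      rw [mem_supp] at hkx
      intro h; exact hkx (by linarith)
    have syk' : b k' - f k' y ≠ 0 := by
      rw [mem_supp] at hk'y
      intro h; exact hk'y (by linarith)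
    have syk : b k - f k y = 0 := by
      rw [mem_supp, not_not] at hky
      linarith
    have sxk' : b k' - f k' x = 0 := by
      rw [mem_supp, not_not] at hk'x
      linarith
    set α := (b k - f k p) / (b k - f k x) with hα
    set β := (b k' - f k' p) / (b k' - f k' y) with hβ
    have hα0 : 0 ≤ α := div_nonneg (sp k) (sx k)
    have hβ0 : 0 ≤ β := div_nonneg (sp k') (sy k')
    have hW : InW f b (fun i => ((b i - f i p) - β * (b i - f i y)) - α * (b i - f i x)) :=
      ((InW.slack p).sub_smul (InW.slack y) β).sub_smul (InW.slack x) α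
    have hout : ∀ i, i ∉ supp f b x ∩ supp f b y →
        ((b i - f i p) - β * (b i - f i y)) - α * (b i - f i x) = 0 := by
      intro i hi
      by_cases hik : i = k
      · subst hik
        rw [syk, hα]
        field_simp
        ring
      · by_cases hik' : i = k'
        · subst hik'
          rw [sxk', hβ]
          field_simp
          ring
        · have h1 : i ∉ supp f b x := by
            rw [hxk, mem_insert, not_or]; exact ⟨hik, hi⟩
          have h2 : i ∉ supp f b y := by
            rw [hyk, mem_insert, not_or]; exact ⟨hik', hi⟩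
          have h3 : i ∉ supp f b p := fun h => by
            rcases mem_union.1 (hsp h) with h | h
            · exact h1 h
            · exact h2 h
          rw [mem_supp, not_not] at h1 h2 h3
          rw [h1, h2, h3]; ring
    obtain ⟨t, ht⟩ := D.prop hx hx3 hW (fun i hi => hout i (fun h => hi (mem_inter.1 h).1))
    have ht0 : t = 0 := by
      have h1 := ht k
      rw [hout k (fun h => hky (mem_inter.1 h).2)] at h1
      rcases mul_eq_zero.1 h1.symm with h | h
      · exact h
      · exact absurd h sxk
    have key : ∀ i, f i (p - α • x - β • y) = (1 - α - β) * b i := by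
      intro i
      have := ht i
      rw [ht0, zero_mul] at this
      rw [map_sub, map_sub, map_smul, map_smul, smul_eq_mul, smul_eq_mul]
      linarith
    have hsum : α + β = 1 := by
      by_contra hne
      have h1 : (1 - α - β) ≠ 0 := fun h => hne (by linarith)
      refine D.notRange ((1 - α - β)⁻¹ • (p - α • x - β • y)) fun i => ?_
      rw [map_smul, smul_eq_mul, key i]
      field_simp
    have hp0 : p - α • x - β • y = 0 := D.inj fun i => by
      rw [key i, show 1 - α - β = 0 by linarith, zero_mul]
    refine ⟨α, β, hα0, hβ0, hsum, ?_⟩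
    rw [sub_sub, sub_eq_zero] at hp0
    exact hp0.symm

lemma exists_dir [FiniteDimensional ℝ E] (A : Finset ι) (hA : A.card < Module.finrank ℝ E) :
    ∃ w : E, w ≠ 0 ∧ ∀ i ∈ A, f i w = 0 := by
  let L : E →ₗ[ℝ] (A → ℝ) := LinearMap.pi (fun i => f i.1)
  have hker : LinearMap.ker L ≠ ⊥ := by
    refine LinearMap.ker_ne_bot_of_finrank_lt ?_
    rw [Module.finrank_fintype_fun_eq_card, Fintype.card_coe]
    exact hA
  obtain ⟨w, hw, hw0⟩ := (Submodule.ne_bot_iff _).1 hker
  refine ⟨w, hw0, fun i hi => ?_⟩
  have h1 : L w = 0 := hw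
  exact congrFun h1 ⟨i, hi⟩

/-- an extreme point has exactly three non-active inequalities -/
lemma Data.card_of_extreme [FiniteDimensional ℝ E] (D : Data f b)
    (hcard : Fintype.card ι = Module.finrank ℝ E + 3) {x : E}
    (hx : x ∈ (Poly f b).extremePoints ℝ) : (supp f b x).card = 3 := by
  by_contra hne
  have h3 := D.three x hx.1
  have h4 : 4 ≤ (supp f b x).card := by omega
  have hA : (supp f b x)ᶜ.card < Module.finrank ℝ E := by
    have := card_le_univ (supp f b x)
    rw [card_compl]; omega
  obtain ⟨w, hw0, hw⟩ := exists_dir (f := f) _ hA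
  have hsl : ∀ i ∈ supp f b x, 0 < b i - f i x := by
    intro i hi
    rw [mem_supp] at hi
    have := lt_of_le_of_ne (hx.1 i) hi
    linarith
  have hnonempty : (supp f b x).Nonempty := by rw [← card_pos]; omega
  obtain ⟨i0, hi0, hmin⟩ := exists_min_image (supp f b x) (fun i => b i - f i x) hnonempty
  set M := ∑ i, |f i w| + 1 with hM
  have hMpos : 0 < M := by
    have : 0 ≤ ∑ i, |f i w| := sum_nonneg fun i _ => abs_nonneg _
    linarith
  have hle : ∀ i, |f i w| ≤ M := by
    intro i
    have : |f i w| ≤ ∑ i, |f i w| :=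
      single_le_sum (f := fun i => |f i w|) (fun j _ => abs_nonneg _) (mem_univ i)
    linarith
  set ε := (b i0 - f i0 x) / M with hε
  have hεpos : 0 < ε := div_pos (hsl i0 hi0) hMpos
  have hεle : ∀ i ∈ supp f b x, ε * |f i w| ≤ b i - f i x := by
    intro i hi
    calc ε * |f i w| ≤ ε * M := mul_le_mul_of_nonneg_left (hle i) hεpos.le
      _ = b i0 - f i0 x := by rw [hε]; field_simp
      _ ≤ b i - f i x := hmin i hi
  have hmem : ∀ s : ℝ, |s| = ε → x + s • w ∈ Poly f b := by
    intro s hs i
    rw [map_add, map_smul, smul_eq_mul]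
    by_cases hi : i ∈ supp f b x
    · have h5 := hεle i hi
      have h6 : s * f i w ≤ ε * |f i w| := by
        rw [← hs, ← abs_mul]; exact le_abs_self _
      linarith
    · rw [hw i (mem_compl.2 hi)]
      have := hx.1 i
      linarith
  have hop : x ∈ openSegment ℝ (x + ε • w) (x + (-ε) • w) := by
    refine ⟨1 / 2, 1 / 2, by norm_num, by norm_num, by norm_num, ?_⟩
    module
  have h7 := hx.2 (hmem ε (abs_of_pos hεpos)) (hmem (-ε) (by rw [abs_neg, abs_of_pos hεpos]))
    hop
  have h8 : ε • w = 0 := by simpa using h7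
  rcases smul_eq_zero.1 h8 with h | h
  · exact hεpos.ne' h
  · exact hw0 h

end FewFacets
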