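import Pool.Agent.FewFacets.Good
import Mathlib.Combinatorics.SimpleGraph.Prod

namespace FewFacets

open scoped SimpleGraph

/-- a product of extreme sets is extreme -/
theorem isExtreme_prod {E F : Type*} [AddCommGroup E] [Module ℝ E] [AddCommGroup F]
    [Module ℝ F] {P A : Set E} {Q B : Set F} (hA : IsExtreme ℝ P A) (hB : IsExtreme ℝ Q B) :
    IsExtreme ℝ (P ×ˢ Q) (A ×ˢ B) := by
  refine ⟨Set.prod_mono hA.subset hB.subset, ?_⟩
  rintro ⟨a, b⟩ ⟨ha, hb⟩ ⟨c, d⟩ ⟨hc, hd⟩ ⟨x, y⟩ ⟨hx, hy⟩ hxy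
  obtain ⟨s, t, hs, ht, hst, he⟩ := hxy
  have h1 : s • a + t • c = x := congrArg Prod.fst he
  have h2 : s • b + t • d = y := congrArg Prod.snd he
  exact ⟨hA.2 ha hc hx ⟨s, t, hs, ht, hst, h1⟩, hB.2 hb hd hy ⟨s, t, hs, ht, hst, h2⟩⟩

/-- edges of a product -/
theorem prod_hom {E F : Type*} [NormedAddCommGroup E] [NormedSpace ℝ E]
    [NormedAddCommGroup F] [NormedSpace ℝ F] (P : Set E) (Q : Set F) :
    ∃ e : (P.extremePoints ℝ × Q.extremePoints ℝ) ≃ ((P ×ˢ Q).extremePoints ℝ),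
      ∀ x y, (polytopeGraph P □ polytopeGraph Q).Adj x y →
        (polytopeGraph (P ×ˢ Q)).Adj (e x) (e y) := by
  refine ⟨⟨fun x => ⟨(x.1.1, x.2.1), ?_⟩,
    fun z => (⟨z.1.1, ?_⟩, ⟨z.1.2, ?_⟩), ?_, ?_⟩, ?_⟩
  · rw [extremePoints_prod]
    exact ⟨x.1.2, x.2.2⟩
  · exact ((Set.ext_iff.1 (extremePoints_prod (𝕜 := ℝ) P Q) z.1).1 z.2).1
  · exact ((Set.ext_iff.1 (extremePoints_prod (𝕜 := ℝ) P Q) z.1).1 z.2).2
  · intro x
    rfl
  · intro z
    rfl
  · rintro ⟨⟨x, hx⟩, ⟨y, hy⟩⟩ ⟨⟨x', hx'⟩, ⟨y', hy'⟩⟩ h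
    rw [SimpleGraph.boxProd_adj] at h
    rcases h with ⟨⟨hne, hex⟩, he⟩ | ⟨⟨hne, hex⟩, he⟩
    · have he' : y = y' := congrArg Subtype.val he
      subst he'
      refine ⟨fun h => hne ?_, ?_⟩
      · have := congrArg (fun z => z.1.1) h
        exact Subtype.ext this
      · have hs : segment ℝ ((x, y) : E × F) (x', y) = segment ℝ x x' ×ˢ {y} := by
          rw [← Prod.image_mk_segment_left]
          ext ⟨u, v⟩
          simp only [Set.mem_image, Prod.mk.injEq, Set.mem_prod, Set.mem_singleton_iff]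
          constructor
          · rintro ⟨w, hw, h1, h2⟩
            exact ⟨h1 ▸ hw, h2.symm⟩
          · rintro ⟨h1, h2⟩
            exact ⟨u, h1, rfl, h2.symm⟩
        change IsExtreme ℝ (P ×ˢ Q) (segment ℝ ((x, y) : E × F) (x', y))
        rw [hs]
        exact isExtreme_prod hex (isExtreme_singleton.2 hy)
    · have he' : x = x' := congrArg Subtype.val he
      subst he'
      refine ⟨fun h => hne ?_, ?_⟩
      · have := congrArg (fun z => z.1.2) h
        exact Subtype.ext this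
      · have hs : segment ℝ ((x, y) : E × F) (x, y') = {x} ×ˢ segment ℝ y y' := by
          rw [← Prod.image_mk_segment_right]
          ext ⟨u, v⟩
          simp only [Set.mem_image, Prod.mk.injEq, Set.mem_prod, Set.mem_singleton_iff]
          constructor
          · rintro ⟨w, hw, h1, h2⟩
            exact ⟨h1.symm, h2 ▸ hw⟩
          · rintro ⟨h1, h2⟩
            exact ⟨v, h2, h1.symm, rfl⟩
        change IsExtreme ℝ (P ×ˢ Q) (segment ℝ ((x, y) : E × F) (x, y'))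
        rw [hs]
        exact isExtreme_prod (isExtreme_singleton.2 hx) hex

end FewFacets
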