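import Pool.Agent.FewFacets.Good
import Pool.Agent.PolyProd.Faces

namespace FewFacets

open Finset PolyProd

/-- A graph whose vertices are `d`-sets behaves like the graph of a simple polytope:
the 2-faces are the sets of edges between vertices containing a given `(d-2)`-set. -/
theorem skeleton_of_sets {V ι : Type*} [Finite V] [DecidableEq ι] (G : SimpleGraph V) {d : ℕ}
    (hd : 2 ≤ d) (A : V → Finset ι) (hinj : Function.Injective A) (hc : ∀ v, (A v).card = d)
    (hadj : ∀ u v, G.Adj u v ↔ (A u ∩ A v).card + 1 = d)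
    (hnb : ∀ v, ∀ a ∈ A v, ∃ u, a ∉ A u ∧ (A v).erase a ⊆ A u)
    (hline : ∀ u v w, ∀ M : Finset ι, M.card + 1 = d → M ⊆ A u → M ⊆ A v → M ⊆ A w →
      u ≠ v → u ≠ w → v = w)
    (hconn : G.Connected) : Skeleton G d := by
  classical
  have := Fintype.ofFinite V
  have hV : Nonempty V := hconn.nonempty
  -- the neighbour obtained by exchanging `a`
  choose! n hn1 hn2 using hnb
  have hcap : ∀ v, ∀ a ∈ A v, A v ∩ A (n v a) = (A v).erase a := by
    intro v a ha
    ext i
    rw [mem_inter, mem_erase]
    constructor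
    · rintro ⟨h1, h2⟩
      exact ⟨fun h => hn1 v a ha (h ▸ h2), h1⟩
    · rintro ⟨h1, h2⟩
      exact ⟨h2, hn2 v a ha (mem_erase.2 ⟨h1, h2⟩)⟩
  have hcard1 : ∀ v, ∀ a ∈ A v, ((A v).erase a).card + 1 = d := by
    intro v a ha
    rw [card_erase_of_mem ha, hc]
    omega
  have hnadj : ∀ v, ∀ a ∈ A v, G.Adj v (n v a) := by
    intro v a ha
    rw [hadj, hcap v a ha]
    exact hcard1 v a ha
  have hninj : ∀ v, ∀ a ∈ A v, ∀ b ∈ A v, n v a = n v b → a = b := by
    intro v a ha b hb h
    by_contra hab
    have h1 : a ∈ A (n v b) := hn2 v b hb (mem_erase.2 ⟨hab, ha⟩)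
    rw [← h] at h1
    exact hn1 v a ha h1
  -- every neighbour is of this form
  have hex : ∀ v w, G.Adj v w → ∃ a ∈ A v, w = n v a := by
    intro v w hvw
    have h1 := (hadj v w).1 hvw
    obtain ⟨a, ha, haw⟩ : ∃ a ∈ A v, a ∉ A w := by
      by_contra h
      push Not at h
      have h2 : A v ∩ A w = A v := inter_eq_left.2 h
      rw [h2, hc] at h1
      omega
    refine ⟨a, ha, ?_⟩
    have h2 : A v ∩ A w = (A v).erase a := by
      refine eq_of_subset_of_card_le ?_ ?_
      · intro i hi
        rw [mem_inter] at hi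
        exact mem_erase.2 ⟨fun h => haw (h ▸ hi.2), hi.1⟩
      · have := hcard1 v a ha
        omega
    refine hline v w (n v a) ((A v).erase a) (hcard1 v a ha) (erase_subset _ _) ?_ ?_ hvw.ne
      (hnadj v a ha).ne
    · rw [← h2]
      exact inter_subset_right
    · exact hn2 v a ha
  have hnbset : ∀ v, G.neighborSet v = ((A v).image (n v) : Finset V) := by
    intro v
    ext w
    rw [SimpleGraph.mem_neighborSet, mem_coe, mem_image]
    constructor
    · intro h
      obtain ⟨a, ha, rfl⟩ := hex v w h
      exact ⟨a, ha, rfl⟩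
    · rintro ⟨a, ha, rfl⟩
      exact hnadj v a ha
  refine ⟨hconn, ?_, ?_⟩
  · intro v
    rw [hnbset, Set.ncard_coe_finset, card_image_of_injOn, hc]
    intro a ha b hb h
    exact hninj v a ha b hb h
  · let f : Finset ι → Set (Sym2 V) := fun S => {e | e ∈ G.edgeSet ∧ ∀ x ∈ e, S ⊆ A x}
    have hfmem : ∀ (S : Finset ι) x y, s(x, y) ∈ f S ↔ G.Adj x y ∧ S ⊆ A x ∧ S ⊆ A y := by
      intro S x y
      simp only [f, Set.mem_ofPred_eq, SimpleGraph.mem_edgeSet, Sym2.mem_iff, forall_eq_or_imp,
        forall_eq]
    refine ⟨{g | ∃ S : Finset ι, S.card + 2 = d ∧ g = f S}, ?_, ?_, ?_, ?_⟩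
    · rintro _ ⟨S, _, rfl⟩ e he
      exact he.1
    · rintro _ ⟨S, hS, rfl⟩ v
      by_cases hSv : S ⊆ A v
      · right
        have h1 : {e ∈ f S | v ∈ e} =
            (((A v \ S).image fun a => s(v, n v a) : Finset (Sym2 V)) : Set (Sym2 V)) := by
          ext e
          rw [Set.mem_ofPred_eq, mem_coe, mem_image]
          constructor
          · rintro ⟨he, hv⟩
            obtain ⟨w, rfl⟩ := Sym2.mem_iff_exists.1 hv
            rw [hfmem] at he
            obtain ⟨a, ha, rfl⟩ := hex v w he.1
            refine ⟨a, mem_sdiff.2 ⟨ha, fun h => hn1 v a ha (he.2.2 h)⟩, rfl⟩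
          · rintro ⟨a, ha, rfl⟩
            rw [mem_sdiff] at ha
            refine ⟨?_, Sym2.mem_mk_left _ _⟩
            rw [hfmem]
            refine ⟨hnadj v a ha.1, hSv, fun i hi => ?_⟩
            exact hn2 v a ha.1 (mem_erase.2 ⟨fun h => ha.2 (h ▸ hi), hSv hi⟩)
        rw [h1, Set.ncard_coe_finset, card_image_of_injOn, card_sdiff_of_subset hSv, hc]
        · omega
        · intro a ha b hb h
          have ha' := (mem_sdiff.1 ha).1
          have hb' := (mem_sdiff.1 hb).1
          exact hninj v a ha' b hb' (Sym2.congr_right.1 h)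
      · left
        have h1 : {e ∈ f S | v ∈ e} = ∅ := by
          rw [Set.eq_empty_iff_forall_notMem]
          rintro e ⟨he, hv⟩
          exact hSv (he.2 v hv)
        rw [h1, Set.ncard_empty]
    · intro e he e' he' hne v hv hv'
      obtain ⟨x, rfl⟩ := Sym2.mem_iff_exists.1 hv
      obtain ⟨y, rfl⟩ := Sym2.mem_iff_exists.1 hv'
      obtain ⟨a, ha, rfl⟩ := hex v x he
      obtain ⟨b, hb, rfl⟩ := hex v y he'
      have hab : a ≠ b := fun h => hne (by rw [h])
      have hsub : ∀ S, S = (A v).erase a \ {b} → S.card + 2 = d ∧ S ⊆ A v ∧ S ⊆ A (n v a) ∧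
          S ⊆ A (n v b) := by
        rintro S rfl
        refine ⟨?_, ?_, ?_, ?_⟩
        · rw [card_sdiff_of_subset (by
            rw [singleton_subset_iff]
            exact mem_erase.2 ⟨hab.symm, hb⟩), card_singleton]
          have := hcard1 v a ha
          have h2 : 0 < ((A v).erase a).card := card_pos.2 ⟨b, mem_erase.2 ⟨hab.symm, hb⟩⟩
          omega
        · exact sdiff_subset.trans (erase_subset _ _)
        · exact sdiff_subset.trans (hn2 v a ha)
        · intro i hi
          rw [mem_sdiff, mem_erase, mem_singleton] at hi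
          exact hn2 v b hb (mem_erase.2 ⟨hi.2, hi.1.2⟩)
      obtain ⟨h1, h2, h3, h4⟩ := hsub _ rfl
      exact ⟨f ((A v).erase a \ {b}), ⟨_, h1, rfl⟩, (hfmem _ _ _).2 ⟨he, h2, h3⟩,
        (hfmem _ _ _).2 ⟨he', h2, h4⟩⟩
    · rintro _ ⟨S, hS, rfl⟩ _ ⟨T, hT, rfl⟩ hne
      have hST : S ≠ T := fun h => hne (by rw [h])
      rw [Set.ncard_le_one (Set.toFinite _)]
      -- the union of the two sets is the common part of the two ends
      have hun : ∀ x y, s(x, y) ∈ f S ∩ f T → A x ∩ A y = S ∪ T := by
        rintro x y ⟨h1, h2⟩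
        rw [hfmem] at h1 h2
        symm
        refine eq_of_subset_of_card_le ?_ ?_
        · exact union_subset (subset_inter h1.2.1 h1.2.2) (subset_inter h2.2.1 h2.2.2)
        · have h3 := (hadj x y).1 h1.1
          have h4 : S.card < (S ∪ T).card := by
            refine card_lt_card ?_
            rw [ssubset_iff_subset_ne]
            refine ⟨subset_union_left, fun h => hST ?_⟩
            have h5 : T ⊆ S := by
              rw [h]
              exact subset_union_right
            exact (eq_of_subset_of_card_le h5 (by omega)).symm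
          omega
      intro e he e' he'
      induction e with
      | _ x y =>
        induction e' with
        | _ z w =>
          have h1 := hun x y he
          have h2 := hun z w he'
          have hxy : G.Adj x y := he.1.1
          have hzw : G.Adj z w := he'.1.1
          have hM : (S ∪ T).card + 1 = d := by
            rw [← h1]
            exact (hadj x y).1 hxy
          have mx : S ∪ T ⊆ A x := h1 ▸ inter_subset_left
          have my : S ∪ T ⊆ A y := h1 ▸ inter_subset_right
          have mz : S ∪ T ⊆ A z := h2 ▸ inter_subset_left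
          have mw : S ∪ T ⊆ A w := h2 ▸ inter_subset_right
          by_cases hxz : x = z
          · subst hxz
            have : y = w := hline x y w _ hM mx my mw hxy.ne hzw.ne
            rw [this]
          · have hyz : y = z := hline x y z _ hM mx my mz hxy.ne hxz
            subst hyz
            have : x = w := hline y x w _ hM my mx mw hxy.ne' hzw.ne
            rw [this]
            exact Sym2.eq_swap

end FewFacets
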