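import Pool.Agent.FewFacets.Back
import Pool.Agent.FewFacets.SkelSets
import Pool.Agent.FewFacets.Conn
import Pool.Agent.FewFacets.ProdHom
import Pool.Agent.PolyProd.Main

/-!
Products of simple polytopes have Hamilton cycles.
-/

set_option linter.unusedSectionVars false

namespace FewFacets

open Finset PolyProd

open scoped SimpleGraph

/-- a connected graph given by the sets of facets has the skeleton properties -/
theorem Simp.skeleton {V κ : Type*} [Finite V] [DecidableEq κ] {𝒱 : Finset (Finset κ)} {d : ℕ}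
    (hd : 2 ≤ d) (h : Simp 𝒱 d) {Γ : SimpleGraph V} (e : vgraph 𝒱 d ≃g Γ)
    (hconn : Γ.Connected) : Skeleton Γ d := by
  refine skeleton_of_sets Γ hd (fun v => (e.symm v).1)
    (fun u v huv => e.symm.injective (Subtype.ext huv)) (fun v => h.card _ (e.symm v).2) ?_ ?_ ?_
    hconn
  · intro u v
    rw [← e.symm.map_adj_iff]
    change (e.symm u ≠ e.symm v ∧ _) ↔ _
    constructor
    · exact fun h1 => h1.2
    · intro h1
      refine ⟨fun h2 => ?_, h1⟩
      rw [h2, inter_self, h.card _ (e.symm v).2] at h1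
      omega
  · intro v a ha
    obtain ⟨V', hV', h1, h2⟩ := h.nb _ (e.symm v).2 a ha
    refine ⟨e ⟨V', hV'⟩, ?_, ?_⟩
    · rwa [RelIso.symm_apply_apply]
    · rwa [RelIso.symm_apply_apply]
  · intro u v w M hM hu hv hw huv huw
    have h1 : ∀ {a b : V}, a ≠ b → (e.symm a).1 ≠ (e.symm b).1 := fun hab h2 =>
      hab (e.symm.injective (Subtype.ext h2))
    have h2 := h.line M _ _ _ hM (e.symm u).2 (e.symm v).2 (e.symm w).2 hu hv hw (h1 huv) (h1 huw)
    exact e.symm.injective (Subtype.ext h2)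

/-- the graph of a simple polytope is connected and regular, without small edge cuts -/
theorem SimplePolytope.regConn {d : ℕ} (hd : 2 ≤ d) {P : Set (EuclideanSpace ℝ (Fin d))}
    (hP : SimplePolytope d P) : Finite (P.extremePoints ℝ) ∧ RegConn (polytopeGraph P) d := by
  obtain ⟨n, f, b, rfl, h⟩ := hP.good hd
  obtain ⟨e⟩ := h.iso (by omega)
  have hfin : Finite ((Poly f b).extremePoints ℝ) := Finite.of_equiv _ e.toEquiv
  obtain ⟨z, hz⟩ := hP.2.2.1
  refine ⟨hfin, Skeleton.regConn ?_⟩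
  exact (h.simp (by omega)).skeleton hd e
    (polytopeGraph_connected hP.2.1 ⟨z, interior_subset hz⟩)

/-- the product of two simple polytopes of dimension at least 2 has a Hamilton cycle -/
theorem prod_hamiltonian {d e : ℕ} (hd : 2 ≤ d) (he : 2 ≤ e)
    {P : Set (EuclideanSpace ℝ (Fin d))} {Q : Set (EuclideanSpace ℝ (Fin e))}
    (hP : SimplePolytope d P) (hQ : SimplePolytope e Q)
    [DecidableEq ((P ×ˢ Q).extremePoints ℝ)] :
    ∃ (v : (P ×ˢ Q).extremePoints ℝ) (p : (polytopeGraph (P ×ˢ Q)).Walk v v),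
      p.IsHamiltonianCycle := by
  classical
  obtain ⟨h1, h2⟩ := hP.regConn hd
  obtain ⟨h3, h4⟩ := hQ.regConn he
  obtain ⟨v, p, hp⟩ := product_hamiltonian h2 h4 hd he
  obtain ⟨φ, hφ⟩ := prod_hom P Q
  let f : (polytopeGraph P □ polytopeGraph Q) →g polytopeGraph (P ×ˢ Q) :=
    ⟨φ, fun {a b} hab => hφ a b hab⟩
  exact ⟨_, p.map f, hp.map (f := f) φ.bijective⟩

end FewFacets
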