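import Pool.Agent.FewFacets.GoodGraph
import Pool.Agent.FewFacets.IsGood

/-!
From inequalities to polytopes.
-/

set_option linter.unusedSectionVars false

namespace FewFacets

open Finset

section

variable {E : Type*} [NormedAddCommGroup E] [NormedSpace ℝ E] [FiniteDimensional ℝ E]
  {ι : Type*} [Fintype ι] [DecidableEq ι] {f : ι → E →ₗ[ℝ] ℝ} {b : ι → ℝ} {d K : ℕ}

/-- the vertices of a simple polytope as sets of inequalities -/
lemma Good.simp (h : Good f b d) (hd : 1 ≤ d) : Simp (vert f b d) d := by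
  obtain ⟨K, hcard, D⟩ := h.dataK hd
  exact ⟨fun V hV => (mem_vert.1 hV).1, fun V hV a ha => D.exists_nb h.dim hcard hV ha,
    fun M V V' V'' hM hV hV' hV'' h1 h2 h3 hne hne' =>
      D.line h.dim hcard hM hV hV' hV'' h1 h2 h3 hne hne'⟩

/-- the graph of the polyhedron is the graph of the sets of active inequalities -/
theorem Good.iso (h : Good f b d) (hd : 1 ≤ d) :
    Nonempty (vgraph (vert f b d) d ≃g polytopeGraph (Poly f b)) := by
  classical
  obtain ⟨K, hcard, D⟩ := h.dataK hd
  have hcardE : Fintype.card ι = Module.finrank ℝ E + K := by rw [hcard, h.dim]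
  have hinj : ∀ v ∈ (Poly f b).extremePoints ℝ, ∀ w ∈ (Poly f b).extremePoints ℝ,
      act f b v = act f b w → v = w := by
    intro v hv w hw hvw
    refine (D.unique hv.1 (D.card_of_extreme hcardE hv) ?_).symm
    intro j hj
    by_contra hcon
    rw [← mem_act_iff, hvw, mem_act_iff] at hcon
    exact hcon hj
  have hex : ∀ V : {V // V ∈ vert f b d}, ∃ q : (Poly f b).extremePoints ℝ,
      act f b q.1 = V.1 := by
    rintro ⟨V, hV⟩
    obtain ⟨hVc, q, hq, hqV⟩ := mem_vert.1 hV
    exact ⟨⟨q, D.extreme hq (D.supp_card hcard hVc hqV)⟩, hqV⟩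
  choose ψ hψ using hex
  have hmem : ∀ x : (Poly f b).extremePoints ℝ, act f b x.1 ∈ vert f b d := by
    intro x
    refine mem_vert.2 ⟨?_, x.1, x.2.1, rfl⟩
    have h1 := D.card_of_extreme hcardE x.2
    have h2 := act_card_add (f := f) (b := b) x.1
    omega
  let e : {V // V ∈ vert f b d} ≃ (Poly f b).extremePoints ℝ :=
    { toFun := ψ
      invFun := fun x => ⟨act f b x.1, hmem x⟩
      left_inv := fun V => Subtype.ext (hψ V)
      right_inv := fun x => Subtype.ext (hinj _ (ψ ⟨act f b x.1, hmem x⟩).2 _ x.2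
        (hψ ⟨act f b x.1, hmem x⟩)) }
  have he : ∀ V, act f b (e V).1 = V.1 := hψ
  refine ⟨⟨e, ?_⟩⟩
  intro V W
  show ((e V ≠ e W) ∧ IsExtreme ℝ (Poly f b) (segment ℝ ((e V : E)) ((e W : E)))) ↔
    (V ≠ W ∧ (V.1 ∩ W.1).card + 1 = d)
  rw [e.injective.ne_iff]
  refine and_congr_right fun hVW => ?_
  have hne : (e V : E) ≠ (e W : E) := fun hc => hVW (e.injective (Subtype.ext hc))
  rw [D.edge_iff h.dim hd hcard (e V).2 (e W).2 hne, he, he]

end

/-- every graph of an abstractly given simple polytope is the graph of a simple polytope -/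
theorem IsGood.polytope {β : Type*} {d : ℕ} (hd : 1 ≤ d) {Γ : SimpleGraph β} (h : IsGood d Γ) :
    ∃ P, SimplePolytope d P ∧ Nonempty (polytopeGraph P ≃g Γ) := by
  obtain ⟨κ, _, _, f, b, hG, ⟨iso⟩⟩ := h
  obtain ⟨iso'⟩ := hG.iso hd
  refine ⟨Poly f b, ⟨?_, hG.bounded, hG.interior, fun v => hG.ncard hd v⟩,
    ⟨iso'.symm.trans iso⟩⟩
  let e : κ ≃ Fin (Fintype.card κ) := Fintype.equivFin κ
  refine ⟨Fintype.card κ, fun i => (InnerProductSpace.toDual ℝ _).symm
    (LinearMap.toContinuousLinearMap (f (e.symm i))), fun i => b (e.symm i), ?_⟩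
  ext x
  constructor
  · intro hx i
    rw [InnerProductSpace.toDual_symm_apply]
    exact hx (e.symm i)
  · intro hx i
    have h1 := hx (e i)
    rw [InnerProductSpace.toDual_symm_apply] at h1
    simp only [e.symm_apply_apply] at h1
    exact h1

end FewFacets
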