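import Pool.Agent.FewFacets.MultiWalk

/-!
Walks which visit a root many times and every other vertex at most once.
-/

namespace PolySum

/-- the number of the vertices other than `r` on a walk -/
noncomputable def cov {U : Type*} {G : SimpleGraph U} (r : U) {a b : U} (q : G.Walk a b) : ℕ :=
  {v | v ≠ r ∧ v ∈ q.support}.ncard

open Classical in
/-- closed walks at `r` visiting no other vertex twice cover at most `a` other vertices, and at
most `b` if they visit `r` at least twice -/
def Short {U : Type*} (G : SimpleGraph U) (r : U) (a b : ℕ) : Prop :=
  ∀ q : G.Walk r r, (∀ v, v ≠ r → q.support.count v ≤ 1) →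
    cov r q ≤ a ∧ (2 ≤ q.support.tail.count r → cov r q ≤ b)

open Classical in
/-- walks visiting no vertex other than `r` twice cover at most `e` other vertices -/
def Wide {U : Type*} (G : SimpleGraph U) (r : U) (e : ℕ) : Prop :=
  ∀ (a b : U) (q : G.Walk a b), (∀ v, v ≠ r → q.support.count v ≤ 1) → cov r q ≤ e

end PolySum
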