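import Pool.Agent.FewFacets.ShStep2
import Pool.Agent.FewFacets.Host
import Pool.Agent.FewFacets.Realize

/-!
The recursion for simple polytopes.
-/

set_option linter.unusedSectionVars false

namespace FewFacets

open Finset PolySum

/-- simple polytopes with `n + 1` vertices and a root satisfying the bounds `a`, `b`, `e` -/
def Fam (d n a b e : ℕ) : Prop :=
  ∃ (U : Type) (_ : Finite U) (Γ : SimpleGraph U) (r : U), IsGood d Γ ∧ Nat.card U = n + 1 ∧
    Short Γ r a b ∧ Wide Γ r e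

theorem cov_le_card {U : Type*} [Finite U] {Γ : SimpleGraph U} (r : U) {a b : U}
    (q : Γ.Walk a b) : cov r q ≤ Nat.card U - 1 := by
  have h1 : ({v | v ≠ r} : Set U).ncard = Nat.card U - 1 := by
    have h : ({v | v ≠ r} : Set U) = Set.univ \ {r} := by
      ext y
      simp
    rw [h, Set.ncard_sdiff_singleton_of_mem (Set.mem_univ _), Set.ncard_univ]
  rw [← h1]
  exact Set.ncard_le_ncard (fun v hv => hv.1) (Set.toFinite _)

theorem Fam.start {d : ℕ} {U : Type} [Finite U] {Γ : SimpleGraph U} (r : U) (h : IsGood d Γ)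
    {n : ℕ} (hn : Nat.card U = n + 1) : Fam d n n n n := by
  have h1 : ∀ {a b : U} (q : Γ.Walk a b), cov r q ≤ n := by
    intro a b q
    have := cov_le_card r q
    omega
  exact ⟨U, inferInstance, Γ, r, h, hn, fun q _ => ⟨h1 q, fun _ => h1 q⟩, fun a b q _ => h1 q⟩

theorem Fam.step {d : ℕ} (hd : 3 ≤ d) {β : Type} [Finite β] {B : SimpleGraph β} {S : Set β}
    (hB : IsGood d B) (hbip : ∀ b b', B.Adj b b' → (b ∈ S ↔ b' ∉ S))
    (hbal : S.ncard ≤ Sᶜ.ncard) {x : β} (hxS : x ∉ S) {V : Type} [Finite V]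
    {P : SimpleGraph V} (hPg : IsGood d P) {w : V}
    (hP : ∀ (i : DecidableEq V) (q : P.Walk w w), ¬ ∀ v, q.support.tail.count v = 1)
    {m κ s : ℕ} (hm : m = Sᶜ.ncard - 1) (hκ : κ = Nat.card V - 1) (hs : s = m * κ)
    {n a b e : ℕ} (hba : b ≤ a) (h : Fam d n a b e) :
    ∃ n' a' b' e', Fam d n' a' b' e' ∧ b' ≤ a' ∧
      s * n ≤ n' ∧ n' ≤ s * n + (m + 1) ∧
      a' ≤ (m + 1) + max (m * ((κ - 1) * a + b)) ((m - 1) * (κ * a)) ∧
      b' ≤ (m + 1) + (m - 1) * (κ * a) ∧ e' ≤ (m + 1) + (2 * e + s * a) := by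
  obtain ⟨U, hU, Γ, r, hΓ, hn, h1, h2⟩ := h
  obtain ⟨port0, hp0, hi0⟩ := hB.exists_port (by omega) (hPg.ncard (by omega) w)
  have hH : IsGood d (sumGraph B P w (Rep S x) port0) :=
    IsGood.sumSet (by omega) (fun h => h.simp (by omega)) hB hPg w port0 _ (Set.toFinite _)
      (fun r _ z _ => hp0 r z) (fun r _ z z' hz hz' h => hi0 r z z' hz hz' h)
  have hfin : Finite (SumVert (Rep S x) w) := Subtype.finite
  obtain ⟨port1, hp1, hi1⟩ := hH.exists_port (by omega) (hΓ.ncard (by omega) r)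
  have hS' : IsGood d (sumGraph (sumGraph B P w (Rep S x) port0) Γ r
      (InCopies (Rep S x) w) port1) :=
    IsGood.sumSet (by omega) (fun h => h.simp (by omega)) hH hΓ r port1 _ (Set.toFinite _)
      (fun r _ z _ => hp1 r z) (fun r _ z z' hz hz' h => hi1 r z z' hz hz' h)
  have hfin2 : Finite (SumVert (InCopies (Rep S x) w) r) := Subtype.finite
  have hcS : 1 ≤ Sᶜ.ncard := by
    rw [Nat.one_le_iff_ne_zero, ← Nat.pos_iff_ne_zero, Set.ncard_pos]
    exact ⟨x, hxS⟩
  have hRep := card_Rep (S := S) (x := x) hxS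
  have hIn := card_InCopies (S := S) (x := x) (w := w)
  have hIn' : (InCopies (Rep S x) w).ncard = s := by rw [hIn, hRep, ← hm, ← hκ, hs]
  have hoth := card_other (S := S) (x := x) (w := w)
  have hx1 : kept (w := w) (notMem_Rep S x) ∉ InCopies (Rep S x) w :=
    notMem_InCopies (notMem_Rep S x)
  have hcompl : (InCopies (Rep S x) w)ᶜ.ncard = {z : SumVert (Rep S x) w |
      z ∉ InCopies (Rep S x) w ∧ z ≠ kept (notMem_Rep S x)}.ncard + 1 := by
    rw [← Set.ncard_insert_of_notMem (a := kept (w := w) (notMem_Rep S x))]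
    · congr 1
      ext z
      by_cases hz : z = kept (notMem_Rep S x)
      · simp [hz, hx1]
      · simp [hz]
    · rintro ⟨-, h3⟩
      exact h3 rfl
  have hcard := card_sum (β := SumVert (Rep S x) w) (V := U) (R := InCopies (Rep S x) w)
    (w := r)
  rw [hIn', hn, hcompl, Nat.add_sub_cancel] at hcard
  have hstep := Short.step (B := B) (P := P) (w := w) (Γ := Γ) (r := r) (port0 := port0)
    (port1 := port1) hbip hxS hbal (fun q => hP _ q) (fun y z _ => hp0 y z)
    (fun y z _ => hp1 y z) hm hκ hba h1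
  have hwide := Wide.sum (B := sumGraph B P w (Rep S x) port0) (G := Γ) (w := r)
    (port := port1) hx1 (fun y _ z _ => hp1 y z) h1 h2
  rw [hIn'] at hwide
  set t := {z : SumVert (Rep S x) w | z ∉ InCopies (Rep S x) w ∧
    z ≠ kept (notMem_Rep S x)}.ncard with ht
  refine ⟨s * n + t, (m + 1) + max (m * ((κ - 1) * a + b)) ((m - 1) * (κ * a)),
    (m + 1) + (m - 1) * (κ * a), t + (2 * e + s * a),
    ⟨SumVert (InCopies (Rep S x) w) r, hfin2, _, _, hS', ?_, hstep, hwide⟩,
    Nat.add_le_add_left (le_max_right _ _) _, Nat.le_add_right _ _, ?_, le_rfl, le_rfl, ?_⟩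
  · rw [hcard]
    ring
  · omega
  · omega

end FewFacets
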