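import Pool.Agent.FewFacets.ShDefs
set_option linter.unusedSectionVars false
namespace PolySum
open Finset
variable {β V : Type*} {B : SimpleGraph β} {G : SimpleGraph V} {w : V} {R : Set β}
  {port : β → β → V}

/-- a vertex of the sum over a vertex which is not replaced -/
theorem eq_kept_iff {s : β} (hs : s ∉ R) (y : SumVert R w) : y = kept hs ↔ y.1.1 = s := by
  constructor
  · rintro rfl
    rfl
  · intro h
    refine Subtype.ext (Prod.ext h ?_)
    by_contra hne
    exact hs (h ▸ y.2.2 hne)

/-- the number of visits in the support -/
theorem count_support_tail {U : Type*} [DecidableEq U] {H : SimpleGraph U} {a b : U}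
    (q : H.Walk a b) (v : U) :
    q.support.count v = q.support.tail.count v + (if a = v then 1 else 0) := by
  conv_lhs => rw [← q.cons_tail_support]
  rw [List.count_cons]
  simp only [beq_iff_eq]

/-- A walk of the sum seen in the base. -/
theorem base_walk [DecidableEq β] [DecidableEq (SumVert R w)]
    {a b : SumVert R w} (p : (sumGraph B G w R port).Walk a b) :
    ∃ q : B.Walk a.1.1 b.1.1,
      (∀ s (hs : s ∉ R), q.support.tail.count s = p.support.tail.count (kept hs)) ∧
      (∀ r ∈ R, q.support.tail.count r + (if a.1.1 = r then 1 else 0) =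
        exits r p + (if b.1.1 = r then 1 else 0)) := by
  induction p with
  | nil => exact ⟨SimpleGraph.Walk.nil, fun s hs => by simp, fun r hr => by simp [exits]⟩
  | cons hadj p ih =>
    rename_i x y z
    obtain ⟨q, hq1, hq2⟩ := ih
    have hex : ∀ r, exits r (SimpleGraph.Walk.cons hadj p) = exits r p +
        (if x.1.1 = r ∧ y.1.1 ≠ r then 1 else 0) := by
      intro r
      unfold exits
      rw [SimpleGraph.Walk.darts_cons, List.countP_cons]
      simp only [decide_eq_true_eq]
    by_cases hxy : x.1.1 = y.1.1
    · have hyR : y.1.1 ∈ R := by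
        by_contra hyR
        have hy : y.1.2 = w := by
          by_contra hne
          exact hyR (y.2.2 hne)
        have hx : x.1.2 = w := by
          by_contra hne
          exact hyR (hxy ▸ x.2.2 hne)
        rcases hadj with ⟨_, h⟩ | ⟨h, _⟩
        · rw [hx, hy] at h
          exact G.ne_of_adj h rfl
        · exact B.ne_of_adj h hxy
      refine ⟨q.copy hxy.symm rfl, fun s hs => ?_, fun r hr => ?_⟩
      · rw [SimpleGraph.Walk.support_copy, hq1 s hs, SimpleGraph.Walk.support_cons,
          List.tail_cons, count_support_tail p, if_neg, add_zero]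
        intro h
        rw [eq_kept_iff] at h
        exact hs (h ▸ hyR)
      · have h0 : (if y.1.1 = r ∧ y.1.1 ≠ r then 1 else 0) = 0 := if_neg (fun h => h.2 h.1)
        rw [SimpleGraph.Walk.support_copy, hex, hxy, h0, add_zero]
        exact hq2 r hr
    · have hB : B.Adj x.1.1 y.1.1 := by
        rcases hadj with ⟨h, _⟩ | ⟨h, _⟩
        · exact absurd h hxy
        · exact h
      refine ⟨SimpleGraph.Walk.cons hB q, fun s hs => ?_, fun r hr => ?_⟩
      · rw [SimpleGraph.Walk.support_cons, List.tail_cons, SimpleGraph.Walk.support_cons,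
          List.tail_cons, count_support_tail p, count_support_tail q, hq1 s hs]
        congr 1
        by_cases h : y.1.1 = s
        · rw [if_pos h, if_pos ((eq_kept_iff hs y).2 h)]
        · rw [if_neg h, if_neg (fun h' => h ((eq_kept_iff hs y).1 h'))]
      · rw [SimpleGraph.Walk.support_cons, List.tail_cons, count_support_tail q, hex]
        have h1 := hq2 r hr
        have h2 : (if x.1.1 = r ∧ y.1.1 ≠ r then 1 else 0) = (if x.1.1 = r then 1 else 0) := by
          by_cases h : x.1.1 = r
          · rw [if_pos h, if_pos ⟨h, fun h' => hxy (h.trans h'.symm)⟩]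
          · rw [if_neg h, if_neg (fun h' => h h'.1)]
        rw [h2]
        omega

open Classical in
/-- A closed walk of the sum seen in the base. -/
theorem base_closed {x : β} (hx : x ∉ R)
    (p : (sumGraph B G w R port).Walk (kept hx) (kept hx)) :
    ∃ q : B.Walk x x,
      (∀ s (hs : s ∉ R), q.support.tail.count s = p.support.tail.count (kept hs)) ∧
      (∀ r ∈ R, q.support.tail.count r = exits r p) := by
  obtain ⟨q, h1, h2⟩ := base_walk p
  refine ⟨q, h1, fun r hr => ?_⟩
  exact Nat.add_right_cancel (h2 r hr)

open Classical in
/-- A closed walk of the sum seen in the copy at `r`. -/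
theorem copy_closed {x : β} (hx : x ∉ R) {r : β} (hr : r ∈ R)
    (hport : ∀ b, B.Adj r b → G.Adj w (port r b))
    (p : (sumGraph B G w R port).Walk (kept hx) (kept hx)) :
    ∃ q : G.Walk w w,
      (∀ v (hv : v ≠ w), q.support.tail.count v = p.support.tail.count (inCopy hr v hv)) ∧
      q.support.tail.count w = exits r p := by
  have hxr : x ≠ r := fun h => hx (h ▸ hr)
  obtain ⟨q, h1, h2⟩ := proj_list hr hport [⟨kept hx, kept hx, p⟩] (by
    intro p' hp'
    rw [List.mem_singleton] at hp'
    subst hp'
    exact ⟨hxr, hxr⟩)
  refine ⟨q, fun v hv => ?_, ?_⟩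
  · rw [h1 v hv]
    have h3 : (kept hx : SumVert R w) ≠ inCopy hr v hv := fun h =>
      hxr (congrArg (fun y : SumVert R w => y.1.1) h)
    have h4 := count_support_tail p (inCopy hr v hv)
    rw [if_neg h3, add_zero] at h4
    simpa [visits] using h4
  · rw [h2]
    simp

/-- a closed walk not coming back to its start is trivial -/
theorem nil_of_count {U : Type*} [DecidableEq U] {G : SimpleGraph U} {r : U} (q : G.Walk r r)
    (h : q.support.tail.count r = 0) : q.support = [r] := by
  cases q with
  | nil => rfl
  | cons hadj p =>
    rw [SimpleGraph.Walk.support_cons, List.tail_cons, List.count_eq_zero] at h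
    exact absurd p.end_mem_support h
end PolySum
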