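import Pool.Agent.FewFacets.ShDefs
set_option linter.unusedSectionVars false
namespace PolySum
open Finset
variable {β V : Type*} {B : SimpleGraph β} {G : SimpleGraph V} {w : V} {R : Set β}
  {port : β → β → V}

/-- leaving and entering the vertices of the sum over `r` -/
theorem exits_add_count [DecidableEq β] {a b : SumVert R w}
    (p : (sumGraph B G w R port).Walk a b) {r : β} (hr : r ∉ R) :
    p.support.tail.countP (fun y => decide (y.1.1 = r)) + (if a.1.1 = r then 1 else 0) =
      exits r p + (if b.1.1 = r then 1 else 0) := by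
  induction p with
  | nil => simp [exits]
  | cons hadj p ih =>
    rename_i x y z
    have hex : exits r (SimpleGraph.Walk.cons hadj p) = exits r p +
        (if x.1.1 = r ∧ y.1.1 ≠ r then 1 else 0) := by
      unfold exits
      rw [SimpleGraph.Walk.darts_cons, List.countP_cons]
      simp only [decide_eq_true_eq]
    have hne : x.1.1 = r → y.1.1 ≠ r := by
      intro hx hy
      have hy2 : y.1.2 = w := by
        by_contra hne
        exact hr (hy ▸ y.2.2 hne)
      have hx2 : x.1.2 = w := by
        by_contra hne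
        exact hr (hx ▸ x.2.2 hne)
      rcases hadj with ⟨_, h⟩ | ⟨h, _⟩
      · rw [hx2, hy2] at h
        exact G.ne_of_adj h rfl
      · exact B.ne_of_adj h (hx.trans hy.symm)
    have h2 : (if x.1.1 = r ∧ y.1.1 ≠ r then 1 else 0) = (if x.1.1 = r then 1 else 0) := by
      by_cases h : x.1.1 = r
      · rw [if_pos h, if_pos ⟨h, hne h⟩]
      · rw [if_neg h, if_neg (fun h' => h h'.1)]
    have h3 : p.support.countP (fun y => decide (y.1.1 = r)) =
        p.support.tail.countP (fun y => decide (y.1.1 = r)) + (if y.1.1 = r then 1 else 0) := by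
      conv_lhs => rw [← p.cons_tail_support]
      rw [List.countP_cons]
      simp only [decide_eq_true_eq]
    rw [SimpleGraph.Walk.support_cons, List.tail_cons, h3, hex, h2]
    omega

theorem countP_eq_count_kept [DecidableEq β] [DecidableEq (SumVert R w)] {s : β} (hs : s ∉ R)
    (L : List (SumVert R w)) :
    L.countP (fun y => decide (y.1.1 = s)) = L.count (kept hs) := by
  unfold List.count
  refine List.countP_congr fun x _ => ?_
  rw [decide_eq_true_eq, beq_iff_eq]
  constructor
  · intro hx
    have hxw : x.1.2 = w := by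
      by_contra hne
      exact hs (hx ▸ x.2.2 hne)
    exact Subtype.ext (Prod.ext hx hxw)
  · intro hx
    rw [hx]
    rfl

open Classical in
/-- the copies left by a closed walk at a vertex of the class without `S` -/
theorem exits_add_le [Finite β] {S : Set β} (hbip : ∀ b b', B.Adj b b' → (b ∈ S ↔ b' ∉ S))
    (hRS : ∀ b ∈ R, b ∉ S) {x : β} (hxS : x ∉ S) (hx : x ∉ R)
    (p : (sumGraph B G w R port).Walk (kept hx) (kept hx))
    (h1 : ∀ s (hs : s ∉ R), s ∈ S → p.support.count (kept hs) ≤ 1)
    (Rf : Finset β) (hRf : ∀ y, y ∈ Rf ↔ y ∈ R) :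
    ∑ g ∈ Rf, exits g p + p.support.tail.count (kept hx) ≤ S.ncard := by
  have := Fintype.ofFinite β
  set Sf : Finset β := univ.filter (fun y => y ∈ S) with hSf
  have hSm : ∀ y, y ∈ Sf ↔ y ∈ S := fun y => by simp [hSf]
  have hSc : S.ncard = Sf.card := by
    rw [← Set.ncard_coe_finset]
    congr 1
    ext y
    rw [mem_coe, hSm]
  have h0 : p.support.tail.count (kept hx) = exits x p := by
    rw [← countP_eq_count_kept hx]
    exact Nat.add_right_cancel (exits_add_count p hx)
  have hxRf : x ∉ Rf := fun h => hx ((hRf x).1 h)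
  rw [h0, add_comm, ← sum_insert (f := fun g => exits g p) hxRf, hSc]
  have h2 : ∑ r ∈ insert x Rf, exits r p ≤
      p.darts.countP (fun e => decide (e.snd.1.1 ∈ Sf)) := by
    refine sum_countP_le (insert x Rf) (fun r (e : (sumGraph B G w R port).Dart) =>
      e.fst.1.1 = r ∧ e.snd.1.1 ≠ r) (fun e => e.snd.1.1 ∈ Sf) ?_ ?_ p.darts
    · rintro r hr e ⟨h1, h2⟩
      rw [hSm]
      have hrS : r ∉ S := by
        rcases mem_insert.1 hr with rfl | hr
        · exact hxS
        · exact hRS r ((hRf r).1 hr)
      rcases e.adj with ⟨h3, _⟩ | ⟨h3, _⟩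
      · exact absurd (h3.symm.trans h1) h2
      · by_contra h4
        exact hrS (h1 ▸ (hbip _ _ h3).2 h4)
    · rintro r _ r' _ e ⟨h1, _⟩ ⟨h2, _⟩
      exact h1.symm.trans h2
  have h3 : p.darts.countP (fun e => decide (e.snd.1.1 ∈ Sf)) =
      p.support.tail.countP (fun x => decide (x.1.1 ∈ Sf)) := by
    rw [← p.cons_map_snd_darts, List.tail_cons, List.countP_map]
    rfl
  have h4 : p.support.tail.countP (fun x => decide (x.1.1 ∈ Sf)) ≤
      ∑ s ∈ Sf, p.support.tail.countP (fun x => decide (x.1.1 = s)) :=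
    countP_le_sum Sf (fun s (x : SumVert R w) => x.1.1 = s) (fun x => x.1.1 ∈ Sf)
      (fun x hx => ⟨x.1.1, hx, rfl⟩) _
  have h5 : ∑ s ∈ Sf, p.support.tail.countP (fun x => decide (x.1.1 = s)) ≤ Sf.card := by
    rw [card_eq_sum_ones]
    refine sum_le_sum fun s hs => ?_
    have hsR : s ∉ R := fun h => hRS s h ((hSm s).1 hs)
    rw [countP_eq_count_kept hsR]
    exact ((List.tail_sublist p.support).count_le _).trans (h1 s hsR ((hSm s).1 hs))
  calc ∑ r ∈ insert x Rf, exits r p ≤ _ := h2
    _ = _ := h3
    _ ≤ _ := h4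
    _ ≤ _ := h5
end PolySum
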