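import Mathlib.Tactic
namespace PolySum
open Finset

/-- the sum over the copies -/
theorem group_bound {β : Type*} [DecidableEq β] (Rf : Finset β) (p C : β → ℕ) {κ A b j : ℕ}
    (hA : ∀ g ∈ Rf, C g ≤ κ * A) (h0 : ∀ g ∈ Rf, p g = 0 → C g = 0)
    (h1 : ∀ g ∈ Rf, p g = 1 → C g ≤ (κ - 1) * A + b)
    (hj : 1 ≤ j) (hsum : ∑ g ∈ Rf, p g + j ≤ Rf.card + 1) :
    ∑ g ∈ Rf, C g ≤ max (Rf.card * ((κ - 1) * A + b)) ((Rf.card - 1) * (κ * A)) ∧
      (2 ≤ j → ∑ g ∈ Rf, C g ≤ (Rf.card - 1) * (κ * A)) := by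
  have key : (∃ g ∈ Rf, p g = 0) → ∑ g ∈ Rf, C g ≤ (Rf.card - 1) * (κ * A) := by
    rintro ⟨g, hg, hp⟩
    rw [← Finset.add_sum_erase Rf C hg, h0 g hg hp, Nat.zero_add, ← Finset.card_erase_of_mem hg]
    have h := Finset.sum_le_card_nsmul (Rf.erase g) C (κ * A)
      (fun x hx => hA x (Finset.mem_of_mem_erase hx))
    rwa [smul_eq_mul] at h
  by_cases hz : ∃ g ∈ Rf, p g = 0
  · exact ⟨(key hz).trans (le_max_right _ _), fun _ => key hz⟩
  · have hz' : ∀ g ∈ Rf, 1 ≤ p g := fun g hg => by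
      by_contra h
      exact hz ⟨g, hg, by omega⟩
    have hc : Rf.card ≤ ∑ g ∈ Rf, p g := by
      have h := Finset.card_nsmul_le_sum Rf p 1 hz'
      rwa [smul_eq_mul, Nat.mul_one] at h
    refine ⟨?_, fun h2 => by omega⟩
    have hone : ∀ g ∈ Rf, p g = 1 := by
      have h : ∑ g ∈ Rf, 1 = ∑ g ∈ Rf, p g := by
        rw [Finset.sum_const, smul_eq_mul, Nat.mul_one]
        omega
      intro g hg
      exact ((Finset.sum_eq_sum_iff_of_le hz').1 h g hg).symm
    have h := Finset.sum_le_card_nsmul Rf C ((κ - 1) * A + b) (fun x hx => h1 x hx (hone x hx))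
    rw [smul_eq_mul] at h
    exact h.trans (le_max_left _ _)

/-- the sum inside one copy; `κ` is the number of vertices other than `w` -/
theorem inner_bound {V : Type*} [Fintype V] [DecidableEq V] (w : V) (c j : V → ℕ) {A b : ℕ}
    (hb : b ≤ A) (hA : ∀ v, v ≠ w → c v ≤ A) (h0 : ∀ v, v ≠ w → j v = 0 → c v = 0)
    (h2 : ∀ v, v ≠ w → 2 ≤ j v → c v ≤ b) :
    ∑ v ∈ univ.filter (fun v => v ≠ w), c v ≤ (Fintype.card V - 1) * A ∧
    ((∃ v, v ≠ w ∧ j v ≠ 1) →
      ∑ v ∈ univ.filter (fun v => v ≠ w), c v ≤ (Fintype.card V - 1 - 1) * A + b) ∧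
    ((∀ v, v ≠ w → j v = 0) → ∑ v ∈ univ.filter (fun v => v ≠ w), c v = 0) := by
  have hcard : (univ.filter (fun v => v ≠ w)).card = Fintype.card V - 1 := by
    rw [Finset.filter_ne' univ w, Finset.card_erase_of_mem (Finset.mem_univ w), Finset.card_univ]
  refine ⟨?_, ?_, ?_⟩
  · have h := Finset.sum_le_card_nsmul (univ.filter (fun v => v ≠ w)) c A
      (fun x hx => hA x (Finset.mem_filter.1 hx).2)
    rwa [smul_eq_mul, hcard] at h
  · rintro ⟨v, hv, hj⟩
    have hm : v ∈ univ.filter (fun v => v ≠ w) := Finset.mem_filter.2 ⟨Finset.mem_univ v, hv⟩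
    have hcv : c v ≤ b := by
      by_cases h : j v = 0
      · rw [h0 v hv h]
        exact Nat.zero_le b
      · exact h2 v hv (by omega)
    rw [← Finset.add_sum_erase _ c hm, Nat.add_comm]
    have h := Finset.sum_le_card_nsmul ((univ.filter (fun v => v ≠ w)).erase v) c A
      (fun x hx => hA x (Finset.mem_filter.1 (Finset.mem_of_mem_erase hx)).2)
    rw [smul_eq_mul, Finset.card_erase_of_mem hm, hcard] at h
    exact Nat.add_le_add h hcv
  · intro h
    exact Finset.sum_eq_zero fun v hv => h0 v (Finset.mem_filter.1 hv).2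
      (h v (Finset.mem_filter.1 hv).2)
end PolySum
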