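import Pool.Agent.FewFacets.ShS5a
set_option linter.unusedSectionVars false
namespace PolySum
open Finset
variable {β V : Type*} {B : SimpleGraph β} {G : SimpleGraph V} {w : V} {R : Set β}
  {port : β → β → V}

open Classical in
/-- walks which see at most two copies from inside -/
theorem Wide.sum [Finite β] [Finite V] {x : β} (hx : x ∉ R)
    (hport : ∀ r ∈ R, ∀ b, B.Adj r b → G.Adj w (port r b)) {A b e : ℕ}
    (h1 : Short G w A b) (h2 : Wide G w e) :
    Wide (sumGraph B G w R port) (kept hx)
      ({z | z ∉ R ∧ z ≠ x}.ncard + (2 * e + R.ncard * A)) := by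
  intro s t p hp
  have hfin : R.Finite := Set.toFinite _
  have hc : ∀ z (hz : z ∈ R), {v | ∃ hv : v ≠ w, inCopy hz v hv ∈ p.support}.ncard ≤
      (if z = s.1.1 then e else 0) + (if z = t.1.1 then e else 0) + A := by
    intro z hz
    obtain ⟨q, hq1, -⟩ := proj_walk hz (hport z hz) p
    have hset : {v | ∃ hv : v ≠ w, inCopy hz v hv ∈ p.support} = {v | v ≠ w ∧ v ∈ q.support} := by
      ext v
      constructor
      · rintro ⟨hv, h⟩
        refine ⟨hv, ?_⟩
        rw [← List.count_pos_iff, hq1 v hv]
        exact List.count_pos_iff.2 h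
      · rintro ⟨hv, h⟩
        refine ⟨hv, ?_⟩
        rw [← List.count_pos_iff, ← hq1 v hv]
        exact List.count_pos_iff.2 h
    have hcount : ∀ v, v ≠ w → q.support.count v ≤ 1 := by
      intro v hv
      rw [hq1 v hv]
      apply hp
      intro h
      have h3 := congrArg (fun y : SumVert R w => y.1.1) h
      have h4 : z = x := h3
      exact hx (h4 ▸ hz)
    rw [hset]
    by_cases hs : z = s.1.1
    · have h3 : {v | v ≠ w ∧ v ∈ q.support}.ncard ≤ e := h2 _ _ q hcount
      rw [if_pos hs]
      omega
    · by_cases ht : z = t.1.1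
      · have h3 : {v | v ≠ w ∧ v ∈ q.support}.ncard ≤ e := h2 _ _ q hcount
        rw [if_pos ht]
        omega
      · have e1 : seen z s = w := if_neg (Ne.symm hs)
        have e2 : seen z t = w := if_neg (Ne.symm ht)
        have h3 := (h1 (q.copy e1 e2) (by
          intro v hv
          rw [SimpleGraph.Walk.support_copy]
          exact hcount v hv)).1
        unfold cov at h3
        rw [SimpleGraph.Walk.support_copy] at h3
        omega
  have h3 := cov_le_sum hx p _ hc hfin.toFinset (fun y => by simp)
  refine h3.trans (Nat.add_le_add_left ?_ _)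
  rw [sum_add_distrib, sum_add_distrib, sum_const, smul_eq_mul, ← Set.ncard_eq_toFinset_card R hfin]
  have h4 : ∀ u : β, ∑ z ∈ hfin.toFinset, (if z = u then e else 0) ≤ e := by
    intro u
    rw [Finset.sum_ite_eq']
    split_ifs <;> omega
  have h5 := h4 s.1.1
  have h6 := h4 t.1.1
  omega
end PolySum
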