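import Pool.Agent.FewFacets.ShDefs
import Mathlib.Data.Set.Card.Arithmetic
set_option linter.unusedSectionVars false
namespace PolySum
open Finset
variable {β V : Type*} {B : SimpleGraph β} {G : SimpleGraph V} {w : V} {R : Set β}
  {port : β → β → V}

theorem finite_sumVert_s5 [Finite β] [Finite V] : Finite (SumVert R w) := Subtype.finite

theorem copy_ncard_le_s5 [Finite β] [Finite V] {z : β} (hz : z ∈ R) (T : Set (SumVert R w)) :
    {v : SumVert R w | v.1.1 = z ∧ v ∈ T}.ncard ≤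
      {v : V | ∃ hv : v ≠ w, inCopy hz v hv ∈ T}.ncard := by
  refine Set.ncard_le_ncard_of_injOn (fun v : SumVert R w => v.1.2) ?_ ?_ (Set.toFinite _)
  · rintro ⟨⟨y, v⟩, hyv⟩ ⟨rfl, hT⟩
    exact ⟨hyv.1 hz, hT⟩
  · rintro ⟨⟨y, v⟩, hyv⟩ ⟨h1, -⟩ ⟨⟨y', v'⟩, hyv'⟩ ⟨h1', -⟩ h
    dsimp only at h1 h1' h
    subst h1 h1' h
    rfl

open Classical in
/-- the vertices covered by a walk of the sum -/
theorem cov_le_sum [Finite β] [Finite V] {x : β} (hx : x ∉ R) {a b : SumVert R w}
    (p : (sumGraph B G w R port).Walk a b) (c : β → ℕ)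
    (hc : ∀ z (hz : z ∈ R), {v | ∃ hv : v ≠ w, inCopy hz v hv ∈ p.support}.ncard ≤ c z)
    (Rf : Finset β) (hRf : ∀ y, y ∈ Rf ↔ y ∈ R) :
    cov (kept (w := w) hx) p ≤ {z | z ∉ R ∧ z ≠ x}.ncard + ∑ z ∈ Rf, c z := by
  have hfin : Finite (SumVert R w) := finite_sumVert_s5
  unfold cov
  have hsub : {v : SumVert R w | v ≠ kept hx ∧ v ∈ p.support} ⊆
      {v : SumVert R w | v.1.1 ∉ R ∧ v.1.1 ≠ x} ∪
        ⋃ z ∈ Rf, {v : SumVert R w | v.1.1 = z ∧ v ∈ {u | u ∈ p.support}} := by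
    rintro ⟨⟨y, v⟩, hyv⟩ ⟨h1, h2⟩
    by_cases hy : y ∈ R
    · right
      simp only [Set.mem_iUnion]
      exact ⟨y, (hRf y).2 hy, rfl, h2⟩
    · left
      refine ⟨hy, ?_⟩
      rintro rfl
      apply h1
      have hv : v = w := by
        by_contra hv
        exact hy (hyv.2 hv)
      subst hv
      rfl
  refine (Set.ncard_le_ncard hsub (Set.toFinite _)).trans ((Set.ncard_union_le _ _).trans ?_)
  refine Nat.add_le_add ?_ ?_
  · refine Set.ncard_le_ncard_of_injOn (fun v : SumVert R w => v.1.1) ?_ ?_ (Set.toFinite _)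
    · rintro v hv
      exact hv
    · rintro ⟨⟨y, v⟩, hyv⟩ ⟨h1, -⟩ ⟨⟨y', v'⟩, hyv'⟩ ⟨h1', -⟩ h
      dsimp only at h1 h1' h
      subst h
      have hv : v = w := by
        by_contra hv
        exact h1 (hyv.2 hv)
      have hv' : v' = w := by
        by_contra hv
        exact h1 (hyv'.2 hv)
      subst hv hv'
      rfl
  · refine (Finset.set_ncard_biUnion_le _ _).trans (Finset.sum_le_sum fun z hz => ?_)
    have hz' := (hRf z).1 hz
    exact (copy_ncard_le_s5 hz' _).trans (hc z hz')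

/-- the exact number of vertices of a sum -/
theorem card_sum [Finite β] [Finite V] :
    Nat.card (SumVert R w) = Rᶜ.ncard + R.ncard * (Nat.card V - 1) := by
  classical
  have e : SumVert R w ≃ (Rᶜ : Set β) ⊕ (R × {v : V // v ≠ w}) :=
    { toFun := fun z => if h : z.1.1 ∈ R then Sum.inr (⟨z.1.1, h⟩, ⟨z.1.2, z.2.1 h⟩)
        else Sum.inl ⟨z.1.1, h⟩
      invFun := Sum.elim (fun s => ⟨(s.1, w), ⟨fun h => absurd h s.2, fun h => absurd rfl h⟩⟩)
        (fun r => ⟨(r.1.1, r.2.1), ⟨fun _ => r.2.2, fun _ => r.1.2⟩⟩)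
      left_inv := by
        rintro ⟨⟨y, v⟩, hyv⟩
        by_cases hy : y ∈ R
        · simp [hy]
        · have hv : v = w := by
            by_contra hv
            exact hy (hyv.2 hv)
          subst hv
          simp [hy]
      right_inv := by
        rintro (⟨s, hs⟩ | ⟨⟨r, hr⟩, v, hv⟩)
        · simp only [Sum.elim_inl]
          rw [dif_neg hs]
        · simp only [Sum.elim_inr]
          rw [dif_pos hr] }
  rw [Nat.card_congr e, Nat.card_sum, Nat.card_prod]
  have h1 : Nat.card {v : V // v ≠ w} = Nat.card V - 1 := by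
    have := Fintype.ofFinite V
    rw [Nat.card_eq_fintype_card, Nat.card_eq_fintype_card, Fintype.card_subtype_compl,
      Fintype.card_subtype_eq]
  rw [h1]
  rfl
end PolySum
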