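import Mathlib.Analysis.SpecialFunctions.Pow.Real
import Mathlib.Analysis.SpecialFunctions.Pow.Continuity
import Mathlib.Tactic
namespace PolySum

/-- a power smaller than every power with exponent close to 1 -/
theorem exists_eps {s θ T Y D : ℝ} (hθ : 1 ≤ θ) (hs : θ < s) (hT : s ≤ T) (hY : 0 < Y)
    (hD : 1 ≤ D) :
    ∃ ε : ℝ, 0 < ε ∧ ∀ K : ℕ, ∃ k ≥ K, ∀ N : ℝ, s ^ k ≤ N → N ≤ D * T ^ k →
      Y * θ ^ k < N ^ (1 - ε) := by
  have hs0 : 0 < s := by linarith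
  have hc : Continuous (fun ε : ℝ => s ^ (1 - ε)) :=
    continuous_const.rpow (continuous_const.sub continuous_id) (fun _ => Or.inl hs0.ne')
  have h0 : ∀ᶠ ε in nhds (0 : ℝ), θ < s ^ (1 - ε) := by
    refine (hc.tendsto 0).eventually (lt_mem_nhds ?_)
    rw [sub_zero, Real.rpow_one]
    exact hs
  obtain ⟨δ, hδ, hball⟩ := Metric.eventually_nhds_iff.1 h0
  have hεpos : 0 < min (δ / 2) (1 / 2) := lt_min (by linarith) (by norm_num)
  have hε1 : min (δ / 2) (1 / 2) ≤ 1 / 2 := min_le_right _ _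
  have hεδ : min (δ / 2) (1 / 2) ≤ δ / 2 := min_le_left _ _
  set ε : ℝ := min (δ / 2) (1 / 2) with hε
  have hr : θ < s ^ (1 - ε) := by
    refine hball ?_
    rw [Real.dist_eq, sub_zero, abs_of_pos hεpos]
    linarith
  refine ⟨ε, hεpos, fun K => ?_⟩
  have hθ0 : 0 < θ := by linarith
  obtain ⟨n, hn⟩ := pow_unbounded_of_one_lt Y ((one_lt_div hθ0).2 hr)
  refine ⟨max K n, le_max_left _ _, fun N hN _ => ?_⟩
  have h1 : Y < (s ^ (1 - ε) / θ) ^ (max K n) :=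
    hn.trans_le (pow_le_pow_right₀ ((one_lt_div hθ0).2 hr).le (le_max_right _ _))
  rw [div_pow, lt_div_iff₀ (pow_pos hθ0 _)] at h1
  refine h1.trans_le ?_
  have h2 : (s ^ (1 - ε)) ^ (max K n) = (s ^ (max K n)) ^ (1 - ε) := by
    rw [← Real.rpow_natCast, ← Real.rpow_natCast, ← Real.rpow_mul hs0.le, ← Real.rpow_mul hs0.le,
      mul_comm]
  rw [h2]
  exact Real.rpow_le_rpow (pow_nonneg hs0.le _) hN (by linarith)
end PolySum
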