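import Mathlib.Analysis.SpecialFunctions.Pow.Real
import Mathlib.Tactic
namespace PolySum

private lemma rb_a {M K s A a b a' : ℝ} (hM : 0 ≤ M) (hK : 0 ≤ K) (hs : s = (M + 1) * (K + 1))
    (hA0 : 0 ≤ A) (hA1 : 8 * (M + 2) ≤ A) (h3 : a ≤ A)
    (h4 : 2 * (M + 1) * b ≤ (2 * M + 1) * A)
    (h : a' ≤ (M + 1 + 1) + max ((M + 1) * (K * a + b)) (M * ((K + 1) * a))) :
    a' ≤ A * (s - 1 / 4) := by
  have e1 : (M + 1) * (K * a + b) ≤ (s - 1 / 2) * A := by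
    have f1 : (M + 1) * K * a ≤ (M + 1) * K * A :=
      mul_le_mul_of_nonneg_left h3 (by positivity)
    have f2 : (M + 1) * b ≤ (M + 1 / 2) * A := by linarith
    have f3 : (s - 1 / 2) * A = (M + 1) * K * A + (M + 1 / 2) * A := by rw [hs]; ring
    rw [f3]
    linarith
  have e2 : M * ((K + 1) * a) ≤ (s - 1 / 2) * A := by
    have f1 : M * (K + 1) * a ≤ M * (K + 1) * A :=
      mul_le_mul_of_nonneg_left h3 (by positivity)
    have f3 : (s - 1 / 2) * A = M * (K + 1) * A + (K * A + A / 2) := by rw [hs]; ring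
    have f4 : 0 ≤ K * A := mul_nonneg hK hA0
    rw [f3]
    linarith
  have e3 := max_le e1 e2
  have e4 : A * (s - 1 / 4) = (s - 1 / 2) * A + A / 4 := by ring
  rw [e4]
  linarith

private lemma rb_b {M K s A a b' : ℝ} (hM : 0 ≤ M) (hK : 0 ≤ K) (hs : s = (M + 1) * (K + 1))
    (hA0 : 0 ≤ A) (hA1 : 8 * (M + 2) ≤ A) (h3 : a ≤ A)
    (h : b' ≤ (M + 1 + 1) + M * ((K + 1) * a)) :
    2 * (M + 1) * b' ≤ (2 * M + 1) * (A * (s - 1 / 4)) := by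
  have f1 : M * (K + 1) * a ≤ M * (K + 1) * A :=
    mul_le_mul_of_nonneg_left h3 (by positivity)
  have f2 : 2 * (M + 1) * b' ≤ 2 * (M + 1) * ((M + 2) + M * (K + 1) * A) := by
    refine mul_le_mul_of_nonneg_left ?_ (by positivity)
    linarith
  refine f2.trans ?_
  have f3 : 2 * (M + 1) * (M + 2) ≤ 2 * (M + 1) * (A / 8) := by
    refine mul_le_mul_of_nonneg_left ?_ (by positivity)
    linarith
  have f4 : 0 ≤ M * K * A := by positivity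
  have f5 : 0 ≤ K * A := by positivity
  have f6 : 0 ≤ M * A := by positivity
  have f7 : (2 * M + 1) * (A * (s - 1 / 4)) = 2 * (M + 1) * (M * (K + 1) * A) +
      (M * K * A + K * A + M * A / 2 + 3 / 4 * A) := by
    rw [hs]
    ring
  have f8 : 2 * (M + 1) * ((M + 2) + M * (K + 1) * A) =
      2 * (M + 1) * (M + 2) + 2 * (M + 1) * (M * (K + 1) * A) := by ring
  have f9 : 2 * (M + 1) * (A / 8) = M * A / 4 + A / 4 := by ring
  rw [f7, f8]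
  rw [f9] at f3
  linarith

private lemma rb_e {M s A Q T a e e' : ℝ} (hM : 0 ≤ M) (hs3 : 3 ≤ s) (hT : 1 ≤ T)
    (hQ : Q = 4 * A + 4 * (M + 2) * T) (hA0 : 0 ≤ A) (h3 : a ≤ A) (h5 : e ≤ Q)
    (h : e' ≤ (M + 1 + 1) + (2 * e + s * a)) : e' ≤ Q * (s - 1 / 4) := by
  have f1 : s * a ≤ s * A := mul_le_mul_of_nonneg_left h3 (by linarith)
  have f3 : M + 2 ≤ (M + 2) * T := le_mul_of_one_le_right (by positivity) hT
  have f4 : 0 ≤ Q := by rw [hQ]; positivity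
  have f5 : M + 1 + 1 + s * A ≤ Q * (s / 4) := by
    have f6 : (M + 2) * T ≤ (M + 2) * T * s :=
      le_mul_of_one_le_right (by positivity) (by linarith)
    have f7 : Q * (s / 4) = s * A + (M + 2) * T * s := by rw [hQ]; ring
    rw [f7]
    linarith
  have f6 : Q * (s / 4) ≤ Q * (s - 9 / 4) :=
    mul_le_mul_of_nonneg_left (by linarith) f4
  have f7 : Q * (s - 1 / 4) = Q * (s - 9 / 4) + 2 * Q := by ring
  rw [f7]
  linarith

private lemma rb_n {M s n n' N T : ℝ} (hM : 0 ≤ M) (hs3 : 3 ≤ s) (hn : 0 ≤ n)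
    (h : n' ≤ s * n + (M + 1 + 1)) (h2 : n + 1 ≤ N * T) :
    n' + 1 ≤ N * (T * (s + (M + 1) + 2)) := by
  have h6 : (n + 1) * (s + (M + 1) + 2) ≤ N * T * (s + (M + 1) + 2) :=
    mul_le_mul_of_nonneg_right h2 (by linarith)
  have h7 : 0 ≤ n * M := mul_nonneg hn hM
  have h8 : (n + 1) * (s + (M + 1) + 2) = s * n + n * M + 3 * n + (s + M + 3) := by ring
  have h9 : N * (T * (s + (M + 1) + 2)) = N * T * (s + (M + 1) + 2) := by ring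
  rw [h9]
  rw [h8] at h6
  linarith

/-- the recursion of the bounds: `s = m κ` -/
theorem rec_bounds {m κ s : ℕ} (hm : 1 ≤ m) (hκ : 1 ≤ κ) (hs : s = m * κ) (hs3 : 3 ≤ s)
    (n0 : ℕ) (hn0 : 1 ≤ n0)
    (P : ℕ → ℕ → ℕ → ℕ → Prop) (h0 : P n0 n0 n0 n0)
    (hstep : ∀ n a b e, b ≤ a → P n a b e → ∃ n' a' b' e', P n' a' b' e' ∧ b' ≤ a' ∧
      s * n ≤ n' ∧ n' ≤ s * n + (m + 1) ∧
      a' ≤ (m + 1) + max (m * ((κ - 1) * a + b)) ((m - 1) * (κ * a)) ∧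
      b' ≤ (m + 1) + (m - 1) * (κ * a) ∧ e' ≤ (m + 1) + (2 * e + s * a)) :
    ∃ Y D : ℝ, 0 < Y ∧ 1 ≤ D ∧ ∀ k : ℕ, ∃ n a b e : ℕ, P n a b e ∧
      (s : ℝ) ^ k ≤ (n : ℝ) + 1 ∧ (n : ℝ) + 1 ≤ D * ((s : ℝ) + m + 2) ^ k ∧
      (e : ℝ) + 1 ≤ Y * ((s : ℝ) - 1 / 4) ^ k := by
  obtain ⟨m', rfl⟩ : ∃ m', m = m' + 1 := ⟨m - 1, by omega⟩
  obtain ⟨κ', rfl⟩ : ∃ κ', κ = κ' + 1 := ⟨κ - 1, by omega⟩
  simp only [Nat.add_sub_cancel] at hstep
  have hsR : (s : ℝ) = ((m' : ℝ) + 1) * ((κ' : ℝ) + 1) := by rw [hs]; push_cast; ring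
  have hs3R : (3 : ℝ) ≤ s := by exact_mod_cast hs3
  have hm0 : (0 : ℝ) ≤ m' := Nat.cast_nonneg _
  have hk0 : (0 : ℝ) ≤ κ' := Nat.cast_nonneg _
  have hn0R : (1 : ℝ) ≤ n0 := by exact_mod_cast hn0
  obtain ⟨X, hX⟩ : ∃ X : ℝ, X = 2 * n0 + 8 * ((m' : ℝ) + 2) := ⟨_, rfl⟩
  obtain ⟨Z, hZ⟩ : ∃ Z : ℝ, Z = 4 * X + 4 * ((m' : ℝ) + 2) := ⟨_, rfl⟩
  have hθ1 : (1 : ℝ) ≤ (s : ℝ) - 1 / 4 := by linarith
  have hX1 : 8 * ((m' : ℝ) + 2) ≤ X := by rw [hX]; linarith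
  have hX0 : 0 ≤ X := by linarith
  have hZ0 : 0 ≤ Z := by rw [hZ]; linarith
  have key : ∀ k : ℕ, ∃ n a b e : ℕ, P n a b e ∧ b ≤ a ∧ (s : ℝ) ^ k ≤ n ∧
      (n : ℝ) + 1 ≤ ((n0 : ℝ) + 1) * ((s : ℝ) + (m' + 1) + 2) ^ k ∧
      (a : ℝ) ≤ X * ((s : ℝ) - 1 / 4) ^ k ∧
      2 * ((m' : ℝ) + 1) * b ≤ (2 * m' + 1) * (X * ((s : ℝ) - 1 / 4) ^ k) ∧
      (e : ℝ) ≤ Z * ((s : ℝ) - 1 / 4) ^ k := by
    intro k
    induction k with
    | zero =>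
      refine ⟨n0, n0, n0, n0, h0, le_rfl, by simpa using hn0R, by simp, ?_, ?_, ?_⟩
      · rw [pow_zero, mul_one, hX]
        linarith
      · rw [pow_zero, mul_one, hX]
        have f1 : 0 ≤ (m' : ℝ) * n0 := mul_nonneg hm0 (by linarith)
        have f2 : 0 ≤ (m' : ℝ) * m' := mul_nonneg hm0 hm0
        have f3 : (2 * (m' : ℝ) + 1) * (2 * n0 + 8 * (m' + 2)) =
            4 * (m' * n0) + 16 * (m' * m') + 40 * m' + 2 * n0 + 16 := by ring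
        have f4 : 2 * ((m' : ℝ) + 1) * n0 = 2 * (m' * n0) + 2 * n0 := by ring
        rw [f3, f4]
        linarith
      · rw [pow_zero, mul_one, hZ, hX]
        linarith
    | succ k ih =>
      obtain ⟨n, a, b, e, hP, hba, h1, h2, h3, h4, h5⟩ := ih
      obtain ⟨n', a', b', e', hP', hba', g1, g2, g3, g4, g5⟩ := hstep n a b e hba hP
      have hpow : (1 : ℝ) ≤ ((s : ℝ) - 1 / 4) ^ k := one_le_pow₀ hθ1
      have g1' : (s : ℝ) * n ≤ n' := by exact_mod_cast g1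
      have g2' : (n' : ℝ) ≤ s * n + (m' + 1 + 1) := by exact_mod_cast g2
      have g3' : (a' : ℝ) ≤ (m' + 1 + 1) + max (((m' : ℝ) + 1) * (κ' * a + b))
          (m' * ((κ' + 1) * a)) := by exact_mod_cast g3
      have g4' : (b' : ℝ) ≤ (m' + 1 + 1) + m' * ((κ' + 1) * a) := by exact_mod_cast g4
      have g5' : (e' : ℝ) ≤ (m' + 1 + 1) + (2 * e + s * a) := by exact_mod_cast g5
      have hA1 : 8 * ((m' : ℝ) + 2) ≤ X * ((s : ℝ) - 1 / 4) ^ k :=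
        hX1.trans (le_mul_of_one_le_right hX0 hpow)
      have hA0 : 0 ≤ X * ((s : ℝ) - 1 / 4) ^ k := by linarith
      refine ⟨n', a', b', e', hP', hba', ?_, ?_, ?_, ?_, ?_⟩
      · rw [pow_succ]
        have : (s : ℝ) ^ k * s ≤ n * s := mul_le_mul_of_nonneg_right h1 (by linarith)
        linarith
      · rw [pow_succ]
        exact rb_n hm0 hs3R (Nat.cast_nonneg _) g2' h2
      · rw [pow_succ, ← mul_assoc]
        exact rb_a hm0 hk0 hsR hA0 hA1 h3 h4 g3'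
      · rw [pow_succ, ← mul_assoc X]
        exact rb_b hm0 hk0 hsR hA0 hA1 h3 g4'
      · rw [pow_succ, ← mul_assoc]
        exact rb_e hm0 hs3R hpow (by rw [hZ]; ring) hA0 h3 h5 g5'
  refine ⟨Z + 1, (n0 : ℝ) + 1, by linarith, by linarith, fun k => ?_⟩
  obtain ⟨n, a, b, e, hP, _, h1, h2, _, _, h5⟩ := key k
  refine ⟨n, a, b, e, hP, by linarith, ?_, ?_⟩
  · push_cast
    exact h2
  · have hpow : (1 : ℝ) ≤ ((s : ℝ) - 1 / 4) ^ k := one_le_pow₀ hθ1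
    have f : (Z + 1) * ((s : ℝ) - 1 / 4) ^ k = Z * ((s : ℝ) - 1 / 4) ^ k +
      ((s : ℝ) - 1 / 4) ^ k := by ring
    rw [f]
    linarith
end PolySum
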