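import Pool.Agent.FewFacets.ShS1
import Pool.Agent.FewFacets.ShS3
import Pool.Agent.FewFacets.ShS4
import Pool.Agent.FewFacets.ShS5

/-!
One step of the recursion: a graph without a Hamilton cycle put at the vertices of a bipartite
graph, and a third graph put at all vertices of these copies.
-/

set_option linter.unusedSectionVars false

namespace PolySum

open Finset

/-- the vertices not in `S` and different from `x` -/
def Rep {β : Type*} (S : Set β) (x : β) : Set β := {y | y ∉ S ∧ y ≠ x}

theorem notMem_Rep {β : Type*} (S : Set β) (x : β) : x ∉ Rep S x := fun h => h.2 rfl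

/-- all vertices of all copies -/
def InCopies {β V : Type*} (R : Set β) (w : V) : Set (SumVert R w) := {z | z.1.1 ∈ R}

theorem notMem_InCopies {β V : Type*} {R : Set β} {w : V} {x : β} (hx : x ∉ R) :
    kept (w := w) hx ∉ InCopies R w := fun h => hx h

section

variable {γ U : Type*} {H : SimpleGraph γ} {Γ : SimpleGraph U} {r : U} {R : Set γ}
  {port : γ → γ → U}

open Classical in
/-- the number of vertices of the copy at `z` on the walk `q` -/
noncomputable def cin {a b : SumVert R r} (q : (sumGraph H Γ r R port).Walk a b) (z : γ) : ℕ :=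
  if hz : z ∈ R then {v | ∃ hv : v ≠ r, inCopy hz v hv ∈ q.support}.ncard else 0

open Classical in
theorem cin_bounds {x : γ} (hx : x ∉ R) {z : γ} (hz : z ∈ R)
    (hport : ∀ b, H.Adj z b → Γ.Adj r (port z b)) {a b : ℕ} (h : Short Γ r a b)
    (q : (sumGraph H Γ r R port).Walk (kept hx) (kept hx))
    (hq : ∀ v, v ≠ kept hx → q.support.count v ≤ 1) :
    cin q z ≤ a ∧ (exits z q = 0 → cin q z = 0) ∧ (2 ≤ exits z q → cin q z ≤ b) := by
  obtain ⟨p, h1, h2⟩ := copy_closed hx hz hport q
  have hne : ∀ v (hv : v ≠ r), inCopy hz v hv ≠ kept (w := r) hx := by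
    intro v hv h0
    exact hx (by have := congrArg (fun y : SumVert R r => y.1.1) h0
                 change z = x at this
                 rwa [← this])
  have htail : ∀ v (hv : v ≠ r), q.support.tail.count (inCopy hz v hv) =
      q.support.count (inCopy hz v hv) := by
    intro v hv
    conv_rhs => rw [← q.cons_tail_support]
    rw [List.count_cons_of_ne (Ne.symm (hne v hv))]
  have htail' : ∀ v, v ≠ r → p.support.count v = p.support.tail.count v := by
    intro v hv
    conv_lhs => rw [← p.cons_tail_support]
    rw [List.count_cons_of_ne (Ne.symm hv)]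
  have hcov : cin q z = cov r p := by
    unfold cin cov
    rw [dif_pos hz]
    congr 1
    ext v
    simp only [Set.mem_ofPred_eq]
    constructor
    · rintro ⟨hv, hm⟩
      refine ⟨hv, ?_⟩
      rw [← List.count_pos_iff, htail' v hv, h1 v hv, htail v hv, List.count_pos_iff]
      exact hm
    · rintro ⟨hv, hm⟩
      refine ⟨hv, ?_⟩
      rwa [← List.count_pos_iff, ← htail v hv, ← h1 v hv, ← htail' v hv, List.count_pos_iff]
  have hp : ∀ v, v ≠ r → p.support.count v ≤ 1 := by
    intro v hv
    rw [htail' v hv, h1 v hv, htail v hv]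
    exact hq _ (hne v hv)
  obtain ⟨h3, h4⟩ := h p hp
  rw [hcov]
  refine ⟨h3, ?_, ?_⟩
  · intro h0
    rw [h0] at h2
    unfold cov
    rw [nil_of_count p h2]
    convert Set.ncard_empty U using 2
    ext v
    simp
  · intro h5
    exact h4 (by rw [h2]; exact h5)

end

end PolySum
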