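import Pool.Agent.FewFacets.ShStep

/-!
The step of the recursion.
-/

set_option linter.unusedSectionVars false

namespace PolySum

open Finset

section

variable {β V U : Type*} {B : SimpleGraph β} {P : SimpleGraph V} {w : V} {Γ : SimpleGraph U}
  {r : U} {S : Set β} {x : β} {port0 : β → β → V}
  {port1 : SumVert (Rep S x) w → SumVert (Rep S x) w → U}

theorem card_Rep [Finite β] (hxS : x ∉ S) : (Rep S x).ncard = Sᶜ.ncard - 1 := by
  have h : Rep S x = Sᶜ \ {x} := by
    ext y
    simp [Rep]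
  rw [h, Set.ncard_sdiff_singleton_of_mem hxS]

theorem card_InCopies [Finite β] [Finite V] :
    (InCopies (Rep S x) w).ncard = (Rep S x).ncard * (Nat.card V - 1) := by
  have h1 : (({v | v ≠ w} : Set V)).ncard = Nat.card V - 1 := by
    have h : ({v | v ≠ w} : Set V) = Set.univ \ {w} := by
      ext y
      simp
    rw [h, Set.ncard_sdiff_singleton_of_mem (Set.mem_univ _), Set.ncard_univ]
  rw [← h1, ← Set.ncard_prod]
  refine Set.ncard_congr (fun z _ => z.1) ?_ ?_ ?_
  · intro z hz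
    exact ⟨hz, z.2.1 hz⟩
  · intro z z' _ _ h
    exact Subtype.ext h
  · rintro ⟨g, v⟩ ⟨hg, hv⟩
    exact ⟨⟨(g, v), ⟨fun _ => hv, fun _ => hg⟩⟩, hg, rfl⟩

theorem card_other [Finite β] [Finite V] :
    {z : SumVert (Rep S x) w | z ∉ InCopies (Rep S x) w ∧
      z ≠ kept (notMem_Rep S x)}.ncard ≤ S.ncard := by
  have hfin : Finite (SumVert (Rep S x) w) := Subtype.finite
  refine Set.ncard_le_ncard_of_injOn (fun z => z.1.1) ?_ ?_ (Set.toFinite _)
  · rintro z ⟨h1, h2⟩
    by_contra h3
    refine h2 ?_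
    have h4 : z.1.1 = x := by
      by_contra h5
      exact h1 ⟨h3, h5⟩
    have h6 : z.1.2 = w := by
      by_contra h7
      exact h1 (z.2.2 h7)
    exact Subtype.ext (Prod.ext h4 h6)
  · rintro z ⟨h1, -⟩ z' ⟨h2, -⟩ h
    have h6 : z.1.2 = w := by
      by_contra h7
      exact h1 (z.2.2 h7)
    have h8 : z'.1.2 = w := by
      by_contra h7
      exact h2 (z'.2.2 h7)
    exact Subtype.ext (Prod.ext h (h6.trans h8.symm))

open Classical in
theorem Short.step [Finite β] [Finite V] [Finite U]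
    (hbip : ∀ b b', B.Adj b b' → (b ∈ S ↔ b' ∉ S)) (hxS : x ∉ S) (hbal : S.ncard ≤ Sᶜ.ncard)
    (hP : ∀ q : P.Walk w w, ¬ ∀ v, q.support.tail.count v = 1)
    (hport0 : ∀ y z, B.Adj y z → P.Adj w (port0 y z))
    (hport1 : ∀ y z, (sumGraph B P w (Rep S x) port0).Adj y z → Γ.Adj r (port1 y z))
    {a b m κ : ℕ} (hm : m = Sᶜ.ncard - 1) (hκ : κ = Nat.card V - 1) (hba : b ≤ a)
    (h : Short Γ r a b) :
    Short (sumGraph (sumGraph B P w (Rep S x) port0) Γ r (InCopies (Rep S x) w) port1)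
      (kept (notMem_InCopies (notMem_Rep S x)))
      ((m + 1) + max (m * ((κ - 1) * a + b)) ((m - 1) * (κ * a)))
      ((m + 1) + (m - 1) * (κ * a)) := by
  have := Fintype.ofFinite β
  have := Fintype.ofFinite V
  have hfin : Finite (SumVert (Rep S x) w) := Subtype.finite
  have := Fintype.ofFinite (SumVert (Rep S x) w)
  have hcS : 1 ≤ Sᶜ.ncard := by
    rw [Nat.one_le_iff_ne_zero, ← Nat.pos_iff_ne_zero, Set.ncard_pos]
    exact ⟨x, hxS⟩
  have hSm : S.ncard ≤ m + 1 := by omega
  intro q hq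
  set x0 : SumVert (Rep S x) w := kept (notMem_Rep S x) with hx0
  have hx1 : x0 ∉ InCopies (Rep S x) w := notMem_InCopies (notMem_Rep S x)
  set j := q.support.tail.count (kept hx1) with hj
  by_cases hj0 : j = 0
  · have h1 := nil_of_count q hj0
    have h2 : cov (kept hx1) q = 0 := by
      unfold cov
      rw [h1]
      have h3 : {v : SumVert (InCopies (Rep S x) w) r | v ≠ kept hx1 ∧ v ∈ [kept hx1]} = ∅ := by
        ext v
        simp
      exact (congrArg Set.ncard h3).trans (Set.ncard_empty _)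
    have h3 : cov (kept hx1) q ≤ 0 := h2.le
    exact ⟨h3.trans (Nat.zero_le _), fun _ => h3.trans (Nat.zero_le _)⟩
  -- the walk in the middle graph
  obtain ⟨c0, hc1, hc2⟩ := base_closed hx1 q
  have htail : ∀ z : SumVert (InCopies (Rep S x) w) r, z ≠ kept hx1 →
      q.support.tail.count z ≤ 1 := fun z hz =>
    ((List.tail_sublist _).count_le z).trans (hq z hz)
  have hx0w : ∀ z, z ≠ x0 → c0.support.count z = c0.support.tail.count z := by
    intro z hz
    conv_lhs => rw [← c0.cons_tail_support]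
    rw [List.count_cons_of_ne (Ne.symm hz)]
  have hRf : ∀ y, y ∈ univ.filter (fun y => y ∈ Rep S x) ↔ y ∈ Rep S x := fun y => by simp
  have hex := exits_add_le (R := Rep S x) hbip (fun y hy => hy.1) hxS (notMem_Rep S x) c0 ?_
    (univ.filter (fun y => y ∈ Rep S x)) hRf
  swap
  · intro s hs hsS
    have h1 : (kept (w := w) hs) ∉ InCopies (Rep S x) w := notMem_InCopies hs
    have h2 : (kept (w := w) hs) ≠ x0 := by
      intro h3
      have h4 := congrArg (fun y : SumVert (Rep S x) w => y.1.1) h3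
      change s = x at h4
      exact hxS (h4 ▸ hsS)
    rw [hx0w _ h2, hc1 _ h1]
    refine htail _ ?_
    intro h3
    exact h2 (congrArg (fun y : SumVert (InCopies (Rep S x) w) r => y.1.1) h3)
  rw [show c0.support.tail.count (kept (notMem_Rep S x)) = j from hc1 _ hx1] at hex
  -- the walks in the copies of `P`
  have hcopy : ∀ g (hg : g ∈ Rep S x), ∃ p : P.Walk w w,
      (∀ v (hv : v ≠ w), p.support.tail.count v = exits (inCopy hg v hv) q) ∧
      p.support.tail.count w = exits g c0 := by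
    intro g hg
    obtain ⟨p, h1, h2⟩ := copy_closed (notMem_Rep S x) hg (fun b hb => hport0 g b hb) c0
    refine ⟨p, fun v hv => ?_, h2⟩
    rw [h1 v hv]
    exact hc2 _ hg
  have hcin : ∀ z, z ∈ InCopies (Rep S x) w → cin q z ≤ a ∧ (exits z q = 0 → cin q z = 0) ∧
      (2 ≤ exits z q → cin q z ≤ b) := fun z hz =>
    cin_bounds hx1 hz (fun b hb => hport1 z b hb) h q hq
  let c' : β → V → ℕ := fun g v => if h : g ∈ Rep S x ∧ v ≠ w then cin q (inCopy h.1 v h.2) else 0
  let C : β → ℕ := fun g => ∑ v ∈ univ.filter (fun v => v ≠ w), c' g v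
  have hκ' : κ = Fintype.card V - 1 := by rw [hκ, Nat.card_eq_fintype_card]
  have hinner : ∀ g (hg : g ∈ Rep S x), C g ≤ κ * a ∧
      (exits g c0 = 1 → C g ≤ (κ - 1) * a + b) ∧ (exits g c0 = 0 → C g = 0) := by
    intro g hg
    obtain ⟨p, h1, h2⟩ := hcopy g hg
    have hc' : ∀ v (hv : v ≠ w), c' g v = cin q (inCopy hg v hv) := fun v hv =>
      dif_pos (⟨hg, hv⟩ : g ∈ Rep S x ∧ v ≠ w)
    have hb := inner_bound w (c' g) (fun v => p.support.tail.count v) hba
      (fun v hv => by rw [hc' v hv]; exact (hcin _ hg).1)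
      (fun v hv h0 => by rw [hc' v hv]; exact (hcin _ hg).2.1 (by rw [← h1 v hv]; exact h0))
      (fun v hv h0 => by rw [hc' v hv]; exact (hcin _ hg).2.2 (by rw [← h1 v hv]; exact h0))
    rw [← hκ'] at hb
    refine ⟨hb.1, fun h3 => hb.2.1 ?_, fun h3 => hb.2.2 ?_⟩
    · by_contra hcon
      push Not at hcon
      refine hP p fun v => ?_
      by_cases hv : v = w
      · rw [hv, h2, h3]
      · exact hcon v hv
    · intro v _
      have h4 := nil_of_count p (by rw [h2, h3])
      simp [h4]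
  have hmc : (univ.filter (fun y => y ∈ Rep S x)).card = m := by
    have h1 := card_Rep (S := S) (x := x) hxS
    rw [← hm, ← Set.ncard_coe_finset] at *
    rw [← h1]
    congr 1
    ext y
    simp
  have hgroup := group_bound (univ.filter (fun y => y ∈ Rep S x)) (fun g => exits g c0) C
    (κ := κ) (A := a) (b := b) (j := j)
    (fun g hg => (hinner g ((hRf g).1 hg)).1)
    (fun g hg => (hinner g ((hRf g).1 hg)).2.2)
    (fun g hg => (hinner g ((hRf g).1 hg)).2.1) (by omega) (by rw [hmc]; omega)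
  rw [hmc] at hgroup
  have hsum : ∑ z ∈ univ.filter (fun z => z ∈ InCopies (Rep S x) w), cin q z =
      ∑ g ∈ univ.filter (fun y => y ∈ Rep S x), C g := by
    change _ = ∑ g ∈ _, ∑ v ∈ _, c' g v
    rw [← sum_product']
    refine sum_bij (fun z _ => z.1) ?_ ?_ ?_ ?_
    · intro z hz
      rw [mem_filter] at hz
      rw [mem_product, mem_filter, mem_filter]
      exact ⟨⟨mem_univ _, hz.2⟩, mem_univ _, z.2.1 hz.2⟩
    · intro z _ z' _ h
      exact Subtype.ext h
    · rintro ⟨g, v⟩ hgv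
      rw [mem_product, mem_filter, mem_filter] at hgv
      exact ⟨inCopy hgv.1.2 v hgv.2.2, by rw [mem_filter]; exact ⟨mem_univ _, hgv.1.2⟩, rfl⟩
    · intro z hz
      rw [mem_filter] at hz
      have h3 : z.1.1 ∈ Rep S x ∧ z.1.2 ≠ w := ⟨hz.2, z.2.1 hz.2⟩
      change cin q z = if h : z.1.1 ∈ Rep S x ∧ z.1.2 ≠ w then cin q (inCopy h.1 z.1.2 h.2) else 0
      rw [dif_pos h3]
      rfl
  have hcov := cov_le_sum hx1 q (cin q) (fun z hz => by
    unfold cin
    rw [dif_pos hz]) (univ.filter (fun z => z ∈ InCopies (Rep S x) w)) (fun z => by simp)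
  rw [hsum] at hcov
  have hoth := card_other (S := S) (x := x) (w := w)
  have hoth' : {z : SumVert (Rep S x) w | z ∉ InCopies (Rep S x) w ∧ z ≠ x0}.ncard ≤ m + 1 :=
    hoth.trans hSm
  refine ⟨?_, fun h2 => ?_⟩
  · exact hcov.trans (Nat.add_le_add hoth' hgroup.1)
  · exact hcov.trans (Nat.add_le_add hoth' (hgroup.2 h2))

end

end PolySum
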