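import Pool.Agent.PolySum.Defs

/-!
# Replacing one more vertex

The sum of the sum of `B` with `G` at the vertices of `Z` and of `G` at one more vertex `y` is the
sum at the vertices of `insert y Z`.
-/

namespace PolySum

variable {β V : Type*}

/-- A vertex of the sum over `y` is the vertex `(y, w)`. -/
theorem eq_next {Z : Set β} {w : V} {y : β} (hy : y ∉ Z) (hw : (y ∈ Z ↔ w ≠ w))
    {x : SumVert Z w} (hx : x.1.1 = y) : x = ⟨(y, w), hw⟩ := by
  apply Subtype.ext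
  have h1 : x.1.2 = w := by
    by_contra h2
    exact hy (hx ▸ x.2.2 h2)
  exact Prod.ext hx h1

theorem toIns_mem {Z : Set β} {w : V} {y : β} (hy : y ∉ Z) (hw : (y ∈ Z ↔ w ≠ w))
    (p : SumVert {(⟨(y, w), hw⟩ : SumVert Z w)} w) :
    (p.1.1.1.1 = y → p.1.2 ≠ w) ∧ (p.1.1.1.1 ≠ y → p.1.2 = w) := by
  constructor
  · intro h
    exact p.2.1 (eq_next hy hw h)
  · intro h
    by_contra h1
    have h2 : p.1.1 = ⟨(y, w), hw⟩ := p.2.2 h1
    exact h (by rw [h2])

open Classical in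
/-- The map to the sum for `insert y Z`. -/
noncomputable def toIns {Z : Set β} {w : V} {y : β} (hy : y ∉ Z) (hw : (y ∈ Z ↔ w ≠ w))
    (p : SumVert {(⟨(y, w), hw⟩ : SumVert Z w)} w) : SumVert (insert y Z) w :=
  if h : p.1.1.1.1 = y then ⟨(y, p.1.2), fun _ => (toIns_mem hy hw p).1 h,
      fun _ => Set.mem_insert _ _⟩
  else ⟨(p.1.1.1.1, p.1.1.1.2), fun h1 => p.1.1.2.1 (h1.resolve_left h),
      fun h1 => Set.mem_insert_of_mem _ (p.1.1.2.2 h1)⟩

open Classical in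
/-- The map from the sum for `insert y Z`. -/
noncomputable def ofIns {Z : Set β} {w : V} {y : β} (_hy : y ∉ Z) (hw : (y ∈ Z ↔ w ≠ w))
    (P : SumVert (insert y Z) w) : SumVert {(⟨(y, w), hw⟩ : SumVert Z w)} w :=
  if h : P.1.1 = y then ⟨(⟨(y, w), hw⟩, P.1.2),
      fun _ => P.2.1 (by rw [h]; exact Set.mem_insert _ _), fun _ => rfl⟩
  else ⟨(⟨(P.1.1, P.1.2), fun h1 => P.2.1 (Set.mem_insert_of_mem _ h1),
      fun h1 => (P.2.2 h1).resolve_left h⟩, w),
      fun h1 => absurd (congrArg (fun x : SumVert Z w => x.1.1) h1) h, fun h1 => absurd rfl h1⟩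

theorem toIns_pos {Z : Set β} {w : V} {y : β} (hy : y ∉ Z) (hw : (y ∈ Z ↔ w ≠ w))
    {p : SumVert {(⟨(y, w), hw⟩ : SumVert Z w)} w} (h : p.1.1.1.1 = y) :
    (toIns hy hw p).1 = (y, p.1.2) := by
  unfold toIns
  rw [dif_pos h]

theorem toIns_neg {Z : Set β} {w : V} {y : β} (hy : y ∉ Z) (hw : (y ∈ Z ↔ w ≠ w))
    {p : SumVert {(⟨(y, w), hw⟩ : SumVert Z w)} w} (h : p.1.1.1.1 ≠ y) :
    (toIns hy hw p).1 = (p.1.1.1.1, p.1.1.1.2) := by
  unfold toIns
  rw [dif_neg h]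

theorem ofIns_toIns {Z : Set β} {w : V} {y : β} (hy : y ∉ Z) (hw : (y ∈ Z ↔ w ≠ w))
    (p : SumVert {(⟨(y, w), hw⟩ : SumVert Z w)} w) : ofIns hy hw (toIns hy hw p) = p := by
  by_cases h : p.1.1.1.1 = y
  · have h1 := toIns_pos hy hw h
    have h2 : (toIns hy hw p).1.1 = y := by rw [h1]
    unfold ofIns
    rw [dif_pos h2]
    apply Subtype.ext
    refine Prod.ext (eq_next hy hw h).symm ?_
    change (toIns hy hw p).1.2 = p.1.2
    rw [h1]
  · have h1 := toIns_neg hy hw h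
    have h2 : (toIns hy hw p).1.1 ≠ y := by rw [h1]; exact h
    unfold ofIns
    rw [dif_neg h2]
    apply Subtype.ext
    refine Prod.ext (Subtype.ext ?_) ((toIns_mem hy hw p).2 h).symm
    change ((toIns hy hw p).1.1, (toIns hy hw p).1.2) = p.1.1.1
    rw [h1]

theorem toIns_ofIns {Z : Set β} {w : V} {y : β} (hy : y ∉ Z) (hw : (y ∈ Z ↔ w ≠ w))
    (P : SumVert (insert y Z) w) : toIns hy hw (ofIns hy hw P) = P := by
  apply Subtype.ext
  by_cases h : P.1.1 = y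
  · have h2 : (ofIns hy hw P).1 = (⟨(y, w), hw⟩, P.1.2) := by
      unfold ofIns
      rw [dif_pos h]
    have h3 : (ofIns hy hw P).1.1.1.1 = y := by rw [h2]
    rw [toIns_pos hy hw h3, h2]
    exact Prod.ext h.symm rfl
  · have h2 : (ofIns hy hw P).1.1.1 = (P.1.1, P.1.2) := by
      unfold ofIns
      rw [dif_neg h]
    have h3 : (ofIns hy hw P).1.1.1.1 ≠ y := by rw [h2]; exact h
    rw [toIns_neg hy hw h3, h2]

/-- Replacing one more vertex. The sum of the sum `B' = sumGraph B G w Z port` with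
`G` at the vertex `(y, w)`, `y ∉ Z`, is the sum for `insert y Z`. The map sends
`((b, v), w)` (not replaced) to `(b, v)` and `((y, w), v)`, `v ≠ w`, to `(y, v)`. `port'` is any
function with `port' ⟨(y, w), _⟩ q = port y q.1.1` (only these values matter). -/
theorem sum_insert {β V : Type*} (B : SimpleGraph β) (G : SimpleGraph V) (w : V) (Z : Set β)
    (port : β → β → V) (y : β) (hy : y ∉ Z)
    (hw : (y ∈ Z ↔ w ≠ w)) (port' : SumVert Z w → SumVert Z w → V)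
    (hport' : ∀ q : SumVert Z w, port' ⟨(y, w), hw⟩ q = port y q.1.1) :
    Nonempty (sumGraph (sumGraph B G w Z port) G w {(⟨(y, w), hw⟩ : SumVert Z w)} port' ≃g
      sumGraph B G w (insert y Z) port) := by
  refine ⟨⟨⟨toIns hy hw, ofIns hy hw, ofIns_toIns hy hw, toIns_ofIns hy hw⟩, ?_⟩⟩
  intro p q
  change (sumGraph B G w (insert y Z) port).Adj (toIns hy hw p) (toIns hy hw q) ↔ _
  have hI : ∀ x : SumVert Z w, x ∈ ({(⟨(y, w), hw⟩ : SumVert Z w)} : Set (SumVert Z w)) ↔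
      x.1.1 = y := fun x => ⟨fun h => by rw [Set.mem_singleton_iff.1 h], fun h => eq_next hy hw h⟩
  have hins : ∀ b : β, b ≠ y → (b ∈ insert y Z ↔ b ∈ Z) := fun b hb =>
    ⟨fun h => h.resolve_left hb, fun h => Set.mem_insert_of_mem _ h⟩
  have hyi : y ∈ insert y Z := Set.mem_insert _ _
  unfold sumGraph
  change ((toIns hy hw p).1.1 = (toIns hy hw q).1.1 ∧ G.Adj (toIns hy hw p).1.2
      (toIns hy hw q).1.2 ∨ B.Adj (toIns hy hw p).1.1 (toIns hy hw q).1.1 ∧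
      ((toIns hy hw p).1.1 ∈ insert y Z → (toIns hy hw p).1.2 = port (toIns hy hw p).1.1
        (toIns hy hw q).1.1) ∧ ((toIns hy hw q).1.1 ∈ insert y Z → (toIns hy hw q).1.2 =
        port (toIns hy hw q).1.1 (toIns hy hw p).1.1)) ↔
    (p.1.1 = q.1.1 ∧ G.Adj p.1.2 q.1.2) ∨
    (((p.1.1.1.1 = q.1.1.1.1 ∧ G.Adj p.1.1.1.2 q.1.1.1.2) ∨
      (B.Adj p.1.1.1.1 q.1.1.1.1 ∧ (p.1.1.1.1 ∈ Z → p.1.1.1.2 = port p.1.1.1.1 q.1.1.1.1) ∧
        (q.1.1.1.1 ∈ Z → q.1.1.1.2 = port q.1.1.1.1 p.1.1.1.1))) ∧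
      (p.1.1 ∈ ({(⟨(y, w), hw⟩ : SumVert Z w)} : Set (SumVert Z w)) → p.1.2 = port' p.1.1 q.1.1) ∧
      (q.1.1 ∈ ({(⟨(y, w), hw⟩ : SumVert Z w)} : Set (SumVert Z w)) → q.1.2 = port' q.1.1 p.1.1))
  rw [hI, hI]
  by_cases hp : p.1.1.1.1 = y <;> by_cases hq : q.1.1.1.1 = y
  · have e1 := eq_next hy hw hp
    have e2 := eq_next hy hw hq
    rw [toIns_pos hy hw hp, toIns_pos hy hw hq, e1, e2]
    simp
  · have e1 := eq_next hy hw hp
    rw [toIns_pos hy hw hp, toIns_neg hy hw hq, e1, hport', hins _ hq]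
    have hne : y ≠ q.1.1.1.1 := fun h => hq h.symm
    have hne2 : (⟨(y, w), hw⟩ : SumVert Z w) ≠ q.1.1 := fun h => hq (by rw [← h])
    simp only [hne, hq, hyi, hy, false_and, false_or, true_imp_iff, false_imp_iff, and_true,
      true_and]
    tauto
  · have e2 := eq_next hy hw hq
    rw [toIns_neg hy hw hp, toIns_pos hy hw hq, e2, hport', hins _ hp]
    have hne2 : p.1.1 ≠ (⟨(y, w), hw⟩ : SumVert Z w) := fun h => hp (by rw [h])
    simp only [hne2, hp, hyi, hy, false_and, false_or, true_imp_iff, false_imp_iff, and_true,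
      true_and]
    tauto
  · rw [toIns_neg hy hw hp, toIns_neg hy hw hq, hins _ hp, hins _ hq]
    have h1 := (toIns_mem hy hw p).2 hp
    have h2 := (toIns_mem hy hw q).2 hq
    simp only [h1, h2, hp, hq, SimpleGraph.irrefl, false_imp_iff, and_true, and_false, false_or]

end PolySum
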