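import Pool.Agent.FewFacets.OneStep
import Pool.Agent.FewFacets.Blend
import Pool.Agent.FewFacets.SumIso

/-!
Sums of simple polytopes at several vertices.
-/

set_option linter.unusedSectionVars false

namespace FewFacets

open Finset PolySum

theorem IsGood.congr {β γ : Type*} {d : ℕ} {Γ : SimpleGraph β} {Δ : SimpleGraph γ}
    (h : IsGood d Γ) (e : Γ ≃g Δ) : IsGood d Δ := by
  obtain ⟨κ, i1, i2, f, b, h1, ⟨e1⟩⟩ := h
  exact ⟨κ, i1, i2, f, b, h1, ⟨e1.trans e⟩⟩

/-- the sum at one vertex -/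
theorem IsGood.sum {β γ : Type*} {d : ℕ} (hd : 1 ≤ d) {B : SimpleGraph β} {G : SimpleGraph γ}
    (hsimp : ∀ {κ : Type} [Fintype κ] [DecidableEq κ]
      {f : κ → EuclideanSpace ℝ (Fin d) →ₗ[ℝ] ℝ} {b : κ → ℝ}, Good f b d → Simp (vert f b d) d)
    (hB : IsGood d B) (hG : IsGood d G) (y : β) (w : γ) (port : β → β → γ)
    (hport : ∀ z, B.Adj y z → G.Adj w (port y z))
    (hinj : ∀ z z', B.Adj y z → B.Adj y z' → port y z = port y z' → z = z') :
    IsGood d (sumGraph B G w {y} port) := by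
  obtain ⟨κ, i1, i2, f, b, h, ⟨eB⟩⟩ := hB
  obtain ⟨κ', i3, i4, f', b', h', ⟨eG⟩⟩ := hG
  obtain ⟨τ, hτ, hτA, hW⟩ := onestep hd (hsimp h) (hsimp h') eB eG y w port hport hinj
  obtain ⟨F, β', hF, hv⟩ := blend hd h h' (eB.symm y).2 (eG.symm w).2 hτ hτA
  exact ⟨κ ⊕ κ', inferInstance, inferInstance, F, β', hF, hW _ hv⟩

/-- the sum at the vertices of a finite set -/
theorem IsGood.sumSet {β γ : Type*} {d : ℕ} (hd : 1 ≤ d) {B : SimpleGraph β}
    {G : SimpleGraph γ}
    (hsimp : ∀ {κ : Type} [Fintype κ] [DecidableEq κ]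
      {f : κ → EuclideanSpace ℝ (Fin d) →ₗ[ℝ] ℝ} {b : κ → ℝ}, Good f b d → Simp (vert f b d) d)
    (hB : IsGood d B) (hG : IsGood d G) (w : γ) (port : β → β → γ) (R : Set β) (hR : R.Finite)
    (hport : ∀ r ∈ R, ∀ z, B.Adj r z → G.Adj w (port r z))
    (hinj : ∀ r ∈ R, ∀ z z', B.Adj r z → B.Adj r z' → port r z = port r z' → z = z') :
    IsGood d (sumGraph B G w R port) := by
  induction R, hR using Set.Finite.induction_on with
  | empty =>
    refine hB.congr ⟨⟨fun x => ⟨(x, w), fun h => absurd h (Set.notMem_empty x),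
      fun h => absurd rfl h⟩, fun p => p.1.1, fun x => rfl, ?_⟩, ?_⟩
    · intro p
      apply Subtype.ext
      refine Prod.ext rfl ?_
      by_contra hne
      exact p.2.2 (fun h => hne h.symm)
    · intro x x'
      change ((x = x' ∧ G.Adj w w) ∨ (B.Adj x x' ∧ (x ∈ (∅ : Set β) → w = port x x') ∧
        (x' ∈ (∅ : Set β) → w = port x' x))) ↔ B.Adj x x'
      constructor
      · rintro (⟨_, h⟩ | ⟨h, _⟩)
        · exact absurd rfl (G.ne_of_adj h)
        · exact h
      · intro h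
        exact Or.inr ⟨h, fun h1 => absurd h1 (Set.notMem_empty x),
          fun h1 => absurd h1 (Set.notMem_empty x')⟩
  | @insert y Z hy hZ ih =>
    have ih' := ih (fun r hr => hport r (Set.mem_insert_of_mem _ hr))
      (fun r hr => hinj r (Set.mem_insert_of_mem _ hr))
    have hw : (y ∈ Z ↔ w ≠ w) := ⟨fun h => absurd h hy, fun h => absurd rfl h⟩
    obtain ⟨e⟩ := sum_insert B G w Z port y hy hw (fun p q => port p.1.1 q.1.1) (fun q => rfl)
    refine IsGood.congr ?_ e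
    have hadj : ∀ z : SumVert Z w, (sumGraph B G w Z port).Adj ⟨(y, w), hw⟩ z →
        B.Adj y z.1.1 ∧ (z.1.1 ∈ Z → z.1.2 = port z.1.1 y) := by
      rintro z (⟨h1, h2⟩ | ⟨h1, _, h3⟩)
      · have h4 : y = z.1.1 := h1
        have h5 : z = ⟨(y, w), hw⟩ := eq_next hy hw h4.symm
        rw [h5] at h2
        exact absurd rfl (G.ne_of_adj h2)
      · exact ⟨h1, h3⟩
    refine IsGood.sum hd hsimp ih' hG _ w _ ?_ ?_
    · intro z hz
      exact hport y (Set.mem_insert _ _) _ (hadj z hz).1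
    · intro z z' hz hz' h
      obtain ⟨h1, h2⟩ := hadj z hz
      obtain ⟨h3, h4⟩ := hadj z' hz'
      have h5 := hinj y (Set.mem_insert _ _) _ _ h1 h3 h
      apply Subtype.ext
      refine Prod.ext h5 ?_
      by_cases h6 : z.1.1 ∈ Z
      · rw [h2 h6, h4 (h5 ▸ h6), h5]
      · have h7 : z'.1.1 ∉ Z := fun h8 => h6 (h5 ▸ h8)
        have h8 : z.1.2 = w := by
          by_contra hne; exact h6 (z.2.2 hne)
        have h9 : z'.1.2 = w := by
          by_contra hne; exact h7 (z'.2.2 hne)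
        rw [h8, h9]

end FewFacets
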