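import Pool.Agent.FewFacets.HamMapWalk
import Pool.Agent.FewFacets.HostMap
import Pool.Agent.FewFacets.CubeSearch
import Pool.Agent.FewFacets.SumGood
import Pool.Agent.FewFacets.PathCycle

/-!
Paths with two edges in simple polytopes of dimension 4.
-/

set_option linter.unusedSectionVars false

namespace FewFacets

open Finset PolySum

lemma exists_perm {i j a b : Fin 4} (h : i ≠ j) (h' : a ≠ b) :
    ∃ π : Equiv.Perm (Fin 4), π i = a ∧ π j = b := by
  refine ⟨(Equiv.swap i a).trans (Equiv.swap (Equiv.swap i a j) b), ?_, ?_⟩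
  · rw [Equiv.trans_apply, Equiv.swap_apply_left]
    refine Equiv.swap_apply_of_ne_of_ne ?_ h'
    intro h1
    have h2 : Equiv.swap i a i = Equiv.swap i a j := by rw [Equiv.swap_apply_left]; exact h1
    exact h ((Equiv.swap i a).injective h2)
  · rw [Equiv.trans_apply, Equiv.swap_apply_left]

/-- the even vertices -/
def E4 : Set (Fin 4 → Bool) := {x | Even (wt x)}

/-- the direction -/
noncomputable def dr (x y : Fin 4 → Bool) : Fin 4 := dir (d := 4) (by norm_num) x y

lemma dr_spec {x y : Fin 4 → Bool} (h : (cube 4).Adj x y) : y = flip (dr x y) x :=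
  dir_spec _ h

lemma dr_flip (x : Fin 4 → Bool) (i : Fin 4) : dr x (flip i x) = i :=
  (flip_inj (dr_spec (cube_adj_iff.2 ⟨i, rfl⟩))).symm

lemma dr_eq {x y : Fin 4 → Bool} {i : Fin 4} (h : x = flip i y) : dr y x = i :=
  (congrArg (dr y) h).trans (dr_flip y i)

lemma outM_ne (x : Fin 4 → Bool) : (outM x).1 ≠ (outM x).2 := by
  revert x; decide

lemma innM_ne (x : Fin 4 → Bool) : (innM x).1 ≠ (innM x).2 := by
  unfold innM; split_ifs <;> decide

lemma r1_odd : ¬ Even (wt r1) := by decide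

lemma flip_r1_even (i : Fin 4) : Even (wt (flip i r1)) := by
  rw [wt_flip]; exact r1_odd

/-- the attachment of the inner cubes -/
noncomputable def portO (σ : (Fin 4 → Bool) → Equiv.Perm (Fin 4)) (s b : Fin 4 → Bool) :
    Fin 4 → Bool := flip (σ s (dr s b)) r1

/-- the cube with a cube at every even vertex -/
noncomputable def Bt (σ : (Fin 4 → Bool) → Equiv.Perm (Fin 4)) : SimpleGraph (SumVert E4 r1) :=
  sumGraph (cube 4) (cube 4) r1 E4 (portO σ)

lemma portO_inj (σ : (Fin 4 → Bool) → Equiv.Perm (Fin 4)) {s b b' : Fin 4 → Bool}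
    (h : (cube 4).Adj s b) (h' : (cube 4).Adj s b') (he : portO σ s b = portO σ s b') :
    b = b' := by
  have h1 := (σ s).injective (flip_inj he)
  rw [dr_spec h, dr_spec h', h1]

lemma Bt_isGood (σ : (Fin 4 → Bool) → Equiv.Perm (Fin 4)) : IsGood 4 (Bt σ) :=
  IsGood.sumSet (by norm_num) (fun h => h.simp (by norm_num)) cube_isGood cube_isGood r1 _ _
    (Set.toFinite _) (fun r _ z _ => cube_adj_iff.2 ⟨_, rfl⟩)
    (fun r _ z z' hz hz' h => portO_inj σ hz hz' h)

/-- the vertices of `Bt` with even second coordinate -/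
def St : Set (SumVert E4 r1) := {z | Even (wt z.1.2)}

lemma not_mem_E4 {z : SumVert E4 r1} (h : z.1.1 ∉ E4) : z.1.2 = r1 := by
  by_contra hne
  exact h (z.2.2 hne)

lemma mem_E4 {z : SumVert E4 r1} (h : z ∈ St) : z.1.1 ∈ E4 := by
  refine z.2.2 fun h1 => r1_odd ?_
  rw [← h1]
  exact h

lemma Bt_bip (σ : (Fin 4 → Bool) → Equiv.Perm (Fin 4)) (z z' : SumVert E4 r1)
    (h : (Bt σ).Adj z z') : (z ∈ St ↔ z' ∉ St) := by
  rcases h with ⟨_, h2⟩ | ⟨h1, h2, h3⟩
  · exact cube_bip h2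
  · have h4 : z.1.1 ∈ E4 ↔ z'.1.1 ∉ E4 := cube_bip h1
    change Even (wt z.1.2) ↔ ¬ Even (wt z'.1.2)
    by_cases h5 : z.1.1 ∈ E4
    · have h6 := not_mem_E4 (h4.1 h5)
      rw [h2 h5, h6]
      exact ⟨fun _ => r1_odd, fun _ => flip_r1_even _⟩
    · have h6 := not_mem_E4 h5
      have h7 : z'.1.1 ∈ E4 := by
        by_contra h8
        exact h5 (h4.2 h8)
      rw [h3 h7, h6]
      exact ⟨fun h => absurd h r1_odd, fun h => absurd (flip_r1_even _) h⟩

open Classical in
/-- a matching of the even vertices -/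
noncomputable def phi (z : SumVert E4 r1) : SumVert E4 r1 :=
  if h : z ∈ St then
    if h' : z.1.2 = flip 0 r1 then
      ⟨(flip 0 z.1.1, r1), ⟨fun h1 => absurd (mem_E4 h) (by
        have h2 : Even (wt (flip 0 z.1.1)) := h1
        rw [wt_flip] at h2
        exact h2), fun h1 => absurd rfl h1⟩⟩
    else ⟨(z.1.1, flip 0 z.1.2), ⟨fun _ h1 => h' ((flip_flip 0 _).symm.trans
      (congrArg (flip 0) h1)), fun _ => mem_E4 h⟩⟩
  else z

lemma phi_pos {z : SumVert E4 r1} (h : z ∈ St) (h' : z.1.2 = flip 0 r1) :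
    (phi z).1 = (flip 0 z.1.1, r1) := by
  unfold phi
  rw [dif_pos h, dif_pos h']

lemma phi_neg {z : SumVert E4 r1} (h : z ∈ St) (h' : z.1.2 ≠ flip 0 r1) :
    (phi z).1 = (z.1.1, flip 0 z.1.2) := by
  unfold phi
  rw [dif_pos h, dif_neg h']

lemma finite_SumVert : Finite (SumVert E4 r1) := by
  unfold SumVert
  infer_instance

lemma phi_ne (z : SumVert E4 r1) : ∃ y, y ≠ z := by
  have h0 : (fun _ => false) ∈ E4 := by
    change Even (wt _)
    simp [wt]
  have h1 : flip 0 (fun _ => false) ∉ E4 := by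
    intro h
    have h2 : Even (wt (flip 0 (fun _ : Fin 4 => false))) := h
    rw [wt_flip] at h2
    exact h2 h0
  by_cases hz : z ∈ St
  · refine ⟨⟨(flip 0 (fun _ => false), r1), ⟨fun h => absurd h h1, fun h => absurd rfl h⟩⟩, ?_⟩
    rintro rfl
    exact r1_odd hz
  · refine ⟨⟨((fun _ => false), flip 0 r1), ⟨fun _ h => (cube 4).ne_of_adj
      (cube_adj_iff.2 ⟨0, rfl⟩) h.symm, fun _ => h0⟩⟩, ?_⟩
    rintro rfl
    exact hz (flip_r1_even 0)

lemma St_bal : St.ncard ≤ Stᶜ.ncard := by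
  have := finite_SumVert
  refine Set.ncard_le_ncard_of_injOn phi ?_ ?_ (Set.toFinite _)
  · intro z hz
    change ¬ Even (wt (phi z).1.2)
    by_cases h : z.1.2 = flip 0 r1
    · rw [phi_pos hz h]; exact r1_odd
    · rw [phi_neg hz h]
      change ¬ Even (wt (flip 0 z.1.2))
      rw [wt_flip, not_not]
      exact hz
  · intro z hz z' hz' he
    have he' := congrArg Subtype.val he
    by_cases h : z.1.2 = flip 0 r1 <;> by_cases h' : z'.1.2 = flip 0 r1
    · rw [phi_pos hz h, phi_pos hz' h'] at he'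
      have h1 := congrArg (flip 0) (congrArg Prod.fst he')
      change flip 0 (flip 0 z.1.1) = flip 0 (flip 0 z'.1.1) at h1
      rw [flip_flip, flip_flip] at h1
      exact Subtype.ext (Prod.ext h1 (h.trans h'.symm))
    · rw [phi_pos hz h, phi_neg hz' h'] at he'
      have h1 := congrArg Prod.snd he'
      change r1 = flip 0 z'.1.2 at h1
      exact absurd ((flip_flip 0 _).symm.trans (congrArg (flip 0) h1.symm)) h'
    · rw [phi_neg hz h, phi_pos hz' h'] at he'
      have h1 := congrArg Prod.snd he'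
      change flip 0 z.1.2 = r1 at h1
      exact absurd ((flip_flip 0 _).symm.trans (congrArg (flip 0) h1)) h
    · rw [phi_neg hz h, phi_neg hz' h'] at he'
      have h1 := congrArg (flip 0) (congrArg Prod.snd he')
      change flip 0 (flip 0 z.1.2) = flip 0 (flip 0 z'.1.2) at h1
      rw [flip_flip, flip_flip] at h1
      have h2 := congrArg Prod.fst he'
      change z.1.1 = z'.1.1 at h2
      exact Subtype.ext (Prod.ext h2 h1)

open Classical in
/-- the direction from `z` to a neighbour -/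
noncomputable def dirB (z z' : SumVert E4 r1) : Fin 4 :=
  if z.1.1 = z'.1.1 then dr z.1.2 z'.1.2 else dr z.1.1 z'.1.1

open Classical in
/-- the forbidden pair of directions -/
noncomputable def mB (z : SumVert E4 r1) : Fin 4 × Fin 4 :=
  if z.1.1 ∈ E4 then innM z.1.2 else outM z.1.1

lemma mB_ne (z : SumVert E4 r1) : (mB z).1 ≠ (mB z).2 := by
  unfold mB; split_ifs
  · exact innM_ne _
  · exact outM_ne _

lemma dirB_inj (σ : (Fin 4 → Bool) → Equiv.Perm (Fin 4)) {z z' z'' : SumVert E4 r1}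
    (hz : z ∉ St) (h' : (Bt σ).Adj z z') (h'' : (Bt σ).Adj z z'')
    (he : dirB z z' = dirB z z'') : z' = z'' := by
  by_cases hE : z.1.1 ∈ E4
  · have key : ∀ y, (Bt σ).Adj z y → z.1.1 = y.1.1 ∧ (cube 4).Adj z.1.2 y.1.2 := by
      rintro y (h1 | ⟨h1, h2, _⟩)
      · exact h1
      · exfalso
        apply hz
        change Even (wt z.1.2)
        rw [h2 hE]
        exact flip_r1_even _
    obtain ⟨a1, a2⟩ := key _ h'
    obtain ⟨b1, b2⟩ := key _ h''
    unfold dirB at he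
    rw [if_pos a1, if_pos b1] at he
    refine Subtype.ext (Prod.ext (a1.symm.trans b1) ?_)
    rw [dr_spec a2, dr_spec b2, he]
  · have hr := not_mem_E4 hE
    have key : ∀ y, (Bt σ).Adj z y → (cube 4).Adj z.1.1 y.1.1 ∧
        y.1.2 = portO σ y.1.1 z.1.1 := by
      rintro y (⟨h1, h2⟩ | ⟨h1, _, h3⟩)
      · exfalso
        have h3 : y.1.2 = r1 := not_mem_E4 (by rw [← h1]; exact hE)
        rw [hr, h3] at h2
        exact (cube 4).ne_of_adj h2 rfl
      · refine ⟨h1, h3 ?_⟩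
        by_contra h4
        exact hE ((cube_bip h1).2 h4)
    obtain ⟨a1, a2⟩ := key _ h'
    obtain ⟨b1, b2⟩ := key _ h''
    unfold dirB at he
    rw [if_neg ((cube 4).ne_of_adj a1), if_neg ((cube 4).ne_of_adj b1)] at he
    have h1 : z'.1.1 = z''.1.1 := by rw [dr_spec a1, dr_spec b1, he]
    exact Subtype.ext (Prod.ext h1 (by rw [a2, b2, h1]))

/-- a pair of directions sent to the pair `0`, `1` -/
lemma pair_cases {π : Equiv.Perm (Fin 4)} {a b : Fin 4} {m : Fin 4 × Fin 4}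
    (hπ : π m.1 = 0 ∧ π m.2 = 1) (h : (a = m.1 ∧ b = m.2) ∨ (a = m.2 ∧ b = m.1)) :
    (π a = 0 ∧ π b = 1) ∨ (π a = 1 ∧ π b = 0) := by
  rcases h with ⟨rfl, rfl⟩ | ⟨rfl, rfl⟩
  · exact Or.inl hπ
  · exact Or.inr ⟨hπ.2, hπ.1⟩

/-- the heart: a Hamilton cycle of the sum over the host `Bt` gives a Hamilton cycle of the
summand through two given edges -/
theorem two_path_aux {V : Type*} [Finite V] {G : SimpleGraph V} {w : V} {nbr : Fin 4 → V}
    (hadj : ∀ j, G.Adj w (nbr j)) {σ : (Fin 4 → Bool) → Equiv.Perm (Fin 4)}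
    (hσ : ∀ s, σ s (outM s).1 = 2 ∧ σ s (outM s).2 = 3)
    {π : SumVert E4 r1 → Equiv.Perm (Fin 4)} (hπ : ∀ z, π z (mB z).1 = 0 ∧ π z (mB z).2 = 1)
    {F : SumVert (Stᶜ) w → SumVert (Stᶜ) w}
    (hF : HamMap (sumGraph (Bt σ) G w Stᶜ (fun z z' => nbr (π z (dirB z z')))) F) :
    ∃ g : V → V, HamMap G g ∧
      ((g w = nbr 0 ∧ g (nbr 1) = w) ∨ (g w = nbr 1 ∧ g (nbr 0) = w)) := by
  by_contra hno
  have := finite_SumVert
  have hne : ∃ v, v ≠ w := ⟨nbr 0, fun h => G.ne_of_adj (hadj 0) h.symm⟩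
  have htwo : ∀ b : SumVert E4 r1, ∃ b', b' ≠ b := by
    intro b
    obtain ⟨y, hy⟩ := (phi_ne b)
    exact ⟨y, hy⟩
  obtain ⟨f, hf, hfe, hfr⟩ := host_map (Bt_bip σ) St_bal (fun b hb => hb) hne htwo
    (fun r _ b _ => hadj _) hF
  -- the constraints in `Bt`
  have C1 : ∀ z, f z ∉ St → ¬ ((dirB (f z) z = (mB (f z)).1 ∧
      dirB (f z) (f (f z)) = (mB (f z)).2) ∨ (dirB (f z) z = (mB (f z)).2 ∧
      dirB (f z) (f (f z)) = (mB (f z)).1)) := by
    intro z hz hcon
    obtain ⟨g, hg, hg1, hg2, -⟩ := hfr (f z) hz z rfl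
    rcases pair_cases (hπ (f z)) hcon with ⟨h1, h2⟩ | ⟨h1, h2⟩
    · exact hno ⟨g, hg, Or.inl ⟨by rw [hg1, h1], by rw [← h2]; exact hg2⟩⟩
    · exact hno ⟨g, hg, Or.inr ⟨by rw [hg1, h1], by rw [← h2]; exact hg2⟩⟩
  -- the outer cube
  have hbal : (E4ᶜ : Set (Fin 4 → Bool)).ncard ≤ (E4ᶜ : Set (Fin 4 → Bool))ᶜ.ncard := by
    rw [compl_compl]
    refine Set.ncard_le_ncard_of_injOn (flip 0) ?_ ?_ (Set.toFinite _)
    · intro x hx
      change Even (wt (flip 0 x))
      rw [wt_flip]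
      exact hx
    · intro x _ y _ hxy
      have := congrArg (flip 0) hxy
      rwa [flip_flip, flip_flip] at this
  obtain ⟨h, hh, hhe, hhr⟩ := host_map (S := E4ᶜ) (R := E4) (B := cube 4) (G := cube 4) (w := r1)
    (port := portO σ) (fun b b' hb => by
      have h1 : b ∈ E4 ↔ b' ∉ E4 := cube_bip hb
      change b ∉ E4 ↔ ¬ (b' ∉ E4)
      rw [h1]) hbal (fun b hb h1 => h1 hb) ⟨flip 0 r1, fun h => (cube 4).ne_of_adj
        (cube_adj_iff.2 ⟨0, rfl⟩) h.symm⟩
    (fun b => ⟨flip 0 b, fun h => (cube 4).ne_of_adj (cube_adj_iff.2 ⟨0, rfl⟩) h.symm⟩)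
    (fun r _ b _ => cube_adj_iff.2 ⟨_, rfl⟩) hf
  obtain ⟨b, hb⟩ := cube_outer hh
  have adj1 := hh.adj b
  have adj2 := hh.adj (h b)
  have ed : ∀ {x : Fin 4 → Bool} {i : Fin 4}, x = flip i (h b) → dr (h b) x = i := by
    rintro x i rfl
    exact dr_flip _ _
  by_cases hc : h b ∈ E4
  · -- an inner cube
    obtain ⟨g, hg, hg1, hg2, hgi⟩ := hhr (h b) hc b rfl
    have hu : Uses g (portO σ (h b) (h (h b))) (2, 3) := by
      unfold Uses
      rw [hg2]
      rcases hb with ⟨h1, h2⟩ | ⟨h1, h2⟩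
      · right
        refine ⟨?_, ?_⟩
        · change flip _ r1 = flip 3 r1
          rw [ed h2, (hσ _).2]
        · rw [hg1]
          change flip _ r1 = flip 2 r1
          rw [ed h1, (hσ _).1]
      · left
        refine ⟨?_, ?_⟩
        · change flip _ r1 = flip 2 r1
          rw [ed h2, (hσ _).1]
        · rw [hg1]
          change flip _ r1 = flip 3 r1
          rw [ed h1, (hσ _).2]
    obtain ⟨c, hc1, hc2, hc3⟩ := cube_inner hg hg2 hu
    have adc := hg.adj c
    have adc' := hg.adj (g c)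
    have hcr : c ≠ r1 := by
      intro h1
      have h2 : c ∈ E4 ↔ g c ∉ E4 := cube_bip adc
      have h3 : c ∈ E4 := h2.2 hc1
      rw [h1] at h3
      exact r1_odd h3
    have hcr' : g (g c) ≠ r1 := by
      intro h1
      have h2 : g c ∈ E4 ↔ g (g c) ∉ E4 := cube_bip adc'
      have h3 : g (g c) ∈ E4 := by
        by_contra h4
        exact hc1 (h2.2 h4)
      rw [h1] at h3
      exact r1_odd h3
    obtain ⟨z, hz1, hz2⟩ := hgi c hcr hc2
    obtain ⟨z', hz1', hz2'⟩ := hgi (g c) hc2 hcr'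
    have hzz : z' = f z := Subtype.ext (hz1'.trans hz2.symm)
    rw [hzz] at hz2'
    refine C1 z ?_ ?_
    · change ¬ Even (wt (f z).1.2)
      rw [hz2]
      exact hc1
    · have hm : mB (f z) = innM (g c) := by
        unfold mB
        rw [hz2, if_pos hc]
      have d1 : dirB (f z) z = dr (g c) c := by
        unfold dirB
        rw [hz2, hz1, if_pos rfl]
      have d2 : dirB (f z) (f (f z)) = dr (g c) (g (g c)) := by
        unfold dirB
        rw [hz2, hz2', if_pos rfl]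
      rw [hm, d1, d2]
      rcases hc3 with ⟨h1, h2⟩ | ⟨h1, h2⟩
      · left
        exact ⟨dr_eq h1, dr_eq h2⟩
      · right
        exact ⟨dr_eq h1, dr_eq h2⟩
  · -- an odd vertex of the outer cube
    obtain ⟨z, hz1, hz2⟩ := hhe b
    have hr : (f z).1.2 = r1 := not_mem_E4 (by rw [hz2]; exact hc)
    obtain ⟨z', hz1', hz2'⟩ := hhe (h b)
    have hzz : z' = f z := Subtype.ext (Prod.ext (hz1'.trans hz2.symm)
      ((not_mem_E4 (by rw [hz1']; exact hc)).trans hr.symm))
    rw [hzz] at hz2'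
    refine C1 z ?_ ?_
    · change ¬ Even (wt (f z).1.2)
      rw [hr]
      exact r1_odd
    · have hm : mB (f z) = outM (h b) := by
        unfold mB
        rw [hz2, if_neg hc]
      have d1 : dirB (f z) z = dr (h b) b := by
        unfold dirB
        rw [hz2, hz1, if_neg ((cube 4).ne_of_adj adj1).symm]
      have d2 : dirB (f z) (f (f z)) = dr (h b) (h (h b)) := by
        unfold dirB
        rw [hz2, hz2', if_neg ((cube 4).ne_of_adj adj2)]
      rw [hm, d1, d2]
      rcases hb with ⟨h1, h2⟩ | ⟨h1, h2⟩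
      · left
        exact ⟨dr_eq h1, dr_eq h2⟩
      · right
        exact ⟨dr_eq h1, dr_eq h2⟩

open Classical in
/-- **Every path with two edges of a simple polytope of dimension 4 is in a Hamilton cycle, if all
simple polytopes of dimension 4 have Hamilton cycles.** -/
theorem two_path_of_cycles
    (hall : ∀ Q : Set (EuclideanSpace ℝ (Fin 4)), SimplePolytope 4 Q →
      ∃ (v : Q.extremePoints ℝ) (p : (polytopeGraph Q).Walk v v), p.IsHamiltonianCycle)
    {P : Set (EuclideanSpace ℝ (Fin 4))} (hP : SimplePolytope 4 P)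
    {w u v : P.extremePoints ℝ} (hu : (polytopeGraph P).Adj w u)
    (hv : (polytopeGraph P).Adj w v) (huv : u ≠ v) :
    ∃ (a : P.extremePoints ℝ) (p : (polytopeGraph P).Walk a a), p.IsHamiltonianCycle ∧
      s(w, u) ∈ p.edges ∧ s(w, v) ∈ p.edges := by
  have hfin := hP.finite (by norm_num)
  obtain ⟨nb, h1, h2, h3⟩ := exists_nbr (by norm_num) (hP.2.2.2 w)
  obtain ⟨j, rfl⟩ := h3 u hu
  obtain ⟨k, rfl⟩ := h3 v hv
  have hjk : j ≠ k := fun h => huv (congrArg nb h)
  obtain ⟨ρ, hρ0, hρ1⟩ := exists_perm (i := 0) (j := 1) (by decide) hjk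
  choose σ hσ using fun s => exists_perm (outM_ne s) (by decide : (2 : Fin 4) ≠ 3)
  choose π hπ using fun z => exists_perm (mB_ne z) (by decide : (0 : Fin 4) ≠ 1)
  obtain ⟨nbr, hnbr⟩ : ∃ nbr : Fin 4 → P.extremePoints ℝ, nbr = fun i => nb (ρ i) := ⟨_, rfl⟩
  have hn0 : nbr 0 = nb j := by rw [hnbr, ← hρ0]
  have hn1 : nbr 1 = nb k := by rw [hnbr, ← hρ1]
  have hninj : Function.Injective nbr := by
    rw [hnbr]
    exact h1.comp ρ.injective
  have hadj : ∀ j, (polytopeGraph P).Adj w (nbr j) := by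
    intro j
    rw [hnbr]
    exact h2 _
  have := finite_SumVert
  obtain ⟨Q, hQ, ⟨e⟩⟩ : ∃ Q, SimplePolytope 4 Q ∧ Nonempty (polytopeGraph Q ≃g
      sumGraph (Bt σ) (polytopeGraph P) w Stᶜ (fun z z' => nbr (π z (dirB z z')))) := by
    refine IsGood.polytope (by norm_num) ?_
    exact IsGood.sumSet (by norm_num) (fun h => h.simp (by norm_num)) (Bt_isGood σ)
      (hP.isGood (by norm_num)) w _ _ (Set.toFinite _) (fun r _ z _ => hadj _)
      (fun r hr z z' hz hz' h => dirB_inj σ hr hz hz' ((π r).injective (hninj h)))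
  have hham := ham_cycle_iso e (hall Q hQ)
  obtain ⟨F, hF⟩ := hamMap_of_walk hham
  obtain ⟨g, hg, hgw⟩ := two_path_aux hadj hσ hπ hF
  have hcard : 3 ≤ Nat.card (P.extremePoints ℝ) := by
    have h4 := Nat.card_le_card_of_injective nb h1
    rw [Nat.card_eq_fintype_card, Fintype.card_fin] at h4
    omega
  obtain ⟨a, p, hp, hpe⟩ := walk_of_hamMap hg hcard
  refine ⟨a, p, hp, ?_⟩
  rcases hgw with ⟨h4, h5⟩ | ⟨h4, h5⟩
  · have h6 := hpe w
    have h7 := hpe (nbr 1)
    rw [h4, hn0] at h6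
    rw [h5, hn1, Sym2.eq_swap] at h7
    exact ⟨h6, h7⟩
  · have h6 := hpe w
    have h7 := hpe (nbr 0)
    rw [h4, hn1] at h6
    rw [h5, hn0, Sym2.eq_swap] at h7
    exact ⟨h7, h6⟩

end FewFacets
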