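import Pool.Agent.FewFacets.SpreadTFAE
import Pool.Agent.FewFacets.TwoPath

/-!
The equivalences with spanning walks, with Hamilton cycles spread evenly over the edges at a
vertex, and in dimension 4 with Hamilton cycles through two given edges at a vertex.
-/

set_option linter.unusedSectionVars false

namespace FewFacets

open Classical in
/-- `G` has a Hamilton cycle through the edges `wu` and `wv` -/
def HamVia {V : Type*} (G : SimpleGraph V) (u w v : V) : Prop :=
  ∃ (a : V) (p : G.Walk a a), p.IsHamiltonianCycle ∧ s(w, u) ∈ p.edges ∧ s(w, v) ∈ p.edges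

/-- if `d = 4` then any two different edges of `G` at `w` are in a common Hamilton cycle -/
def Pairs4 {V : Type*} (G : SimpleGraph V) (d : ℕ) (w : V) : Prop :=
  d = 4 → ∀ u v, G.Adj w u → G.Adj w v → u ≠ v → HamVia G u w v

theorem pairs4_of_cycles {d : ℕ} (hall : ∀ Q : Set (EuclideanSpace ℝ (Fin d)),
      SimplePolytope d Q → HamCycle (gr Q))
    {P : Set (EuclideanSpace ℝ (Fin d))} (hP : SimplePolytope d P) (w : Vtx P) :
    Pairs4 (gr P) d w := by
  intro hd u v hu hv huv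
  subst hd
  obtain ⟨a, p, hp, h3, h4⟩ := two_path_of_cycles (fun Q hQ =>
    (hamCycle_iff (G := gr Q) _).2 (hall Q hQ)) hP hu hv huv
  exact ⟨a, p, isHam_classical _ hp, h3, h4⟩

/-- **The equivalences.** -/
theorem all_tfae {d : ℕ} (hd : 3 ≤ d) : List.TFAE [
    ∀ c : ℝ, 0 < c → ∃ N : ℕ, ∀ P : Set (EuclideanSpace ℝ (Fin d)), SimplePolytope d P →
      N ≤ Nat.card (Vtx P) → FewRepeats (gr P) c,
    ∀ c : ℝ, 0 < c → ∃ N : ℕ, ∀ P : Set (EuclideanSpace ℝ (Fin d)), SimplePolytope d P →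
      N ≤ Nat.card (Vtx P) → CoverBy (gr P) c,
    ∀ c : ℝ, 0 < c → ∃ N : ℕ, ∀ P : Set (EuclideanSpace ℝ (Fin d)), SimplePolytope d P →
      N ≤ Nat.card (Vtx P) → LongPath (gr P) c,
    ∀ P : Set (EuclideanSpace ℝ (Fin d)), SimplePolytope d P → HamPath (gr P),
    ∀ P : Set (EuclideanSpace ℝ (Fin d)), SimplePolytope d P → HamCycle (gr P),
    ∀ P : Set (EuclideanSpace ℝ (Fin d)), SimplePolytope d P →
      ∀ w : Vtx P, HamSpread (gr P) d w ∧ Pairs4 (gr P) d w] := by
  have h := spread_tfae hd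
  tfae_have 1 ↔ 2 := h.out 0 1
  tfae_have 1 ↔ 3 := h.out 0 2
  tfae_have 1 ↔ 4 := h.out 0 3
  tfae_have 1 ↔ 5 := h.out 0 4
  have h56 := h.out 4 5
  tfae_have 5 → 6 := fun h5 P hP w => ⟨h56.1 h5 P hP w, pairs4_of_cycles h5 hP w⟩
  tfae_have 6 → 5 := fun h6 => h56.2 fun P hP w => (h6 P hP w).1
  tfae_finish

end FewFacets
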