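import Pool.Agent.FewFacets.ShFam
import Pool.Agent.FewFacets.ShS9a
import Pool.Agent.FewFacets.ShS9b
import Pool.Agent.FewFacets.TwoPathTFAE

/-!
Paths with at least `N ^ (1 - c)` vertices.
-/

set_option linter.unusedSectionVars false

namespace FewFacets

open Finset PolySum

/-- `G` has a path with at least `N ^ (1 - c)` vertices, `N` the number of vertices of `G` -/
def PowPath {V : Type*} (G : SimpleGraph V) (c : ℝ) : Prop :=
  ∃ (a b : V) (p : G.Walk a b), p.IsPath ∧ (Nat.card V : ℝ) ^ (1 - c) ≤ p.support.length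

theorem hamPath_powPath {V : Type*} [Finite V] {G : SimpleGraph V} (h : HamPath G) {c : ℝ}
    (hc : 0 < c) : PowPath G c := by
  classical
  obtain ⟨a, b, p, hp⟩ := (hamPath_iff (G := G) inferInstance).2 h
  have := Fintype.ofFinite V
  refine ⟨a, b, p, hp.isPath, ?_⟩
  have h1 : p.support.toFinset.card = p.support.length :=
    List.toFinset_card_of_nodup hp.isPath.support_nodup
  have h2 : p.support.toFinset = univ := by
    ext v
    simp [hp.mem_support v]
  rw [h2, card_univ, ← Nat.card_eq_fintype_card] at h1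
  rw [← h1]
  have h3 : (1 : ℝ) ≤ Nat.card V := by
    have h4 : 0 < Nat.card V := by
      rw [h1]
      exact List.length_pos_of_ne_nil (by simp)
    exact_mod_cast h4
  calc (Nat.card V : ℝ) ^ (1 - c) ≤ (Nat.card V : ℝ) ^ (1 : ℝ) :=
        Real.rpow_le_rpow_of_exponent_le h3 (by linarith)
    _ = Nat.card V := Real.rpow_one _

open Classical in
theorem path_le {U : Type*} [Finite U] {Γ : SimpleGraph U} {r : U} {e : ℕ} (h : Wide Γ r e)
    {a b : U} (p : Γ.Walk a b) (hp : p.IsPath) : p.support.length ≤ e + 1 := by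
  have h1 : cov r p ≤ e := h a b p fun v _ => List.nodup_iff_count_le_one.1 hp.support_nodup v
  have h2 : p.support.toFinset.card = p.support.length :=
    List.toFinset_card_of_nodup hp.support_nodup
  have h3 : ((p.support.toFinset.erase r : Finset U) : Set U) ⊆ {v | v ≠ r ∧ v ∈ p.support} := by
    intro v hv
    rw [mem_coe, mem_erase, List.mem_toFinset] at hv
    exact hv
  have h4 := Set.ncard_le_ncard h3 (Set.toFinite _)
  rw [Set.ncard_coe_finset] at h4
  have h5 := Finset.pred_card_le_card_erase (s := p.support.toFinset) (a := r)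
  unfold cov at h1
  omega

open Classical in
/-- **Paths with `N ^ (1 - c)` vertices give Hamilton paths.** -/
theorem ham_of_pow {d : ℕ} (hd : 3 ≤ d)
    (h : ∀ c : ℝ, 0 < c → ∃ N : ℕ, ∀ P : Set (EuclideanSpace ℝ (Fin d)), SimplePolytope d P →
      N ≤ Nat.card (Vtx P) → PowPath (gr P) c)
    (P : Set (EuclideanSpace ℝ (Fin d))) (hP : SimplePolytope d P) : HamPath (gr P) := by
  by_contra hnot
  have hfin : Finite (Vtx P) := hP.finite (by omega)
  obtain ⟨w⟩ := hP.nonempty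
  obtain ⟨β, hβ, B, S, hB, hbip, hbal, h4⟩ := host (d := d) (by omega) 4
  obtain ⟨x, hx⟩ : Sᶜ.Nonempty := Set.nonempty_of_ncard_ne_zero (by omega)
  have hPg : IsGood d (gr P) := hP.isGood (by omega)
  have hno : ∀ (i : DecidableEq (Vtx P)) (q : (gr P).Walk w w),
      ¬ ∀ v, q.support.tail.count v = 1 := by
    intro i q hq
    obtain rfl : i = (fun a b => Classical.propDecidable (a = b)) := Subsingleton.elim _ _
    refine hnot ?_
    have h1 : SpanClosed (gr P) 1 := ⟨w, q, fun v => ⟨(hq v).ge, (hq v).le⟩⟩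
    exact (hamPath_iff (G := gr P) _).1 (spanWalk_of_closed h1).ham
  have hV : 2 ≤ Nat.card (Vtx P) := by
    have h1 := hPg.ncard (by omega) w
    have h2 := Set.ncard_le_ncard (Set.subset_univ ((gr P).neighborSet w)) (Set.toFinite _)
    rw [Set.ncard_univ] at h2
    omega
  obtain ⟨n0, hn0⟩ : ∃ n0, Nat.card (Vtx P) = n0 + 1 := ⟨Nat.card (Vtx P) - 1, by omega⟩
  set m := Sᶜ.ncard - 1 with hm
  set κ := Nat.card (Vtx P) - 1 with hκ
  have hκ1 : 1 ≤ κ := by omega
  have hm3 : 3 ≤ m := by omega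
  have hs3 : 3 ≤ m * κ := by nlinarith
  obtain ⟨Y, D, hY, hD, hk⟩ := rec_bounds (m := m) (κ := κ) (s := m * κ) (by omega) hκ1 rfl hs3
    n0 (by omega) (Fam d) (Fam.start w hPg hn0)
    (fun n a b e hba hF => Fam.step hd hB hbip hbal hx hPg hno hm hκ rfl hba hF)
  have hs3' : (3 : ℝ) ≤ ((m * κ : ℕ) : ℝ) := by exact_mod_cast hs3
  obtain ⟨ε, hε, hK⟩ := exists_eps (s := ((m * κ : ℕ) : ℝ)) (θ := ((m * κ : ℕ) : ℝ) - 1 / 4)
    (T := ((m * κ : ℕ) : ℝ) + m + 2) (Y := Y) (D := D) (by linarith) (by linarith)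
    (by have : (0 : ℝ) ≤ m := Nat.cast_nonneg _
        linarith) hY hD
  obtain ⟨N0, hN0⟩ := h ε hε
  obtain ⟨k, hkN, hkk⟩ := hK N0
  obtain ⟨n, a, b, e, hF, h1, h2, h3⟩ := hk k
  obtain ⟨U, hU, Γ, r, hΓ, hn, -, hwide⟩ := hF
  obtain ⟨Q, hQ, ⟨iso⟩⟩ := hΓ.polytope (by omega)
  have hcardQ : Nat.card (Vtx Q) = n + 1 := by
    rw [← hn]
    exact Nat.card_congr iso.toEquiv
  have hbig : N0 ≤ Nat.card (Vtx Q) := by
    have h5 : k < (m * κ) ^ k := Nat.lt_pow_self (by omega)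
    have h6 : (((m * κ) ^ k : ℕ) : ℝ) ≤ ((n + 1 : ℕ) : ℝ) := by
      push_cast
      push_cast at h1
      exact h1
    have h7 : (m * κ) ^ k ≤ n + 1 := by exact_mod_cast h6
    omega
  obtain ⟨u, v, p, hp, hlen⟩ := hN0 Q hQ hbig
  have hp' : (p.map iso.toHom).IsPath := SimpleGraph.Walk.map_isPath_of_injective
    iso.toEquiv.injective hp
  have h5 := path_le hwide _ hp'
  rw [SimpleGraph.Walk.support_map, List.length_map] at h5
  have h6 : (p.support.length : ℝ) ≤ (e : ℝ) + 1 := by exact_mod_cast h5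
  have h7 := hkk ((n : ℝ) + 1) h1 h2
  rw [hcardQ] at hlen
  push_cast at hlen
  linarith

/-- **The equivalences.** -/
theorem pow_tfae {d : ℕ} (hd : 3 ≤ d) : List.TFAE [
    ∀ c : ℝ, 0 < c → ∃ N : ℕ, ∀ P : Set (EuclideanSpace ℝ (Fin d)), SimplePolytope d P →
      N ≤ Nat.card (Vtx P) → FewRepeats (gr P) c,
    ∀ c : ℝ, 0 < c → ∃ N : ℕ, ∀ P : Set (EuclideanSpace ℝ (Fin d)), SimplePolytope d P →
      N ≤ Nat.card (Vtx P) → CoverBy (gr P) c,
    ∀ c : ℝ, 0 < c → ∃ N : ℕ, ∀ P : Set (EuclideanSpace ℝ (Fin d)), SimplePolytope d P →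
      N ≤ Nat.card (Vtx P) → PowPath (gr P) c,
    ∀ P : Set (EuclideanSpace ℝ (Fin d)), SimplePolytope d P → HamPath (gr P),
    ∀ P : Set (EuclideanSpace ℝ (Fin d)), SimplePolytope d P → HamCycle (gr P),
    ∀ P : Set (EuclideanSpace ℝ (Fin d)), SimplePolytope d P →
      ∀ w : Vtx P, HamSpread (gr P) d w ∧ Pairs4 (gr P) d w] := by
  have h := all_tfae hd
  tfae_have 1 ↔ 2 := h.out 0 1
  tfae_have 1 ↔ 4 := h.out 0 3
  tfae_have 1 ↔ 5 := h.out 0 4
  tfae_have 1 ↔ 6 := h.out 0 5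
  tfae_have 3 → 4 := fun h3 => ham_of_pow hd h3
  tfae_have 4 → 3 := by
    intro h4 c hc
    refine ⟨0, fun P hP _ => ?_⟩
    have hf : Finite (Vtx P) := hP.finite (by omega)
    exact hamPath_powPath (h4 P hP) hc
  tfae_finish

end FewFacets
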