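import Pool.Agent.FewFacets.Plane
import Pool.Agent.FewFacets.Chain

/-!
The supports of the vertices of a simple polytope with at most `d + 3` facets are the
alternating triples of a two-coloured chain.
-/

set_option linter.unusedSectionVars false

namespace FewFacets

open Finset

variable {ι : Type*} [Fintype ι] [LinearOrder ι]

/-- position in the chain -/
noncomputable def pos (g : ι → ℝ) (i : ι) : ℝ ×ₗ ι := toLex (g i, i)

lemma pos_lt {g : ι → ℝ} {i j : ι} : pos g i < pos g j ↔ g i < g j ∨ g i = g j ∧ i < j := by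
  unfold pos
  rw [Prod.Lex.toLex_lt_toLex]

lemma pos_le {g : ι → ℝ} {i j : ι} (h : pos g i < pos g j) : g i ≤ g j := by
  rcases pos_lt.1 h with h | ⟨h, _⟩
  · exact h.le
  · exact h.le

lemma pos_inj (g : ι → ℝ) : Function.Injective (pos g) := by
  intro i j h
  have := congrArg (fun p => (ofLex p).2) h
  exact this

/-- the alternating triples -/
def Gfam (g : ι → ℝ) (c : ι → Bool) : Set (Finset ι) :=
  {T | ∃ i j k, pos g i < pos g j ∧ pos g j < pos g k ∧ c i ≠ c j ∧ c j ≠ c k ∧
    T = {i, j, k}}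

lemma gfam_iff (g : ι → ℝ) (c : ι → Bool) (T' : Finset ι) : T' ∈ Gfam g c ↔
    ∃ T ∈ Alt3 (fun p : ℝ ×ₗ ι => c (ofLex p).2) (univ.image (pos g)),
      T' = T.image (fun p => (ofLex p).2) := by
  constructor
  · rintro ⟨i, j, k, h1, h2, c1, c2, rfl⟩
    refine ⟨{pos g i, pos g j, pos g k}, ⟨_, _, _, h1, h2, mem_image_of_mem _ (mem_univ _),
      mem_image_of_mem _ (mem_univ _), mem_image_of_mem _ (mem_univ _), c1, c2, rfl⟩, ?_⟩
    simp only [image_insert, image_singleton]
    rfl
  · rintro ⟨T, ⟨p, q, r, h1, h2, hp, hq, hr, c1, c2, rfl⟩, rfl⟩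
    obtain ⟨i, _, rfl⟩ := mem_image.1 hp
    obtain ⟨j, _, rfl⟩ := mem_image.1 hq
    obtain ⟨k, _, rfl⟩ := mem_image.1 hr
    refine ⟨i, j, k, h1, h2, c1, c2, ?_⟩
    simp only [image_insert, image_singleton]
    rfl

lemma gfam_cyc (g : ι → ℝ) (c : ι → Bool) (hne : (Gfam g c).Nonempty) :
    ∃ l, Cyc (Gfam g c) l := by
  have hne' : (Alt3 (fun p : ℝ ×ₗ ι => c (ofLex p).2) (univ.image (pos g))).Nonempty := by
    obtain ⟨T', hT'⟩ := hne
    obtain ⟨T, hT, _⟩ := (gfam_iff g c T').1 hT'
    exact ⟨T, hT⟩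
  obtain ⟨l, hl⟩ := alt3_cyc (fun p : ℝ ×ₗ ι => c (ofLex p).2) _ _ rfl hne'
  refine ⟨_, hl.map (fun p => (ofLex p).2) (univ.image (pos g)) ?_
    (fun T hT => Alt3.subset hT) (gfam_iff g c)⟩
  intro p hp q hq hpq
  rw [mem_coe] at hp hq
  obtain ⟨i, _, rfl⟩ := mem_image.1 hp
  obtain ⟨j, _, rfl⟩ := mem_image.1 hq
  have : i = j := hpq
  rw [this]

lemma gfam_card {g : ι → ℝ} {c : ι → Bool} {T : Finset ι} (h : T ∈ Gfam g c) :
    T.card = 3 := by
  obtain ⟨i, j, k, h1, h2, _, _, rfl⟩ := h
  have hij : i ≠ j := fun h => by subst h; exact lt_irrefl _ h1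
  have hjk : j ≠ k := fun h => by subst h; exact lt_irrefl _ h2
  have hik : i ≠ k := fun h => by subst h; exact lt_asymm h1 h2
  rw [card_insert_of_notMem, card_pair hjk]
  simp only [mem_insert, mem_singleton, not_or]
  exact ⟨hij, hik⟩

lemma bool_cases {a b c : Bool} (h1 : a ≠ b) (h2 : b ≠ c) : c = a := by
  cases a <;> cases b <;> cases c <;> simp_all

/-- every element outside an alternating triple lies in a neighbouring one -/
lemma gfam_nb {g : ι → ℝ} {c : ι → Bool} {T : Finset ι} (h : T ∈ Gfam g c) {m : ι}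
    (hm : m ∉ T) : ∃ T' ∈ Gfam g c, m ∈ T' ∧ T' ⊆ insert m T := by
  obtain ⟨i, j, k, h1, h2, c1, c2, rfl⟩ := h
  simp only [mem_insert, mem_singleton, not_or] at hm
  obtain ⟨mi, mj, mk⟩ := hm
  have hlt : ∀ a, m ≠ a → pos g m < pos g a ∨ pos g a < pos g m := fun a ha =>
    lt_or_gt_of_ne (fun h => ha (pos_inj g h))
  have hc3 := bool_cases c1 c2
  rcases hlt i mi with a1 | a1
  · by_cases hc : c m = c i
    · exact ⟨{m, j, k}, ⟨m, j, k, a1.trans h1, h2, hc ▸ c1, c2, rfl⟩, by simp, by
        intro x hx; simp only [mem_insert, mem_singleton] at hx ⊢; tauto⟩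
    · exact ⟨{m, i, j}, ⟨m, i, j, a1, h1, hc, c1, rfl⟩, by simp, by
        intro x hx; simp only [mem_insert, mem_singleton] at hx ⊢; tauto⟩
  · rcases hlt j mj with a2 | a2
    · by_cases hc : c m = c i
      · exact ⟨{m, j, k}, ⟨m, j, k, a2, h2, hc ▸ c1, c2, rfl⟩, by simp, by
          intro x hx; simp only [mem_insert, mem_singleton] at hx ⊢; tauto⟩
      · exact ⟨{i, m, k}, ⟨i, m, k, a1, a2.trans h2, Ne.symm hc, hc3 ▸ hc, rfl⟩, by simp, by
          intro x hx; simp only [mem_insert, mem_singleton] at hx ⊢; tauto⟩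
    · rcases hlt k mk with a3 | a3
      · by_cases hc : c m = c k
        · exact ⟨{i, j, m}, ⟨i, j, m, h1, a2, c1, hc ▸ c2, rfl⟩, by simp, by
            intro x hx; simp only [mem_insert, mem_singleton] at hx ⊢; tauto⟩
        · exact ⟨{i, m, k}, ⟨i, m, k, a1, a3, hc3 ▸ (Ne.symm hc), hc, rfl⟩, by simp, by
            intro x hx; simp only [mem_insert, mem_singleton] at hx ⊢; tauto⟩
      · by_cases hc : c m = c k
        · exact ⟨{i, j, m}, ⟨i, j, m, h1, a2, c1, hc ▸ c2, rfl⟩, by simp, by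
            intro x hx; simp only [mem_insert, mem_singleton] at hx ⊢; tauto⟩
        · exact ⟨{j, k, m}, ⟨j, k, m, h2, a3, c2, Ne.symm hc, rfl⟩, by simp, by
            intro x hx; simp only [mem_insert, mem_singleton] at hx ⊢; tauto⟩

variable {E : Type*} [AddCommGroup E] [Module ℝ E]
variable {f : ι → E →ₗ[ℝ] ℝ} {b : ι → ℝ}

/-- points of different colours have different positions -/
lemma Data.nd (D : Data f b) {x y : ι → ℝ} (hy : ∀ i, y i ≠ 0)
    (hrel : ∀ r : ι → ℝ, InW f b r ↔ (∑ i, r i * x i = 0 ∧ ∑ i, r i * y i = 0)) {i j : ι}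
    (hi : 0 < y i) (hj : y j < 0) : x i / y i ≠ x j / y j := by
  intro hg
  have hij : i ≠ j := fun h => by subst h; linarith
  rw [div_eq_div_iff (hy i) (hy j)] at hg
  have hW : InW f b (Pi.single i (-y j) + Pi.single j (y i)) := by
    rw [hrel]
    constructor
    · simp only [Pi.add_apply, add_mul, sum_add_distrib, Pi.single_apply, ite_mul, zero_mul,
        sum_ite_eq', mem_univ, if_true]
      linarith
    · simp only [Pi.add_apply, add_mul, sum_add_distrib, Pi.single_apply, ite_mul, zero_mul,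
        sum_ite_eq', mem_univ, if_true]
      ring
  have h3 := D.three_of_rel hW (fun m => by
    simp only [Pi.add_apply, Pi.single_apply]
    split_ifs <;> linarith) ⟨i, by simp [hij]; exact hj.ne⟩
  have hsub : univ.filter (fun m => (Pi.single i (-y j) + Pi.single j (y i) : ι → ℝ) m ≠ 0)
      ⊆ {i, j} := by
    intro m hm
    simp only [mem_filter, mem_univ, true_and, Pi.add_apply, Pi.single_apply] at hm
    rw [mem_insert, mem_singleton]
    by_contra hcon
    rw [not_or] at hcon
    apply hm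
    simp [hcon.1, hcon.2]
  have := card_le_card hsub
  rw [card_pair hij] at this
  omega

lemma Data.nd' (D : Data f b) {x y : ι → ℝ} (hy : ∀ i, y i ≠ 0)
    (hrel : ∀ r : ι → ℝ, InW f b r ↔ (∑ i, r i * x i = 0 ∧ ∑ i, r i * y i = 0)) {i j : ι}
    (h : y i * y j < 0) : x i / y i ≠ x j / y j := by
  rcases mul_neg_iff.1 h with ⟨h1, h2⟩ | ⟨h1, h2⟩
  · exact D.nd hy hrel h1 h2
  · exact (D.nd hy hrel h2 h1).symm

lemma sort3 {β : Type*} [LinearOrder β] {p : ι → β} (hp : Function.Injective p)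
    {T : Finset ι} (h : T.card = 3) : ∃ i j k, p i < p j ∧ p j < p k ∧ T = {i, j, k} := by
  obtain ⟨u, v, w, huv, huw, hvw, rfl⟩ := card_eq_three.1 h
  have hlt : ∀ a b, a ≠ b → p a < p b ∨ p b < p a := fun a b hab =>
    lt_or_gt_of_ne (fun h => hab (hp h))
  rcases hlt u v huv with h1 | h1 <;> rcases hlt u w huw with h2 | h2 <;>
    rcases hlt v w hvw with h3 | h3
  · exact ⟨u, v, w, h1, h3, rfl⟩
  · exact ⟨u, w, v, h2, h3, by ext x; simp only [mem_insert, mem_singleton]; tauto⟩
  · exact absurd (h1.trans h3) (not_lt.2 h2.le)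
  · exact ⟨w, u, v, h2, h1, by ext x; simp only [mem_insert, mem_singleton]; tauto⟩
  · exact ⟨v, u, w, h1, h2, by ext x; simp only [mem_insert, mem_singleton]; tauto⟩
  · exact absurd (h3.trans h1) (not_lt.2 h2.le)
  · exact ⟨v, w, u, h3, h2, by ext x; simp only [mem_insert, mem_singleton]; tauto⟩
  · exact ⟨w, v, u, h3, h1, by ext x; simp only [mem_insert, mem_singleton]; tauto⟩

lemma middle {A B C gi gj gk : ℝ} (h1 : A + B + C = 0) (h2 : A * gi + B * gj + C * gk = 0)
    (g1 : gi ≤ gj) (g2 : gj ≤ gk) (hA : A ≠ 0) (hB : B ≠ 0) (hC : C ≠ 0)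
    (nd : A * C < 0 → gi ≠ gk) : A * B < 0 ∧ B * C < 0 := by
  have hA2 : 0 < A * A := mul_self_pos.2 hA
  have hC2 : 0 < C * C := mul_self_pos.2 hC
  constructor
  · by_contra hcon
    have hAB : 0 < A * B := lt_of_le_of_ne (not_lt.1 hcon) (mul_ne_zero hA hB).symm
    have hAC : A * C < 0 := by
      have : C = -A - B := by linarith
      rw [this]; nlinarith
    have hlt : gi < gk := lt_of_le_of_ne (g1.trans g2) (nd hAC)
    have e : A * (gk - gi) + B * (gk - gj) = 0 := by
      have : C = -A - B := by linarith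
      rw [this] at h2; linarith
    have e2 : A * A * (gk - gi) + A * B * (gk - gj) = 0 := by
      have : A * (A * (gk - gi) + B * (gk - gj)) = 0 := by rw [e, mul_zero]
      linarith
    have := mul_pos hA2 (sub_pos.2 hlt)
    have := mul_nonneg hAB.le (sub_nonneg.2 g2)
    linarith
  · by_contra hcon
    have hBC : 0 < B * C := lt_of_le_of_ne (not_lt.1 hcon) (mul_ne_zero hB hC).symm
    have hAC : A * C < 0 := by
      have : A = -B - C := by linarith
      rw [this]; nlinarith
    have hlt : gi < gk := lt_of_le_of_ne (g1.trans g2) (nd hAC)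
    have e : B * (gj - gi) + C * (gk - gi) = 0 := by
      have : A = -B - C := by linarith
      rw [this] at h2; linarith
    have e2 : B * C * (gj - gi) + C * C * (gk - gi) = 0 := by
      have : C * (B * (gj - gi) + C * (gk - gi)) = 0 := by rw [e, mul_zero]
      linarith
    have := mul_pos hC2 (sub_pos.2 hlt)
    have := mul_nonneg hBC.le (sub_nonneg.2 g1)
    linarith

lemma col_ne {u v : ℝ} (h : u * v < 0) : decide (0 < u) ≠ decide (0 < v) := by
  rcases mul_neg_iff.1 h with ⟨h1, h2⟩ | ⟨h1, h2⟩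
  · simp [h1, h2.le]
  · simp [h2, h1.le]

lemma ne_col {u v : ℝ} (hu : u ≠ 0) (hv : v ≠ 0) (h : decide (0 < u) ≠ decide (0 < v)) :
    u * v < 0 := by
  rcases lt_or_gt_of_ne hu with h1 | h1 <;> rcases lt_or_gt_of_ne hv with h2 | h2
  · exact absurd (by rw [decide_eq_false (not_lt.2 h1.le),
      decide_eq_false (not_lt.2 h2.le)]) h
  · exact mul_neg_of_neg_of_pos h1 h2
  · exact mul_neg_of_pos_of_neg h1 h2
  · exact absurd (by simp [h1, h2]) h

/-- the support of a vertex is an alternating triple -/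
lemma Data.supp_mem (D : Data f b) {x y : ι → ℝ} (hy : ∀ i, y i ≠ 0)
    (hrel : ∀ r : ι → ℝ, InW f b r ↔ (∑ i, r i * x i = 0 ∧ ∑ i, r i * y i = 0)) {q : E}
    (hq : q ∈ Poly f b) (h3 : (supp f b q).card = 3) :
    supp f b q ∈ Gfam (fun i => x i / y i) (fun i => decide (0 < y i)) := by
  obtain ⟨i, j, k, h1, h2, hT⟩ := sort3 (pos_inj (fun i => x i / y i)) h3
  have hij : i ≠ j := fun h => by subst h; exact lt_irrefl _ h1
  have hjk : j ≠ k := fun h => by subst h; exact lt_irrefl _ h2
  have hik : i ≠ k := fun h => by subst h; exact lt_asymm h1 h2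
  have hsum : ∀ z : ι → ℝ, ∑ m, (b m - f m q) * z m =
      (b i - f i q) * z i + (b j - f j q) * z j + (b k - f k q) * z k := by
    intro z
    have : ∑ m, (b m - f m q) * z m = ∑ m ∈ supp f b q, (b m - f m q) * z m := by
      symm
      refine sum_subset (subset_univ _) ?_
      intro m _ hm
      rw [mem_supp, not_not] at hm
      rw [hm]; ring
    rw [this, hT, sum_insert (by simp [hij, hik]), sum_pair hjk]
    ring
  obtain ⟨e1, e2⟩ := (hrel _).1 (InW.slack (f := f) (b := b) q)
  rw [hsum] at e1 e2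
  have hs : ∀ m ∈ supp f b q, 0 < b m - f m q := by
    intro m hm
    rw [mem_supp] at hm
    have := lt_of_le_of_ne (hq m) hm
    linarith
  have hi := hs i (by rw [hT]; simp)
  have hj := hs j (by rw [hT]; simp)
  have hk := hs k (by rw [hT]; simp)
  have hx : ∀ m, x m = y m * (x m / y m) := fun m => by
    have := hy m
    field_simp
  have hm := middle (A := (b i - f i q) * y i) (B := (b j - f j q) * y j)
    (C := (b k - f k q) * y k) (gi := x i / y i) (gj := x j / y j) (gk := x k / y k) e2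
    (by rw [hx i, hx j, hx k] at e1; linarith) (pos_le h1) (pos_le h2)
    (mul_ne_zero hi.ne' (hy i)) (mul_ne_zero hj.ne' (hy j)) (mul_ne_zero hk.ne' (hy k))
    (by
      intro h
      refine D.nd' hy hrel ?_
      have h' : (b i - f i q) * (b k - f k q) * (y i * y k) < 0 := by linarith
      exact (pos_iff_neg_of_mul_neg h').1 (mul_pos hi hk))
  refine ⟨i, j, k, h1, h2, ?_, ?_, hT⟩
  · refine col_ne ?_
    have h' : (b i - f i q) * (b j - f j q) * (y i * y j) < 0 := by linarith [hm.1]
    exact (pos_iff_neg_of_mul_neg h').1 (mul_pos hi hj)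
  · refine col_ne ?_
    have h' : (b j - f j q) * (b k - f k q) * (y j * y k) < 0 := by linarith [hm.2]
    exact (pos_iff_neg_of_mul_neg h').1 (mul_pos hj hk)

/-- every alternating triple is the support of a vertex -/
lemma Data.exists_vertex (D : Data f b) {x y : ι → ℝ} (hy : ∀ i, y i ≠ 0)
    (hrel : ∀ r : ι → ℝ, InW f b r ↔ (∑ i, r i * x i = 0 ∧ ∑ i, r i * y i = 0))
    {T : Finset ι} (hT : T ∈ Gfam (fun i => x i / y i) (fun i => decide (0 < y i))) :
    ∃ q ∈ Poly f b, supp f b q = T := by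
  obtain ⟨i, j, k, h1, h2, c1, c2, rfl⟩ := hT
  have hij : i ≠ j := fun h => by subst h; exact lt_irrefl _ h1
  have hjk : j ≠ k := fun h => by subst h; exact lt_irrefl _ h2
  have hik : i ≠ k := fun h => by subst h; exact lt_asymm h1 h2
  have n1 := ne_col (hy i) (hy j) c1
  have n2 := ne_col (hy j) (hy k) c2
  set gi := x i / y i with hgi
  set gj := x j / y j with hgj
  set gk := x k / y k with hgk
  have g1 : gi < gj := lt_of_le_of_ne (pos_le h1) (D.nd' hy hrel n1)
  have g2 : gj < gk := lt_of_le_of_ne (pos_le h2) (D.nd' hy hrel n2)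
  have exi : x i = gi * y i := by rw [hgi]; have := hy i; field_simp
  have exj : x j = gj * y j := by rw [hgj]; have := hy j; field_simp
  have exk : x k = gk * y k := by rw [hgk]; have := hy k; field_simp
  set r : ι → ℝ := Pi.single i ((gk - gj) / |y i|) + Pi.single j ((gk - gi) / |y j|) +
    Pi.single k ((gj - gi) / |y k|) with hr
  have hri : r i = (gk - gj) / |y i| := by simp [hr, hij, hik]
  have hrj : r j = (gk - gi) / |y j| := by simp [hr, hij.symm, hjk]
  have hrk : r k = (gj - gi) / |y k| := by simp [hr, hik.symm, hjk.symm]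
  have hro : ∀ m, m ≠ i → m ≠ j → m ≠ k → r m = 0 := by
    intro m m1 m2 m3
    simp [hr, m1, m2, m3]
  have hsum : ∀ z : ι → ℝ, ∑ m, r m * z m = (gk - gj) / |y i| * z i +
      (gk - gi) / |y j| * z j + (gj - gi) / |y k| * z k := by
    intro z
    simp only [hr, Pi.add_apply, add_mul, sum_add_distrib, Pi.single_apply, ite_mul,
      zero_mul, sum_ite_eq', mem_univ, if_true]
  have ai : 0 < |y i| := abs_pos.2 (hy i)
  have aj : 0 < |y j| := abs_pos.2 (hy j)
  have ak : 0 < |y k| := abs_pos.2 (hy k)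
  have pi' : 0 < r i := by rw [hri]; exact div_pos (by linarith) ai
  have pj : 0 < r j := by rw [hrj]; exact div_pos (by linarith) aj
  have pk : 0 < r k := by rw [hrk]; exact div_pos (by linarith) ak
  -- signs of y / |y|
  obtain ⟨σ, s1, s2, s3⟩ : ∃ σ : ℝ, y i / |y i| = σ ∧ y j / |y j| = -σ ∧ y k / |y k| = σ := by
    rcases lt_or_gt_of_ne (hy j) with h | h
    · have hi' : 0 < y i := by
        rcases mul_neg_iff.1 n1 with ⟨u, _⟩ | ⟨_, u⟩
        · exact u
        · linarith
      have hk' : 0 < y k := by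
        rcases mul_neg_iff.1 n2 with ⟨u, _⟩ | ⟨_, u⟩
        · linarith
        · exact u
      refine ⟨1, ?_, ?_, ?_⟩
      · rw [abs_of_pos hi', div_self hi'.ne']
      · rw [abs_of_neg h, div_neg, div_self h.ne]
      · rw [abs_of_pos hk', div_self hk'.ne']
    · have hi' : y i < 0 := by
        rcases mul_neg_iff.1 n1 with ⟨_, u⟩ | ⟨u, _⟩
        · linarith
        · exact u
      have hk' : y k < 0 := by
        rcases mul_neg_iff.1 n2 with ⟨_, u⟩ | ⟨u, _⟩
        · exact u
        · linarith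
      refine ⟨-1, ?_, ?_, ?_⟩
      · rw [abs_of_neg hi', div_neg, div_self hi'.ne]
      · rw [abs_of_pos h, div_self h.ne', neg_neg]
      · rw [abs_of_neg hk', div_neg, div_self hk'.ne]
  have hW : InW f b r := by
    rw [hrel]
    rw [hsum, hsum]
    have t1 : (gk - gj) / |y i| * y i = (gk - gj) * σ := by rw [← s1]; ring
    have t2 : (gk - gi) / |y j| * y j = -((gk - gi) * σ) := by
      have : (gk - gi) / |y j| * y j = (gk - gi) * (y j / |y j|) := by ring
      rw [this, s2]; ring
    have t3 : (gj - gi) / |y k| * y k = (gj - gi) * σ := by rw [← s3]; ring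
    constructor
    · have u1 : (gk - gj) / |y i| * x i = gi * ((gk - gj) * σ) := by
        rw [← t1, exi]; ring
      have u2 : (gk - gi) / |y j| * x j = gj * (-((gk - gi) * σ)) := by
        rw [← t2, exj]; ring
      have u3 : (gj - gi) / |y k| * x k = gk * ((gj - gi) * σ) := by
        rw [← t3, exk]; ring
      rw [u1, u2, u3]
      ring
    · rw [t1, t2, t3]
      ring
  have hnn : ∀ m, 0 ≤ r m := by
    intro m
    by_cases m1 : m = i
    · rw [m1]; exact pi'.le
    · by_cases m2 : m = j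
      · rw [m2]; exact pj.le
      · by_cases m3 : m = k
        · rw [m3]; exact pk.le
        · rw [hro m m1 m2 m3]
  obtain ⟨q, hq, t, ht, hqr⟩ := D.rel hW hnn ⟨i, pi'.ne'⟩
  refine ⟨q, hq, ?_⟩
  ext m
  rw [mem_supp]
  simp only [mem_insert, mem_singleton]
  constructor
  · intro hm
    by_contra hcon
    push Not at hcon
    have h0 := hqr m
    rw [hro m hcon.1 hcon.2.1 hcon.2.2] at h0
    rcases mul_eq_zero.1 h0.symm with h | h
    · exact ht.ne' h
    · exact hm (by linarith)
  · intro hm hcon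
    have h0 := hqr m
    rw [hcon, sub_self, mul_zero] at h0
    rcases hm with rfl | rfl | rfl
    · exact pi'.ne' h0
    · exact pj.ne' h0
    · exact pk.ne' h0

end FewFacets
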