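import Pool.Agent.FewFacets.Main

/-!
At a vertex with `d` neighbours of a full-dimensional polytope of dimension `d` given by an
irredundant system of inequalities at most `d` of the inequalities are equalities.
-/

set_option linter.unusedSectionVars false

namespace FewFacets

open Finset

variable {E : Type*} [NormedAddCommGroup E] [NormedSpace ℝ E] [FiniteDimensional ℝ E]
  {ι : Type*} [Fintype ι] [DecidableEq ι] {f : ι → E →ₗ[ℝ] ℝ} {b : ι → ℝ}

lemma poly_convex (f : ι → E →ₗ[ℝ] ℝ) (b : ι → ℝ) : Convex ℝ (Poly f b) := by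
  rintro x hx y hy α β hα hβ hαβ i
  rw [map_add, map_smul, map_smul, smul_eq_mul, smul_eq_mul]
  have e : b i = α * b i + β * b i := by rw [← add_mul, hαβ, one_mul]
  linarith [mul_le_mul_of_nonneg_left (hx i) hα, mul_le_mul_of_nonneg_left (hy i) hβ]

/-- the active inequalities -/
noncomputable def act (f : ι → E →ₗ[ℝ] ℝ) (b : ι → ℝ) (x : E) : Finset ι :=
  univ.filter (fun i => f i x = b i)

lemma mem_act {x : E} {i : ι} : i ∈ act f b x ↔ f i x = b i := by simp [act]

/-- the base of the cone of the inequalities of `A` -/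
def base (f : ι → E →ₗ[ℝ] ℝ) (A : Finset ι) : Set E :=
  {w | (∀ i ∈ A, f i w ≤ 0) ∧ ∑ i ∈ A, f i w = -1}

lemma move {v w : E} (hv : v ∈ Poly f b) (hw : ∀ i ∈ act f b v, f i w ≤ 0) :
    ∃ t : ℝ, 0 < t ∧ v + t • w ∈ Poly f b := by
  have h : ∀ᶠ t in nhdsWithin (0 : ℝ) (Set.Ioi 0), ∀ i, f i v + t * f i w ≤ b i := by
    rw [Filter.eventually_all]
    intro i
    by_cases hi : i ∈ act f b v
    · filter_upwards [self_mem_nhdsWithin] with t ht
      have h1 := hw i hi
      rw [mem_act] at hi
      have := mul_nonpos_of_nonneg_of_nonpos (le_of_lt (Set.mem_Ioi.1 ht)) h1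
      linarith
    · rw [mem_act] at hi
      have hlt : f i v < b i := lt_of_le_of_ne (hv i) hi
      have hc : Filter.Tendsto (fun t : ℝ => f i v + t * f i w) (nhdsWithin 0 (Set.Ioi 0))
          (nhds (f i v + 0 * f i w)) := by
        refine Filter.Tendsto.mono_left ?_ nhdsWithin_le_nhds
        exact (by fun_prop : Continuous (fun t : ℝ => f i v + t * f i w)).tendsto 0
      rw [zero_mul, add_zero] at hc
      filter_upwards [hc.eventually (gt_mem_nhds hlt)] with t ht
      exact ht.le
  obtain ⟨t, ht, ht0⟩ := (h.and self_mem_nhdsWithin).exists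
  refine ⟨t, ht0, fun i => ?_⟩
  rw [map_add, map_smul, smul_eq_mul]
  exact ht i

lemma pointed {v w : E} (hv : v ∈ (Poly f b).extremePoints ℝ)
    (hw : ∀ i ∈ act f b v, f i w = 0) : w = 0 := by
  obtain ⟨t, ht, h1⟩ := move hv.1 (fun i hi => (hw i hi).le)
  obtain ⟨s, hs, h2⟩ := move (w := -w) hv.1 (fun i hi => by rw [map_neg, hw i hi, neg_zero])
  have hop : v ∈ openSegment ℝ (v + t • w) (v + s • (-w)) := by
    have hts : t + s ≠ 0 := by positivity
    have e1 : s / (t + s) + t / (t + s) = 1 := by rw [← add_div, add_comm s t, div_self hts]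
    refine ⟨s / (t + s), t / (t + s), by positivity, by positivity, e1, ?_⟩
    have e2 : s / (t + s) * t - t / (t + s) * s = 0 := by field_simp; ring
    calc (s / (t + s)) • (v + t • w) + (t / (t + s)) • (v + s • (-w))
        = (s / (t + s) + t / (t + s)) • v +
          (s / (t + s) * t - t / (t + s) * s) • w := by module
      _ = v := by rw [e1, e2, one_smul, zero_smul, add_zero]
  have h3 := hv.2 h1 h2 hop
  have h4 : t • w = 0 := by simpa using h3
  rcases smul_eq_zero.1 h4 with h | h
  · exact absurd h ht.ne'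
  · exact h

section cone

variable {A : Finset ι}

lemma base_compact (hA : ∀ w, (∀ i ∈ A, f i w = 0) → w = 0) : IsCompact (base f A) := by
  let L : E →ₗ[ℝ] (A → ℝ) := LinearMap.pi (fun i => f i.1)
  have hker : LinearMap.ker L = ⊥ := by
    rw [Submodule.eq_bot_iff]
    intro w hw
    have hw' : L w = 0 := hw
    exact hA w fun i hi => congrFun hw' ⟨i, hi⟩
  have hL := LinearMap.isClosedEmbedding_of_injective hker
  have hS : IsCompact {y : A → ℝ | (∀ i, y i ≤ 0) ∧ ∑ i, y i = -1} := by
    have hbox : IsCompact (Set.pi Set.univ (fun _ : A => Set.Icc (-1 : ℝ) 0)) :=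
      isCompact_univ_pi fun _ => isCompact_Icc
    refine hbox.of_isClosed_subset ?_ ?_
    · rw [Set.ofPred_and]
      refine IsClosed.inter ?_ ?_
      · rw [Set.ofPred_forall]
        exact isClosed_iInter fun i => isClosed_le (continuous_apply i) continuous_const
      · exact isClosed_eq (continuous_finsetSum _ fun i _ => continuous_apply i)
          continuous_const
    · rintro y ⟨h1, h2⟩ i -
      refine ⟨?_, h1 i⟩
      have := sum_erase_add (s := (univ : Finset A)) (f := y) (a := i) (mem_univ i)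
      have h3 : ∑ j ∈ (univ : Finset A).erase i, y j ≤ 0 := sum_nonpos fun j _ => h1 j
      linarith
  have : base f A = L ⁻¹' {y : A → ℝ | (∀ i, y i ≤ 0) ∧ ∑ i, y i = -1} := by
    ext w
    simp only [base, Set.mem_ofPred_eq, Set.mem_preimage]
    refine and_congr ?_ ?_
    · constructor
      · intro h i; exact h i.1 i.2
      · intro h i hi; exact h ⟨i, hi⟩
    · rw [← sum_coe_sort A (fun i => f i w)]
      rfl
  rw [this]
  exact hL.isCompact_preimage hS

lemma base_convex : Convex ℝ (base f A) := by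
  rintro x ⟨hx, hx1⟩ y ⟨hy, hy1⟩ α β hα hβ hαβ
  refine ⟨fun i hi => ?_, ?_⟩
  · rw [map_add, map_smul, map_smul, smul_eq_mul, smul_eq_mul]
    linarith [mul_nonpos_of_nonneg_of_nonpos hα (hx i hi),
      mul_nonpos_of_nonneg_of_nonpos hβ (hy i hi)]
  · simp only [map_add, map_smul, smul_eq_mul]
    rw [sum_add_distrib, ← mul_sum, ← mul_sum, hx1, hy1]
    linarith

lemma sum_neg_of_ne (hA : ∀ w, (∀ i ∈ A, f i w = 0) → w = 0) {w : E}
    (hw : ∀ i ∈ A, f i w ≤ 0) (hw0 : w ≠ 0) : ∑ i ∈ A, f i w < 0 := by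
  refine lt_of_le_of_ne (sum_nonpos hw) ?_
  intro h
  exact hw0 (hA w ((sum_eq_zero_iff_of_nonpos hw).1 h))

lemma scale (hA : ∀ w, (∀ i ∈ A, f i w = 0) → w = 0) {w : E}
    (hw : ∀ i ∈ A, f i w ≤ 0) (hw0 : w ≠ 0) :
    (-∑ i ∈ A, f i w)⁻¹ • w ∈ base f A := by
  have h := sum_neg_of_ne hA hw hw0
  have hc : 0 < (-∑ i ∈ A, f i w)⁻¹ := inv_pos.2 (by linarith)
  refine ⟨fun i hi => ?_, ?_⟩
  · rw [map_smul, smul_eq_mul]
    exact mul_nonpos_of_nonneg_of_nonpos hc.le (hw i hi)
  · simp only [map_smul, smul_eq_mul]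
    rw [← mul_sum, inv_neg, neg_mul, inv_mul_cancel₀ h.ne]

/-- a combination of two vectors of the cone lying on an extreme ray -/
lemma on_ray (hA : ∀ w, (∀ i ∈ A, f i w = 0) → w = 0) {k x y : E}
    (hk : k ∈ (base f A).extremePoints ℝ) (hx : ∀ i ∈ A, f i x ≤ 0)
    (hy : ∀ i ∈ A, f i y ≤ 0) {α β s : ℝ} (hα : 0 < α) (hβ : 0 < β)
    (hs : 0 ≤ s) (h : α • x + β • y = s • k) : ∃ a : ℝ, 0 ≤ a ∧ x = a • k := by
  by_cases hx0 : x = 0
  · exact ⟨0, le_rfl, by rw [hx0, zero_smul]⟩
  by_cases hy0 : y = 0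
  · refine ⟨α⁻¹ * s, by positivity, ?_⟩
    rw [hy0, smul_zero, add_zero] at h
    rw [mul_smul, ← h, smul_smul, inv_mul_cancel₀ hα.ne', one_smul]
  · have h1 := sum_neg_of_ne hA hx hx0
    have h2 := sum_neg_of_ne hA hy hy0
    have h3 := scale hA hx hx0
    have h4 := scale hA hy hy0
    have h5 : ∑ i ∈ A, f i (α • x + β • y) = ∑ i ∈ A, f i (s • k) := by rw [h]
    simp only [map_add, map_smul, smul_eq_mul] at h5
    rw [sum_add_distrib, ← mul_sum, ← mul_sum, ← mul_sum, hk.1.2] at h5
    set c := -∑ i ∈ A, f i x with hc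
    set c' := -∑ i ∈ A, f i y with hc'
    have hc0 : 0 < c := by linarith
    have hc'0 : 0 < c' := by linarith
    have hs' : s = α * c + β * c' := by
      rw [hc, hc']; linarith
    have hs0 : 0 < s := by rw [hs']; positivity
    have hop : k ∈ openSegment ℝ (c⁻¹ • x) (c'⁻¹ • y) := by
      refine ⟨α * c / s, β * c' / s, by positivity, by positivity, ?_, ?_⟩
      · rw [← add_div, ← hs', div_self hs0.ne']
      · have e1 : α * c / s * c⁻¹ = s⁻¹ * α := by field_simp
        have e2 : β * c' / s * c'⁻¹ = s⁻¹ * β := by field_simp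
        rw [smul_smul, smul_smul, e1, e2, mul_smul, mul_smul, ← smul_add, h, smul_smul,
          inv_mul_cancel₀ hs0.ne', one_smul]
    have h6 := hk.2 h3 h4 hop
    refine ⟨c, hc0.le, ?_⟩
    rw [← h6, smul_smul, mul_inv_cancel₀ hc0.ne', one_smul]

lemma face_span (hA : ∀ w, (∀ i ∈ A, f i w = 0) → w = 0) {i : ι} (hi : i ∈ A) {x : E}
    (hx : ∀ j ∈ A, f j x ≤ 0) (hxi : f i x = 0) :
    x ∈ Submodule.span ℝ {k | k ∈ (base f A).extremePoints ℝ ∧ f i k = 0} := by
  by_cases hx0 : x = 0
  · rw [hx0]; exact Submodule.zero_mem _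
  set F : Set E := base f A ∩ {w | f i w = 0} with hF
  have hcont : Continuous (f i) := LinearMap.continuous_of_finiteDimensional (f i)
  have hFc : IsCompact F := (base_compact hA).inter_right (isClosed_eq hcont continuous_const)
  have hFconv : Convex ℝ F := by
    refine base_convex.inter ?_
    intro p hp q hq α β hα hβ hαβ
    simp only [Set.mem_ofPred_eq] at *
    rw [map_add, map_smul, map_smul, hp, hq, smul_zero, smul_zero, add_zero]
  have hFe : IsExtreme ℝ (base f A) F := by
    refine ⟨Set.inter_subset_left, ?_⟩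
    rintro p hp q hq z ⟨hz, hzi⟩ ⟨α, β, hα, hβ, hαβ, rfl⟩
    refine ⟨hp, ?_⟩
    simp only [Set.mem_ofPred_eq] at hzi ⊢
    rw [map_add, map_smul, map_smul, smul_eq_mul, smul_eq_mul] at hzi
    have h1 := mul_nonpos_of_nonneg_of_nonpos hα.le (hp.1 i hi)
    have h2 := mul_nonpos_of_nonneg_of_nonpos hβ.le (hq.1 i hi)
    have h3 : α * f i p = 0 := by linarith
    rcases mul_eq_zero.1 h3 with h | h
    · exact absurd h hα.ne'
    · exact h
  have hKM := closure_convexHull_extremePoints hFc hFconv
  rw [hFe.extremePoints_eq] at hKM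
  set S := Submodule.span ℝ {k | k ∈ (base f A).extremePoints ℝ ∧ f i k = 0} with hS
  have hsub : F ⊆ (S : Set E) := by
    rw [← hKM]
    refine closure_minimal ?_ S.closed_of_finiteDimensional
    refine convexHull_min ?_ S.convex
    rintro k ⟨⟨_, hk0⟩, hk⟩
    exact Submodule.subset_span ⟨hk, hk0⟩
  have h1 := sum_neg_of_ne hA hx hx0
  have h2 : (-∑ j ∈ A, f j x)⁻¹ • x ∈ F := by
    refine ⟨scale hA hx hx0, ?_⟩
    simp only [Set.mem_ofPred_eq]
    rw [map_smul, hxi, smul_zero]
  have h3 := S.smul_mem (-∑ j ∈ A, f j x) (hsub h2)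
  rwa [smul_smul, mul_inv_cancel₀ (by linarith), one_smul] at h3

end cone

/-- the edge of a polytope in the direction of an extreme ray -/
lemma exists_edge (hb : Bornology.IsBounded (Poly f b)) {v k : E}
    (hv : v ∈ (Poly f b).extremePoints ℝ)
    (hk : k ∈ (base f (act f b v)).extremePoints ℝ) :
    ∃ u, u ∈ (Poly f b).extremePoints ℝ ∧ v ≠ u ∧ IsExtreme ℝ (Poly f b) (segment ℝ v u) ∧
      ∃ t : ℝ, 0 < t ∧ u = v + t • k := by
  have hA : ∀ w, (∀ i ∈ act f b v, f i w = 0) → w = 0 := fun w hw => pointed hv hw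
  have hk0 : k ≠ 0 := by
    rintro rfl
    have := hk.1.2
    simp at this
  have hQ : (univ.filter (fun i => 0 < f i k)).Nonempty := by
    by_contra hcon
    rw [not_nonempty_iff_eq_empty, filter_eq_empty_iff] at hcon
    refine hk0 (rec_of_bounded ⟨v, hv.1⟩ hb k fun i => ?_)
    exact not_lt.1 (hcon (mem_univ i))
  obtain ⟨i0, hi0, hmin⟩ := exists_min_image _ (fun i => (b i - f i v) / f i k) hQ
  rw [mem_filter] at hi0
  set t := (b i0 - f i0 v) / f i0 k with ht
  have ht0 : 0 < t := by
    refine div_pos ?_ hi0.2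
    have h1 : i0 ∉ act f b v := fun h => by
      have := hk.1.1 i0 h
      linarith [hi0.2]
    rw [mem_act] at h1
    have := lt_of_le_of_ne (hv.1 i0) h1
    linarith
  have hu : v + t • k ∈ Poly f b := by
    intro i
    rw [map_add, map_smul, smul_eq_mul]
    by_cases hi : 0 < f i k
    · have := hmin i (mem_filter.2 ⟨mem_univ i, hi⟩)
      rw [le_div_iff₀ hi] at this
      linarith
    · have := mul_nonpos_of_nonneg_of_nonpos ht0.le (not_lt.1 hi)
      linarith [hv.1 i]
  have hmax : ∀ a : ℝ, v + a • k ∈ Poly f b → a ≤ t := by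
    intro a ha
    have := ha i0
    rw [map_add, map_smul, smul_eq_mul] at this
    rw [ht, le_div_iff₀ hi0.2]
    linarith
  have hray : ∀ p ∈ Poly f b, ∀ q ∈ Poly f b, ∀ s : ℝ, 0 ≤ s →
      v + s • k ∈ openSegment ℝ p q → ∃ a : ℝ, 0 ≤ a ∧ a ≤ t ∧ p = v + a • k := by
    rintro p hp q hq s hs ⟨α, β, hα, hβ, hαβ, h⟩
    have hpc : ∀ i ∈ act f b v, f i (p - v) ≤ 0 := by
      intro i hi
      rw [mem_act] at hi
      rw [map_sub, hi]
      linarith [hp i]
    have hqc : ∀ i ∈ act f b v, f i (q - v) ≤ 0 := by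
      intro i hi
      rw [mem_act] at hi
      rw [map_sub, hi]
      linarith [hq i]
    have h' : α • (p - v) + β • (q - v) = s • k := by
      have e : α • (p - v) + β • (q - v) = (α • p + β • q) - (α + β) • v := by module
      rw [e, h, hαβ, one_smul, add_sub_cancel_left]
    obtain ⟨a, ha, hpa⟩ := on_ray hA hk hpc hqc hα hβ hs h'
    have hpe : p = v + a • k := by rw [← hpa]; abel
    exact ⟨a, ha, hmax a (hpe ▸ hp), hpe⟩
  refine ⟨v + t • k, ?_, ?_, ?_, t, ht0, rfl⟩
  · rw [mem_extremePoints_iff_left]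
    refine ⟨hu, ?_⟩
    intro p hp q hq h
    obtain ⟨a, ha, hat, rfl⟩ := hray p hp q hq t ht0.le h
    rw [openSegment_symm] at h
    obtain ⟨a', ha', hat', rfl⟩ := hray q hq _ hp t ht0.le h
    obtain ⟨α, β, hα, hβ, hαβ, h⟩ := h
    have e : α • (v + a' • k) + β • (v + a • k) = (α + β) • v + (α * a' + β * a) • k := by
      module
    rw [e, hαβ, one_smul, add_right_inj] at h
    have h1 := smul_left_injective ℝ hk0 h
    have h2 : a = t := by
      by_contra hne
      have h3 : a < t := lt_of_le_of_ne hat hne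
      have e2 : t = α * t + β * t := by rw [← add_mul, hαβ, one_mul]
      linarith [mul_le_mul_of_nonneg_left hat' hα.le, mul_lt_mul_of_pos_left h3 hβ]
    rw [h2]
  · intro h
    have : t • k = 0 := by simpa using h.symm
    rcases smul_eq_zero.1 this with h | h
    · exact ht0.ne' h
    · exact hk0 h
  · refine ⟨(poly_convex f b).segment_subset hv.1 hu, ?_⟩
    rintro p hp q hq z ⟨α, β, hα, hβ, hαβ, rfl⟩ hz
    have e : α • v + β • (v + t • k) = v + (β * t) • k := by
      have : α • v + β • (v + t • k) = (α + β) • v + (β * t) • k := by module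
      rw [this, hαβ, one_smul]
    rw [e] at hz
    obtain ⟨a, ha, hat, rfl⟩ := hray p hp q hq (β * t) (by positivity) hz
    refine ⟨1 - a / t, a / t, ?_, by positivity, by ring, ?_⟩
    · rw [sub_nonneg, div_le_one ht0]; exact hat
    · have : (1 - a / t) • v + (a / t) • (v + t • k) = v + (a / t * t) • k := by module
      rw [this, div_mul_cancel₀ _ ht0.ne']

/-- irredundant inequalities and an interior point -/
structure Irr (f : ι → E →ₗ[ℝ] ℝ) (b : ι → ℝ) : Prop where
  bd : Bornology.IsBounded (Poly f b)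
  irr : ∀ i, ∃ x, (∀ j, j ≠ i → f j x ≤ b j) ∧ b i < f i x
  int : ∃ z, ∀ i, f i z < b i

lemma Irr.facet_pt (I : Irr f b) {v : E} {i : ι} (hi : i ∈ act f b v) :
    ∃ w, f i w = 0 ∧ ∀ j ∈ act f b v, j ≠ i → f j w < 0 := by
  obtain ⟨x, hx, hxi⟩ := I.irr i
  obtain ⟨z, hz⟩ := I.int
  have hzi := hz i
  -- the point of the segment on the hyperplane of `i`
  set α := (f i x - b i) / (f i x - f i z) with hα
  set β := (b i - f i z) / (f i x - f i z) with hβ
  have hd : 0 < f i x - f i z := by linarith
  have hα0 : 0 < α := div_pos (by linarith) hd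
  have hβ0 : 0 < β := div_pos (by linarith) hd
  have hαβ : α + β = 1 := by
    rw [hα, hβ, ← add_div, show f i x - b i + (b i - f i z) = f i x - f i z by ring,
      div_self hd.ne']
  have hmid : α * f i z + β * f i x = b i := by
    rw [hα, hβ]
    field_simp
    ring
  refine ⟨α • z + β • x - v, ?_, ?_⟩
  · rw [mem_act] at hi
    rw [map_sub, map_add, map_smul, map_smul, smul_eq_mul, smul_eq_mul, hmid, hi, sub_self]
  · intro j hj hji
    rw [mem_act] at hj
    rw [map_sub, map_add, map_smul, map_smul, smul_eq_mul, smul_eq_mul, hj]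
    have e : b j = α * b j + β * b j := by rw [← add_mul, hαβ, one_mul]
    linarith [mul_lt_mul_of_pos_left (hz j) hα0, mul_le_mul_of_nonneg_left (hx j hji) hβ0.le]

/-- the kernel of an active inequality is spanned by the extreme rays in it -/
lemma Irr.ker_le (I : Irr f b) {v : E} (hv : v ∈ (Poly f b).extremePoints ℝ) {i : ι}
    (hi : i ∈ act f b v) : LinearMap.ker (f i) ≤
      Submodule.span ℝ {k | k ∈ (base f (act f b v)).extremePoints ℝ ∧ f i k = 0} := by
  intro w hw
  have hwi : f i w = 0 := hw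
  have hA : ∀ w, (∀ i ∈ act f b v, f i w = 0) → w = 0 := fun w hw => pointed hv hw
  obtain ⟨y, hyi, hy⟩ := I.facet_pt hi
  have hyc : ∀ j ∈ act f b v, f j y ≤ 0 := by
    intro j hj
    by_cases h : j = i
    · rw [h, hyi]
    · exact (hy j hj h).le
  obtain ⟨M, hM⟩ : ∃ M : ℝ, 0 < M ∧ ∀ j ∈ act f b v, j ≠ i → M * f j y + f j w ≤ 0 := by
    have : ∀ᶠ M : ℝ in Filter.atTop, ∀ j, j ∈ act f b v → j ≠ i → M * f j y + f j w ≤ 0 := by
      rw [Filter.eventually_all]
      intro j
      by_cases hj : j ∈ act f b v ∧ j ≠ i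
      · have h1 := hy j hj.1 hj.2
        filter_upwards [Filter.eventually_ge_atTop (f j w / (-f j y))] with M hM _ _
        rw [div_le_iff₀ (by linarith)] at hM
        linarith
      · exact Filter.Eventually.of_forall fun M h1 h2 => absurd ⟨h1, h2⟩ hj
    obtain ⟨M, h1, h2⟩ := (this.and (Filter.eventually_gt_atTop 0)).exists
    exact ⟨M, h2, h1⟩
  have h1 := face_span hA hi hyc hyi
  have h2 : M • y + w ∈ Submodule.span ℝ
      {k | k ∈ (base f (act f b v)).extremePoints ℝ ∧ f i k = 0} := by
    refine face_span hA hi ?_ ?_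
    · intro j hj
      rw [map_add, map_smul, smul_eq_mul]
      by_cases h : j = i
      · rw [h, hyi, hwi]; simp
      · exact hM.2 j hj h
    · rw [map_add, map_smul, hyi, hwi]; simp
  have h3 := Submodule.sub_mem _ h2 (Submodule.smul_mem _ M h1)
  rwa [add_sub_cancel_left] at h3

lemma Irr.act_card_of_extreme (I : Irr f b) {d : ℕ} (hd : 2 ≤ d)
    (hE : Module.finrank ℝ E = d) (v : (Poly f b).extremePoints ℝ)
    (hv : ((polytopeGraph (Poly f b)).neighborSet v).ncard = d) :
    (act f b v.1).card ≤ d := by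
  classical
  set A := act f b v.1 with hAdef
  have hA : ∀ w, (∀ i ∈ A, f i w = 0) → w = 0 := fun w hw => pointed v.2 hw
  -- the extreme rays correspond to neighbours
  choose! u hu1 hu2 hu3 t ht htu using
    fun (k : E) (hk : k ∈ (base f A).extremePoints ℝ) => exists_edge I.bd v.2 hk
  set N : Set E := Subtype.val '' ((polytopeGraph (Poly f b)).neighborSet v) with hN
  have hNfin0 : ((polytopeGraph (Poly f b)).neighborSet v).Finite :=
    Set.finite_of_ncard_ne_zero (by omega)
  have hNfin : N.Finite := hNfin0.image _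
  have hNcard : N.ncard = d := by
    rw [hN, Set.ncard_image_of_injective _ Subtype.val_injective, hv]
  have hmap : ∀ k ∈ (base f A).extremePoints ℝ, u k ∈ N := by
    intro k hk
    refine ⟨⟨u k, hu1 k hk⟩, ?_, rfl⟩
    refine ⟨?_, hu3 k hk⟩
    intro h
    exact hu2 k hk (congrArg Subtype.val h)
  have hinj : Set.InjOn u ((base f A).extremePoints ℝ) := by
    intro k hk k' hk' h
    rw [htu k hk, htu k' hk', add_right_inj] at h
    have h1 : ∑ i ∈ A, f i (t k • k) = ∑ i ∈ A, f i (t k' • k') := by rw [h]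
    simp only [map_smul, smul_eq_mul] at h1
    rw [← mul_sum, ← mul_sum, hk.1.2, hk'.1.2] at h1
    have h2 : t k = t k' := by linarith
    rw [h2] at h
    exact smul_right_injective E (ht k' hk').ne' h
  have hfin : ((base f A).extremePoints ℝ).Finite :=
    Set.Finite.of_injOn hmap hinj hNfin
  have hcard : hfin.toFinset.card ≤ d := by
    rw [← Set.ncard_eq_toFinset_card _ hfin, ← hNcard]
    exact Set.ncard_le_ncard_of_injOn u hmap hinj hNfin
  set X := hfin.toFinset with hX
  -- for every active inequality exactly one ray is not in its hyperplane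
  have hone : ∀ i ∈ A, (X.filter (fun k => f i k ≠ 0)).card = 1 := by
    intro i hi
    have h1 : d - 1 ≤ (X.filter (fun k => f i k = 0)).card := by
      have h2 := Submodule.finrank_mono (I.ker_le v.2 hi)
      have h3 : {k | k ∈ (base f (act f b v.1)).extremePoints ℝ ∧ f i k = 0} =
          ((X.filter (fun k => f i k = 0) : Finset E) : Set E) := by
        ext k
        simp [hX, hAdef]
      rw [h3] at h2
      have h4 := finrank_span_finset_le_card (R := ℝ) (X.filter (fun k => f i k = 0))
      have h5 := LinearMap.finrank_range_add_finrank_ker (f i)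
      have h6 : Module.finrank ℝ (LinearMap.range (f i)) ≤ 1 := by
        have := Submodule.finrank_le (LinearMap.range (f i))
        rwa [Module.finrank_self] at this
      rw [Set.finrank] at h4
      omega
    have h2 := card_filter_add_card_filter_not (s := X) (fun k => f i k = 0)
    have h3 : (X.filter (fun k => f i k ≠ 0)).Nonempty := by
      by_contra hcon
      rw [not_nonempty_iff_eq_empty, filter_eq_empty_iff] at hcon
      -- then `f i` vanishes on the interior point
      obtain ⟨z, hz⟩ := I.int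
      have hzc : ∀ j ∈ A, f j (z - v.1) ≤ 0 := by
        intro j hj
        rw [hAdef, mem_act] at hj
        rw [map_sub, hj]
        linarith [hz j]
      have hzi : f i (z - v.1) < 0 := by
        rw [hAdef, mem_act] at hi
        rw [map_sub, hi]
        linarith [hz i]
      have hz0 : z - v.1 ≠ 0 := by
        intro h
        rw [h, map_zero] at hzi
        exact lt_irrefl _ hzi
      have hKM := closure_convexHull_extremePoints (base_compact hA) base_convex
      have hsub : base f A ⊆ (LinearMap.ker (f i) : Set E) := by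
        rw [← hKM]
        refine closure_minimal ?_ (LinearMap.ker (f i)).closed_of_finiteDimensional
        refine convexHull_min ?_ (LinearMap.ker (f i)).convex
        intro k hk
        exact not_not.1 (hcon (hfin.mem_toFinset.2 hk))
      have h7 : f i ((-∑ j ∈ A, f j (z - v.1))⁻¹ • (z - v.1)) = 0 :=
        hsub (scale hA hzc hz0)
      have h8 := sum_neg_of_ne hA hzc hz0
      rw [map_smul, smul_eq_mul] at h7
      rcases mul_eq_zero.1 h7 with h | h
      · rw [inv_eq_zero] at h
        linarith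
      · linarith
    have h4 := card_pos.2 h3
    have h5 : (X.filter (fun k => ¬ f i k = 0)).card = (X.filter (fun k => f i k ≠ 0)).card :=
      rfl
    omega
  have hex : ∀ i ∈ A, ∃ k, X.filter (fun k => f i k ≠ 0) = {k} := fun i hi =>
    card_eq_one.1 (hone i hi)
  choose! φ hφ using hex
  refine le_trans ?_ hcard
  refine card_le_card_of_injOn φ ?_ ?_
  · intro i hi
    have : φ i ∈ X.filter (fun k => f i k ≠ 0) := by
      rw [hφ i hi]; exact mem_singleton_self _
    exact (mem_filter.1 this).1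
  · intro i hi j hj hij
    by_contra hne
    obtain ⟨w, hwi, hw⟩ := I.facet_pt (v := v.1) hi
    have hwj : f j w < 0 := hw j hj (Ne.symm hne)
    have hwc : ∀ l ∈ A, f l w ≤ 0 := by
      intro l hl
      by_cases h : l = i
      · rw [h, hwi]
      · exact (hw l hl h).le
    have h1 := face_span hA hi hwc hwi
    have h2 : Submodule.span ℝ {k | k ∈ (base f A).extremePoints ℝ ∧ f i k = 0} ≤
        LinearMap.ker (f j) := by
      rw [Submodule.span_le]
      rintro k ⟨hk, hki⟩
      by_contra hkj
      have h3 : k ∈ X.filter (fun k => f j k ≠ 0) :=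
        mem_filter.2 ⟨hfin.mem_toFinset.2 hk, hkj⟩
      rw [hφ j hj, ← hij, ← hφ i hi] at h3
      exact (mem_filter.1 h3).2 hki
    have h3 : f j w = 0 := h2 h1
    linarith

/-- every point of the polytope is on at most `d` of the hyperplanes -/
lemma Irr.act_card (I : Irr f b) {d : ℕ} (hd : 2 ≤ d) (hE : Module.finrank ℝ E = d)
    (hs : ∀ v : (Poly f b).extremePoints ℝ,
      ((polytopeGraph (Poly f b)).neighborSet v).ncard = d) {x : E} (hx : x ∈ Poly f b) :
    (act f b x).card ≤ d := by
  have hcomp : IsCompact (Poly f b) :=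
    Metric.isCompact_of_isClosed_isBounded (poly_closed f b) I.bd
  set F : Set E := Poly f b ∩ {y | ∀ i ∈ act f b x, f i y = b i} with hF
  have hFc : IsCompact F := by
    refine hcomp.inter_right ?_
    have : {y : E | ∀ i ∈ act f b x, f i y = b i} =
        ⋂ i, ⋂ _ : i ∈ act f b x, {y | f i y = b i} := by
      ext y; simp
    rw [this]
    exact isClosed_iInter fun i => isClosed_iInter fun _ =>
      isClosed_eq (LinearMap.continuous_of_finiteDimensional (f i)) continuous_const
  have hFne : F.Nonempty := ⟨x, hx, fun i hi => mem_act.1 hi⟩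
  have hFe : IsExtreme ℝ (Poly f b) F := by
    refine ⟨Set.inter_subset_left, ?_⟩
    rintro p hp q hq z ⟨hz, hzi⟩ ⟨α, β, hα, hβ, hαβ, rfl⟩
    refine ⟨hp, ?_⟩
    intro i hi
    have h1 := hzi i hi
    rw [map_add, map_smul, map_smul, smul_eq_mul, smul_eq_mul] at h1
    by_contra hne
    have h2 := lt_of_le_of_ne (hp i) hne
    have e : b i = α * b i + β * b i := by rw [← add_mul, hαβ, one_mul]
    linarith [mul_lt_mul_of_pos_left h2 hα, mul_le_mul_of_nonneg_left (hq i) hβ.le]
  obtain ⟨v, hv⟩ := hFc.extremePoints_nonempty hFne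
  have hvP : v ∈ (Poly f b).extremePoints ℝ := hFe.extremePoints_subset_extremePoints hv
  refine le_trans (card_le_card ?_) (I.act_card_of_extreme hd hE ⟨v, hvP⟩ (hs _))
  intro i hi
  rw [mem_act]
  exact hv.1.2 i hi

end FewFacets
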