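import Pool.Agent.FewFacets.SumSpread
import Pool.Agent.FewFacets.LabHost
import Pool.Agent.FewFacets.PathCycle

/-!
Hamilton cycles spread evenly over the edges at a vertex.
-/

set_option linter.unusedSectionVars false

namespace FewFacets

open Finset PolySum

open Classical in
/-- `G` has Hamilton cycles, numbered by `k < N` with possible repetitions, such that every edge
at `w` is in exactly `2 N / d` of them, and for every partition of the edges at `w` into two
nonempty classes one of them has an edge of each class -/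
def HamSpread {V : Type*} (G : SimpleGraph V) (d : ℕ) (w : V) : Prop :=
  ∃ (N : ℕ) (c : Fin N → V) (p : ∀ k, G.Walk (c k) (c k)), 0 < N ∧
    (∀ k, (p k).IsHamiltonianCycle) ∧
    (∀ u, G.Adj w u → d * {k | s(w, u) ∈ (p k).edges}.ncard = 2 * N) ∧
    ∀ A : Set V, (∃ u ∈ A, G.Adj w u) → (∃ u ∉ A, G.Adj w u) →
      ∃ k, ∃ a ∈ A, ∃ b ∉ A, s(w, a) ∈ (p k).edges ∧ s(w, b) ∈ (p k).edges

theorem isHam_classical {V : Type*} (i : DecidableEq V) {G : SimpleGraph V} {v : V}
    {p : G.Walk v v} (h : p.IsHamiltonianCycle) :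
    @SimpleGraph.Walk.IsHamiltonianCycle V (fun a b => Classical.propDecidable (a = b)) G v p := by
  have h1 : i = (fun a b => Classical.propDecidable (a = b)) := Subsingleton.elim _ _
  subst h1
  exact h

/-- a set with `d` classes of size `m` -/
lemma ncard_of_classes {β : Type*} [Finite β] {d m : ℕ} {S : Set β} (lab : β → Fin d)
    (h : ∀ i, {b | b ∈ S ∧ lab b = i}.ncard = m) : S.ncard = d * m := by
  classical
  have := Fintype.ofFinite β
  have h1 : S.toFinset.card = ∑ i : Fin d, (S.toFinset.filter (fun b => lab b = i)).card :=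
    card_eq_sum_card_fiberwise (fun b _ => mem_coe.2 (mem_univ (lab b)))
  rw [Set.ncard_eq_toFinset_card', h1]
  have h2 : ∀ i : Fin d, (S.toFinset.filter (fun b => lab b = i)).card = m := by
    intro i
    rw [← h i, Set.ncard_eq_toFinset_card']
    congr 1
    ext b
    simp
  rw [sum_congr rfl (fun i _ => h2 i), sum_const, card_univ, Fintype.card_fin, smul_eq_mul]

open Classical in
/-- **Hamilton cycles for all simple polytopes of a dimension give Hamilton cycles spread evenly
over the edges at every vertex.** -/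
theorem spread_of_cycles {d : ℕ} (hd : 3 ≤ d)
    (hall : ∀ Q : Set (EuclideanSpace ℝ (Fin d)), SimplePolytope d Q →
      ∃ (v : Q.extremePoints ℝ) (p : (polytopeGraph Q).Walk v v), p.IsHamiltonianCycle)
    {P : Set (EuclideanSpace ℝ (Fin d))} (hP : SimplePolytope d P) (w : P.extremePoints ℝ) :
    HamSpread (polytopeGraph P) d w := by
  have hfin := hP.finite (by omega)
  obtain ⟨nbr, h1, h2, h3⟩ := exists_nbr (by omega) (hP.2.2.2 w)
  obtain ⟨β, hβ, Γ, S, lab, m, hG, hm, hbip, hbal, hlab, hcls⟩ := exists_host hd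
  have hS : S.ncard = d * m := ncard_of_classes lab hcls
  have hports : ∀ r ∈ Sᶜ, ∀ b b', Γ.Adj r b → Γ.Adj r b' → nbr (lab b) = nbr (lab b') →
      b = b' := fun r hr b b' hb hb' h => hlab r hr b b' hb hb' (h1 h)
  obtain ⟨Q, hQ, ⟨e⟩⟩ : ∃ Q, SimplePolytope d Q ∧ Nonempty (polytopeGraph Q ≃g
      sumGraph Γ (polytopeGraph P) w Sᶜ (fun _ b => nbr (lab b))) := by
    refine IsGood.polytope (by omega) ?_
    exact IsGood.sumSet (by omega) (fun h => h.simp (by omega)) hG (hP.isGood (by omega)) w _ _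
      (Set.toFinite _) (fun r _ z _ => h2 _) hports
  have hham := ham_cycle_iso e (hall Q hQ)
  obtain ⟨i, o, hi, ho, hio, hcross⟩ := spread_of_cycle (R := Sᶜ) hbip hbal
    (by rw [hS]; nlinarith) (fun b => Iff.rfl)
    ⟨nbr ⟨0, by omega⟩, fun h => (polytopeGraph P).ne_of_adj (h2 _) h.symm⟩
    (fun r _ b _ => h2 _) hports hham
  have hR : (Sᶜ : Set β).ncard = d * m := by
    have h4 := hi.injOn.ncard_image
    rw [hi.image_eq] at h4
    rw [← h4, hS]
  let ε : Fin (d * m) ≃ (Sᶜ : Set β) := (Finite.equivFinOfCardEq hR).symm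
  choose c q hq hqe using fun k => (hio (ε k).1 (ε k).2).2.2.2
  refine ⟨d * m, c, q, Nat.mul_pos (by omega) hm, fun k => isHam_classical _ (hq k), ?_, ?_⟩
  · intro u hu
    obtain ⟨j, rfl⟩ := h3 u hu
    have hcount : ∀ f : β → β, Set.BijOn f Sᶜ S →
        {k : Fin (d * m) | lab (f (ε k).1) = j}.ncard = m := by
      intro f hf
      refine (Set.ncard_congr (fun k _ => f (ε k).1) ?_ ?_ ?_).trans (hcls j)
      · intro k hk
        exact ⟨hf.mapsTo (ε k).2, hk⟩
      · intro k k' _ _ h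
        exact ε.injective (Subtype.ext (hf.injOn (ε k).2 (ε k').2 h))
      · rintro b ⟨hb, hbj⟩
        obtain ⟨r, hr, rfl⟩ := hf.surjOn hb
        exact ⟨ε.symm ⟨r, hr⟩, by simpa using hbj, by simp⟩
    have hset : {k | s(w, nbr j) ∈ (q k).edges} = {k : Fin (d * m) | lab (i (ε k).1) = j} ∪
        {k : Fin (d * m) | lab (o (ε k).1) = j} := by
      ext k
      rw [Set.mem_union]
      change s(w, nbr j) ∈ (q k).edges ↔ (lab (i (ε k).1) = j ∨ lab (o (ε k).1) = j)
      rw [hqe, h1.eq_iff, h1.eq_iff, eq_comm, @eq_comm _ j]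
    have hdis : Disjoint {k : Fin (d * m) | lab (i (ε k).1) = j}
        {k : Fin (d * m) | lab (o (ε k).1) = j} := by
      rw [Set.disjoint_left]
      intro k hk hk'
      obtain ⟨ad1, ad2, hne, -⟩ := hio (ε k).1 (ε k).2
      exact hne (hlab _ (ε k).2 _ _ ad1 ad2 (hk.trans hk'.symm))
    rw [hset, Set.ncard_union_eq hdis (Set.toFinite _) (Set.toFinite _), hcount i hi,
      hcount o ho]
    ring
  · rintro A ⟨u, huA, hu⟩ ⟨u', huA', hu'⟩
    obtain ⟨j, rfl⟩ := h3 u hu
    obtain ⟨j', rfl⟩ := h3 u' hu'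
    have hex : ∀ j, ∃ b ∈ S, lab b = j := by
      intro j
      have h4 : {b | b ∈ S ∧ lab b = j}.Nonempty := by
        rw [Set.nonempty_iff_ne_empty]
        intro h5
        have h6 := hcls j
        rw [h5, Set.ncard_empty] at h6
        omega
      exact h4
    obtain ⟨b, hb, hbj⟩ := hex j
    obtain ⟨b', hb', hbj'⟩ := hex j'
    obtain ⟨r, hr, hne⟩ := hcross {b | b ∈ S ∧ nbr (lab b) ∈ A} (fun b hb => hb.1)
      ⟨b, hb, by rw [hbj]; exact huA⟩ (fun h => huA' (by
        have h4 : b' ∈ {b | b ∈ S ∧ nbr (lab b) ∈ A} := by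
          rw [h]
          exact hb'
        rw [← hbj']
        exact h4.2))
    have hir : i r ∈ S := hi.mapsTo hr
    have hor : o r ∈ S := ho.mapsTo hr
    have hne' : ¬ (nbr (lab (i r)) ∈ A ↔ nbr (lab (o r)) ∈ A) := by
      intro h4
      exact hne ⟨fun h5 => ⟨hor, h4.1 h5.2⟩, fun h5 => ⟨hir, h4.2 h5.2⟩⟩
    have hk : (ε (ε.symm ⟨r, hr⟩)).1 = r := by simp
    have hI : s(w, nbr (lab (i r))) ∈ (q (ε.symm ⟨r, hr⟩)).edges := by
      rw [hqe, hk]
      exact Or.inl rfl
    have hO : s(w, nbr (lab (o r))) ∈ (q (ε.symm ⟨r, hr⟩)).edges := by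
      rw [hqe, hk]
      exact Or.inr rfl
    by_cases h4 : nbr (lab (i r)) ∈ A
    · exact ⟨_, _, h4, _, fun h5 => hne' ⟨fun _ => h5, fun _ => h4⟩, hI, hO⟩
    · exact ⟨_, _, by
        by_contra h5
        exact hne' ⟨fun h6 => absurd h6 h4, fun h6 => absurd h6 h5⟩, _, h4, hO, hI⟩

end FewFacets
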