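import Pool.Agent.FewFacets.WalkDefs

/-!
From a walk with few repeated vertices to a cover by few paths.
-/

namespace FewFacets

open Classical in
/-- The pieces of a walk outside a set `M`: the vertices of the walk outside `M` are covered as
often as by the walk, and every piece, except the last, ends next to `M`. -/
theorem cover_aux {V : Type*} {G : SimpleGraph V} (M : Set V) {a b : V} (p : G.Walk a b) :
    ∃ L : List (Σ a b : V, G.Walk a b),
      (∀ v, (L.map (fun q => q.2.2.support.count v)).sum =
        if v ∈ M then 0 else p.support.count v) ∧
      L.length ≤ (p.support.filter (fun u => u ∉ M ∧ ∃ w ∈ M, G.Adj w u)).length + 1 ∧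
      (a ∉ M → ∃ (e : V) (q : G.Walk a e) (L' : List (Σ a b : V, G.Walk a b)),
        L = ⟨a, e, q⟩ :: L') := by
  induction p with
  | @nil a =>
    by_cases ha : a ∈ M
    · refine ⟨[], fun v => ?_, Nat.zero_le _, fun h => absurd ha h⟩
      rw [List.map_nil, List.sum_nil]
      split_ifs with hv
      · rfl
      · rw [SimpleGraph.Walk.support_nil, List.count_singleton]
        have hne : ¬ (a == v) = true := by
          rw [beq_iff_eq]
          rintro rfl
          exact hv ha
        rw [if_neg hne]
    · refine ⟨[⟨a, a, SimpleGraph.Walk.nil⟩], fun v => ?_, ?_, fun _ => ⟨a, _, [], rfl⟩⟩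
      · rw [List.map_cons, List.map_nil, List.sum_cons, List.sum_nil, add_zero]
        split_ifs with hv
        · rw [SimpleGraph.Walk.support_nil, List.count_singleton]
          have hne : ¬ (a == v) = true := by
            rw [beq_iff_eq]
            rintro rfl
            exact ha hv
          rw [if_neg hne]
        · rfl
      · exact Nat.le_add_left _ _
  | @cons a c b h p ih =>
    obtain ⟨L, hL, hlen, hst⟩ := ih
    by_cases ha : a ∈ M
    · refine ⟨L, fun v => ?_, ?_, fun h => absurd ha h⟩
      · rw [hL]
        split_ifs with hv
        · rfl
        · rw [SimpleGraph.Walk.support_cons, List.count_cons]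
          have hne : ¬ (a == v) = true := by
            rw [beq_iff_eq]
            rintro rfl
            exact hv ha
          rw [if_neg hne, add_zero]
      · rw [SimpleGraph.Walk.support_cons, List.filter_cons]
        split_ifs
        · rw [List.length_cons]
          omega
        · exact hlen
    · by_cases hc : c ∈ M
      · refine ⟨⟨a, a, SimpleGraph.Walk.nil⟩ :: L, fun v => ?_, ?_, fun _ => ⟨a, _, L, rfl⟩⟩
        · have h5 : (SimpleGraph.Walk.nil : G.Walk a a).support.count v =
              if (a == v) = true then 1 else 0 := List.count_singleton
          rw [List.map_cons, List.sum_cons, hL, SimpleGraph.Walk.support_cons, List.count_cons]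
          change (SimpleGraph.Walk.nil : G.Walk a a).support.count v + _ = _
          rw [h5]
          by_cases hav : a = v
          · subst hav
            rw [if_pos (beq_self_eq_true a), if_neg ha, if_neg ha, add_comm]
          · have hne : ¬ (a == v) = true := by
              rw [beq_iff_eq]
              exact hav
            rw [if_neg hne, zero_add, add_zero]
        · rw [SimpleGraph.Walk.support_cons, List.filter_cons, if_pos, List.length_cons,
            List.length_cons]
          · omega
          · rw [decide_eq_true_iff]
            exact ⟨ha, c, hc, h.symm⟩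
      · obtain ⟨e, q, L', rfl⟩ := hst hc
        refine ⟨⟨a, e, SimpleGraph.Walk.cons h q⟩ :: L', fun v => ?_, ?_,
          fun _ => ⟨e, _, L', rfl⟩⟩
        · have h1 := hL v
          rw [List.map_cons, List.sum_cons] at h1
          rw [List.map_cons, List.sum_cons, SimpleGraph.Walk.support_cons,
            SimpleGraph.Walk.support_cons, List.count_cons, List.count_cons]
          by_cases hav : a = v
          · subst hav
            rw [if_neg ha] at h1
            rw [if_pos (beq_self_eq_true a), if_neg ha, ← h1]
            ring
          · have hne : ¬ (a == v) = true := by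
              rw [beq_iff_eq]
              exact hav
            rw [if_neg hne, add_zero, add_zero]
            exact h1
        · rw [SimpleGraph.Walk.support_cons, List.filter_cons]
          rw [List.length_cons] at hlen ⊢
          split_ifs
          · rw [List.length_cons]
            omega
          · exact hlen

open Classical in
/-- the boundary of `M` -/
theorem length_filter_le {V : Type*} [Finite V] {G : SimpleGraph V} {d : ℕ}
    (hdeg : ∀ v, (G.neighborSet v).ncard ≤ d) (M : Set V) (l : List V)
    (hl : ∀ v, v ∉ M → l.count v ≤ 1) (f : V → Bool)
    (hf : ∀ u, f u = true → u ∉ M ∧ ∃ w ∈ M, G.Adj w u) :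
    (l.filter f).length ≤ d * M.ncard := by
  have := Fintype.ofFinite V
  have hnd : (l.filter f).Nodup := by
    rw [List.nodup_iff_count_le_one]
    intro u
    by_cases hu : u ∈ M
    · rw [List.count_eq_zero_of_not_mem]
      · exact Nat.zero_le _
      · intro h
        rw [List.mem_filter] at h
        exact (hf u h.2).1 hu
    · exact (List.filter_sublist.count_le u).trans (hl u hu)
  rw [← List.toFinset_card_of_nodup hnd]
  have hsub : (l.filter f).toFinset ⊆
      M.toFinset.biUnion (fun w => (G.neighborSet w).toFinset) := by
    intro u hu
    rw [List.mem_toFinset, List.mem_filter] at hu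
    obtain ⟨-, w, hw, hwu⟩ := hf u hu.2
    rw [Finset.mem_biUnion]
    exact ⟨w, Set.mem_toFinset.2 hw, Set.mem_toFinset.2 hwu⟩
  refine (Finset.card_le_card hsub).trans ?_
  refine (Finset.card_biUnion_le_card_mul _ _ d ?_).trans ?_
  · intro w _
    rw [← Set.ncard_eq_toFinset_card']
    exact hdeg w
  · rw [← Set.ncard_eq_toFinset_card', mul_comm]

open Classical in
theorem cover_outside {V : Type*} [Finite V] {G : SimpleGraph V} {d : ℕ}
    (hdeg : ∀ v, (G.neighborSet v).ncard ≤ d) (M : Set V) {a b : V} (p : G.Walk a b)
    (hM : ∀ v, v ∉ M → p.support.count v ≤ 1) :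
    ∃ L : List (Σ a b : V, G.Walk a b),
      (∀ v, (L.map (fun q => q.2.2.support.count v)).sum =
        if v ∈ M then 0 else p.support.count v) ∧ L.length ≤ d * M.ncard + 1 := by
  obtain ⟨L, hL, hlen, -⟩ := cover_aux M p
  exact ⟨L, hL, hlen.trans (Nat.succ_le_succ (length_filter_le hdeg M p.support hM _
    (fun u hu => of_decide_eq_true hu)))⟩

/-- PACKAGE W. Let `M` be the set of the vertices which `p` visits more than once. Cut `p` into the
maximal pieces outside `M`: a piece ends where `p` goes from a vertex `u ∉ M` to a vertex of `M`,
and `u` is visited only once, so there are at most `d * M.ncard` such places and at most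
`d * M.ncard + 1` pieces; add the vertices of `M` as paths with one vertex. -/
theorem cover_of_walk {V : Type*} [Finite V] [DecidableEq V] {G : SimpleGraph V} {d : ℕ}
    (hdeg : ∀ v, (G.neighborSet v).ncard ≤ d) {a b : V} (p : G.Walk a b)
    (hp : ∀ v, v ∈ p.support) :
    ∃ L : List (Σ a b : V, G.Walk a b), PathCover L ∧
      L.length ≤ (d + 1) * {v | 1 < p.support.count v}.ncard + 1 := by
  rename_i _ inst
  obtain rfl : inst = fun a b => Classical.propDecidable (a = b) := Subsingleton.elim _ _
  classical
  have := Fintype.ofFinite V
  set M : Set V := {v | 1 < p.support.count v} with hM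
  obtain ⟨L, hL, hb⟩ := cover_outside hdeg M p (fun v hv => not_lt.1 hv)
  refine ⟨M.toFinset.toList.map (fun v => ⟨v, v, SimpleGraph.Walk.nil⟩) ++ L, fun v => ?_, ?_⟩
  · rw [List.map_append, List.sum_append, hL, List.map_map]
    have h1 : (List.map ((fun q : Σ a b : V, G.Walk a b => q.2.2.support.count v) ∘
        fun v => ⟨v, v, SimpleGraph.Walk.nil⟩) M.toFinset.toList).sum =
        if v ∈ M then 1 else 0 := by
      have h2 : ∀ l : List V, (List.map ((fun q : Σ a b : V, G.Walk a b =>
          q.2.2.support.count v) ∘ fun v => ⟨v, v, SimpleGraph.Walk.nil⟩) l).sum =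
          l.count v := by
        intro l
        induction l with
        | nil => rfl
        | cons a l ih =>
          have h5 : (SimpleGraph.Walk.nil : G.Walk a a).support.count v =
            if (a == v) = true then 1 else 0 := List.count_singleton
          rw [List.map_cons, List.sum_cons, ih, List.count_cons]
          change (SimpleGraph.Walk.nil : G.Walk a a).support.count v + _ = _
          rw [h5, add_comm]
      rw [h2, (Finset.nodup_toList _).count]
      simp only [Finset.mem_toList, Set.mem_toFinset]
    rw [h1]
    split_ifs with hv
    · rfl
    · rw [zero_add]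
      have h2 : p.support.count v ≤ 1 := not_lt.1 hv
      have h3 : 0 < p.support.count v := List.count_pos_iff.2 (hp v)
      omega
  · rw [List.length_append, List.length_map, Finset.length_toList,
      ← Set.ncard_eq_toFinset_card']
    calc M.ncard + L.length ≤ M.ncard + (d * M.ncard + 1) := by omega
      _ = (d + 1) * M.ncard + 1 := by ring

end FewFacets
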