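import Pool.Agent.FewFacets.SpreadPoly
import Pool.Agent.FewFacets.WalkCover
import Pool.Agent.FewFacets.HamDefs
import Mathlib.Analysis.Convex.KreinMilman

/-!
The equivalences with spanning walks and with Hamilton cycles spread evenly.
-/

set_option linter.unusedSectionVars false

namespace FewFacets

open Classical in
/-- `G` has a walk through all its `N` vertices that visits at most `c N` of them more than
once -/
def FewRepeats {V : Type*} (G : SimpleGraph V) (c : ℝ) : Prop :=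
  ∃ (a b : V) (p : G.Walk a b), (∀ v, v ∈ p.support) ∧
    ({v | 1 < p.support.count v}.ncard : ℝ) ≤ c * Nat.card V

/-- a simple polytope has a vertex -/
theorem SimplePolytope.nonempty {d : ℕ} {P : Set (EuclideanSpace ℝ (Fin d))}
    (hP : SimplePolytope d P) : Nonempty (Vtx P) := by
  obtain ⟨⟨n, a, b, hPab⟩, hb, hi, -⟩ := hP
  have hc : IsClosed P := by
    rw [hPab]
    have h1 : {x : EuclideanSpace ℝ (Fin d) | ∀ i, inner ℝ (a i) x ≤ b i} =
        ⋂ i, {x | inner ℝ (a i) x ≤ b i} := by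
      ext x
      simp
    rw [h1]
    exact isClosed_iInter fun i => isClosed_le (by fun_prop) continuous_const
  have hne : P.Nonempty := hi.mono interior_subset
  exact ((Metric.isCompact_of_isClosed_isBounded hc hb).extremePoints_nonempty hne).to_subtype

theorem hamPath_fewRepeats {V : Type*} {G : SimpleGraph V} (h : HamPath G) {c : ℝ}
    (hc : 0 < c) : FewRepeats G c := by
  classical
  obtain ⟨a, b, p, hp⟩ := h
  refine ⟨a, b, p, hp.mem_support, ?_⟩
  have h1 : {v | 1 < p.support.count v} = ∅ := by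
    ext v
    rw [Set.mem_ofPred_eq]
    constructor
    · intro h2
      have h3 := hp v
      omega
    · intro h2
      exact h2.elim
  have h2 : ({v | 1 < p.support.count v}.ncard : ℝ) = 0 := by
    rw [h1, Set.ncard_empty, Nat.cast_zero]
  rw [h2]
  positivity

theorem coverBy_of_fewRepeats {V : Type*} [Finite V] {G : SimpleGraph V} {d : ℕ}
    (hdeg : ∀ v, (G.neighborSet v).ncard ≤ d) {c : ℝ}
    (hN : 2 ≤ c * Nat.card V) (h : FewRepeats G (c / (2 * (d + 1)))) : CoverBy G c := by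
  classical
  obtain ⟨a, b, p, hp, hle⟩ := h
  obtain ⟨L, hL, hlen⟩ := cover_of_walk hdeg p hp
  refine ⟨L, hL, ?_⟩
  have h1 : (L.length : ℝ) ≤ (d + 1) * {v | 1 < p.support.count v}.ncard + 1 := by
    exact_mod_cast hlen
  have h2 : ((d : ℝ) + 1) * {v | 1 < p.support.count v}.ncard ≤ c * Nat.card V / 2 := by
    calc ((d : ℝ) + 1) * {v | 1 < p.support.count v}.ncard
        ≤ ((d : ℝ) + 1) * (c / (2 * (d + 1)) * Nat.card V) :=
          mul_le_mul_of_nonneg_left hle (by positivity)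
      _ = c * Nat.card V / 2 := by
          field_simp
  linarith

/-- **The equivalences.** -/
theorem spread_tfae {d : ℕ} (hd : 3 ≤ d) : List.TFAE [
    ∀ c : ℝ, 0 < c → ∃ N : ℕ, ∀ P : Set (EuclideanSpace ℝ (Fin d)), SimplePolytope d P →
      N ≤ Nat.card (Vtx P) → FewRepeats (gr P) c,
    ∀ c : ℝ, 0 < c → ∃ N : ℕ, ∀ P : Set (EuclideanSpace ℝ (Fin d)), SimplePolytope d P →
      N ≤ Nat.card (Vtx P) → CoverBy (gr P) c,
    ∀ c : ℝ, 0 < c → ∃ N : ℕ, ∀ P : Set (EuclideanSpace ℝ (Fin d)), SimplePolytope d P →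
      N ≤ Nat.card (Vtx P) → LongPath (gr P) c,
    ∀ P : Set (EuclideanSpace ℝ (Fin d)), SimplePolytope d P → HamPath (gr P),
    ∀ P : Set (EuclideanSpace ℝ (Fin d)), SimplePolytope d P → HamCycle (gr P),
    ∀ P : Set (EuclideanSpace ℝ (Fin d)), SimplePolytope d P →
      ∀ w : Vtx P, HamSpread (gr P) d w] := by
  have h := ham_tfae' hd
  tfae_have 2 ↔ 3 := h.out 0 1
  tfae_have 2 ↔ 4 := h.out 0 2
  tfae_have 2 ↔ 5 := h.out 0 3
  tfae_have 4 → 1 := fun h4 c hc => ⟨0, fun P hP _ => hamPath_fewRepeats (h4 P hP) hc⟩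
  tfae_have 1 → 2 := by
    intro h1 c hc
    obtain ⟨N, hN⟩ := h1 (c / (2 * (d + 1))) (by positivity)
    refine ⟨N + ⌈2 / c⌉₊, fun P hP hNP => ?_⟩
    have hf : Finite (Vtx P) := hP.finite (by omega)
    have hdeg : ∀ v : Vtx P, ((gr P).neighborSet v).ncard ≤ d := fun v => (hP.2.2.2 v).le
    refine coverBy_of_fewRepeats hdeg ?_ (hN P hP (by omega))
    have h2 : (⌈2 / c⌉₊ : ℝ) ≤ Nat.card (Vtx P) := by
      exact_mod_cast (by omega : ⌈2 / c⌉₊ ≤ Nat.card (Vtx P))
    have h3 := (Nat.le_ceil (2 / c)).trans h2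
    rwa [div_le_iff₀ hc, mul_comm] at h3
  tfae_have 5 → 6 := by
    intro h5 P hP w
    refine spread_of_cycles hd (fun Q hQ => ?_) hP w
    exact (hamCycle_iff (G := gr Q) _).2 (h5 Q hQ)
  tfae_have 6 → 5 := by
    intro h6 P hP
    obtain ⟨w⟩ := hP.nonempty
    obtain ⟨N, c, p, hN, hp, -⟩ := h6 P hP w
    exact ⟨_, p ⟨0, hN⟩, hp _⟩
  tfae_finish

end FewFacets
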