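import Mathlib

namespace FewFacets

/-- A finite set can be listed with prescribed first and last element. -/
lemma subst_block {β : Type*} [DecidableEq β] (B : Finset β) {s t : β} (hs : s ∈ B) (ht : t ∈ B)
    (hst : s = t → B.card = 1) :
    ∃ L : List β, L.Nodup ∧ (∀ v, v ∈ L ↔ v ∈ B) ∧ L.head? = some s ∧ L.getLast? = some t := by
  by_cases h : s = t
  · subst h
    obtain ⟨a, ha⟩ := Finset.card_eq_one.1 (hst rfl)
    rw [ha, Finset.mem_singleton] at hs
    subst hs
    exact ⟨[s], List.nodup_singleton _, by simp [ha], rfl, rfl⟩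
  · refine ⟨s :: (((B.erase s).erase t).toList ++ [t]), ?_, ?_, rfl, ?_⟩
    · rw [List.nodup_cons]
      constructor
      · simp [h]
      · rw [List.nodup_append]
        refine ⟨Finset.nodup_toList _, List.nodup_singleton _, ?_⟩
        intro a ha b hb hab
        rw [List.mem_singleton] at hb
        subst hb
        subst hab
        simp at ha
    · intro v
      simp only [List.mem_cons, List.mem_append, Finset.mem_toList, Finset.mem_erase,
        List.not_mem_nil, or_false]
      constructor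
      · rintro (rfl | ⟨_, _, h3⟩ | rfl)
        · exact hs
        · exact h3
        · exact ht
      · intro hv
        by_cases h1 : v = s
        · exact Or.inl h1
        · by_cases h2 : v = t
          · exact Or.inr (Or.inr h2)
          · exact Or.inr (Or.inl ⟨h2, h1, hv⟩)
    · rw [← List.cons_append, List.getLast?_append]
      rfl

/-- The cyclic list given by a function on `Fin (k + 1)`. -/
lemma subst_core {α β : Type*} [DecidableEq β] {R : β → β → Prop}
    {Nb : α → α → Prop} (hNb : ∀ x y, Nb x y → Nb y x) {k : ℕ} (hk : 2 ≤ k)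
    (x : Fin (k + 1) → α) (hx : Function.Injective x) (hch : ∀ i, Nb (x i) (x (i + 1)))
    (B : α → Finset β) (hdisj : ∀ i j, i ≠ j → Disjoint (B (x i)) (B (x j)))
    (hclique : ∀ i, ∀ u ∈ B (x i), ∀ v ∈ B (x i), u ≠ v → R u v)
    (p : α → α → β) (hp : ∀ i j, i ≠ j → Nb (x i) (x j) → p (x i) (x j) ∈ B (x i))
    (hpR : ∀ i j, i ≠ j → Nb (x i) (x j) → R (p (x i) (x j)) (p (x j) (x i)))
    (hpne : ∀ i j l, i ≠ j → i ≠ l → j ≠ l → Nb (x i) (x j) → Nb (x i) (x l) →
      p (x i) (x j) = p (x i) (x l) → (B (x i)).card = 1) :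
    ∃ m : List β, m.Nodup ∧ (∀ v, v ∈ m ↔ ∃ i, v ∈ B (x i)) ∧ m.IsChain R ∧
      (∀ u ∈ m.getLast?, ∀ v ∈ m.head?, R u v) ∧ 3 ≤ m.length := by
  have h1 : ∀ i : Fin (k + 1), i ≠ i + 1 := by
    intro i h
    have h2 : (1 : Fin (k + 1)) = 0 := by
      have := congrArg (fun j => j - i) h
      simpa [add_sub_cancel_left] using this.symm
    have h3 := congrArg Fin.val h2
    rw [Fin.val_one', Nat.mod_eq_of_lt (by omega), Fin.val_zero] at h3
    exact one_ne_zero h3
  have h2 : ∀ i : Fin (k + 1), i - 1 ≠ i + 1 := by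
    intro i h
    have h2 : (1 + 1 : Fin (k + 1)) = 0 := by
      have h3 : i + 1 - (i - 1) = 0 := by rw [h, sub_self]
      rwa [add_sub_sub_cancel] at h3
    have h3 := congrArg Fin.val h2
    rw [Fin.val_add, Fin.val_one', Nat.mod_eq_of_lt (show 1 < k + 1 by omega),
      Nat.mod_eq_of_lt (show 1 + 1 < k + 1 by omega), Fin.val_zero] at h3
    omega
  have h3 : ∀ i : Fin (k + 1), i ≠ i - 1 := by
    intro i h
    have := h1 (i - 1)
    rw [sub_add_cancel] at this
    exact this h.symm
  have hprev : ∀ i, Nb (x i) (x (i - 1)) := by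
    intro i
    have := hch (i - 1)
    rw [sub_add_cancel] at this
    exact hNb _ _ this
  choose L hLn hLm hLh hLl using fun i : Fin (k + 1) =>
    subst_block (B (x i)) (hp i (i - 1) (h3 i) (hprev i)) (hp i (i + 1) (h1 i) (hch i))
      (hpne i (i - 1) (i + 1) (h3 i) (h1 i) (h2 i) (hprev i) (hch i))
  have hLne : ∀ i, L i ≠ [] := by
    intro i h
    have := hLh i
    rw [h] at this
    simp at this
  have hstep : ∀ i, ∀ u ∈ (L i).getLast?, ∀ v ∈ (L (i + 1)).head?, R u v := by
    intro i u hu v hv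
    rw [hLl] at hu
    rw [hLh] at hv
    rw [Option.mem_some_iff] at hu hv
    subst hu
    subst hv
    rw [add_sub_cancel_right]
    exact hpR i (i + 1) (h1 i) (hch i)
  have hnotmem : [] ∉ List.ofFn L := by
    rw [List.mem_ofFn]
    rintro ⟨i, hi⟩
    exact hLne i hi
  refine ⟨(List.ofFn L).flatten, ?_, ?_, ?_, ?_, ?_⟩
  · rw [List.nodup_flatten]
    constructor
    · intro l hl
      obtain ⟨i, rfl⟩ := List.mem_ofFn.1 hl
      exact hLn i
    · rw [List.pairwise_ofFn]
      intro i j hij a ha hb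
      exact Finset.disjoint_left.1 (hdisj i j hij.ne) ((hLm i a).1 ha) ((hLm j a).1 hb)
  · intro v
    rw [List.mem_flatten]
    constructor
    · rintro ⟨l, hl, hv⟩
      obtain ⟨i, rfl⟩ := List.mem_ofFn.1 hl
      exact ⟨i, (hLm i v).1 hv⟩
    · rintro ⟨i, hi⟩
      exact ⟨L i, List.mem_ofFn.2 ⟨i, rfl⟩, (hLm i v).2 hi⟩
  · rw [List.isChain_flatten hnotmem]
    constructor
    · intro l hl
      obtain ⟨i, rfl⟩ := List.mem_ofFn.1 hl
      have hpw : (L i).Pairwise R := by
        refine List.Pairwise.imp_of_mem ?_ (hLn i)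
        intro a b ha hb hab
        exact hclique i a ((hLm i a).1 ha) b ((hLm i b).1 hb) hab
      exact hpw.isChain
    · rw [List.isChain_ofFn]
      intro i hi
      have h4 : (⟨i + 1, hi⟩ : Fin (k + 1)) = ⟨i, by omega⟩ + 1 := by
        apply Fin.ext
        rw [Fin.val_add, Fin.val_one', Nat.mod_eq_of_lt (show 1 < k + 1 by omega),
          Nat.mod_eq_of_lt hi]
      rw [h4]
      exact hstep _
  · intro u hu v hv
    have h5 : v ∈ (L 0).head? := by
      rw [List.ofFn_succ, List.flatten_cons, List.head?_append, hLh 0] at hv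
      rw [hLh 0]
      simpa using hv
    have h6 : u ∈ (L (Fin.last k)).getLast? := by
      rw [List.ofFn_succ', List.concat_eq_append, List.flatten_append, List.flatten_cons,
        List.flatten_nil, List.append_nil, List.getLast?_append, hLl (Fin.last k)] at hu
      rw [hLl (Fin.last k)]
      simpa using hu
    have h7 := hstep (Fin.last k) u h6
    rw [Fin.last_add_one] at h7
    exact h7 v h5
  · rw [List.length_flatten, List.map_ofFn, List.sum_ofFn]
    have h8 : ∑ _i : Fin (k + 1), 1 ≤ ∑ i : Fin (k + 1), (List.length ∘ L) i := by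
      refine Finset.sum_le_sum fun i _ => ?_
      exact List.length_pos_iff.2 (hLne i)
    rw [Finset.sum_const, Finset.card_univ, Fintype.card_fin, smul_eq_mul, mul_one] at h8
    omega

/-- Substitution of cliques into a cyclic list. -/
lemma subst {α β : Type*} [DecidableEq α] [DecidableEq β] {R : β → β → Prop}
    {Nb : α → α → Prop} (hR : ∀ u v, R u v → R v u) (hNb : ∀ x y, Nb x y → Nb y x)
    (l : List α) (hnd : l.Nodup) (h3 : 3 ≤ l.length) (hch : l.IsChain Nb)
    (hcl : ∀ x ∈ l.getLast?, ∀ y ∈ l.head?, Nb x y)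
    (B : α → Finset β) (hdisj : ∀ x ∈ l, ∀ y ∈ l, x ≠ y → Disjoint (B x) (B y))
    (hclique : ∀ x ∈ l, ∀ u ∈ B x, ∀ v ∈ B x, u ≠ v → R u v)
    (p : α → α → β) (hp : ∀ x ∈ l, ∀ y ∈ l, x ≠ y → Nb x y → p x y ∈ B x)
    (hpR : ∀ x ∈ l, ∀ y ∈ l, x ≠ y → Nb x y → R (p x y) (p y x))
    (hpne : ∀ x ∈ l, ∀ y ∈ l, ∀ z ∈ l, x ≠ y → x ≠ z → y ≠ z → Nb x y → Nb x z →
      p x y = p x z → (B x).card = 1) :
    ∃ m : List β, m.Nodup ∧ (∀ v, v ∈ m ↔ ∃ x ∈ l, v ∈ B x) ∧ m.IsChain R ∧
      (∀ u ∈ m.getLast?, ∀ v ∈ m.head?, R u v) ∧ 3 ≤ m.length := by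
  obtain ⟨k, hk⟩ : ∃ k, l.length = k + 1 := ⟨l.length - 1, by omega⟩
  let x : Fin (k + 1) → α := fun i => l[(i : ℕ)]'(by omega)
  have hxl : ∀ i, x i ∈ l := fun i => List.getElem_mem _
  have hx : Function.Injective x := by
    intro i j hij
    exact Fin.ext ((List.Nodup.getElem_inj_iff hnd).1 hij)
  have hchx : ∀ i, Nb (x i) (x (i + 1)) := by
    intro i
    by_cases hi : (i : ℕ) + 1 < k + 1
    · have h4 : ((i + 1 : Fin (k + 1)) : ℕ) = i + 1 := by
        rw [Fin.val_add, Fin.val_one', Nat.mod_eq_of_lt (show 1 < k + 1 by omega),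
          Nat.mod_eq_of_lt hi]
      have h5 := List.isChain_iff_getElem.1 hch i (by omega)
      have h6 : x (i + 1) = l[(i : ℕ) + 1]'(by omega) := by
        simp only [x, h4]
      rw [h6]
      exact h5
    · have hil : i = Fin.last k := by
        apply Fin.ext
        have := i.2
        rw [Fin.val_last]
        omega
      rw [hil, Fin.last_add_one]
      apply hcl
      · rw [List.getLast?_eq_getElem?, Option.mem_def, List.getElem?_eq_some_iff]
        refine ⟨by omega, ?_⟩
        simp only [x, Fin.val_last]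
        congr 1
        omega
      · rw [List.head?_eq_getElem?, Option.mem_def, List.getElem?_eq_some_iff]
        exact ⟨by omega, rfl⟩
  have hmem : ∀ y ∈ l, ∃ i, x i = y := by
    intro y hy
    obtain ⟨i, hi, rfl⟩ := List.mem_iff_getElem.1 hy
    exact ⟨⟨i, by omega⟩, rfl⟩
  obtain ⟨m, h4, h5, h6, h7, h8⟩ := subst_core hNb (by omega) x hx hchx B
    (fun i j hij => hdisj _ (hxl i) _ (hxl j) (hx.ne hij)) (fun i => hclique _ (hxl i)) p
    (fun i j hij => hp _ (hxl i) _ (hxl j) (hx.ne hij))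
    (fun i j hij => hpR _ (hxl i) _ (hxl j) (hx.ne hij))
    (fun i j r hij hir hjr => hpne _ (hxl i) _ (hxl j) _ (hxl r) (hx.ne hij) (hx.ne hir)
      (hx.ne hjr))
  refine ⟨m, h4, fun v => ?_, h6, h7, h8⟩
  rw [h5]
  constructor
  · rintro ⟨i, hi⟩
    exact ⟨x i, hxl i, hi⟩
  · rintro ⟨y, hy, hv⟩
    obtain ⟨i, rfl⟩ := hmem y hy
    exact ⟨i, hv⟩

end FewFacets
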