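import Pool.Agent.FewFacets.SumHam

/-!
# The Hamilton cycles of the summand seen in a Hamilton cycle of a sum
-/

namespace PolySum

variable {β V : Type*} {B : SimpleGraph β} {G : SimpleGraph V} {w : V} {R : Set β}
  {port : β → β → V}

/-- A Hamilton cycle of the sum, started at a given vertex which is not replaced. -/
theorem exists_rotated [DecidableEq (SumVert R w)] {s : β} (hs : s ∉ R)
    (hham : ∃ (c : SumVert R w) (p : (sumGraph B G w R port).Walk c c), p.IsHamiltonianCycle) :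
    ∃ (n : ℕ) (F : ℕ → SumVert R w), 1 ≤ n ∧ Pos B G w R port n F ∧
      Pos B G w R port n (fun k => F (k + 1)) ∧ F (n + 1) = F 0 ∧ (F 0).1.1 = s := by
  classical
  obtain ⟨c, p, hp⟩ := hham
  obtain ⟨x0, hx0⟩ : ∃ x0 : SumVert R w,
      x0 = ⟨(s, w), ⟨fun h => absurd h hs, fun h => absurd rfl h⟩⟩ :=
    ⟨_, rfl⟩
  have hx0s : x0.1.1 = s := by rw [hx0]
  obtain ⟨p', hcyc, hsup⟩ : ∃ p' : (sumGraph B G w R port).Walk x0 x0, p'.IsCycle ∧
      ∀ x, x ∈ p'.support := by
    have hp2 := (SimpleGraph.Walk.isHamiltonianCycle_rotate (hp.mem_support x0)).2 hp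
    exact ⟨_, hp2.isCycle, hp2.mem_support⟩
  have hlen := hcyc.three_le_length
  obtain ⟨n, hn⟩ : ∃ n, n + 1 = p'.length := ⟨p'.length - 1, by omega⟩
  have hend : p'.getVert (n + 1) = x0 := by rw [hn, SimpleGraph.Walk.getVert_length]
  have h0 : p'.getVert 0 = x0 := SimpleGraph.Walk.getVert_zero p'
  have hmem : ∀ x, ∃ i, p'.getVert i = x ∧ i ≤ p'.length := fun x =>
    SimpleGraph.Walk.mem_support_iff_exists_getVert.mp (hsup x)
  refine ⟨n, p'.getVert, by omega, ⟨fun i hi => p'.adj_getVert_succ (by omega), ?_, ?_⟩,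
    ⟨fun i hi => p'.adj_getVert_succ (by omega), ?_, ?_⟩, ?_, ?_⟩
  · intro i j hi hj hij
    exact hcyc.getVert_injOn' (by rw [Set.mem_ofPred_eq]; omega)
      (by rw [Set.mem_ofPred_eq]; omega) hij
  · intro x
    obtain ⟨i, hi, hi'⟩ := hmem x
    rcases Nat.lt_or_ge n i with h1 | h1
    · refine ⟨0, Nat.zero_le _, ?_⟩
      have h2 : i = n + 1 := by omega
      rw [h2, hend] at hi
      rw [h0, hi]
    · exact ⟨i, h1, hi⟩
  · intro i j hi hj hij
    have := hcyc.getVert_injOn (by rw [Set.mem_ofPred_eq]; omega)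
      (by rw [Set.mem_ofPred_eq]; omega) hij
    omega
  · intro x
    obtain ⟨i, hi, hi'⟩ := hmem x
    rcases Nat.eq_zero_or_pos i with h1 | h1
    · refine ⟨n, le_rfl, ?_⟩
      rw [h1, h0] at hi
      exact hend.trans hi
    · refine ⟨i - 1, by omega, ?_⟩
      have h2 : i - 1 + 1 = i := by omega
      change p'.getVert (i - 1 + 1) = x
      rw [h2, hi]
  · rw [hend, h0]
  · rw [h0, hx0s]

/-- Every copy is passed in one block, and this gives a Hamilton cycle of the summand. -/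
theorem exists_pass [Finite β] [Finite V] [DecidableEq V] {n : ℕ} {F : ℕ → SumVert R w}
    (h : Pos B G w R port n F) (h' : Pos B G w R port n (fun k => F (k + 1)))
    (hlast : F (n + 1) = F 0) (hn1 : 1 ≤ n)
    {S : Set β} (hbip : ∀ b b', B.Adj b b' → (b ∈ S ↔ b' ∉ S)) (hbal : S.ncard ≤ Sᶜ.ncard)
    (htwo : 2 ≤ S.ncard) (hRS : ∀ b, b ∈ R ↔ b ∉ S) (hne : ∃ v, v ≠ w)
    (hport : ∀ r ∈ R, ∀ b, B.Adj r b → G.Adj w (port r b))
    (hinj : ∀ r ∈ R, ∀ b b', B.Adj r b → B.Adj r b' → port r b = port r b' → b = b')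
    (h0 : (F 0).1.1 ∈ S) {r : β} (hr : r ∈ R) :
    ∃ i₀ j₀, 0 < i₀ ∧ i₀ ≤ j₀ ∧ j₀ ≤ n ∧
      (∀ k, k ≤ n → ((F k).1.1 = r ↔ i₀ ≤ k ∧ k ≤ j₀)) ∧
      B.Adj r (F (i₀ - 1)).1.1 ∧ B.Adj r (F (j₀ + 1)).1.1 ∧
      (F (i₀ - 1)).1.1 ≠ (F (j₀ + 1)).1.1 ∧
      ∃ (c : V) (q : G.Walk c c), q.IsHamiltonianCycle ∧
        ∀ u, s(w, u) ∈ q.edges ↔
          (u = port r (F (i₀ - 1)).1.1 ∨ u = port r (F (j₀ + 1)).1.1) := by
  classical
  have hRS' : ∀ b ∈ R, b ∉ S := fun b hb => (hRS b).1 hb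
  have hrS : r ∉ S := hRS' r hr
  have hr0 : (F 0).1.1 ≠ r := fun h1 => hrS (h1 ▸ h0)
  have hmul : ∀ b, ¬ Multi F S n b := no_multi h hbip hRS' hbal hne h0
  by_cases hrn : (F n).1.1 = r
  · -- the last copy
    have hr1 : (F 1).1.1 ≠ r := by
      intro h1
      have hall := all_between h (S := S) (r := r) hrS (hmul r) hr0 h1 hrn hn1
      have hsub : S ⊆ {(F 0).1.1} := by
        intro s' hs'
        obtain ⟨t, ht, hFt⟩ := h.surj
          ⟨(s', w), ⟨fun h => absurd h (fun h1 => hRS' _ h1 hs'), fun h => absurd rfl h⟩⟩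
        have hFt1 : (F t).1.1 = s' := by rw [hFt]
        rcases Nat.eq_zero_or_pos t with h2 | h2
        · rw [h2] at hFt1
          exact hFt1.symm
        · have h3 := hall t h2 ht
          rw [hFt1] at h3
          exact absurd (h3 ▸ hs') hrS
      have h2 := Set.ncard_le_ncard hsub (Set.toFinite _)
      rw [Set.ncard_singleton] at h2
      omega
    have hlast' : (F (n + 1)).1.1 ≠ r := by
      rw [hlast]
      exact hr0
    have hmul' : ¬ Multi (fun k => F (k + 1)) S n r := by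
      rintro ⟨i, j, hij, ⟨hi, _, hi2⟩, ⟨hj, _, hj2⟩, hir, hjr⟩
      have hir' : (F (i + 1)).1.1 = r := hir
      have hjr' : (F (j + 1)).1.1 = r := hjr
      have key : ∀ t, t ≤ n → (F (t + 1)).1.1 = r →
          (t = 0 ∨ (F (t - 1 + 1)).1.1 ≠ (F (t + 1)).1.1) → Start F S n (t + 1) := by
        intro t ht htr ht2
        have ht0 : t ≠ 0 := by
          intro h3
          rw [h3] at htr
          exact hr1 htr
        have htn : t ≠ n := by
          intro h3
          rw [h3] at htr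
          exact hlast' htr
        refine ⟨by omega, by rw [htr]; exact hrS, Or.inr ?_⟩
        rcases ht2 with h3 | h3
        · exact absurd h3 ht0
        · have h4 : t - 1 + 1 = t + 1 - 1 := by omega
          rw [h4] at h3
          exact h3
      exact hmul r ⟨i + 1, j + 1, by omega, key i hi hir' hi2, key j hj hjr' hj2, hir', hjr'⟩
    obtain ⟨i₀, j₀, hi₀, hij, hj₀, hblock⟩ := exists_block h' hRS' hr hne hr1 hlast' hmul'
    have hends := block_ends h' hbip hRS' hr hi₀ hij hj₀ hblock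
    obtain ⟨ad1, ad2, c, q, hq, hqe⟩ := cycle_of_block h' hr (hport r hr) (hinj r hr) hi₀ hij
      hj₀ hblock hends
    have e1 : i₀ - 1 + 1 = i₀ + 1 - 1 := by omega
    change (F (i₀ - 1 + 1)).1.1 ≠ (F (j₀ + 1 + 1)).1.1 at hends
    change B.Adj r (F (i₀ - 1 + 1)).1.1 at ad1
    change B.Adj r (F (j₀ + 1 + 1)).1.1 at ad2
    change ∀ u, s(w, u) ∈ q.edges ↔
      (u = port r (F (i₀ - 1 + 1)).1.1 ∨ u = port r (F (j₀ + 1 + 1)).1.1) at hqe
    rw [e1] at hends ad1 hqe
    refine ⟨i₀ + 1, j₀ + 1, by omega, by omega, by omega, ?_, ad1, ad2, hends, c, q, hq, hqe⟩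
    intro k hk
    rcases Nat.eq_zero_or_pos k with h2 | h2
    · subst h2
      constructor
      · intro h3
        exact absurd h3 hr0
      · intro h3
        omega
    · have h3 := hblock (k - 1) (by omega)
      have h4 : k - 1 + 1 = k := by omega
      change ((F (k - 1 + 1)).1.1 = r ↔ _) at h3
      rw [h4] at h3
      rw [h3]
      omega
  · obtain ⟨i₀, j₀, hi₀, hij, hj₀, hblock⟩ := exists_block h hRS' hr hne hr0 hrn (hmul r)
    have hends := block_ends h hbip hRS' hr hi₀ hij hj₀ hblock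
    obtain ⟨ad1, ad2, c, q, hq, hqe⟩ := cycle_of_block h hr (hport r hr) (hinj r hr) hi₀ hij
      hj₀ hblock hends
    exact ⟨i₀, j₀, hi₀, hij, hj₀.le, hblock, ad1, ad2, hends, c, q, hq, hqe⟩

/-- All vertices outside `S` are replaced and the sum has a Hamilton cycle. It passes every copy
exactly once and every vertex of `S` exactly once; `i r` and `o r` are the vertices of `S` before
and after the copy `r`. -/
theorem spread_of_cycle [Finite β] [Finite V] [DecidableEq V] [DecidableEq (SumVert R w)]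
    {S : Set β} (hbip : ∀ b b', B.Adj b b' → (b ∈ S ↔ b' ∉ S)) (hbal : S.ncard ≤ Sᶜ.ncard)
    (htwo : 2 ≤ S.ncard) (hRS : ∀ b, b ∈ R ↔ b ∉ S) (hne : ∃ v, v ≠ w)
    (hport : ∀ r ∈ R, ∀ b, B.Adj r b → G.Adj w (port r b))
    (hinj : ∀ r ∈ R, ∀ b b', B.Adj r b → B.Adj r b' → port r b = port r b' → b = b')
    (hham : ∃ (c : SumVert R w) (p : (sumGraph B G w R port).Walk c c), p.IsHamiltonianCycle) :
    ∃ i o : β → β, Set.BijOn i R S ∧ Set.BijOn o R S ∧
      (∀ r ∈ R, B.Adj r (i r) ∧ B.Adj r (o r) ∧ i r ≠ o r ∧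
        ∃ (c : V) (q : G.Walk c c), q.IsHamiltonianCycle ∧
          ∀ u, s(w, u) ∈ q.edges ↔ (u = port r (i r) ∨ u = port r (o r))) ∧
      ∀ S' ⊆ S, S'.Nonempty → S' ≠ S → ∃ r ∈ R, ¬ (i r ∈ S' ↔ o r ∈ S') := by
  classical
  have hRS' : ∀ b ∈ R, b ∉ S := fun b hb => (hRS b).1 hb
  have hSR : ∀ b ∈ S, b ∉ R := fun b hb h1 => hRS' b h1 hb
  have hRc : R = Sᶜ := by
    ext b
    exact hRS b
  obtain ⟨s, hs⟩ : S.Nonempty := by
    rw [Set.nonempty_iff_ne_empty]
    intro h1
    rw [h1, Set.ncard_empty] at htwo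
    omega
  obtain ⟨n, F, hn1, h, h', hlast, hF0⟩ := exists_rotated (B := B) (G := G) (port := port)
    (hSR s hs) hham
  have hpass := fun (r : β) (hr : r ∈ R) => exists_pass h h' hlast hn1 hbip hbal htwo hRS hne
    hport hinj (by rw [hF0]; exact hs) hr
  choose! I J hI0 hIJ hJn hblock hadI hadJ hIJne hq using hpass
  have hIpos : ∀ r ∈ R, I r ≤ n := fun r hr => (hIJ r hr).trans (hJn r hr)
  have hFI : ∀ r ∈ R, (F (I r)).1.1 = r := fun r hr =>
    (hblock r hr (I r) (hIpos r hr)).2 ⟨le_rfl, hIJ r hr⟩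
  have hFJ : ∀ r ∈ R, (F (J r)).1.1 = r := fun r hr =>
    (hblock r hr (J r) (hJn r hr)).2 ⟨hIJ r hr, le_rfl⟩
  have hiS : ∀ r ∈ R, (F (I r - 1)).1.1 ∈ S := by
    intro r hr
    by_contra h3
    exact hRS' r hr ((hbip _ _ (hadI r hr)).2 h3)
  have hoS : ∀ r ∈ R, (F (J r + 1)).1.1 ∈ S := by
    intro r hr
    by_contra h3
    exact hRS' r hr ((hbip _ _ (hadJ r hr)).2 h3)
  have hsurj : ∀ f : β → β, Set.MapsTo f R S → Set.InjOn f R → Set.BijOn f R S := by
    intro f hf hf'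
    refine ⟨hf, hf', ?_⟩
    have h1 : f '' R ⊆ S := hf.image_subset
    have h2 : S.ncard ≤ (f '' R).ncard := by
      rw [hf'.ncard_image, hRc]
      exact hbal
    have h3 := Set.eq_of_subset_of_ncard_le h1 h2 (Set.toFinite _)
    exact h3.ge
  refine ⟨fun r => (F (I r - 1)).1.1, fun r => (F (J r + 1)).1.1, hsurj _ hiS ?_,
    hsurj _ hoS ?_, fun r hr => ⟨hadI r hr, hadJ r hr, hIJne r hr, hq r hr⟩, ?_⟩
  · intro r hr r' hr' heq
    have heq' : (F (I r - 1)).1.1 = (F (I r' - 1)).1.1 := heq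
    have h1 := h.unique (i := I r - 1) (j := I r' - 1)
      (by have := hIpos r hr; omega) (by have := hIpos r' hr'; omega)
      (hSR _ (hiS r hr)) heq'
    have h2 := hI0 r hr
    have h3 := hI0 r' hr'
    have h4 : I r = I r' := by omega
    rw [← hFI r hr, h4, hFI r' hr']
  · intro r hr r' hr' heq
    have heq' : (F (J r + 1)).1.1 = (F (J r' + 1)).1.1 := heq
    have h1 := h'.unique (i := J r) (j := J r') (hJn r hr) (hJn r' hr')
      (hSR _ (hoS r hr)) heq'
    rw [← hFJ r hr, h1, hFJ r' hr']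
  · intro S' hS' hne' hneS
    by_contra hcon
    push Not at hcon
    have key : ∀ t, t ≤ n → (F t).1.1 ∈ S → ((F t).1.1 ∈ S' ↔ s ∈ S') := by
      intro t
      induction t using Nat.strong_induction_on with
      | _ t ih =>
        intro htn htS
        rcases Nat.eq_zero_or_pos t with h0 | h0
        · rw [h0, hF0]
        have ht1 : t - 1 + 1 = t := by omega
        have hne1 : (F (t - 1)).1.1 ≠ (F t).1.1 := by
          intro h3
          have := h.unique (i := t) (j := t - 1) (by omega) (by omega) (hSR _ htS) h3.symm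
          omega
        have st := (h.step (i := t - 1) (by omega) (by rw [ht1]; exact hne1)).1
        rw [ht1] at st
        obtain ⟨r, hr⟩ : ∃ r, r = (F (t - 1)).1.1 := ⟨_, rfl⟩
        rw [← hr] at st hne1
        have hrS : r ∉ S := by
          intro h3
          exact (hbip _ _ st).1 h3 htS
        have hrR : r ∈ R := (hRS r).2 hrS
        have hb1 := (hblock r hrR (t - 1) (by omega)).1 hr.symm
        have hb2 : ¬ (I r ≤ t ∧ t ≤ J r) := fun h3 => hne1 ((hblock r hrR t htn).2 h3).symm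
        have hj0 : J r + 1 = t := by omega
        have h5 := hcon r hrR
        have h5' : (F (I r - 1)).1.1 ∈ S' ↔ (F (J r + 1)).1.1 ∈ S' := h5
        rw [hj0] at h5'
        rw [← h5']
        have := hI0 r hrR
        exact ih (I r - 1) (by omega) (by omega) (hiS r hrR)
    have hall : ∀ b ∈ S, (b ∈ S' ↔ s ∈ S') := by
      intro b hb
      obtain ⟨t, ht, hFt⟩ := h.surj
        ⟨(b, w), ⟨fun h => absurd h (fun h1 => hRS' _ h1 hb), fun h => absurd rfl h⟩⟩
      have hFt1 : (F t).1.1 = b := by rw [hFt]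
      have := key t ht (by rw [hFt1]; exact hb)
      rwa [hFt1] at this
    obtain ⟨b, hb⟩ := hne'
    have hs' : s ∈ S' := (hall b (hS' hb)).1 hb
    exact hneS (Set.Subset.antisymm hS' fun c hc => (hall c hc).2 hs')

end PolySum
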