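import Pool.Agent.FewFacets.Facets
import Pool.Agent.FewFacets.FacetComb
import Pool.Agent.FewFacets.ConeG
import Pool.Agent.FewFacets.Subst

/-!
Simple polytopes all but `d + 3` of whose facets are simplices.
-/

set_option linter.unusedSectionVars false

namespace FewFacets

open Finset

variable {E : Type*} [NormedAddCommGroup E] [NormedSpace ℝ E] [FiniteDimensional ℝ E]
  {ι : Type*} [Fintype ι] [LinearOrder ι] {f : ι → E →ₗ[ℝ] ℝ} {b : ι → ℝ} {d K : ℕ}
  {J : Finset ι} {S : ι → Finset ι}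

/-- the data: `J` has `d + 3` elements and all facets outside `J` are simplices -/
structure TData (f : ι → E →ₗ[ℝ] ℝ) (b : ι → ℝ) (d K : ℕ) (J : Finset ι)
    (S : ι → Finset ι) : Prop where
  D : DataK f b K
  hE : Module.finrank ℝ E = d
  hcard : Fintype.card ι = d + K
  hd : 3 ≤ d
  hJ : J.card = d + 3
  hirr : ∀ j, ∃ y ∈ Poly f b, f j y = b j
  hSc : ∀ i ∉ J, (S i).card = d + 1
  hSi : ∀ i ∉ J, i ∈ S i
  hS : ∀ i ∉ J, (vert f b d).filter (fun A => i ∈ A) =
    ((S i).erase i).image (fun a => (S i).erase a)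

lemma TData.erase_mem (H : TData f b d K J S) {i : ι} (hi : i ∉ J) {a : ι}
    (ha : a ∈ (S i).erase i) : (S i).erase a ∈ vert f b d := by
  have : (S i).erase a ∈ (vert f b d).filter (fun A => i ∈ A) := by
    rw [H.hS i hi]; exact mem_image_of_mem _ ha
  exact (mem_filter.1 this).1

lemma TData.of_mem (H : TData f b d K J S) {i : ι} (hi : i ∉ J) {A : Finset ι}
    (hA : A ∈ vert f b d) (hiA : i ∈ A) : ∃ a ∈ (S i).erase i, A = (S i).erase a := by
  have : A ∈ (vert f b d).filter (fun A => i ∈ A) := mem_filter.2 ⟨hA, hiA⟩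
  rw [H.hS i hi, mem_image] at this
  obtain ⟨a, ha, h⟩ := this
  exact ⟨a, ha, h.symm⟩

lemma TData.pts (H : TData f b d K J S) {i : ι} (hi : i ∉ J) :
    ∃ q : ι → E, ∀ a ∈ (S i).erase i, q a ∈ Poly f b ∧ act f b (q a) = (S i).erase a := by
  have : ∀ a, ∃ p : E, a ∈ (S i).erase i → p ∈ Poly f b ∧ act f b p = (S i).erase a := by
    intro a
    by_cases ha : a ∈ (S i).erase i
    · obtain ⟨-, p, hp, h⟩ := mem_vert.1 (H.erase_mem hi ha)
      exact ⟨p, fun _ => ⟨hp, h⟩⟩
    · exact ⟨0, fun h => absurd h ha⟩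
  choose q hq using this
  exact ⟨q, hq⟩

lemma TData.exists_out (H : TData f b d K J S) {i : ι} (hi : i ∉ J) :
    ∃ j ∈ J, j ∉ S i := by
  by_contra hcon
  push Not at hcon
  have h1 : J ⊆ (S i).erase i := fun j hj => mem_erase.2 ⟨fun h => hi (h ▸ hj), hcon j hj⟩
  have h2 := card_le_card h1
  rw [card_erase_of_mem (H.hSi i hi), H.hSc i hi, H.hJ] at h2
  omega

/-- a relation which is negative at `i` -/
lemma TData.pos_outside (H : TData f b d K J S) {i : ι} (hi : i ∉ J) {x : ι → ℝ}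
    (hx : InW f b x) (hxi : x i < 0) (hx0 : ∀ a ∈ (S i).erase i, 0 ≤ x a) {j : ι}
    (hj : j ∉ S i) : 0 < x j := by
  obtain ⟨q, hq⟩ := H.pts hi
  exact H.D.pos_outside H.hE H.hcard (by have := H.hd; omega) (H.hSc i hi) (H.hSi i hi) hq
    H.hirr hx hxi hx0 hj

lemma TData.apex (H : TData f b d K J S) {i : ι} (hi : i ∉ J) :
    ∃ r, InW f b r ∧ r i = -1 ∧ ∀ a ∈ (S i).erase i, r a = 0 := by
  obtain ⟨q, hq⟩ := H.pts hi
  exact H.D.exists_apex H.hE H.hcard (by have := H.hd; omega) (H.hSc i hi) (H.hSi i hi) hq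

lemma TData.not_vert (H : TData f b d K J S) {i : ι} (hi : i ∉ J) :
    (S i).erase i ∉ vert f b d := by
  intro h
  obtain ⟨-, y, hy, hya⟩ := mem_vert.1 h
  obtain ⟨r, hr, hri, hr0⟩ := H.apex hi
  obtain ⟨q, hq⟩ := H.pts hi
  obtain ⟨j, -, hj⟩ := H.exists_out hi
  have h1 := H.D.decomp H.hcard (by have := H.hd; omega) (H.hSc i hi) (H.hSi i hi) hq hr hri
    hr0 (InW.slack (f := f) (b := b) y) j
  have h2 := H.pos_outside hi hr (by rw [hri]; norm_num) (fun a ha => (hr0 a ha).ge) hj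
  have h3 : ∑ a ∈ (S i).erase i,
      (b a - f a y) / (b a - f a (q a)) * (b j - f j (q a)) = 0 := by
    refine sum_eq_zero fun a ha => ?_
    have : a ∈ act f b y := by rw [hya]; exact ha
    rw [mem_act] at this
    rw [this]; simp
  have h4 : 0 < b i - f i y := by
    have : i ∉ act f b y := by rw [hya]; exact fun h => (mem_erase.1 h).1 rfl
    rw [mem_act] at this
    have := lt_of_le_of_ne (hy i) this
    linarith
  rw [h3] at h1
  have h5 := mul_pos h4 h2
  have := hy j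
  linarith

lemma TData.sub (H : TData f b d K J S) {i : ι} (hi : i ∉ J) : (S i).erase i ⊆ J := by
  intro i' hi'
  by_contra hi'J
  have hii' : i' ≠ i := (mem_erase.1 hi').1
  have hd := H.hd
  -- all members of `S i` lie in `S i'`
  have hc2 : 2 ≤ (((S i).erase i).erase i').card := by
    rw [card_erase_of_mem hi', card_erase_of_mem (H.hSi i hi), H.hSc i hi]
    omega
  have hstep : ∀ a ∈ ((S i).erase i).erase i', (S i).erase a ⊆ S i' := by
    intro a ha
    have ha1 := (mem_erase.1 ha).1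
    have ha2 := (mem_erase.1 ha).2
    have hmem : i' ∈ (S i).erase a := mem_erase.2 ⟨Ne.symm ha1, (mem_erase.1 hi').2⟩
    obtain ⟨a', -, h⟩ := H.of_mem hi'J (H.erase_mem hi ha2) hmem
    rw [h]
    exact erase_subset _ _
  obtain ⟨a1, a2, ha1, ha2, h12⟩ := one_lt_card_iff.1 hc2
  have hsub : S i ⊆ S i' := by
    intro x hx
    by_cases h : x = a1
    · exact hstep a2 ha2 (mem_erase.2 ⟨by rw [h]; exact h12, hx⟩)
    · exact hstep a1 ha1 (mem_erase.2 ⟨h, hx⟩)
  have heq : S i = S i' := eq_of_subset_of_card_le hsub (by rw [H.hSc i hi, H.hSc i' hi'J])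
  have h1 : i ∈ (S i').erase i' := mem_erase.2 ⟨Ne.symm hii', heq ▸ H.hSi i hi⟩
  have h2 := H.erase_mem hi'J h1
  rw [← heq] at h2
  exact H.not_vert hi h2

lemma TData.inj (H : TData f b d K J S) {i i' : ι} (hi : i ∉ J) (hi' : i' ∉ J)
    (h : (S i).erase i = (S i').erase i') : i = i' := by
  by_contra hne
  obtain ⟨r, hr, hri, hr0⟩ := H.apex hi
  have hpos : ∀ j ∉ S i, 0 < r j := fun j hj =>
    H.pos_outside hi hr (by rw [hri]; norm_num) (fun a ha => (hr0 a ha).ge) hj
  obtain ⟨j, hjJ, hj⟩ := H.exists_out hi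
  have hi'S : i' ∉ S i := by
    intro h'
    exact hi' (H.sub hi (mem_erase.2 ⟨Ne.symm hne, h'⟩))
  have hj' : j ∉ S i' := by
    intro h'
    have hji' : j ≠ i' := fun e => hi' (e ▸ hjJ)
    have : j ∈ (S i).erase i := by rw [h]; exact mem_erase.2 ⟨hji', h'⟩
    exact hj (mem_erase.1 this).2
  have hneg : InW f b (fun m => - r m) := by
    obtain ⟨w, t, hw⟩ := hr
    exact ⟨-w, -t, fun m => by show - r m = _; rw [hw m, map_neg]; ring⟩
  have h1 := H.pos_outside hi' hneg (by have := hpos i' hi'S; linarith)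
    (fun a ha => by rw [← h] at ha; rw [hr0 a ha]; simp) hj'
  have h2 := hpos j hj
  linarith

/-- relations that are nonnegative on `J` -/
lemma TData.cases (H : TData f b d K J S) {x : ι → ℝ} (hx : InW f b x)
    (hJ : ∀ j ∈ J, 0 ≤ x j) (hne : ∃ j, x j ≠ 0) :
    (∃ q ∈ Poly f b, ∃ t : ℝ, 0 < t ∧ ∀ j, x j = t * (b j - f j q)) ∨
      ∃ i, i ∉ J ∧ x i < 0 ∧ ∀ j ∉ S i, 0 < x j := by
  by_cases h : ∀ i ∉ J, 0 ≤ x i
  · left
    exact H.D.rel hx (fun j => by
      by_cases hj : j ∈ J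
      · exact hJ j hj
      · exact h j hj) hne
  · right
    push Not at h
    obtain ⟨i, hi, hxi⟩ := h
    exact ⟨i, hi, hxi, fun j hj =>
      H.pos_outside hi hx hxi (fun a ha => hJ a (H.sub hi ha)) hj⟩

lemma TData.three (H : TData f b d K J S) {x : ι → ℝ} (hx : InW f b x)
    (hJ : ∀ j ∈ J, 0 ≤ x j) (hne : ∃ j, x j ≠ 0) :
    3 ≤ (J.filter (fun j => x j ≠ 0)).card := by
  have hsplit := card_filter_add_card_filter_not (s := J) (fun j => x j ≠ 0)
  have hJc := H.hJ
  rcases H.cases hx hJ hne with ⟨q, hq, t, ht, hxt⟩ | ⟨i, hi, hxi, hpos⟩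
  · have hsub : J.filter (fun j => ¬ x j ≠ 0) ⊆ act f b q := by
      intro j hj
      rw [mem_filter, not_not, hxt j] at hj
      rw [mem_act]
      rcases mul_eq_zero.1 hj.2 with h | h
      · exact absurd h ht.ne'
      · linarith
    have h1 := card_le_card hsub
    have h2 := H.D.low q hq
    have h3 := act_card_add (f := f) (b := b) q
    have h4 := H.hcard
    omega
  · have hsub : J.filter (fun j => ¬ x j ≠ 0) ⊆ (S i).erase i := by
      intro j hj
      rw [mem_filter, not_not] at hj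
      refine mem_erase.2 ⟨fun h => hi (h ▸ hj.1), ?_⟩
      by_contra hjS
      have := hpos j hjS
      linarith [hj.2]
    have h1 := card_le_card hsub
    rw [card_erase_of_mem (H.hSi i hi), H.hSc i hi] at h1
    omega

/-- the classification of the minimal relations on `J` -/
lemma TData.classify (H : TData f b d K J S) {x : ι → ℝ} (hx : InW f b x)
    (hJ : ∀ j ∈ J, 0 ≤ x j) (h3 : (J.filter (fun j => x j ≠ 0)).card = 3) :
    J.filter (fun j => x j = 0) ∈ vert f b d ∨
      ∃ i, i ∉ J ∧ J.filter (fun j => x j = 0) = (S i).erase i := by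
  have hne : ∃ j, x j ≠ 0 := by
    have : (J.filter (fun j => x j ≠ 0)).Nonempty := by rw [← card_pos, h3]; norm_num
    obtain ⟨j, hj⟩ := this
    exact ⟨j, (mem_filter.1 hj).2⟩
  have hsplit := card_filter_add_card_filter_not (s := J) (fun j => x j = 0)
  have hJc := H.hJ
  have h3' : (J.filter (fun j => ¬ x j = 0)).card = 3 := h3
  have hc : (J.filter (fun j => x j = 0)).card = d := by omega
  rcases H.cases hx hJ hne with ⟨q, hq, t, ht, hxt⟩ | ⟨i, hi, hxi, hpos⟩
  · left
    have hsub : J.filter (fun j => x j = 0) ⊆ act f b q := by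
      intro j hj
      rw [mem_filter, hxt j] at hj
      rw [mem_act]
      rcases mul_eq_zero.1 hj.2 with h | h
      · exact absurd h ht.ne'
      · linarith
    have h2 := H.D.low q hq
    have h3 := act_card_add (f := f) (b := b) q
    have h4 := H.hcard
    have heq := eq_of_subset_of_card_le hsub (by omega)
    rw [mem_vert]
    exact ⟨hc, q, hq, heq.symm⟩
  · right
    refine ⟨i, hi, eq_of_subset_of_card_le ?_ ?_⟩
    · intro j hj
      rw [mem_filter] at hj
      refine mem_erase.2 ⟨fun h => hi (h ▸ hj.1), ?_⟩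
      by_contra hjS
      have := hpos j hjS
      linarith [hj.2]
    · rw [card_erase_of_mem (H.hSi i hi), H.hSc i hi, hc]
      omega

/-- the complement in `J` of a set of elements of `J` -/
def NN (J : Finset ι) (T : Finset {x // x ∈ J}) : Finset ι :=
  J \ T.map (Function.Embedding.subtype (fun x => x ∈ J))

lemma mem_NN {T : Finset {x // x ∈ J}} {j : ι} :
    j ∈ NN J T ↔ ∃ h : j ∈ J, (⟨j, h⟩ : {x // x ∈ J}) ∉ T := by
  unfold NN
  rw [mem_sdiff, mem_map]
  constructor
  · rintro ⟨h1, h2⟩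
    exact ⟨h1, fun h => h2 ⟨⟨j, h1⟩, h, rfl⟩⟩
  · rintro ⟨h1, h2⟩
    refine ⟨h1, ?_⟩
    rintro ⟨⟨j', hj'⟩, h, e⟩
    have e' : j' = j := e
    subst e'
    exact h2 h

lemma NN_inj {T T' : Finset {x // x ∈ J}} (h : NN J T = NN J T') : T = T' := by
  ext ⟨j, hj⟩
  have := congrArg (fun X => j ∈ X) h
  simp only [mem_NN, eq_iff_iff] at this
  constructor
  · intro h1
    by_contra h2
    obtain ⟨_, h3⟩ := this.2 ⟨hj, h2⟩
    exact h3 h1
  · intro h1
    by_contra h2
    obtain ⟨_, h3⟩ := this.1 ⟨hj, h2⟩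
    exact h3 h1

lemma NN_sub {T : Finset {x // x ∈ J}} : NN J T ⊆ J := sdiff_subset

lemma NN_card (hJ : J.card = d + 3) {T : Finset {x // x ∈ J}} (hT : T.card = 3) :
    (NN J T).card = d := by
  unfold NN
  rw [card_sdiff_of_subset]
  · rw [card_map, hT, hJ]; omega
  · intro j hj
    rw [mem_map] at hj
    obtain ⟨⟨j', hj'⟩, _, e⟩ := hj
    have e' : j' = j := e
    subst e'
    exact hj'

lemma NN_inter_card (hJ : J.card = d + 3) (hd : 1 ≤ d) {T T' : Finset {x // x ∈ J}}
    (hT : T.card = 3) (hT' : T'.card = 3) (h : Nb T T') : (NN J T ∩ NN J T').card + 1 = d := by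
  have h1 : NN J T ∩ NN J T' =
      J \ (T ∪ T').map (Function.Embedding.subtype (fun x => x ∈ J)) := by
    ext j
    rw [mem_inter, mem_NN, mem_NN, mem_sdiff, mem_map]
    constructor
    · rintro ⟨⟨h1, h2⟩, ⟨_, h3⟩⟩
      refine ⟨h1, ?_⟩
      rintro ⟨⟨j', hj'⟩, h4, e⟩
      have e' : j' = j := e
      subst e'
      rcases mem_union.1 h4 with h4 | h4
      · exact h2 h4
      · exact h3 h4
    · rintro ⟨h1, h2⟩
      exact ⟨⟨h1, fun h => h2 ⟨⟨j, h1⟩, mem_union_left _ h, rfl⟩⟩,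
        ⟨h1, fun h => h2 ⟨⟨j, h1⟩, mem_union_right _ h, rfl⟩⟩⟩
  rw [h1, card_sdiff_of_subset]
  · have h2 := card_union_add_card_inter T T'
    have h3 : (T ∩ T').card = 2 := h
    rw [card_map, hJ]
    omega
  · intro j hj
    rw [mem_map] at hj
    obtain ⟨⟨j', hj'⟩, _, e⟩ := hj
    have e' : j' = j := e
    subst e'
    exact hj'

/-- the planar description of the family of minimal relations on `J` -/
lemma TData.planar (H : TData f b d K J S) :
    ∃ (g : {x // x ∈ J} → ℝ) (c : {x // x ∈ J} → Bool), ∀ T : Finset {x // x ∈ J},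
      T ∈ Gfam g c ↔ T.card = 3 ∧ ∃ x : ι → ℝ, InW f b x ∧ (∀ j ∈ J, 0 ≤ x j) ∧
        J.filter (fun j => x j = 0) = NN J T := by
  let F : {x // x ∈ J} → (E × ℝ) →ₗ[ℝ] ℝ := fun j =>
    (f j.1).comp (LinearMap.fst ℝ E ℝ) +
      (LinearMap.toSpanSingleton ℝ ℝ (b j.1)).comp (LinearMap.snd ℝ E ℝ)
  have hF : ∀ j w t, F j (w, t) = f j.1 w + t * b j.1 := by
    intro j w t
    simp [F]
  have hinj : ∀ (w : E) (t : ℝ), (w, t) ≠ (0 : E × ℝ) → ∃ j, f j w + t * b j ≠ 0 := by
    intro w t hne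
    by_contra hcon
    push Not at hcon
    apply hne
    by_cases ht : t = 0
    · subst ht
      have : w = 0 := H.D.inj fun j => by have := hcon j; simpa using this
      rw [this]; rfl
    · exfalso
      refine H.D.notRange (-(t⁻¹ • w)) fun j => ?_
      have := hcon j
      rw [map_neg, map_smul, smul_eq_mul]
      field_simp
      linarith
  have hfilt : ∀ (w : E) (t : ℝ),
      (univ.filter (fun j => F j (w, t) ≠ 0)).map
        (Function.Embedding.subtype (fun x => x ∈ J)) =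
      J.filter (fun j => f j w + t * b j ≠ 0) := by
    intro w t
    ext j
    rw [mem_map, mem_filter]
    constructor
    · rintro ⟨⟨j', hj'⟩, h, e⟩
      have e' : j' = j := e
      subst e'
      rw [mem_filter, hF] at h
      exact ⟨hj', h.2⟩
    · rintro ⟨h1, h2⟩
      exact ⟨⟨j, h1⟩, by rw [mem_filter, hF]; exact ⟨mem_univ _, h2⟩, rfl⟩
  have hcardκ : Fintype.card {x // x ∈ J} = Module.finrank ℝ (E × ℝ) + 2 := by
    rw [Fintype.card_coe, H.hJ, Module.finrank_prod, Module.finrank_self, H.hE]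
  have hne : ∃ v : E × ℝ, v ≠ 0 ∧ ∀ i, 0 ≤ F i v := by
    obtain ⟨q, hq⟩ := H.D.ne
    refine ⟨(-q, 1), fun h => one_ne_zero (congrArg Prod.snd h), fun j => ?_⟩
    rw [hF, map_neg]
    linarith [hq j.1]
  obtain ⟨g, c, hgc⟩ := cone_gfam F hcardκ hne (by
    rintro ⟨w, t⟩ hwt hnn
    have h1 := H.three (x := fun j => f j w + t * b j) ⟨w, t, fun _ => rfl⟩
      (fun j hj => by have := hnn ⟨j, hj⟩; rw [hF] at this; exact this) (hinj w t hwt)
    rw [← hfilt w t, card_map] at h1
    exact h1)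
  refine ⟨g, c, fun T => ?_⟩
  rw [hgc]
  have hNN : ∀ (w : E) (t : ℝ), univ.filter (fun j => F j (w, t) ≠ 0) = T ↔
      J.filter (fun j => f j w + t * b j = 0) = NN J T := by
    intro w t
    constructor
    · intro h
      ext j
      rw [mem_filter, mem_NN, ← h]
      constructor
      · rintro ⟨h1, h2⟩
        exact ⟨h1, fun h3 => (mem_filter.1 h3).2 (by rw [hF]; exact h2)⟩
      · rintro ⟨h1, h2⟩
        refine ⟨h1, ?_⟩
        by_contra h3
        exact h2 (mem_filter.2 ⟨mem_univ _, by rw [hF]; exact h3⟩)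
    · intro h
      ext ⟨j, hj⟩
      rw [mem_filter, hF]
      have h1 := congrArg (fun X => j ∈ X) h
      simp only [mem_filter, mem_NN, eq_iff_iff] at h1
      constructor
      · rintro ⟨-, h2⟩
        by_contra h3
        exact h2 (h1.2 ⟨hj, h3⟩).2
      · intro h2
        refine ⟨mem_univ _, fun h3 => ?_⟩
        obtain ⟨_, h4⟩ := h1.1 ⟨hj, h3⟩
        exact h4 h2
  constructor
  · rintro ⟨⟨w, t⟩, h1, h2, h3⟩
    refine ⟨h3, fun j => f j w + t * b j, ⟨w, t, fun _ => rfl⟩, fun j hj => ?_,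
      (hNN w t).1 h2⟩
    have := h1 ⟨j, hj⟩
    rw [hF] at this
    exact this
  · rintro ⟨h3, x, ⟨w, t, hx⟩, h1, h2⟩
    refine ⟨(w, t), fun j => ?_, (hNN w t).2 ?_, h3⟩
    · rw [hF, ← hx]; exact h1 j.1 j.2
    · rw [← h2]
      ext j
      rw [mem_filter, mem_filter, hx]

end FewFacets
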