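import Pool.Agent.FewFacets.Good

/-!
Walks which visit no vertex more than `m` times.
-/

namespace FewFacets

open Classical in
/-- the number of times a vertex `v` is visited by the walks in the list `L` -/
noncomputable def visits {V : Type*} {G : SimpleGraph V} (L : List (Σ a b : V, G.Walk a b))
    (v : V) : ℕ :=
  (L.map (fun p => p.2.2.support.count v)).sum

open Classical in
/-- `G` has a walk that visits every vertex at least once and at most `m` times -/
def SpanWalk {V : Type*} (G : SimpleGraph V) (m : ℕ) : Prop :=
  ∃ (a b : V) (p : G.Walk a b), ∀ v, 1 ≤ p.support.count v ∧ p.support.count v ≤ m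

open Classical in
/-- `G` has a closed walk `x_0, x_1, ..., x_k = x_0` such that every vertex is at least once and
at most `m` times among `x_1, ..., x_k` -/
def SpanClosed {V : Type*} (G : SimpleGraph V) (m : ℕ) : Prop :=
  ∃ (a : V) (p : G.Walk a a), ∀ v, 1 ≤ p.support.tail.count v ∧ p.support.tail.count v ≤ m

/-- for every `ε > 0` the graph of every simple polytope of dimension `d` with `N` vertices, `N`
large enough, has at most `ε N` walks which together visit every vertex at least once and at
most `m` times -/
def FewWalks (d m : ℕ) : Prop :=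
  ∀ ε : ℝ, 0 < ε → ∃ N0 : ℕ, ∀ P : Set (EuclideanSpace ℝ (Fin d)), SimplePolytope d P →
    N0 ≤ (P.extremePoints ℝ).ncard →
      ∃ L : List (Σ a b : P.extremePoints ℝ, (polytopeGraph P).Walk a b),
        (L.length : ℝ) ≤ ε * (P.extremePoints ℝ).ncard ∧ ∀ v, 1 ≤ visits L v ∧ visits L v ≤ m

open Classical in
/-- the walks in the list `L` together visit every vertex exactly once: they are pairwise
disjoint paths which cover all vertices -/
def PathCover {V : Type*} {G : SimpleGraph V} (L : List (Σ a b : V, G.Walk a b)) : Prop :=
  ∀ v, (L.map (fun p => p.2.2.support.count v)).sum = 1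

/-- for every `ε > 0` the vertices of every simple polytope of dimension `d` with `N` vertices,
`N` large enough, can be covered by at most `ε N` pairwise disjoint paths of its graph -/
def FewPaths (d : ℕ) : Prop :=
  ∀ ε : ℝ, 0 < ε → ∃ N0 : ℕ, ∀ P : Set (EuclideanSpace ℝ (Fin d)), SimplePolytope d P →
    N0 ≤ (P.extremePoints ℝ).ncard →
      ∃ L : List (Σ a b : P.extremePoints ℝ, (polytopeGraph P).Walk a b),
        PathCover L ∧ (L.length : ℝ) ≤ ε * (P.extremePoints ℝ).ncard

/-- for every `ε > 0` the graph of every simple polytope of dimension `d` with `N` vertices, `N`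
large enough, has a path with at least `(1 - ε) N` vertices -/
def LongPaths (d : ℕ) : Prop :=
  ∀ ε : ℝ, 0 < ε → ∃ N0 : ℕ, ∀ P : Set (EuclideanSpace ℝ (Fin d)), SimplePolytope d P →
    N0 ≤ (P.extremePoints ℝ).ncard →
      ∃ (a b : P.extremePoints ℝ) (p : (polytopeGraph P).Walk a b),
        p.IsPath ∧ (1 - ε) * (P.extremePoints ℝ).ncard ≤ p.support.length

end FewFacets
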