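import Pool.Agent.FewFacets.Lists

/-!
The doubling lemma: if the family `F` has a cyclic enumeration, then the family obtained
by doubling the element `p` (adding a twin `q`) has an enumeration from `v` to its twin.
-/

namespace FewFacets

open Finset

variable {α : Type*} [DecidableEq α]

lemma Cyc.pair {F : Set (Finset α)} {l1 l2 : List (Finset α)} {a b : Finset α}
    (h : Cyc F (l1 ++ a :: b :: l2)) : HP F b a := by
  have h' : Cyc F ((l1 ++ [a]) ++ (b :: l2)) := by simpa using h
  have h2 := h'.rotate
  refine ⟨(b :: l2) ++ (l1 ++ [a]), h2.nodup, h2.mem, h2.chain, by simp, ?_⟩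
  rw [← List.append_assoc, List.getLast?_append_of_ne_nil _ (by simp)]
  simp

theorem wedge {F F' : Set (Finset α)} {p q : α} (h3 : ∀ T ∈ F, T.card = 3)
    (hq : ∀ T ∈ F, q ∉ T) (hF' : ∀ T, T ∈ F' ↔ T ∈ F ∨ ∃ v ∈ F, p ∈ v ∧ T = sw p q v)
    {l : List (Finset α)} (hl : Cyc F l) {v : Finset α} (hv : v ∈ F) (hp : p ∈ v) :
    HP F' v (sw p q v) := by
  by_cases hall : ∀ T ∈ F, p ∈ T
  · obtain ⟨l1, l2, rfl⟩ := List.append_of_mem ((hl.mem v).2 hv)
    have h2 := hl.rotate
    set m : List (Finset α) := v :: l2 ++ l1 with hm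
    have hmem : ∀ T, T ∈ (m.map (sw p q)) ↔ ∃ w ∈ F, T = sw p q w := by
      intro T
      rw [List.mem_map]
      constructor
      · rintro ⟨w, h1, h4⟩; exact ⟨w, (h2.mem w).1 h1, h4.symm⟩
      · rintro ⟨w, h1, h4⟩; exact ⟨w, (h2.mem w).2 h1, h4.symm⟩
    refine ⟨m ++ (m.map (sw p q)).reverse, ?_, ?_, ?_, ?_, ?_⟩
    · refine List.nodup_append.2 ⟨h2.nodup, ?_, ?_⟩
      · rw [List.nodup_reverse]
        refine (List.nodup_map_iff_inj_on h2.nodup).2 ?_
        intro x hx y hy hxy
        exact sw_inj (hall x ((h2.mem x).1 hx)) (hall y ((h2.mem y).1 hy))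
          (hq x ((h2.mem x).1 hx)) (hq y ((h2.mem y).1 hy)) hxy
      · intro a ha b hb hab
        rw [List.mem_reverse] at hb
        obtain ⟨w, _, hw2⟩ := (hmem b).1 hb
        exact hq a ((h2.mem a).1 ha) (hab ▸ hw2 ▸ q_mem_sw w)
    · intro T
      rw [List.mem_append, List.mem_reverse, hmem, h2.mem, hF']
      constructor
      · rintro (h | ⟨w, h1, h4⟩)
        · exact Or.inl h
        · exact Or.inr ⟨w, h1, hall w h1, h4⟩
      · rintro (h | ⟨w, h1, _, h4⟩)
        · exact Or.inl h
        · exact Or.inr ⟨w, h1, h4⟩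
    · refine List.isChain_append.2 ⟨h2.chain, ?_, ?_⟩
      · rw [List.isChain_reverse, List.isChain_map]
        refine List.IsChain.imp_of_mem_imp ?_ h2.chain
        intro a b ha hb hab
        exact (nb_sw_sw (hall a ((h2.mem a).1 ha)) (hall b ((h2.mem b).1 hb))
          (hq a ((h2.mem a).1 ha)) (hq b ((h2.mem b).1 hb)) hab).symm
      · intro x hx y hy
        rw [List.head?_reverse, List.getLast?_map] at hy
        simp only [Option.mem_def] at hx hy
        rw [hx] at hy
        simp only [Option.map_some, Option.some.injEq] at hy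
        have hxm : x ∈ F := (h2.mem x).1 (List.mem_of_mem_getLast? hx)
        rw [← hy]
        exact nb_sw_self (hall x hxm) (hq x hxm) (h3 x hxm)
    · simp [hm]
    · rw [List.getLast?_append_of_ne_nil _ (by simp [hm]), List.getLast?_reverse,
        List.head?_map]
      simp [hm]
  · push Not at hall
    obtain ⟨f, hf, hpf⟩ := hall
    obtain ⟨l1, l2, rfl⟩ := List.append_of_mem ((hl.mem f).2 hf)
    have h2 := hl.rotate
    set m : List (Finset α) := f :: l2 ++ l1 with hm
    have hm' : m = f :: (l2 ++ l1) := by simp [hm]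
    have hqm : ∀ w ∈ m, q ∉ w := fun w hw => hq w ((h2.mem w).1 hw)
    have hz : Cyc F' (zig p q true m) := by
      refine ⟨zig_nodup m hqm h2.nodup true, ?_, zig_chain m hqm
        (fun w hw => h3 w ((h2.mem w).1 hw)) h2.chain true, ?_⟩
      · intro T
        rw [zig_mem, hF', h2.mem]
        constructor
        · rintro (h | ⟨w, h1, h4⟩)
          · exact Or.inl h
          · exact Or.inr ⟨w, (h2.mem w).1 h1, h4⟩
        · rintro (h | ⟨w, h1, h4⟩)
          · exact Or.inl h
          · exact Or.inr ⟨w, (h2.mem w).2 h1, h4⟩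
      · intro x hx y hy
        rw [hm', zig_head] at hy
        simp only [Bool.true_eq_false, and_false, if_false, Option.mem_def,
          Option.some.injEq] at hy
        subst hy
        obtain ⟨u, hu, hux⟩ := zig_last m true x hx
        have hcl := h2.close u hu f (by simp [hm])
        rcases hux with rfl | ⟨hpu, rfl⟩
        · exact hcl
        · rcases hcl with rfl | hcl
          · exact absurd hpu hpf
          · exact Or.inr (nb_sw_left hpu hpf (hqm u (List.mem_of_mem_getLast? hu))
              (hq f hf) hcl)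
    obtain ⟨a, b, h | h⟩ := zig_pair (q := q) hp m ((h2.mem v).2 hv) true
    · rw [h] at hz
      exact hz.pair.symm
    · rw [h] at hz
      exact hz.pair

end FewFacets
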